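import Pool.Agent.Lib.MP_a247fa_nt.X.Defs

/-! FWBW (35 min, old scale).
Soundness of the loops `fwd`, `bwd`. Put `A k = ca m s a b (X + s k)`, `B k = cb (X + s k)` (forward), resp. `A k = ca m s a b (X - s k)`, `B k = cb (X - s k)` (backward; `Nat.sub (X - s k) s = X - s (k+1)`).

Generalise over the accumulators: if `fwd m s a b f X pa pb qa qb = true` then for all `1 ≤ j ≤ f`: `qa + j pa + ∑_{k<j} (j-k) A k ≤ qb + j pb + ∑_{k<j} (j-k) B k` and `pa + ∑_{k≤f} A k ≤ pb + ∑_{k≤f} B k` (natural numbers).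
Induction on `f` (the recursor equations are `rfl`; `Bool.cond_eq_ite`/`split` on the test): the test is the case `j = 1`; for `j+1` use the induction hypothesis at `X + s` with `pa' = pa + A 0`, `qa' = qa + pa'`:
`qa' + j pa' + ∑_{k<j} (j-k) A (k+1) = qa + (j+1) pa + ∑_{k<j+1} (j+1-k) A k` (`Finset.sum_range_succ'`). Then put the accumulators to `0` and cast to the reals. Same for `bwd` (without the total). -/

set_option autoImplicit false

namespace Pool.Agent.Lib.MP_a247fa_nt.X

private theorem fwd_zero (m s a b X pa pb qa qb : ℕ) : fwd m s a b 0 X pa pb qa qb =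
    Nat.ble (pa + ca m s a b X) (pb + cb X) := rfl

private theorem fwd_succ (m s a b f X pa pb qa qb : ℕ) : fwd m s a b (f + 1) X pa pb qa qb =
    cond (Nat.ble (qa + (pa + ca m s a b X)) (qb + (pb + cb X)))
      (fwd m s a b f (X + s) (pa + ca m s a b X) (pb + cb X)
        (qa + (pa + ca m s a b X)) (qb + (pb + cb X))) false := rfl

private theorem bwd_succ (m s a b f X pa pb qa qb : ℕ) : bwd m s a b (f + 1) X pa pb qa qb =
    cond (Nat.ble (qa + (pa + ca m s a b X)) (qb + (pb + cb X)))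
      (bwd m s a b f (X - s) (pa + ca m s a b X) (pb + cb X)
        (qa + (pa + ca m s a b X)) (qb + (pb + cb X))) false := rfl

private theorem cond_true {p q : Bool} (h : cond p q false = true) : p = true ∧ q = true := by
  cases p
  · simp at h
  · exact ⟨rfl, h⟩

/-- one step of the ramp sums -/
private theorem ramp_step (u v : ℕ → ℝ) (qa qb pa pb : ℝ) (j : ℕ)
    (h : (qa + (pa + u 0)) + j * (pa + u 0) + ∑ k ∈ Finset.range j, ((j : ℝ) - k) * u (k + 1) ≤
      (qb + (pb + v 0)) + j * (pb + v 0) + ∑ k ∈ Finset.range j, ((j : ℝ) - k) * v (k + 1)) :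
    qa + ((j + 1 : ℕ) : ℝ) * pa + ∑ k ∈ Finset.range (j + 1), (((j + 1 : ℕ) : ℝ) - k) * u k ≤
      qb + ((j + 1 : ℕ) : ℝ) * pb + ∑ k ∈ Finset.range (j + 1), (((j + 1 : ℕ) : ℝ) - k) * v k := by
  rw [Finset.sum_range_succ', Finset.sum_range_succ']
  have e : ∀ w : ℕ → ℝ, ∑ k ∈ Finset.range j, (((j + 1 : ℕ) : ℝ) - ((k + 1 : ℕ) : ℝ)) * w (k + 1) =
      ∑ k ∈ Finset.range j, ((j : ℝ) - k) * w (k + 1) := by
    intro w
    refine Finset.sum_congr rfl fun k _ => ?_
    push_cast
    ring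
  rw [e u, e v]
  push_cast
  linarith

private theorem fwd_gen (m s a b : ℕ) : ∀ f X pa pb qa qb : ℕ,
    fwd m s a b f X pa pb qa qb = true →
    ((pa : ℝ) + ∑ k ∈ Finset.range (f + 1), (ca m s a b (X + s * k) : ℝ) ≤
      pb + ∑ k ∈ Finset.range (f + 1), (cb (X + s * k) : ℝ)) ∧
    ∀ j, 1 ≤ j → j ≤ f →
      (qa : ℝ) + j * pa + ∑ k ∈ Finset.range j, ((j : ℝ) - k) * (ca m s a b (X + s * k) : ℝ) ≤
      qb + j * pb + ∑ k ∈ Finset.range j, ((j : ℝ) - k) * (cb (X + s * k) : ℝ) := by
  intro f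
  induction f with
  | zero =>
    intro X pa pb qa qb h
    rw [fwd_zero] at h
    have h1 := Nat.le_of_ble_eq_true h
    refine ⟨?_, fun j h2 h3 => by omega⟩
    rw [Finset.sum_range_succ, Finset.sum_range_zero, Finset.sum_range_succ, Finset.sum_range_zero]
    simp only [mul_zero, add_zero, zero_add]
    exact_mod_cast h1
  | succ f ih =>
    intro X pa pb qa qb h
    rw [fwd_succ] at h
    obtain ⟨h1, h2⟩ := cond_true h
    have h3 := Nat.le_of_ble_eq_true h1
    obtain ⟨h4, h5⟩ := ih _ _ _ _ _ h2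
    have ex : ∀ k, X + s + s * k = X + s * (k + 1) := fun k => by ring
    simp only [ex] at h4 h5
    constructor
    · rw [Finset.sum_range_succ', Finset.sum_range_succ' (fun k => (cb (X + s * k) : ℝ))]
      simp only [mul_zero, add_zero]
      push_cast at h4
      linarith
    · intro j hj1 hj2
      obtain ⟨j, rfl⟩ : ∃ i, j = i + 1 := ⟨j - 1, by omega⟩
      refine ramp_step (fun k => (ca m s a b (X + s * k) : ℝ)) (fun k => (cb (X + s * k) : ℝ))
        qa qb pa pb j ?_
      simp only [mul_zero, add_zero]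
      rcases Nat.eq_zero_or_pos j with h0 | h0
      · subst h0
        have h6 : ((qa + (pa + ca m s a b X) : ℕ) : ℝ) ≤ ((qb + (pb + cb X) : ℕ) : ℝ) := by
          exact_mod_cast h3
        push_cast at h6
        simp only [Finset.sum_range_zero, Nat.cast_zero, zero_mul, add_zero]
        exact h6
      · have h6 := h5 j h0 (by omega)
        push_cast at h6
        exact h6

private theorem bwd_gen (m s a b : ℕ) : ∀ f X pa pb qa qb : ℕ,
    bwd m s a b f X pa pb qa qb = true →
    ∀ j, 1 ≤ j → j ≤ f →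
      (qa : ℝ) + j * pa + ∑ k ∈ Finset.range j, ((j : ℝ) - k) * (ca m s a b (X - s * k) : ℝ) ≤
      qb + j * pb + ∑ k ∈ Finset.range j, ((j : ℝ) - k) * (cb (X - s * k) : ℝ) := by
  intro f
  induction f with
  | zero =>
    intro X pa pb qa qb h j h2 h3
    omega
  | succ f ih =>
    intro X pa pb qa qb h
    rw [bwd_succ] at h
    obtain ⟨h1, h2⟩ := cond_true h
    have h3 := Nat.le_of_ble_eq_true h1
    have h5 := ih _ _ _ _ _ h2
    have ex : ∀ k, X - s - s * k = X - s * (k + 1) := fun k => by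
      rw [Nat.sub_sub, mul_add, mul_one, add_comm]
    simp only [ex] at h5
    intro j hj1 hj2
    obtain ⟨j, rfl⟩ : ∃ i, j = i + 1 := ⟨j - 1, by omega⟩
    refine ramp_step (fun k => (ca m s a b (X - s * k) : ℝ)) (fun k => (cb (X - s * k) : ℝ))
      qa qb pa pb j ?_
    simp only [mul_zero, Nat.sub_zero]
    rcases Nat.eq_zero_or_pos j with h0 | h0
    · subst h0
      have h6 : ((qa + (pa + ca m s a b X) : ℕ) : ℝ) ≤ ((qb + (pb + cb X) : ℕ) : ℝ) := by
        exact_mod_cast h3
      push_cast at h6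
      simp only [Finset.sum_range_zero, Nat.cast_zero, zero_mul, add_zero]
      exact h6
    · have h6 := h5 j h0 (by omega)
      push_cast at h6
      exact h6

theorem fwd_sound {m s a b f X : ℕ} (h : fwd m s a b f X 0 0 0 0 = true) :
    ∑ k ∈ Finset.range (f + 1), ((ca m s a b (X + s * k) : ℝ) - cb (X + s * k)) ≤ 0 ∧
    ∀ j, 1 ≤ j → j ≤ f →
      ∑ k ∈ Finset.range j, ((j : ℝ) - k) * ((ca m s a b (X + s * k) : ℝ) - cb (X + s * k)) ≤ 0 := by
  obtain ⟨h1, h2⟩ := fwd_gen m s a b f X 0 0 0 0 h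
  constructor
  · rw [Finset.sum_sub_distrib]
    simp only [Nat.cast_zero, zero_add] at h1
    linarith
  · intro j hj1 hj2
    have h3 := h2 j hj1 hj2
    simp only [Nat.cast_zero, zero_add, mul_zero] at h3
    simp only [mul_sub]
    rw [Finset.sum_sub_distrib]
    linarith

theorem bwd_sound {m s a b f X : ℕ} (h : bwd m s a b f X 0 0 0 0 = true) :
    ∀ j, 1 ≤ j → j ≤ f →
      ∑ k ∈ Finset.range j, ((j : ℝ) - k) * ((ca m s a b (X - s * k) : ℝ) - cb (X - s * k)) ≤ 0 := by
  intro j hj1 hj2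
  have h3 := bwd_gen m s a b f X 0 0 0 0 h j hj1 hj2
  simp only [Nat.cast_zero, zero_add, mul_zero] at h3
  simp only [mul_sub]
  rw [Finset.sum_sub_distrib]
  linarith

end Pool.Agent.Lib.MP_a247fa_nt.X
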