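import Pool.Agent.Lib.MP_a247fa_nt.X.CfB
import Pool.Agent.Lib.MP_a247fa_nt.X.FwBw

/-! CELV (50 min, old scale).
The integrand on a cell. `m` odd, `3 ≤ m < 2048`, `s = sp m` divides `512` (`sp m ∈ {1, 2, 4, 16}`), `X = 512 (m-1) + s k`, `k < 1024 / s`, `x ∈ (X/512, (X+s)/512)`. Claim:
`2^33 (qf x - ph x + Sm m x) ≤ ca m s (S2l m) (S2r m) X - cb X`.

`2^33 ph x ≥ 2 pl X` (`pl_le_ph`). `2^33 Sm m x = S2l m` if `x < m` and `S2r m` otherwise; `X < 512 m` iff `x < m` (both `X` and `512 m` are multiples of `s`, so `X < 512 m` gives `X + s ≤ 512 m`).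
Left unit (`⌊x⌋₊ = m-1` even, `≥ 2`): `cf x ≤ cf ((X+s)/512)` (`cf_even_le`), so `2^32 qf x ≤ pu (Fu (X+s))` (`cf_le_Fu`, `ph_mono`/`ph_le_pu`).
Right unit (`⌊x⌋₊ = m`): `2^32 qf x ≤ uR m s X`: if `x` is not free then `qf x = 0`. First test true: `T m ≤ cf ((X+s)/512)` (`Fl_le_cf`, `Tn_eq`, `Nat.shiftLeft`), `(X+s)/512 ≤ m + 1/2`: `trp_cell`, so `qf x = 0`.
Second test true: `cf (X/512) < (m+1)/2` and `X ≥ 512 m + 256`: `fld_cell`, so `qf x = 0`. Otherwise for free `x`: `cf x ≤ cf (X/512)` (`cf_odd_le`) and `cf x < T m` (`cf_free_lt`): `pu` of `Fu X` or of `2^43 T m`.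
(`X/512 ≥ m` here.) Everything cast to `ℝ`. -/

set_option autoImplicit false

namespace Pool.Agent.Lib.MP_a247fa_nt.X

open Set MeasureTheory
open Pool.Agent.Lib.MP_a247fa_nt.W Pool.Agent.Lib.MP_a247fa_nt.V

theorem sp_dvd (m : ℕ) : sp m ∣ 512 ∧ 0 < sp m := by
  unfold sp
  rcases Nat.blt m 64 with _ | _
  · rcases Nat.blt m 256 with _ | _
    · rcases Nat.blt m 1024 with _ | _
      · simp only [cond_false]
        exact ⟨⟨32, rfl⟩, by norm_num⟩
      · simp only [cond_false, cond_true]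
        exact ⟨⟨128, rfl⟩, by norm_num⟩
    · simp only [cond_false, cond_true]
      exact ⟨⟨256, rfl⟩, by norm_num⟩
  · simp only [cond_true]
    exact ⟨⟨512, rfl⟩, by norm_num⟩

theorem bm_sm (m : ℕ) : BM (Sm m) := by
  constructor
  · unfold Sm
    exact Measurable.ite measurableSet_Iio measurable_const measurable_const
  · refine ⟨max |(S2l m : ℝ) / 2 / 4294967296| |(S2r m : ℝ) / 2 / 4294967296|, fun x => ?_⟩
    unfold Sm
    split_ifs
    · exact le_max_left _ _
    · exact le_max_right _ _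

private theorem celv_blt {a b : ℕ} (h : Nat.blt a b = false) : b ≤ a := by
  by_contra hc
  have : Nat.blt a b = true := by
    rw [Nat.blt_eq]
    omega
  rw [this] at h
  exact absurd h (by decide)

private theorem celv_blt' {a b : ℕ} (h : Nat.blt a b = true) : a < b := by
  rwa [Nat.blt_eq] at h

private theorem celv_uR {m s X : ℕ} (ho : m % 2 = 1) (h3 : 3 ≤ m) (hXm : 512 * m ≤ X) (hXs : X + s ≤ 512 * (m + 1))
    {x : ℝ} (h1 : (X : ℝ) / 512 < x) (h2 : x < ((X : ℝ) + s) / 512) :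
    4294967296 * qf x ≤ (uR m s X : ℝ) := by
  have hXm' : (512 : ℝ) * m ≤ X := by exact_mod_cast hXm
  have hXs' : (X : ℝ) + s ≤ 512 * (m + 1) := by exact_mod_cast hXs
  have hxm : (m : ℝ) < x := by
    have : (m : ℝ) ≤ X / 512 := by
      rw [le_div_iff₀ (by norm_num)]
      linarith
    linarith
  have hxm1 : x < (m : ℝ) + 1 := by
    have : ((X : ℝ) + s) / 512 ≤ m + 1 := by
      rw [div_le_iff₀ (by norm_num)]
      linarith
    linarith
  have hcast : (((X + s : ℕ) : ℝ)) / 512 = ((X : ℝ) + s) / 512 := by push_cast; ring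
  have hsh : ∀ n : ℕ, ((Nat.shiftLeft n 43 : ℕ) : ℝ) = n * 8796093022208 := by
    intro n
    have e : Nat.shiftLeft n 43 = n * 2 ^ 43 := Nat.shiftLeft_eq n 43
    rw [e]
    push_cast
    norm_num
  have hsr : Nat.shiftRight (Nat.add m 1) 1 = (m + 1) / 2 := Nat.shiftRight_one (m + 1)
  have hzero : ¬ Fre x → 4294967296 * qf x ≤ (uR m s X : ℝ) := by
    intro h
    unfold qf
    rw [if_neg (fun h' => h h'.1), mul_zero]
    exact Nat.cast_nonneg _
  by_cases hfre : Fre x
  swap
  · exact hzero hfre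
  have hq : qf x ≤ ph (cf x) := by
    unfold qf
    split_ifs
    · exact le_rfl
    · exact ph_nonneg _
  have hm1 : 4294967296 * qf x ≤ ph (cf x) * 4294967296 := by linarith
  refine hm1.trans ?_
  unfold uR
  rcases ht1 : (cond (Nat.ble (Nat.add X s) (Nat.add (Nat.mul 512 m) 256))
      (Nat.ble (Nat.shiftLeft (Tn m) 43) (Fl (Nat.add X s))) false) with _ | _
  swap
  · exfalso
    rcases hb : Nat.ble (Nat.add X s) (Nat.add (Nat.mul 512 m) 256) with _ | _
    · rw [hb, cond_false] at ht1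
      exact absurd ht1 (by decide)
    · rw [hb, cond_true] at ht1
      have a1 : X + s ≤ 512 * m + 256 := Nat.le_of_ble_eq_true hb
      have a2 : Nat.shiftLeft (Tn m) 43 ≤ Fl (X + s) := Nat.le_of_ble_eq_true ht1
      have a3 : (Nat.shiftLeft (Tn m) 43 : ℝ) ≤ Fl (X + s) := by exact_mod_cast a2
      rw [hsh, Tn_eq] at a3
      have a4 := Fl_le_cf (X + s)
      rw [hcast] at a4
      have a5 : ((T m : ℕ) : ℝ) ≤ cf (((X : ℝ) + s) / 512) := by
        have : ((T m : ℕ) : ℝ) * 8796093022208 ≤ cf (((X : ℝ) + s) / 512) * 8796093022208 := a3.trans a4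
        linarith
      have a1' : (X : ℝ) + s ≤ 512 * m + 256 := by exact_mod_cast a1
      have a6 : ((X : ℝ) + s) / 512 ≤ m + 1 / 2 := by
        rw [div_le_iff₀ (by norm_num)]
        linarith
      exact hfre.1 (trp_cell ho hxm h2.le a6 a5)
  rw [cond_false]
  rcases ht2 : (cond (Nat.ble (Nat.add (Nat.mul 512 m) 256) X)
        (Nat.blt (Fu X) (Nat.shiftLeft (Nat.shiftRight (Nat.add m 1) 1) 43)) false) with _ | _
  swap
  · exfalso
    rcases hb : Nat.ble (Nat.add (Nat.mul 512 m) 256) X with _ | _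
    · rw [hb, cond_false] at ht2
      exact absurd ht2 (by decide)
    · rw [hb, cond_true, hsr] at ht2
      have a1 : 512 * m + 256 ≤ X := Nat.le_of_ble_eq_true hb
      have a2 : Fu X < Nat.shiftLeft ((m + 1) / 2) 43 := celv_blt' ht2
      have a3 : (Fu X : ℝ) < (Nat.shiftLeft ((m + 1) / 2) 43 : ℕ) := by exact_mod_cast a2
      rw [hsh] at a3
      have a4 := cf_le_Fu X
      have a5 : cf ((X : ℝ) / 512) < (((m + 1) / 2 : ℕ) : ℝ) := by
        have : cf ((X : ℝ) / 512) * 8796093022208 < (((m + 1) / 2 : ℕ) : ℝ) * 8796093022208 := lt_of_le_of_lt a4 a3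
        linarith
      have a1' : (512 : ℝ) * m + 256 ≤ X := by exact_mod_cast a1
      have a6 : (m : ℝ) < (X : ℝ) / 512 := by
        rw [lt_div_iff₀ (by norm_num)]
        linarith
      exact hfre.2 (fld_cell ho a6 h1.le hxm1 a5)
  rw [cond_false]
  have hle : (m : ℝ) ≤ (X : ℝ) / 512 := by
    rw [le_div_iff₀ (by norm_num)]
    linarith
  rcases ht3 : Nat.ble (Fu X) (Nat.shiftLeft (Tn m) 43) with _ | _
  · rw [cond_false]
    have a1 := cf_free_lt ho ⟨hxm, hxm1⟩ hfre
    refine ph_le_pu ?_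
    rw [hsh, Tn_eq]
    linarith
  · rw [cond_true]
    have a1 := cf_odd_le ho ⟨hxm, hxm1⟩ hfre hle h1.le
    have a2 : ph (cf x) ≤ ph (cf ((X : ℝ) / 512)) := ph_mono a1
    have a3 := ph_le_pu (cf_le_Fu X)
    linarith

theorem cell_val {m k X : ℕ} (ho : m % 2 = 1) (h3 : 3 ≤ m) (hm : m < 2048) (hk : sp m * (k + 1) ≤ 1024)
    (hX : X = 512 * (m - 1) + sp m * k) {x : ℝ} (h1 : (X : ℝ) / 512 < x) (h2 : x < ((X : ℝ) + sp m) / 512) :
    8589934592 * (qf x - ph x + Sm m x) ≤ (ca m (sp m) (S2l m) (S2r m) X : ℝ) - cb X := by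
  have _ := hm
  obtain ⟨⟨q, hq⟩, hsp⟩ := sp_dvd m
  set s := sp m with hs
  have hcb : ((cb X : ℕ) : ℝ) ≤ 8589934592 * ph x := by
    have e : cb X = 2 * pl X := rfl
    rw [e]
    push_cast
    have := pl_le_ph h1.le
    linarith
  have hXs : X + s ≤ 512 * (m + 1) := by
    have : s * (k + 1) = s * k + s := by ring
    omega
  rcases hb : Nat.blt X (Nat.mul 512 m) with _ | _
  · -- right unit
    have hXm : 512 * m ≤ X := celv_blt hb
    have e : ca m s (S2l m) (S2r m) X = 2 * uR m s X + S2r m := by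
      unfold ca
      rw [hb]
      rfl
    have hu := celv_uR ho h3 hXm hXs h1 h2
    have hXm' : (512 : ℝ) * m ≤ X := by exact_mod_cast hXm
    have hxm : ¬ (x < (m : ℝ)) := by
      have : (m : ℝ) ≤ X / 512 := by
        rw [le_div_iff₀ (by norm_num)]
        linarith
      intro h
      linarith
    have hS : 8589934592 * Sm m x = S2r m := by
      unfold Sm
      rw [if_neg hxm]
      ring
    rw [e]
    push_cast
    linarith
  · -- left unit
    have hXm : X < 512 * m := celv_blt' hb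
    have hXsm : X + s ≤ 512 * m := by
      have e1 : 512 * m = 512 * (m - 1) + s * q := by
        rw [← hq]
        omega
      have e2 : s * k < s * q := by omega
      have e3 : k < q := Nat.lt_of_mul_lt_mul_left e2
      have e4 : s * (k + 1) ≤ s * q := Nat.mul_le_mul_left s e3
      have e5 : s * (k + 1) = s * k + s := by ring
      omega
    have e : ca m s (S2l m) (S2r m) X = 2 * pu (Fu (X + s)) + S2l m := by
      unfold ca
      rw [hb]
      rfl
    have hXsm' : (X : ℝ) + s ≤ 512 * m := by exact_mod_cast hXsm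
    have hxm : x < (m : ℝ) := by
      have : ((X : ℝ) + s) / 512 ≤ m := by
        rw [div_le_iff₀ (by norm_num)]
        linarith
      linarith
    have hS : 8589934592 * Sm m x = S2l m := by
      unfold Sm
      rw [if_pos hxm]
      ring
    have hm1 : ((m - 1 : ℕ) : ℝ) = (m : ℝ) - 1 := by
      rw [Nat.cast_sub (by omega)]
      simp
    have hX1 : (512 : ℝ) * ((m - 1 : ℕ) : ℝ) ≤ X := by
      have : 512 * (m - 1) ≤ X := by omega
      exact_mod_cast this
    have hxl : ((m - 1 : ℕ) : ℝ) ≤ x := by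
      have : ((m - 1 : ℕ) : ℝ) ≤ X / 512 := by
        rw [le_div_iff₀ (by norm_num)]
        linarith
      linarith
    have hcast : (((X + s : ℕ) : ℝ)) / 512 = ((X : ℝ) + s) / 512 := by push_cast; ring
    have hy : ((X : ℝ) + s) / 512 ≤ ((m - 1 : ℕ) : ℝ) + 1 := by
      rw [div_le_iff₀ (by norm_num), hm1]
      linarith
    have hc : cf x ≤ cf (((X : ℝ) + s) / 512) :=
      cf_even_le (by omega) (by omega) hxl h2.le hy
    have hq' : qf x ≤ ph (cf (((X : ℝ) + s) / 512)) := by
      unfold qf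
      split_ifs
      · exact ph_mono hc
      · exact ph_nonneg _
    have hpu : ph (cf (((X : ℝ) + s) / 512)) * 4294967296 ≤ pu (Fu (X + s)) := by
      refine ph_le_pu ?_
      have := cf_le_Fu (X + s)
      rwa [hcast] at this
    rw [e]
    push_cast
    linarith

end Pool.Agent.Lib.MP_a247fa_nt.X
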