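import Pool.Agent.Lib.MP_a247fa_nt.X.Ramp
import Pool.Agent.Lib.MP_a247fa_nt.V.CrBasic
import Pool.Agent.Lib.MP_a247fa_nt.V.MuBasic

/-! CELLM (35 min, old scale).
Cells of equal length of a CR measure.

`cell_convex`: CR at the points `x, x+s, x+2s, x+3s` gives with `A = mu x (x+s)`, `B = mu (x+s) (x+2s)`, `C = mu (x+2s) (x+3s)` (`mu_add`): `B (A+B+C) s^2 ≤ 3 A C s^2`, so with `t = (A+C)/2`: `B^2 + 2 t B ≤ 3 t^2`,
`(B - t)(B + 3 t) ≤ 0`, so `B ≤ t` (if `t = 0` then `B^2 ≤ 0`).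
`itg_cells_le`: induction on `N` with `itg_split` and `itg_mono`, `itg_const`.
`cells_le`: `itg_cells_le`, then `ramp` with `v k = mu ν (x + k s) (x + (k+1) s)`; `∑ q k v k`. -/

set_option autoImplicit false

namespace Pool.Agent.Lib.MP_a247fa_nt.X

open Set MeasureTheory
open Pool.Agent.Lib.MP_a247fa_nt.W Pool.Agent.Lib.MP_a247fa_nt.V

theorem cell_convex {ν : Measure ℝ} {a b x s : ℝ} (h : CR ν a b) (ha : a ≤ x) (hs : 0 < s) (hb : x + 3 * s ≤ b) :
    2 * mu ν (x + s) (x + 2 * s) ≤ mu ν x (x + s) + mu ν (x + 2 * s) (x + 3 * s) := by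
  have := h.fin
  have := h.noat
  have h1 := h.cr x (x + s) (x + 2 * s) (x + 3 * s) ha (by linarith) (by linarith) (by linarith) hb
  have h2 : mu ν x (x + 3 * s) = mu ν x (x + s) + mu ν (x + s) (x + 2 * s) +
      mu ν (x + 2 * s) (x + 3 * s) := by
    rw [mu_add (show x ≤ x + s by linarith) (show x + s ≤ x + 3 * s by linarith),
      mu_add (show x + s ≤ x + 2 * s by linarith) (show x + 2 * s ≤ x + 3 * s by linarith)]
    ring
  rw [h2] at h1
  have hA := mu_nonneg ν x (x + s)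
  have hB := mu_nonneg ν (x + s) (x + 2 * s)
  have hC := mu_nonneg ν (x + 2 * s) (x + 3 * s)
  generalize mu ν x (x + s) = A at *
  generalize mu ν (x + s) (x + 2 * s) = B at *
  generalize mu ν (x + 2 * s) (x + 3 * s) = C at *
  have h3 : B * (A + B + C) ≤ 3 * (A * C) := by
    have h4 : (B * (A + B + C)) * (s * s) ≤ (3 * (A * C)) * (s * s) := by
      have e1 : (x + s - x) * (x + 3 * s - (x + 2 * s)) = s * s := by ring
      have e2 : (x + 2 * s - (x + s)) * (x + 3 * s - x) = 3 * (s * s) := by ring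
      rw [e1, e2] at h1
      linarith
    exact le_of_mul_le_mul_right h4 (by positivity)
  by_contra h5
  push Not at h5
  -- B > (A + C)/2
  nlinarith [sq_nonneg (A - C), mul_nonneg hA hC, mul_nonneg hA hB, mul_nonneg hB hC]

theorem itg_cells_le {ν : Measure ℝ} [IsFiniteMeasure ν] [NullSingletonClass ν] {F : ℝ → ℝ} (hF : BM F) {x s : ℝ} (hs : 0 < s)
    {q : ℕ → ℝ} {N : ℕ} (h : ∀ k < N, ∀ t ∈ Ioo (x + s * k) (x + s * (k + 1)), F t ≤ q k) :
    itg ν F x (x + s * N) ≤ ∑ k ∈ Finset.range N, mu ν (x + s * k) (x + s * (k + 1)) * q k := by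
  induction N with
  | zero => simp [itg]
  | succ N ih =>
    rw [Finset.sum_range_succ]
    have hN : (0 : ℝ) ≤ s * N := by positivity
    have e : x + s * ((N + 1 : ℕ) : ℝ) = x + s * (N + 1) := by push_cast; ring
    rw [e, itg_split hF (show x ≤ x + s * N by linarith)
      (show x + s * N ≤ x + s * (N + 1) by nlinarith)]
    refine add_le_add (ih fun k hk => h k (Nat.lt_succ_of_lt hk)) ?_
    rw [mul_comm (mu ν (x + s * N) (x + s * (N + 1))), ← itg_const]
    exact itg_mono hF (bm_const _) (h N (Nat.lt_succ_self N))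

theorem cells_le {ν : Measure ℝ} {a b x s : ℝ} (hν : CR ν a b) (ha : a ≤ x) (hs : 0 < s) {N : ℕ} (hb : x + s * N ≤ b)
    {F : ℝ → ℝ} (hF : BM F) {q : ℕ → ℝ} (h : ∀ k < N, ∀ t ∈ Ioo (x + s * k) (x + s * (k + 1)), F t ≤ q k)
    (ht : ∑ k ∈ Finset.range N, q k ≤ 0)
    (hf : ∀ j, 1 ≤ j → j < N → ∑ k ∈ Finset.range j, ((j : ℝ) - k) * q k ≤ 0)
    (hbk : ∀ j, 1 ≤ j → j < N → ∑ k ∈ Finset.Ico j N, ((k : ℝ) - j + 1) * q k ≤ 0) :
    itg ν F x (x + s * N) ≤ 0 := by
  have := hν.fin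
  have := hν.noat
  refine (itg_cells_le hF hs h).trans ?_
  refine ramp (v := fun k => mu ν (x + s * k) (x + s * (k + 1))) (fun k _ => mu_nonneg _ _ _) ?_
    ht hf hbk
  intro k hk
  have hk' : (k : ℝ) + 3 ≤ N := by exact_mod_cast hk
  have h1 := cell_convex hν (x := x + s * k) (s := s)
    (by have : 0 ≤ s * k := by positivity
        linarith) hs
    (by have : s * (k + 3) ≤ s * N := mul_le_mul_of_nonneg_left hk' hs.le
        linarith)
  have e1 : x + s * k + s = x + s * (k + 1) := by ring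
  have e2 : x + s * k + 2 * s = x + s * (k + 1 + 1) := by ring
  have e3 : x + s * k + 3 * s = x + s * (k + 2 + 1) := by ring
  have e4 : x + s * k + 2 * s = x + s * (k + 2) := by ring
  change 2 * mu ν (x + s * ((k + 1 : ℕ) : ℝ)) (x + s * (((k + 1 : ℕ) : ℝ) + 1)) ≤
    mu ν (x + s * k) (x + s * (k + 1)) +
      mu ν (x + s * ((k + 2 : ℕ) : ℝ)) (x + s * (((k + 2 : ℕ) : ℝ) + 1))
  push_cast
  rw [← e1, ← e2, ← e3, ← e4]
  exact h1

end Pool.Agent.Lib.MP_a247fa_nt.X
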