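import Pool.Agent.Lib.MP_a247fa_nt.X.CosT

/-! FUFL (30 min, old scale).
`Fu`, `Fl`. With `x = X/512`: `cf x = (3 x + 1)/2 - (2 x + 1)/4 * (1 + cos (π x))`, times `2^43`: `2^32 (6 X + 1024) - (2 X + 512) * 2^32 (1 + cos (π x))`.

`cX_bd`: `r = X % 1024 = Nat.land X 1023`; `cos (π X/512) = cos (π r/512)` (period `2` in `x`), and for `r > 512` `cos (π r/512) = cos (π (1024 - r)/512)`; `cosT`.
`cf_le_Fu`: `2^32 (1 + cos) ≥ cX - 4096`, and `≥ 0` (truncated subtraction); the outer truncated subtraction is `≥` the real one. `Fl_le_cf`: `2^32 (1+cos) ≤ cX + 4096`; if the truncated difference is `0` use `0 ≤ cf x` for `x ≥ 0`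
(`cf_pos`, and `cf 0 = 0`). -/

set_option autoImplicit false

namespace Pool.Agent.Lib.MP_a247fa_nt.X

open Set MeasureTheory
open Pool.Agent.Lib.MP_a247fa_nt.W Pool.Agent.Lib.MP_a247fa_nt.V

private theorem fufl_land (X : ℕ) : Nat.land X 1023 = X % 1024 := by
  have := Nat.and_two_pow_sub_one_eq_mod X 10
  norm_num at this
  exact this

private theorem fufl_cos (X : ℕ) : Real.cos (Real.pi * (X / 512)) =
    Real.cos (Real.pi * (((X % 1024 : ℕ) : ℝ) / 512)) := by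
  have h1 : X = 1024 * (X / 1024) + X % 1024 := (Nat.div_add_mod X 1024).symm
  have h2 : (X : ℝ) = 1024 * ((X / 1024 : ℕ) : ℝ) + ((X % 1024 : ℕ) : ℝ) := by exact_mod_cast h1
  have h3 : Real.pi * ((X : ℝ) / 512) = Real.pi * (((X % 1024 : ℕ) : ℝ) / 512) +
      ((X / 1024 : ℕ) : ℝ) * (2 * Real.pi) := by
    rw [h2]
    ring
  rw [h3, Real.cos_add_nat_mul_two_pi]

theorem cX_bd (X : ℕ) : |4294967296 * (1 + Real.cos (Real.pi * (X / 512))) - (cX X : ℝ)| ≤ 4096 := by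
  rw [fufl_cos]
  unfold cX
  rw [fufl_land]
  have hr : X % 1024 < 1024 := Nat.mod_lt _ (by norm_num)
  generalize X % 1024 = r at hr
  rcases hb : Nat.blt 512 r with _ | _
  · have h1 : r ≤ 512 := by
      by_contra hc
      have h2 : Nat.blt 512 r = true := by
        rw [Nat.blt_eq]
        omega
      rw [hb] at h2
      exact absurd h2 (by decide)
    rw [Bool.cond_false]
    exact cosT h1
  · rw [Nat.blt_eq] at hb
    rw [Bool.cond_true]
    have h1 : Nat.sub 1024 r ≤ 512 := by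
      show 1024 - r ≤ 512
      omega
    have h2 := cosT h1
    have h3 : ((Nat.sub 1024 r : ℕ) : ℝ) = 1024 - r := by
      show ((1024 - r : ℕ) : ℝ) = 1024 - r
      rw [Nat.cast_sub hr.le]
      norm_num
    have h4 : Real.cos (Real.pi * (((Nat.sub 1024 r : ℕ) : ℝ) / 512)) =
        Real.cos (Real.pi * ((r : ℝ) / 512)) := by
      rw [h3]
      have h5 : Real.pi * ((1024 - (r : ℝ)) / 512) = 2 * Real.pi - Real.pi * ((r : ℝ) / 512) := by ring
      rw [h5, Real.cos_two_pi_sub]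
    rw [h4] at h2
    exact h2

private theorem fufl_cf (X : ℕ) : cf ((X : ℝ) / 512) * 8796093022208 =
    (6 * (X : ℝ) + 1024) * 4294967296 -
      (2 * (X : ℝ) + 512) * (4294967296 * (1 + Real.cos (Real.pi * (X / 512)))) := by
  unfold cf
  ring

private theorem fufl_sub (a b : ℕ) : (a : ℝ) - b ≤ ((Nat.sub a b : ℕ) : ℝ) := by
  show (a : ℝ) - b ≤ ((a - b : ℕ) : ℝ)
  rcases le_total b a with h | h
  · rw [Nat.cast_sub h]
  · have h1 : (a : ℝ) ≤ b := by exact_mod_cast h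
    have h2 : (0 : ℝ) ≤ ((a - b : ℕ) : ℝ) := Nat.cast_nonneg _
    linarith

private theorem fufl_nn (X : ℕ) : (0 : ℝ) ≤ 2 * (X : ℝ) + 512 := by
  have : (0 : ℝ) ≤ X := Nat.cast_nonneg _
  linarith

private theorem fufl_sub2 (a b : ℕ) (y : ℝ) (hy : 0 ≤ y) (h : (a : ℝ) - b ≤ y) :
    ((Nat.sub a b : ℕ) : ℝ) ≤ y := by
  show ((a - b : ℕ) : ℝ) ≤ y
  rcases le_total b a with h1 | h1
  · rw [Nat.cast_sub h1]
    exact h
  · rw [Nat.sub_eq_zero_of_le h1, Nat.cast_zero]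
    exact hy

theorem cf_le_Fu (X : ℕ) : cf ((X : ℝ) / 512) * 8796093022208 ≤ Fu X := by
  have h1 := abs_le.1 (cX_bd X)
  have h0 : 0 ≤ 4294967296 * (1 + Real.cos (Real.pi * ((X : ℝ) / 512))) := by
    have := Real.neg_one_le_cos (Real.pi * ((X : ℝ) / 512))
    linarith
  rw [fufl_cf]
  generalize 4294967296 * (1 + Real.cos (Real.pi * ((X : ℝ) / 512))) = c at h0 h1 ⊢
  have h2 : ((Nat.sub (cX X) 4096 : ℕ) : ℝ) ≤ c := by
    show ((cX X - 4096 : ℕ) : ℝ) ≤ c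
    rcases le_total 4096 (cX X) with h | h
    · rw [Nat.cast_sub h]
      push_cast
      linarith [h1.1]
    · rw [Nat.sub_eq_zero_of_le h, Nat.cast_zero]
      exact h0
  unfold Fu
  refine le_trans ?_ (fufl_sub _ _)
  have h3 : ((Nat.mul (Nat.add (Nat.mul 6 X) 1024) 4294967296 : ℕ) : ℝ) =
      (6 * (X : ℝ) + 1024) * 4294967296 := by
    show (((6 * X + 1024) * 4294967296 : ℕ) : ℝ) = _
    push_cast
    ring
  have h4 : ((Nat.mul (Nat.add (Nat.mul 2 X) 512) (Nat.sub (cX X) 4096) : ℕ) : ℝ) =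
      (2 * (X : ℝ) + 512) * ((Nat.sub (cX X) 4096 : ℕ) : ℝ) := by
    show (((2 * X + 512) * Nat.sub (cX X) 4096 : ℕ) : ℝ) = _
    push_cast
    ring
  rw [h3, h4]
  have h5 : (0 : ℝ) ≤ 2 * (X : ℝ) + 512 := fufl_nn X
  have h6 := mul_le_mul_of_nonneg_left h2 h5
  linarith

theorem Fl_le_cf (X : ℕ) : (Fl X : ℝ) ≤ cf ((X : ℝ) / 512) * 8796093022208 := by
  have hnn : 0 ≤ cf ((X : ℝ) / 512) * 8796093022208 := by
    rcases Nat.eq_zero_or_pos X with h | h
    · rw [h]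
      unfold cf
      simp
    · have h1 : (0 : ℝ) < (X : ℝ) / 512 := by positivity
      have h2 := cf_pos _ h1
      positivity
  have h1 := abs_le.1 (cX_bd X)
  have hX := fufl_cf X
  unfold Fl
  apply fufl_sub2 _ _ _ hnn
  have h3 : ((Nat.mul (Nat.add (Nat.mul 6 X) 1024) 4294967296 : ℕ) : ℝ) =
      (6 * (X : ℝ) + 1024) * 4294967296 := by
    show (((6 * X + 1024) * 4294967296 : ℕ) : ℝ) = _
    push_cast
    ring
  have h4 : ((Nat.mul (Nat.add (Nat.mul 2 X) 512) (Nat.add (cX X) 4096) : ℕ) : ℝ) =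
      (2 * (X : ℝ) + 512) * ((cX X : ℝ) + 4096) := by
    show (((2 * X + 512) * (cX X + 4096) : ℕ) : ℝ) = _
    push_cast
    ring
  rw [h3, h4, hX]
  generalize 4294967296 * (1 + Real.cos (Real.pi * ((X : ℝ) / 512))) = c at h1 ⊢
  have h5 : (0 : ℝ) ≤ 2 * (X : ℝ) + 512 := fufl_nn X
  have h6 : c ≤ (cX X : ℝ) + 4096 := by linarith [h1.2]
  have h7 := mul_le_mul_of_nonneg_left h6 h5
  linarith

end Pool.Agent.Lib.MP_a247fa_nt.X
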