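import Pool.Agent.Lib.MP_a247fa_nt.X.NatA

/-! PHA (45 min, old scale).
The potential `ph`. Units: `2^32 = 4294967296`, `2^43 = 8796093022208`.

Kernel facts (put them as private theorems with `decide +kernel`, `set_option maxRecDepth 100000 in`): `∀ i < 1024, Pn i ≤ Pn (i+1)`; `Pn 0 = Pn 1`; `Pn 1024 + 12582912 ≤ AA` (`12582912 = 3 * 2^32 / 1024`).
`ph_mono`: for `x ≤ y`. If both `≥ 1024`: `-3/x` is increasing. If both `< 1024`: same floor: the slope `P (i+1) - P i ≥ 0` (for `x < 0`: `⌊x⌋₊ = 0`, slope `P 1 - P 0 = 0`, so `ph x = P 0 / 2^32`); different floors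
`i < j`: `ph x ≤ P (i+1) ≤ P j ≤ ph y` (units `2^32`; for `x < i+1`, `x ≥ i` or `x < 0`). Mixed: `ph x ≤ P 1024 / 2^32 ≤ AA/2^32 - 3/1024 ≤ ph y`.
`ph_nonneg`, `ph_le`: from the same estimates (`0 ≤ P 0`). `bm_ph`: monotone functions are measurable (`Monotone.measurable`).
`ph_le_pu`: `y ≤ Y / 2^43` so `ph y ≤ ph (Y/2^43)`. If `Y < 2^53`: `i = Y >>> 43 = ⌊Y/2^43⌋`, `r = Y &&& (2^43 - 1) = Y % 2^43` (`Nat.and_two_pow_sub_one_eq_mod`), `2^32 ph (Y/2^43) = P i + (P(i+1) - P i) r / 2^43`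
and `⌊a⌋ + 1 ≥ a` (natural division: `a < b (a/b + 1)`). If `Y ≥ 2^53 = 1024 * 2^43`: `2^32 ph = AA - 3 * 2^32 * 2^43 / Y` and `3 * 2^75 = 113336795588871485128704`, `⌊.⌋ ≤ .`; the truncated difference is `≥` the real one.
`pl_le_ph`: same with `X >>> 9`, `X &&& 511`; `3 * 2^32 * 512 = 6597069766656`; for the truncated subtraction use that the real number `AA - (⌊..⌋ + 1)` is `≥ 0` or `ph ≥ 0`. -/

set_option autoImplicit false

namespace Pool.Agent.Lib.MP_a247fa_nt.X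

open Set MeasureTheory
open Pool.Agent.Lib.MP_a247fa_nt.W Pool.Agent.Lib.MP_a247fa_nt.V

set_option maxRecDepth 100000 in
private theorem pha_step0 : ∀ i < 1024, Pn i ≤ Pn (i + 1) := by
  decide +kernel

private theorem pha_zero : Pn 0 = Pn 1 := by
  decide +kernel

private theorem pha_last : Pn 1024 + 12582912 ≤ AA := by
  decide +kernel

private theorem pha_AA : (AA : ℝ) = 331426610 := by
  unfold AA
  norm_num

private theorem pha_monoN {i j : ℕ} (h : i ≤ j) (hj : j ≤ 1024) : Pn i ≤ Pn j := by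
  induction j, h using Nat.le_induction with
  | base => exact le_rfl
  | succ n hn ih => exact (ih (by omega)).trans (pha_step0 n (by omega))

private theorem pha_monoR {i j : ℕ} (h : i ≤ j) (hj : j ≤ 1024) : (Pn i : ℝ) ≤ Pn j := by
  exact_mod_cast pha_monoN h hj

/-- the interpolation -/
private noncomputable def qq (x : ℝ) : ℝ :=
  (Pn ⌊x⌋₊ : ℝ) + ((Pn (⌊x⌋₊ + 1) : ℝ) - Pn ⌊x⌋₊) * (x - ⌊x⌋₊)

private theorem pha_ph_small {x : ℝ} (h : x < 1024) : ph x = qq x / 4294967296 := by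
  unfold ph qq
  rw [if_pos h]

private theorem pha_fl {x : ℝ} (h : x < 1024) : ⌊x⌋₊ < 1024 := by
  rw [Nat.floor_lt' (by norm_num)]
  exact_mod_cast h

private theorem pha_lo {x : ℝ} (h : x < 1024) : (Pn ⌊x⌋₊ : ℝ) ≤ qq x := by
  unfold qq
  rcases lt_or_ge x 0 with h0 | h0
  · rw [Nat.floor_of_nonpos h0.le, zero_add, ← pha_zero]
    simp
  · have h1 := pha_monoR (Nat.le_succ ⌊x⌋₊) (Nat.succ_le_of_lt (pha_fl h))
    have h2 := Nat.floor_le h0
    have h3 : 0 ≤ ((Pn (⌊x⌋₊ + 1) : ℝ) - Pn ⌊x⌋₊) * (x - ⌊x⌋₊) :=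
      mul_nonneg (sub_nonneg.2 h1) (sub_nonneg.2 h2)
    linarith

private theorem pha_up {x : ℝ} (h : x < 1024) : qq x ≤ Pn (⌊x⌋₊ + 1) := by
  unfold qq
  have h1 := pha_monoR (Nat.le_succ ⌊x⌋₊) (Nat.succ_le_of_lt (pha_fl h))
  have h2 := Nat.lt_floor_add_one x
  have h3 : ((Pn (⌊x⌋₊ + 1) : ℝ) - Pn ⌊x⌋₊) * (x - ⌊x⌋₊) ≤
      ((Pn (⌊x⌋₊ + 1) : ℝ) - Pn ⌊x⌋₊) * 1 :=
    mul_le_mul_of_nonneg_left (by linarith) (sub_nonneg.2 h1)
  linarith

theorem ph_big {x : ℝ} (h : 1024 ≤ x) : ph x = (AA : ℝ) / 4294967296 - 3 / x := by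
  unfold ph
  rw [if_neg (not_lt.2 h)]

private theorem pha_last' : (Pn 1024 : ℝ) + 12582912 ≤ 331426610 := by
  have h := pha_last
  unfold AA at h
  exact_mod_cast h

private theorem pha_small_le {x : ℝ} (h : x < 1024) : qq x ≤ 331426610 - 12582912 := by
  have h1 := pha_up h
  have h2 := pha_monoR (Nat.succ_le_of_lt (pha_fl h)) le_rfl
  have h3 := pha_last'
  have h4 : (Pn (⌊x⌋₊ + 1) : ℝ) ≤ Pn 1024 := h2
  linarith

private theorem pha_big_ge {y : ℝ} (h : 1024 ≤ y) : 331426610 - 12582912 ≤ ph y * 4294967296 := by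
  rw [ph_big h, pha_AA]
  have h1 : 3 / y ≤ 3 / 1024 := div_le_div_of_nonneg_left (by norm_num) (by norm_num) h
  linarith

theorem ph_mono {x y : ℝ} (h : x ≤ y) : ph x ≤ ph y := by
  rcases lt_or_ge y 1024 with hy | hy
  · have hx : x < 1024 := lt_of_le_of_lt h hy
    rw [pha_ph_small hx, pha_ph_small hy]
    apply div_le_div_of_nonneg_right _ (by norm_num)
    rcases (Nat.floor_mono h).eq_or_lt with he | hl
    · unfold qq
      rw [he]
      have h1 := pha_monoR (Nat.le_succ ⌊y⌋₊) (Nat.succ_le_of_lt (pha_fl hy))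
      have h2 : ((Pn (⌊y⌋₊ + 1) : ℝ) - Pn ⌊y⌋₊) * (x - ⌊y⌋₊) ≤
          ((Pn (⌊y⌋₊ + 1) : ℝ) - Pn ⌊y⌋₊) * (y - ⌊y⌋₊) :=
        mul_le_mul_of_nonneg_left (by linarith) (sub_nonneg.2 h1)
      linarith
    · exact (pha_up hx).trans ((pha_monoR (Nat.succ_le_of_lt hl) (pha_fl hy).le).trans (pha_lo hy))
  · rcases lt_or_ge x 1024 with hx | hx
    · have h1 := pha_small_le hx
      have h2 := pha_big_ge hy
      rw [pha_ph_small hx, div_le_iff₀ (by norm_num)]
      linarith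
    · rw [ph_big hx, ph_big hy]
      have h1 : 3 / y ≤ 3 / x := div_le_div_of_nonneg_left (by norm_num) (by linarith) h
      linarith

theorem ph_nonneg (x : ℝ) : 0 ≤ ph x := by
  rcases lt_or_ge x 1024 with hx | hx
  · rw [pha_ph_small hx]
    exact div_nonneg ((Nat.cast_nonneg _).trans (pha_lo hx)) (by norm_num)
  · have := pha_big_ge hx
    linarith

theorem ph_le (x : ℝ) : ph x ≤ (AA : ℝ) / 4294967296 := by
  rcases lt_or_ge x 1024 with hx | hx
  · rw [pha_ph_small hx, pha_AA]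
    apply div_le_div_of_nonneg_right _ (by norm_num)
    have := pha_small_le hx
    linarith
  · rw [ph_big hx]
    have : 0 ≤ 3 / x := div_nonneg (by norm_num) (by linarith)
    linarith

theorem bm_ph : BM ph := by
  refine ⟨Monotone.measurable (fun x y h => ph_mono h), (AA : ℝ) / 4294967296, fun x => ?_⟩
  rw [abs_of_nonneg (ph_nonneg x)]
  exact ph_le x

private theorem pha_sub (a b : ℕ) : (a : ℝ) - b ≤ ((Nat.sub a b : ℕ) : ℝ) := by
  show (a : ℝ) - b ≤ ((a - b : ℕ) : ℝ)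
  rcases le_total b a with h | h
  · rw [Nat.cast_sub h]
  · have h1 : (a : ℝ) ≤ b := by exact_mod_cast h
    have h2 : (0 : ℝ) ≤ ((a - b : ℕ) : ℝ) := Nat.cast_nonneg _
    linarith

private theorem pha_sub2 (a b : ℕ) (y : ℝ) (hy : 0 ≤ y) (h : (a : ℝ) - b ≤ y) :
    ((Nat.sub a b : ℕ) : ℝ) ≤ y := by
  show ((a - b : ℕ) : ℝ) ≤ y
  rcases le_total b a with h1 | h1
  · rw [Nat.cast_sub h1]
    exact h
  · rw [Nat.sub_eq_zero_of_le h1, Nat.cast_zero]
    exact hy

/-- the value at a rational point -/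
private theorem pha_val (Y D : ℕ) (hD : 0 < D) (h : Y < 1024 * D) :
    ph ((Y : ℝ) / D) * 4294967296 =
      (Pn (Y / D) : ℝ) + ((Pn (Y / D + 1) : ℝ) - Pn (Y / D)) * ((Y % D : ℕ) : ℝ) / D := by
  have hD0 : (0 : ℝ) < D := by exact_mod_cast hD
  have hlt : (Y : ℝ) / D < 1024 := by
    rw [div_lt_iff₀ hD0]
    exact_mod_cast h
  rw [pha_ph_small hlt, div_mul_cancel₀ _ (by norm_num)]
  unfold qq
  have hf : ⌊(Y : ℝ) / D⌋₊ = Y / D := Nat.floor_div_eq_div Y D
  rw [hf]
  have h1 : (Y : ℝ) = D * ((Y / D : ℕ) : ℝ) + ((Y % D : ℕ) : ℝ) := by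
    exact_mod_cast (Nat.div_add_mod Y D).symm
  have h2 : (Y : ℝ) / D - ((Y / D : ℕ) : ℝ) = ((Y % D : ℕ) : ℝ) / D := by
    rw [sub_eq_iff_eq_add, div_add' _ _ _ hD0.ne', div_left_inj' hD0.ne']
    linarith
  rw [h2, mul_div_assoc]

private theorem pha_blt {a b : ℕ} : Nat.blt a b = true ↔ a < b := by
  rw [Nat.blt_eq]

private theorem pha_shr (a k : ℕ) : Nat.shiftRight a k = a / 2 ^ k := Nat.shiftRight_eq_div_pow a k

private theorem pha_land43 (a : ℕ) : Nat.land a 8796093022207 = a % 8796093022208 := by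
  have := Nat.and_two_pow_sub_one_eq_mod a 43
  norm_num at this
  exact this

private theorem pha_land9 (a : ℕ) : Nat.land a 511 = a % 512 := by
  have := Nat.and_two_pow_sub_one_eq_mod a 9
  norm_num at this
  exact this

/-- the rounded interpolation -/
private theorem pha_round (P0 P1 r D : ℕ) (hD : 0 < D) (h : P0 ≤ P1) :
    ((P0 + (P1 - P0) * r / D : ℕ) : ℝ) ≤ (P0 : ℝ) + ((P1 : ℝ) - P0) * r / D ∧
    (P0 : ℝ) + ((P1 : ℝ) - P0) * r / D ≤ ((P0 + (P1 - P0) * r / D + 1 : ℕ) : ℝ) := by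
  have hD0 : (0 : ℝ) < D := by exact_mod_cast hD
  have h1 : ((P1 : ℝ) - P0) * r = (((P1 - P0) * r : ℕ) : ℝ) := by
    rw [Nat.cast_mul, Nat.cast_sub h]
  rw [h1]
  generalize (P1 - P0) * r = M
  have h2 : ((M / D : ℕ) : ℝ) ≤ (M : ℝ) / D := Nat.cast_div_le
  have h3 : (M : ℝ) / D ≤ ((M / D : ℕ) : ℝ) + 1 := by
    rw [div_le_iff₀ hD0]
    have h4 : M < D * (M / D + 1) := Nat.lt_mul_div_succ M hD
    have h5 : (M : ℝ) ≤ D * (((M / D : ℕ) : ℝ) + 1) := by exact_mod_cast h4.le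
    linarith
  push_cast
  constructor <;> linarith

theorem ph_le_pu {y : ℝ} {Y : ℕ} (h : y * 8796093022208 ≤ Y) : ph y * 4294967296 ≤ pu Y := by
  have hy : y ≤ (Y : ℝ) / 8796093022208 := by
    rw [le_div_iff₀ (by norm_num)]
    exact h
  have hm := ph_mono hy
  have hm2 : ph y * 4294967296 ≤ ph ((Y : ℝ) / 8796093022208) * 4294967296 :=
    mul_le_mul_of_nonneg_right hm (by norm_num)
  refine hm2.trans ?_
  clear hm hm2 hy h
  rcases hb : Nat.blt Y 9007199254740992 with _ | _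
  · have hY : 9007199254740992 ≤ Y := by
      by_contra hc
      rw [pha_blt.2 (not_le.1 hc)] at hb
      exact absurd hb (by decide)
    have hYr : (9007199254740992 : ℝ) ≤ Y := by exact_mod_cast hY
    have hY0 : (0 : ℝ) < Y := by linarith
    have hbig : (1024 : ℝ) ≤ (Y : ℝ) / 8796093022208 := by
      rw [le_div_iff₀ (by norm_num)]
      linarith
    rw [ph_big hbig]
    unfold pu
    rw [hb, Bool.cond_false]
    refine le_trans ?_ (pha_sub _ _)
    have h1 : ((Nat.div 113336795588871485128704 Y : ℕ) : ℝ) ≤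
        (113336795588871485128704 : ℝ) / Y := by
      have h2 : ((113336795588871485128704 / Y : ℕ) : ℝ) ≤
        ((113336795588871485128704 : ℕ) : ℝ) / Y := Nat.cast_div_le
      refine le_trans h2 (le_of_eq ?_)
      norm_num
    have h3 : ((AA : ℝ) / 4294967296 - 3 / ((Y : ℝ) / 8796093022208)) * 4294967296 =
        (AA : ℝ) - 113336795588871485128704 / Y := by
      field_simp
      norm_num
    rw [h3]
    linarith
  · have hY : Y < 1024 * 8796093022208 := by
      have := pha_blt.1 hb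
      omega
    have hv := pha_val Y 8796093022208 (by norm_num) hY
    have hc : (((8796093022208 : ℕ)) : ℝ) = (8796093022208 : ℝ) := by norm_num
    rw [hc] at hv
    rw [hv]
    unfold pu
    rw [hb, Bool.cond_true, pha_shr, pha_shr, pha_land43]
    have h2 : (2 : ℕ) ^ 43 = 8796093022208 := by norm_num
    rw [h2]
    have hi : Y / 8796093022208 < 1024 := by
      rw [Nat.div_lt_iff_lt_mul (by norm_num)]
      exact hY
    have h3 := (pha_round (Pn (Y / 8796093022208)) (Pn (Y / 8796093022208 + 1))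
      (Y % 8796093022208) 8796093022208 (by norm_num) (pha_step0 _ hi)).2
    rw [hc] at h3
    exact h3

theorem pl_le_ph {x : ℝ} {X : ℕ} (h : (X : ℝ) / 512 ≤ x) : (pl X : ℝ) ≤ ph x * 4294967296 := by
  have hm := ph_mono h
  have hm2 : ph ((X : ℝ) / 512) * 4294967296 ≤ ph x * 4294967296 :=
    mul_le_mul_of_nonneg_right hm (by norm_num)
  refine le_trans ?_ hm2
  clear hm hm2 h
  rcases hb : Nat.blt X 524288 with _ | _
  · have hX : 524288 ≤ X := by
      by_contra hc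
      rw [pha_blt.2 (not_le.1 hc)] at hb
      exact absurd hb (by decide)
    have hXr : (524288 : ℝ) ≤ X := by exact_mod_cast hX
    have hX0 : (0 : ℝ) < X := by linarith
    have hbig : (1024 : ℝ) ≤ (X : ℝ) / 512 := by
      rw [le_div_iff₀ (by norm_num)]
      linarith
    have hnn : 0 ≤ ph ((X : ℝ) / 512) * 4294967296 := mul_nonneg (ph_nonneg _) (by norm_num)
    unfold pl
    rw [hb, Bool.cond_false]
    apply pha_sub2 _ _ _ hnn
    rw [ph_big hbig]
    have h1 : (6597069766656 : ℝ) / X ≤ ((Nat.succ (Nat.div 6597069766656 X) : ℕ) : ℝ) := by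
      rw [div_le_iff₀ hX0]
      have h4 : 6597069766656 < X * (6597069766656 / X + 1) :=
        Nat.lt_mul_div_succ _ (by omega)
      have h5 : (6597069766656 : ℝ) ≤ X * (((6597069766656 / X + 1 : ℕ)) : ℝ) := by
        exact_mod_cast h4.le
      show (6597069766656 : ℝ) ≤ (((6597069766656 / X + 1 : ℕ)) : ℝ) * X
      linarith
    have h3 : ((AA : ℝ) / 4294967296 - 3 / ((X : ℝ) / 512)) * 4294967296 =
        (AA : ℝ) - 6597069766656 / X := by
      field_simp
      norm_num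
    rw [h3]
    linarith
  · have hX : X < 1024 * 512 := by
      have := pha_blt.1 hb
      omega
    have hv := pha_val X 512 (by norm_num) hX
    have hc : (((512 : ℕ)) : ℝ) = (512 : ℝ) := by norm_num
    rw [hc] at hv
    rw [hv]
    unfold pl
    rw [hb, Bool.cond_true, pha_shr, pha_shr, pha_land9]
    have h2 : (2 : ℕ) ^ 9 = 512 := by norm_num
    rw [h2]
    have hi : X / 512 < 1024 := by
      rw [Nat.div_lt_iff_lt_mul (by norm_num)]
      exact hX
    have h3 := (pha_round (Pn (X / 512)) (Pn (X / 512 + 1))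
      (X % 512) 512 (by norm_num) (pha_step0 _ hi)).1
    rw [hc] at h3
    exact h3

end Pool.Agent.Lib.MP_a247fa_nt.X
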