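import Pool.Agent.Lib.MP_a247fa_nt.X.DsA
import Pool.Agent.Lib.MP_a247fa_nt.X.PhA
import Pool.Agent.Lib.MP_a247fa_nt.X.FuFl
import Pool.Agent.Lib.MP_a247fa_nt.V.MeasV

/-! CFB (45 min, old scale).
Bounds for `cf` on free points of a unit `i ≥ 1` (`Br i p q h`, `exists_br`).

`cf_even_le`: even `i`: `cf` is increasing on `[i, i+1]`. `cf_odd_le`: odd `i`, `x` free in the unit, `i ≤ y ≤ x`: if `y` is in `(i, p)` then `Trp y`, `cf y ≥ T i ≥ cf x` (`x` is not `Trp`); if `y = i`: `cf i = T i`; otherwise `y ∈ [p, x] ⊆ [p, q]`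
and `cf` decreases there. `cf_free_lt`: not `Trp`. `trp_cell`: odd `i`, `i < y ≤ i + 1/2`, `T i ≤ cf y`: then `Trp y` (`⌊y⌋₊ = i`), so `y ≤ p`, and all `x ∈ (i, y]` are `Trp`. `fld_cell`: odd `i`, `i < y < i+1`, `cf y < (i+1)/2`: `Fld y`, `q < y`, so all
`x ∈ [y, i+1)` are `Fld`. (`cf y < ((i+1)/2 : ℕ)`; `i+1` is even.)
`qf_le_*`: `qf x = ph (cf x)` or `0`; `ph_mono`, `ph_le_pu`, `cf_le_Fu`. -/

set_option autoImplicit false

namespace Pool.Agent.Lib.MP_a247fa_nt.X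

open Set MeasureTheory
open Pool.Agent.Lib.MP_a247fa_nt.W Pool.Agent.Lib.MP_a247fa_nt.V

private theorem CfB_floor {i : ℕ} {x : ℝ} (hx : x ∈ Ioo (i : ℝ) (i + 1)) : ⌊x⌋₊ = i := by
  have h0 : (0 : ℝ) ≤ i := Nat.cast_nonneg i
  rw [Nat.floor_eq_iff (by linarith [hx.1])]
  exact ⟨hx.1.le, hx.2⟩

theorem cf_even_le {i : ℕ} (h1 : 1 ≤ i) (he : i % 2 = 0) {x y : ℝ} (hx : (i : ℝ) ≤ x) (hxy : x ≤ y) (hy : y ≤ i + 1) :
    cf x ≤ cf y := by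
  obtain ⟨p, q, h, hb⟩ := exists_br h1
  obtain ⟨hm, hp, hq, -, -⟩ := hb.even he
  subst hp hq
  exact hm.monotoneOn ⟨hx, by linarith⟩ ⟨by linarith, hy⟩ hxy

theorem cf_odd_le {i : ℕ} (ho : i % 2 = 1) {x y : ℝ} (hx : x ∈ Ioo (i : ℝ) (i + 1)) (hf : Fre x) (hy : (i : ℝ) ≤ y)
    (hyx : y ≤ x) : cf x ≤ cf y := by
  obtain ⟨p, q, h, hb⟩ := exists_br (i := i) (by omega)
  obtain ⟨hm, hp, hq, -, -⟩ := hb.odd ho
  have h6 : ¬ x ≤ p := fun a => hf.1 ((hb.trp x hx).2 a)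
  have h7 : ¬ q < x := fun a => hf.2 ((hb.fld x hx).2 a)
  have h8 : cf x < ((T i : ℕ) : ℝ) := by
    by_contra h9
    refine hf.1 ⟨?_, ?_⟩
    · rw [CfB_floor hx]
      exact ho
    · rw [CfB_floor hx]
      linarith
  rcases hy.lt_or_eq with h9 | h9
  · have hy1 : y ∈ Ioo (i : ℝ) (i + 1) := ⟨h9, by linarith [hx.2]⟩
    rcases le_or_gt y p with h10 | h10
    · have h11 := ((hb.trp y hy1).2 h10).2
      rw [CfB_floor hy1] at h11
      linarith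
    · exact hm.antitoneOn ⟨h10.le, by linarith⟩ ⟨by linarith, by linarith⟩ hyx
  · rw [← h9, cf_natCast]
    exact h8.le

theorem cf_free_lt {i : ℕ} (ho : i % 2 = 1) {x : ℝ} (hx : x ∈ Ioo (i : ℝ) (i + 1)) (hf : Fre x) : cf x < T i := by
  by_contra h9
  refine hf.1 ⟨?_, ?_⟩
  · rw [CfB_floor hx]
    exact ho
  · rw [CfB_floor hx]
    linarith

theorem cf_free_ge {i : ℕ} (h1 : 1 ≤ i) {x : ℝ} (hx : x ∈ Ioo (i : ℝ) (i + 1)) (hf : Fre x) : (lo i : ℝ) ≤ cf x ∧ cf x ≤ hi i := by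
  obtain ⟨p, q, h, hb⟩ := exists_br h1
  have h6 : ¬ x ≤ p ∨ x = p := Or.inl fun a => hf.1 ((hb.trp x hx).2 a)
  have h7 : ¬ q < x := fun a => hf.2 ((hb.fld x hx).2 a)
  have h8 : ¬ x ≤ p := fun a => hf.1 ((hb.trp x hx).2 a)
  have h9 := hb.cf_mem x ⟨by linarith, by linarith⟩
  exact ⟨h9.1, h9.2⟩

theorem trp_cell {i : ℕ} (ho : i % 2 = 1) {x y : ℝ} (hx : (i : ℝ) < x) (hxy : x ≤ y) (hy : y ≤ i + 1 / 2)
    (h : ((T i : ℕ) : ℝ) ≤ cf y) : Trp x := by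
  obtain ⟨p, q, g, hb⟩ := exists_br (i := i) (by omega)
  have hy1 : y ∈ Ioo (i : ℝ) (i + 1) := ⟨by linarith, by linarith⟩
  have hx1 : x ∈ Ioo (i : ℝ) (i + 1) := ⟨hx, by linarith⟩
  have h2 : Trp y := by
    refine ⟨?_, ?_⟩
    · rw [CfB_floor hy1]
      exact ho
    · rw [CfB_floor hy1]
      exact h
  exact (hb.trp x hx1).2 (hxy.trans ((hb.trp y hy1).1 h2))

theorem fld_cell {i : ℕ} (ho : i % 2 = 1) {x y : ℝ} (hy : (i : ℝ) < y) (hyx : y ≤ x) (hx : x < i + 1)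
    (h : cf y < (((i + 1) / 2 : ℕ) : ℝ)) : Fld x := by
  obtain ⟨p, q, g, hb⟩ := exists_br (i := i) (by omega)
  have hy1 : y ∈ Ioo (i : ℝ) (i + 1) := ⟨hy, by linarith⟩
  have hx1 : x ∈ Ioo (i : ℝ) (i + 1) := ⟨by linarith, hx⟩
  have e : (((i + 1) / 2 : ℕ) : ℝ) = ((i : ℝ) + 1) / 2 := by
    obtain ⟨k, rfl⟩ : ∃ k, i = 2 * k + 1 := ⟨i / 2, by omega⟩
    have e1 : (2 * k + 1 + 1) / 2 = k + 1 := by omega
    rw [e1]
    push_cast
    ring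
  have h2 : Fld y := by
    refine ⟨?_, ?_⟩
    · rw [CfB_floor hy1]
      exact ho
    · rw [CfB_floor hy1, ← e]
      exact h
  exact (hb.fld x hx1).2 (lt_of_lt_of_le ((hb.fld y hy1).1 h2) hyx)

theorem qf_nonneg (x : ℝ) : 0 ≤ qf x := by
  unfold qf
  split_ifs
  · exact ph_nonneg _
  · exact le_refl _

theorem bm_qf : BM qf := by
  obtain ⟨h1, C, hC⟩ := bm_ph
  have hC0 : 0 ≤ C := le_trans (abs_nonneg _) (hC 0)
  constructor
  · unfold qf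
    refine Measurable.ite ?_ (h1.comp continuous_cf.measurable) measurable_const
    have h2 : MeasurableSet {x : ℝ | Fre x} := meas_trp.compl.inter meas_fld.compl
    have h3 : MeasurableSet {x : ℝ | 2 ≤ ⌊x⌋₊} :=
      Nat.measurable_floor (measurableSet_Ici (a := 2))
    exact h2.inter h3
  · refine ⟨C, fun x => ?_⟩
    unfold qf
    split_ifs
    · exact hC _
    · rw [abs_zero]
      exact hC0

end Pool.Agent.Lib.MP_a247fa_nt.X
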