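import Pool.Agent.Lib.MP_a247fa_nt.X.WinM

/-! CORE (35 min, old scale).
For even `2 ≤ k < l` with `a ≤ k`, `l ≤ b`: `itg (qf - ph) k l + ∑_{k < c < l} RL c + SR k + SL l ≤ 0`.

Induction on `l` (step `2`). `l = k + 2`: `winm` for `m = k+1`. Step `l → l + 2` (`m = l + 1`): add `winm`: `itg (qf - ph) l (l+2) + RL (l+1) + SR l + SL (l+2) ≤ 0`; the new sum has also `RL l`, and `SL l + SR l ≥ RL l`: `sl_sr`: for even interior `c` with `a ≤ c - 2`, `c + 2 ≤ b`: `c < 32`: `SR + SL = Wr c mu (c-1)(c+1)` (`mu_add`), `int_one`;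
`c ≥ 32`: `= Wr c/2 mu (c-2)(c+2)`, `int_two`. So `new ≤ old + winm ≤ 0`. (`Finset.Ioo k l`, `Finset.sum_Ioo_..`/`Finset.sum_Ico_succ_top`: it may be easier to use `Finset.Ico (k+1) l`.) -/

set_option autoImplicit false

namespace Pool.Agent.Lib.MP_a247fa_nt.X

open Set MeasureTheory
open Pool.Agent.Lib.MP_a247fa_nt.W Pool.Agent.Lib.MP_a247fa_nt.V

theorem sl_sr {ν : Measure ℝ} {a b : ℝ} {n c : ℕ} (hν : CR ν a b) (h2 : 2 ≤ c) (ha : a ≤ (c : ℝ) - 2) (hb : (c : ℝ) + 2 ≤ b) :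
    RL ν n c ≤ SL ν c + SR ν c := by
  have fin := hν.fin
  have noat := hν.noat
  unfold SL SR
  by_cases hc : c < 32
  · rw [if_pos hc, if_pos hc]
    refine (int_one (n := n) hν h2 (by linarith) (by linarith)).trans (le_of_eq ?_)
    rw [mu_add (y := (c : ℝ)) (by linarith) (by linarith)]
    ring
  · rw [if_neg hc, if_neg hc]
    refine (int_two (n := n) hν h2 (by linarith) (by linarith)).trans (le_of_eq ?_)
    rw [mu_add (y := (c : ℝ)) (by linarith) (by linarith)]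
    ring

private theorem Core_aux {ν : Measure ℝ} {a b : ℝ} {n k : ℕ} (hν : CR ν a b) (hk : k % 2 = 0) (h2 : 2 ≤ k)
    (ha : a ≤ k) (j : ℕ) (hb : ((k + 2 * (j + 1) : ℕ) : ℝ) ≤ b) :
    itg ν (fun x => qf x - ph x) k ((k + 2 * (j + 1) : ℕ) : ℝ) +
      ∑ c ∈ Finset.Ico (k + 1) (k + 2 * (j + 1)), RL ν n c + SR ν k +
      SL ν (k + 2 * (j + 1)) ≤ 0 := by
  have fin := hν.fin
  have noat := hν.noat
  have bm : BM (fun x => qf x - ph x) := bm_sub bm_qf bm_ph
  induction j with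
  | zero =>
    have h := winm (n := n) (m := k + 1) hν (by omega) (by omega) (by push_cast; linarith)
      (by push_cast at hb ⊢; linarith)
    have e1 : (((k + 1 : ℕ) : ℝ)) - 1 = (k : ℝ) := by push_cast; ring
    have e2 : (((k + 1 : ℕ) : ℝ)) + 1 = ((k + 2 * (0 + 1) : ℕ) : ℝ) := by push_cast; ring
    have e3 : Finset.Ico (k + 1) (k + 2 * (0 + 1)) = {k + 1} := by
      ext c
      simp only [Finset.mem_Ico, Finset.mem_singleton]
      omega
    rw [e1, e2, show k + 1 - 1 = k by omega, show k + 1 + 1 = k + 2 * (0 + 1) by omega] at h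
    rw [e3, Finset.sum_singleton]
    linarith
  | succ j ih =>
    set l := k + 2 * (j + 1) with hl
    have hll : k + 2 * (j + 1 + 1) = l + 2 := by rw [hl]; ring
    rw [hll] at hb ⊢
    have hbl : (l : ℝ) + 2 ≤ b := by push_cast at hb; exact hb
    have hih := ih (by linarith)
    have hkl : (k : ℝ) + 2 ≤ l := by
      have : k + 2 ≤ l := by omega
      exact_mod_cast this
    have h := winm (n := n) (m := l + 1) hν (by omega) (by omega) (by push_cast; linarith)
      (by push_cast; linarith)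
    have e1 : (((l + 1 : ℕ) : ℝ)) - 1 = (l : ℝ) := by push_cast; ring
    have e2 : (((l + 1 : ℕ) : ℝ)) + 1 = ((l + 2 : ℕ) : ℝ) := by push_cast; ring
    rw [e1, e2, show l + 1 - 1 = l by omega, show l + 1 + 1 = l + 2 by omega] at h
    have hs := sl_sr (n := n) (c := l) hν (by omega) (by linarith) (by linarith)
    have sp := itg_split (ν := ν) bm (x := (k : ℝ)) (y := (l : ℝ)) (z := ((l + 2 : ℕ) : ℝ))
      (by linarith) (by push_cast; linarith)
    have e3 : ∑ c ∈ Finset.Ico (k + 1) (l + 2), RL ν n c =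
        ∑ c ∈ Finset.Ico (k + 1) l, RL ν n c + RL ν n l + RL ν n (l + 1) := by
      rw [show l + 2 = l + 1 + 1 by omega, Finset.sum_Ico_succ_top (by omega),
        Finset.sum_Ico_succ_top (by omega)]
    rw [e3, sp]
    linarith

theorem core {ν : Measure ℝ} {a b : ℝ} {n k l : ℕ} (hν : CR ν a b) (hk : k % 2 = 0) (hl : l % 2 = 0) (h2 : 2 ≤ k) (hkl : k < l)
    (ha : a ≤ k) (hb : (l : ℝ) ≤ b) :
    itg ν (fun x => qf x - ph x) k l + ∑ c ∈ Finset.Ico (k + 1) l, RL ν n c + SR ν k + SL ν l ≤ 0 := by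
  obtain ⟨j, hj⟩ : ∃ j, l = k + 2 * (j + 1) := ⟨(l - k) / 2 - 1, by omega⟩
  subst hj
  exact Core_aux hν hk h2 ha j hb

end Pool.Agent.Lib.MP_a247fa_nt.X
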