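import Pool.Agent.Lib.MP_a247fa_nt.X.Defs

/-! COST (45 min, old scale).
`ct k = 2^32 (1 + cos (π k / 512))` up to `4096`, for `k ≤ 512`.

Let `θ = π/512`, `C0 = 4294886444`, `S0 = 26353424`. (1) `|2^32 cos θ - C0| ≤ 1`, `|2^32 sin θ - S0| ≤ 1`: `Real.cos_bound`, `Real.sin_bound` (error `≤ θ^4 * 5/96 < 10^-10`, i.e. `< 1/2` unit: `2^32 * 7.4e-11 = 0.32`)
and `Real.pi_gt_d20`, `Real.pi_lt_d20` (exact values: `4294886444.454`, `26353423.900`).
(2) Kernel fact, for `k < 256` (`decide +kernel`, with integers or natural numbers; `a k = ct k - 2^32 ≥ 0` for `k ≤ 256`, `b k = ct (256 - k) - 2^32 ≥ 0`):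
`|a (k+1) 2^32 - (a k C0 - b k S0)| ≤ 2 * 2^32` and `|b (k+1) 2^32 - (b k C0 + a k S0)| ≤ 2 * 2^32` (true with `1.37 * 2^32`). And `|ct (512 - k) + ct k - 2^33| ≤ 2` for `k ≤ 256` (kernel).
(3) Induction on `k ≤ 256`: `|2^32 cos (k θ) - a k| ≤ e k` and `|2^32 sin (k θ) - b k| ≤ e k`, where `e 0 = 1`, `e (k+1) = (1 + 1/160) e k + 5`: `cos ((k+1) θ) = cos (k θ) cos θ - sin (k θ) sin θ`,
`sin ((k+1) θ) = sin (k θ) cos θ + cos (k θ) sin θ`; `cos θ + sin θ ≤ 1.00613`; replacing `2^32 cos θ, 2^32 sin θ` by `C0, S0` costs `≤ 2` (as `|cos|, |sin| ≤ 1`), the kernel residual is `≤ 2`. (`b 0 = ct 256 - 2^32`: check `|b 0| ≤ 1`.)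
`e 256 ≤ 4090`: closed form `e k ≤ 801 (1+1/160)^k - 800`, `(161/160)^256 ≤ 4.94`, so `e 256 ≤ 3160` (or compute: bound `e` by natural numbers with a kernel check).
(4) `k > 256`: `cos (π k/512) = - cos (π (512-k)/512)` and the last kernel fact. -/

set_option autoImplicit false

namespace Pool.Agent.Lib.MP_a247fa_nt.X

set_option maxRecDepth 100000 in
private theorem cosT_k1 : ∀ k < 257, 4294967295 ≤ ct k ∧ ct k ≤ 8589934592 := by
  decide +kernel

set_option maxRecDepth 100000 in
private theorem cosT_k2 : ∀ k < 256,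
    (ct (k + 1) - 4294967295) * 4294967296 + (ct (256 - k) - 4294967295) * 26353424 ≤
      (ct k - 4294967295) * 4294886444 + 8589934592 ∧
    (ct k - 4294967295) * 4294886444 ≤
      (ct (k + 1) - 4294967295) * 4294967296 + (ct (256 - k) - 4294967295) * 26353424 + 8589934592 := by
  decide +kernel

set_option maxRecDepth 100000 in
private theorem cosT_k3 : ∀ k < 256,
    (ct (256 - (k + 1)) - 4294967295) * 4294967296 ≤
      (ct (256 - k) - 4294967295) * 4294886444 + (ct k - 4294967295) * 26353424 + 8589934592 ∧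
    (ct (256 - k) - 4294967295) * 4294886444 + (ct k - 4294967295) * 26353424 ≤
      (ct (256 - (k + 1)) - 4294967295) * 4294967296 + 8589934592 := by
  decide +kernel

set_option maxRecDepth 100000 in
private theorem cosT_k4 : ∀ k < 257, ct (512 - k) + ct k ≤ 8589934594 ∧
    8589934590 ≤ ct (512 - k) + ct k := by
  decide +kernel

private theorem cosT_start : ct 0 = 8589934592 ∧ ct 256 = 4294967295 := by
  decide +kernel

private theorem cosT_pi : (3.14159265358979 : ℝ) < Real.pi ∧ Real.pi < (3.14159265358980 : ℝ) := by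
  constructor
  · have := Real.pi_gt_d20
    linarith
  · have := Real.pi_lt_d20
    linarith

/-- the cosine and the sine of the step -/
private theorem cosT_step : |4294967296 * Real.cos (Real.pi / 512) - 4294886444| ≤ 1 ∧
    |4294967296 * Real.sin (Real.pi / 512) - 26353424| ≤ 1 := by
  obtain ⟨h1, h2⟩ := cosT_pi
  have hpos : 0 < Real.pi := Real.pi_pos
  have hle : |Real.pi / 512| ≤ 1 := by
    rw [abs_of_pos (by positivity), div_le_one (by norm_num)]
    linarith
  have hp4 : |Real.pi / 512| ^ 4 * (5 / 96) * 4294967296 ≤ 2 / 5 := by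
    rw [abs_of_pos (by positivity), div_pow]
    have h3 : Real.pi ^ 4 ≤ 3.1416 ^ 4 := pow_le_pow_left₀ hpos.le (by linarith) 4
    norm_num at h3 ⊢
    linarith
  have hp5 : |Real.pi / 512| ^ 5 / 100 * 4294967296 ≤ 2 / 5 := by
    rw [abs_of_pos (by positivity), div_pow]
    have h3 : Real.pi ^ 5 ≤ 3.1416 ^ 5 := pow_le_pow_left₀ hpos.le (by linarith) 5
    norm_num at h3 ⊢
    linarith
  have hp2l : (3.14159265358979 : ℝ) ^ 2 ≤ Real.pi ^ 2 := pow_le_pow_left₀ (by norm_num) h1.le 2
  have hp2u : Real.pi ^ 2 ≤ (3.14159265358980 : ℝ) ^ 2 := pow_le_pow_left₀ hpos.le h2.le 2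
  have hp3l : (3.14159265358979 : ℝ) ^ 3 ≤ Real.pi ^ 3 := pow_le_pow_left₀ (by norm_num) h1.le 3
  have hp3u : Real.pi ^ 3 ≤ (3.14159265358980 : ℝ) ^ 3 := pow_le_pow_left₀ hpos.le h2.le 3
  constructor
  · have h3 := Real.cos_bound hle
    rw [abs_le] at h3 ⊢
    obtain ⟨h4, h5⟩ := h3
    have e1 : (Real.pi / 512) ^ 2 / 2 = Real.pi ^ 2 / 524288 := by ring
    rw [e1] at h4 h5
    norm_num at hp2l hp2u
    constructor <;> linarith
  · have h3 := Real.sin_bound hle
    rw [abs_le] at h3 ⊢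
    obtain ⟨h4, h5⟩ := h3
    have e1 : (Real.pi / 512) ^ 3 / 6 = Real.pi ^ 3 / 805306368 := by ring
    rw [e1] at h4 h5
    norm_num at hp3l hp3u h1 h2
    constructor <;> linarith

/-- one step of the error -/
private theorem cosT_err {C S c s a b a' e : ℝ} (hC0 : 0 ≤ C) (hS0 : 0 ≤ S)
    (hCS : C + S ≤ 161 / 160) (hC : |4294967296 * C - 4294886444| ≤ 1)
    (hS : |4294967296 * S - 26353424| ≤ 1) (ha : |a| ≤ 4294967297) (hb : |b| ≤ 4294967297)
    (hc : |c - a| ≤ e) (hs : |s - b| ≤ e)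
    (hk : |a' * 4294967296 - (a * 4294886444 - b * 26353424)| ≤ 8589934592) :
    |(c * C - s * S) - a'| ≤ 161 / 160 * e + 5 := by
  have he : 0 ≤ e := (abs_nonneg _).trans hc
  have h1 : (c * C - s * S) - a' = ((c - a) * C - (s - b) * S) +
      (a * (4294967296 * C - 4294886444) - b * (4294967296 * S - 26353424)) / 4294967296 -
      (a' * 4294967296 - (a * 4294886444 - b * 26353424)) / 4294967296 := by ring
  have h2 : |(c - a) * C - (s - b) * S| ≤ 161 / 160 * e := by
    refine (abs_sub _ _).trans ?_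
    rw [abs_mul, abs_mul, abs_of_nonneg hC0, abs_of_nonneg hS0]
    have h3 : |c - a| * C ≤ e * C := mul_le_mul_of_nonneg_right hc hC0
    have h4 : |s - b| * S ≤ e * S := mul_le_mul_of_nonneg_right hs hS0
    have h5 : e * (C + S) ≤ e * (161 / 160) := mul_le_mul_of_nonneg_left hCS he
    linarith
  have h3 : |(a * (4294967296 * C - 4294886444) - b * (4294967296 * S - 26353424)) / 4294967296| ≤ 3 := by
    rw [abs_div, abs_of_pos (by norm_num : (0 : ℝ) < 4294967296), div_le_iff₀ (by norm_num)]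
    refine (abs_sub _ _).trans ?_
    rw [abs_mul, abs_mul]
    have h4 : |a| * |4294967296 * C - 4294886444| ≤ 4294967297 * 1 :=
      mul_le_mul ha hC (abs_nonneg _) (by norm_num)
    have h5 : |b| * |4294967296 * S - 26353424| ≤ 4294967297 * 1 :=
      mul_le_mul hb hS (abs_nonneg _) (by norm_num)
    linarith
  have h4 : |(a' * 4294967296 - (a * 4294886444 - b * 26353424)) / 4294967296| ≤ 2 := by
    rw [abs_div, abs_of_pos (by norm_num : (0 : ℝ) < 4294967296), div_le_iff₀ (by norm_num)]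
    linarith
  rw [h1]
  refine (abs_sub _ _).trans ?_
  have h5 := abs_add_le ((c - a) * C - (s - b) * S)
    ((a * (4294967296 * C - 4294886444) - b * (4294967296 * S - 26353424)) / 4294967296)
  linarith

private theorem cosT_main (k : ℕ) (hk : k ≤ 256) :
    |4294967296 * Real.cos (k * (Real.pi / 512)) - ((ct k : ℝ) - 4294967295)| ≤
      801 * (161 / 160) ^ k - 800 ∧
    |4294967296 * Real.sin (k * (Real.pi / 512)) - ((ct (256 - k) : ℝ) - 4294967295)| ≤
      801 * (161 / 160) ^ k - 800 := by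
  obtain ⟨hp1, hp2⟩ := cosT_pi
  obtain ⟨hC, hS⟩ := cosT_step
  have hS0 : 0 ≤ Real.sin (Real.pi / 512) := by
    apply Real.sin_nonneg_of_nonneg_of_le_pi <;> linarith [Real.pi_pos]
  have hC0 : 0 ≤ Real.cos (Real.pi / 512) := by
    apply Real.cos_nonneg_of_neg_pi_div_two_le_of_le <;> linarith [Real.pi_pos]
  have hCS : Real.cos (Real.pi / 512) + Real.sin (Real.pi / 512) ≤ 161 / 160 := by
    have h1 := Real.cos_le_one (Real.pi / 512)
    have h2 := Real.sin_le (x := Real.pi / 512) (by positivity)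
    norm_num at hp2 ⊢
    linarith
  induction k with
  | zero =>
    obtain ⟨h0, h1⟩ := cosT_start
    constructor
    · rw [h0]
      norm_num
    · rw [Nat.sub_zero, h1]
      norm_num
  | succ k ih =>
    obtain ⟨ih1, ih2⟩ := ih (by omega)
    obtain ⟨ha1, ha2⟩ := cosT_k1 k (by omega)
    obtain ⟨hb1, hb2⟩ := cosT_k1 (256 - k) (by omega)
    obtain ⟨hc1, hc2⟩ := cosT_k1 (k + 1) (by omega)
    obtain ⟨hd1, hd2⟩ := cosT_k1 (256 - (k + 1)) (by omega)
    have ha : |(ct k : ℝ) - 4294967295| ≤ 4294967297 := by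
      have h1 : (4294967295 : ℝ) ≤ ct k := by exact_mod_cast ha1
      have h2 : (ct k : ℝ) ≤ 8589934592 := by exact_mod_cast ha2
      rw [abs_le]
      constructor <;> linarith
    have hb : |(ct (256 - k) : ℝ) - 4294967295| ≤ 4294967297 := by
      have h1 : (4294967295 : ℝ) ≤ ct (256 - k) := by exact_mod_cast hb1
      have h2 : (ct (256 - k) : ℝ) ≤ 8589934592 := by exact_mod_cast hb2
      rw [abs_le]
      constructor <;> linarith
    obtain ⟨k2a, k2b⟩ := cosT_k2 k (by omega)
    obtain ⟨k3a, k3b⟩ := cosT_k3 k (by omega)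
    have k2a' : ((((ct (k + 1) - 4294967295) * 4294967296 + (ct (256 - k) - 4294967295) * 26353424 : ℕ)) : ℝ) ≤
      (((ct k - 4294967295) * 4294886444 + 8589934592 : ℕ) : ℝ) := by exact_mod_cast k2a
    have k2b' : ((((ct k - 4294967295) * 4294886444 : ℕ)) : ℝ) ≤
      (((ct (k + 1) - 4294967295) * 4294967296 + (ct (256 - k) - 4294967295) * 26353424 + 8589934592 : ℕ) : ℝ) := by
      exact_mod_cast k2b
    have k3a' : ((((ct (256 - (k + 1)) - 4294967295) * 4294967296 : ℕ)) : ℝ) ≤
      (((ct (256 - k) - 4294967295) * 4294886444 + (ct k - 4294967295) * 26353424 + 8589934592 : ℕ) : ℝ) := by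
      exact_mod_cast k3a
    have k3b' : ((((ct (256 - k) - 4294967295) * 4294886444 + (ct k - 4294967295) * 26353424 : ℕ)) : ℝ) ≤
      (((ct (256 - (k + 1)) - 4294967295) * 4294967296 + 8589934592 : ℕ) : ℝ) := by exact_mod_cast k3b
    simp only [Nat.cast_add, Nat.cast_mul, Nat.cast_ofNat, Nat.cast_sub ha1, Nat.cast_sub hb1,
      Nat.cast_sub hc1] at k2a' k2b'
    simp only [Nat.cast_add, Nat.cast_mul, Nat.cast_ofNat, Nat.cast_sub ha1, Nat.cast_sub hb1,
      Nat.cast_sub hd1] at k3a' k3b'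
    have hang : ((k + 1 : ℕ) : ℝ) * (Real.pi / 512) = k * (Real.pi / 512) + Real.pi / 512 := by
      push_cast; ring
    have hpow : (801 : ℝ) * (161 / 160) ^ (k + 1) - 800 =
        161 / 160 * (801 * (161 / 160) ^ k - 800) + 5 := by
      rw [pow_succ]; ring
    rw [hang, Real.cos_add, Real.sin_add, hpow]
    constructor
    · have h1 := cosT_err (a' := (ct (k + 1) : ℝ) - 4294967295) hC0 hS0 hCS hC hS ha hb ih1 ih2 (by
        rw [abs_le]
        constructor <;> linarith)
      have e1 : 4294967296 * (Real.cos (↑k * (Real.pi / 512)) * Real.cos (Real.pi / 512) -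
          Real.sin (↑k * (Real.pi / 512)) * Real.sin (Real.pi / 512)) =
          4294967296 * Real.cos (↑k * (Real.pi / 512)) * Real.cos (Real.pi / 512) -
          4294967296 * Real.sin (↑k * (Real.pi / 512)) * Real.sin (Real.pi / 512) := by ring
      rw [e1]
      exact h1
    · have hneg : |(-(4294967296 * Real.cos (↑k * (Real.pi / 512)))) - (-((ct k : ℝ) - 4294967295))| ≤
          801 * (161 / 160) ^ k - 800 := by
        rw [← abs_neg]
        have e2 : -((-(4294967296 * Real.cos (↑k * (Real.pi / 512)))) - (-((ct k : ℝ) - 4294967295))) =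
          4294967296 * Real.cos (↑k * (Real.pi / 512)) - ((ct k : ℝ) - 4294967295) := by ring
        rw [e2]
        exact ih1
      have ha' : |-((ct k : ℝ) - 4294967295)| ≤ 4294967297 := by rw [abs_neg]; exact ha
      have h1 := cosT_err (a' := (ct (256 - (k + 1)) : ℝ) - 4294967295) hC0 hS0 hCS hC hS hb ha'
        ih2 hneg (by
        rw [abs_le]
        constructor <;> linarith)
      have e1 : 4294967296 * (Real.sin (↑k * (Real.pi / 512)) * Real.cos (Real.pi / 512) +
          Real.cos (↑k * (Real.pi / 512)) * Real.sin (Real.pi / 512)) =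
          4294967296 * Real.sin (↑k * (Real.pi / 512)) * Real.cos (Real.pi / 512) -
          -(4294967296 * Real.cos (↑k * (Real.pi / 512))) * Real.sin (Real.pi / 512) := by ring
      rw [e1]
      exact h1

private theorem cosT_half {k : ℕ} (h : k ≤ 256) :
    |4294967296 * (1 + Real.cos (Real.pi * (k / 512))) - (ct k : ℝ)| ≤ 4090 := by
  have h1 := (cosT_main k h).1
  have h2 : (161 / 160 : ℝ) ^ k ≤ (161 / 160) ^ 256 := pow_le_pow_right₀ (by norm_num) h
  have h3 : (161 / 160 : ℝ) ^ 256 ≤ 5 := by norm_num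
  have e1 : Real.pi * ((k : ℝ) / 512) = k * (Real.pi / 512) := by ring
  rw [e1]
  have e2 : 4294967296 * (1 + Real.cos (k * (Real.pi / 512))) - (ct k : ℝ) =
      4294967296 * Real.cos (k * (Real.pi / 512)) - ((ct k : ℝ) - 4294967295) + 1 := by ring
  rw [e2]
  refine (abs_add_le _ _).trans ?_
  rw [abs_one]
  linarith

theorem cosT {k : ℕ} (h : k ≤ 512) : |4294967296 * (1 + Real.cos (Real.pi * (k / 512))) - (ct k : ℝ)| ≤ 4096 := by
  rcases Nat.lt_or_ge 256 k with hk | hk
  · obtain ⟨j, hj⟩ : ∃ j, k = 512 - j := ⟨512 - k, by omega⟩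
    have hj256 : j < 256 := by omega
    obtain ⟨h1, h2⟩ := cosT_k4 j (by omega)
    rw [← hj] at h1 h2
    have h3 := cosT_half (k := j) (by omega)
    have e1 : Real.pi * ((k : ℝ) / 512) = Real.pi - Real.pi * ((j : ℝ) / 512) := by
      have : (k : ℝ) = 512 - j := by
        rw [hj, Nat.cast_sub (by omega)]
        norm_num
      rw [this]
      ring
    rw [e1, Real.cos_pi_sub]
    have h1' : (ct k : ℝ) + ct j ≤ 8589934594 := by exact_mod_cast h1
    have h2' : (8589934590 : ℝ) ≤ (ct k : ℝ) + ct j := by exact_mod_cast h2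
    rw [abs_le] at h3 ⊢
    constructor <;> linarith [h3.1, h3.2]
  · exact (cosT_half hk).trans (by norm_num)

end Pool.Agent.Lib.MP_a247fa_nt.X
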