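import Pool.Agent.Lib.MP_a247fa_nt.X.TZon

/-! DZON (60 min, old scale).
Dead zones. `kR c s x = 0` for `c < 3` (odd: by definition; `c = 2`: `En 2 = false`; `c = 0` does not occur), for even `c` and `s = true`.

`th_one`: for all `n, s`: `th n 1 s x = 0` and `th n 2 s x = 0` (simultaneous induction on `n`: `T 1 = 2`, `T 2 = 1`, `kR 1 s = 0`, `kR 2 s x = 0`).
`th_pow`: `th n (2^k) true x = 0`: induction on `n`, `k`: `k = 0`: `th_one`; `k ≥ 1`: `T (2^k) = 2^(k-1)`, `ch = true`, `kR = 0`.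
`kR_not_free`: if `ds c s x < 1` and `x` is not free and `s = true` then `kR c s x = 0`; so `th n c true x = 0` for `adj c true x` not free.
`dz_right` (Lemma R): induction on `n` (for all `c`): `x` with `adj c true x`, `1 ≤ c`. If `x` is not free: `th n c true x = 0` (`kR` vanishes, the second term too). If `c` is a power of two: `th_pow`. If `c` is odd `≥ 3` and `zc c * ds ≤ zx c`: `x` is `Trp` (`trp_zone`), not free: `0`.
If `c` is even, not a power of two (so `c ≥ 6`) and `zc c * ds ≤ 28/25`: `kR = 0`; child `c' = c/2`, `x' = cf x`, `x' - c' = D c x =: D > 0`. If not `adj c' true x'`: `th (n) c' true x'`: its `kR` vanishes for even `c'`; for odd `c'`: note `zc c' * D ≤ 1.15` (below) so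
`D ≤ 1.15/7 < 1` and `adj` holds. So `adj c' true x'`, and `zc c' * D ≤ 1.146 ≤ zx c'` for `c' = 3`, and `zc c' * D ≤ 1.109 < 28/25 ≤ zx c'` for `c' ≥ 5`; induction hypothesis. The estimate: `z = zc c * d ≤ 28/25`, `ζ = zc c`,
`zc c' = c + 1 = (ζ+1)/2`, `D = (ζ/2 + d) hs d + d/2 ≤ (ζ/2 + d)(987/400) d^2 + d/2` (`hs_le`), so `zc c' * D ≤ (1 + 1/ζ)(0.616875 z^2 (1 + 2 z/ζ^2) + z/4)`; at `z = 1.12`: `ζ = 13`: `1.1460`; `ζ ≥ 21`: `1.1082` (increasing in `z`, decreasing in `ζ`).
`dz_left`: even `c ≥ 6` not a power of two, `adj c false x`, free, `z = zc c * ds < 153/100`: `D = (ζ/2 - d) hs d - d/2 ≤ (ζ/2 - d)(987/400) d^2 - d/2` (`d < ζ/2`), so `zc c' D ≤ (1 + 1/ζ)(0.616875 z^2 (1 - 2z/ζ^2) - z/4)`. This is `≤ 1.1151` for `ζ = 13` (child `3`, `zx 3 = 1.16`)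
and `≤ 1.1017` for `ζ ≥ 21`. (The function of `z` is increasing for `z ≥ 1/4`; for `z ≤ 1/4` it is `≤ 0.05`; simplest: `0.616875 z^2 - z/4 ≤ 0.616875 * 1.53^2 - 0.3825 = 1.0616` by factoring, then `(1 + 1/21) * 1.0616 = 1.1121 ≤ 1.12`, and for `ζ = 13` keep the factor or use `(1 + 1/13) * 1.0616 = 1.1433 ≤ 1.16`.) `D > 0` by `D_pos`. Then `dz_right` for the child.
`dz`: the form used later. For `c ≥ 3`: `s = true`, `dd c true = (28/25)/zc c`; `s = false`, `dd c false = (153/100)/zc c`; odd `c`: `dd = 0`, nothing to prove. -/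

set_option autoImplicit false

namespace Pool.Agent.Lib.MP_a247fa_nt.X

open Set MeasureTheory
open Pool.Agent.Lib.MP_a247fa_nt.W Pool.Agent.Lib.MP_a247fa_nt.V

private theorem dzon_hr (l c : ℕ) (s : Bool) : 0 ≤ hr l c s := by
  unfold hr
  split_ifs <;> positivity

theorem kR_nonneg (c : ℕ) (s : Bool) (x : ℝ) : 0 ≤ kR c s x := by
  unfold kR
  split_ifs <;> first | exact dzon_hr _ _ _ | norm_num

theorem th_nonneg (n c : ℕ) (s : Bool) (x : ℝ) : 0 ≤ th n c s x := by
  induction n generalizing c s x with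
  | zero => exact le_refl _
  | succ n ih =>
    unfold th
    refine add_nonneg (kR_nonneg c s x) ?_
    split_ifs
    · exact ih _ _ _
    · exact le_refl _

/-- one step -/
private theorem dzon_succ (n c : ℕ) (s : Bool) (x : ℝ) (hk : kR c s x = 0)
    (h : adj c s x → Fre x → th n (T c) (ch c) (cf x) = 0) : th (n + 1) c s x = 0 := by
  unfold th
  rw [hk, zero_add]
  split_ifs with h1
  · exact h h1.1 h1.2
  · rfl

private theorem dzon_even {c : ℕ} (he : c % 2 = 0) (x : ℝ) : kR c true x = 0 := by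
  unfold kR
  rw [(od_false_iff c).2 he]
  simp

/-- not on the side `s` -/
private theorem dzon_neg (n c : ℕ) (s : Bool) (x : ℝ) (h : ds c s x ≤ 0) : th n c s x = 0 := by
  cases n with
  | zero => rfl
  | succ n =>
    refine dzon_succ n c s x ?_ (fun h1 => absurd h1.1 (not_lt.2 h))
    unfold kR
    split_ifs with h1 h2 h3 h4 h5 h6 h7 h8
    · rfl
    · exact absurd h3.1 (not_lt.2 h)
    · exact absurd h3.1 (not_lt.2 h)
    · exact absurd h3.1 (not_lt.2 h)
    · exact absurd h3.1 (not_lt.2 h)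
    · exact absurd h3.1 (not_lt.2 h)
    · rfl
    · obtain ⟨ha, hb, hc, hd⟩ := h8
      subst ha
      exact absurd hd.1 (not_lt.2 h)
    · rfl

theorem th_one (n : ℕ) (s : Bool) (x : ℝ) : th n 1 s x = 0 ∧ th n 2 s x = 0 := by
  induction n generalizing s x with
  | zero => exact ⟨rfl, rfl⟩
  | succ n ih =>
    constructor
    · apply dzon_succ
      · unfold kR
        rw [(od_iff 1).2 (by norm_num)]
        simp
      · intro _ _
        have : T 1 = 2 := by unfold T; norm_num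
        rw [this]
        exact (ih _ _).2
    · apply dzon_succ
      · unfold kR
        rw [(od_false_iff 2).2 (by norm_num)]
        have h2 : ¬ En 2 = true := fun h => by
          have := (En_ge h).1
          omega
        simp [h2]
      · intro _ _
        have : T 2 = 1 := by unfold T; norm_num
        rw [this]
        exact (ih _ _).1

theorem th_pow (n k : ℕ) (x : ℝ) : th n (2 ^ k) true x = 0 := by
  induction n generalizing k x with
  | zero => rfl
  | succ n ih =>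
    cases k with
    | zero => exact (th_one (n + 1) true x).1
    | succ k =>
      have he : (2 ^ (k + 1)) % 2 = 0 := by omega
      apply dzon_succ
      · exact dzon_even he x
      · intro _ _
        have h1 : T (2 ^ (k + 1)) = 2 ^ k := by
          unfold T
          rw [if_pos he]
          omega
        rw [h1, ch_even he]
        exact ih k _

/-- the scaled displacement, right side -/
private theorem dzon_right {ζ d h δ ρ B : ℝ} (hδ : d ≤ δ) (hd : 0 ≤ d) (hz : ζ * d ≤ 28 / 25)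
    (hζ0 : 0 ≤ ζ) (hh : h ≤ 987 / 400 * d ^ 2) (hρ : (ζ + 1) / 2 ≤ ρ * (ζ / 2)) (hρ0 : 0 ≤ ρ)
    (hB : ρ * (987 / 400 * ((28 / 25) ^ 2 / 4 + 28 / 25 * δ ^ 2 / 2) + 7 / 25) ≤ B) :
    (ζ + 1) / 2 * ((ζ / 2 + d) * h + d / 2) ≤ B := by
  have h1 : (ζ / 2 + d) * h + d / 2 ≤ (ζ / 2 + d) * (987 / 400 * d ^ 2) + d / 2 := by
    have := mul_le_mul_of_nonneg_left hh (by linarith : 0 ≤ ζ / 2 + d)
    linarith
  have h2 : 0 ≤ (ζ / 2 + d) * (987 / 400 * d ^ 2) + d / 2 := by positivity
  have h3 : (ζ + 1) / 2 * ((ζ / 2 + d) * h + d / 2) ≤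
      (ρ * (ζ / 2)) * ((ζ / 2 + d) * (987 / 400 * d ^ 2) + d / 2) :=
    (mul_le_mul_of_nonneg_left h1 (by linarith)).trans (mul_le_mul_of_nonneg_right hρ h2)
  have h4 : (ρ * (ζ / 2)) * ((ζ / 2 + d) * (987 / 400 * d ^ 2) + d / 2) =
      ρ * (987 / 400 * ((ζ * d) ^ 2 / 4 + (ζ * d) * d ^ 2 / 2) + (ζ * d) / 4) := by ring
  have h0 : 0 ≤ ζ * d := mul_nonneg hζ0 hd
  have h5 : (ζ * d) ^ 2 ≤ (28 / 25) ^ 2 := pow_le_pow_left₀ h0 hz 2
  have h6 : d ^ 2 ≤ δ ^ 2 := pow_le_pow_left₀ hd hδ 2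
  have h7 : (ζ * d) * d ^ 2 ≤ 28 / 25 * δ ^ 2 := mul_le_mul hz h6 (sq_nonneg _) (by norm_num)
  have h8 : ρ * (987 / 400 * ((ζ * d) ^ 2 / 4 + (ζ * d) * d ^ 2 / 2) + (ζ * d) / 4) ≤
      ρ * (987 / 400 * ((28 / 25) ^ 2 / 4 + 28 / 25 * δ ^ 2 / 2) + 7 / 25) := by
    apply mul_le_mul_of_nonneg_left _ hρ0
    linarith
  linarith

/-- the scaled displacement, left side -/
private theorem dzon_left {ζ d h ρ B : ℝ} (hd : 0 ≤ d) (hd1 : d ≤ ζ / 2) (hz : ζ * d ≤ 153 / 100)
    (hζ0 : 0 ≤ ζ) (hh : h ≤ 987 / 400 * d ^ 2) (hρ : (ζ + 1) / 2 ≤ ρ * (ζ / 2)) (hρ0 : 0 ≤ ρ)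
    (hD : 0 ≤ (ζ / 2 - d) * h - d / 2)
    (hB : ρ * (987 / 1600 * (153 / 100) ^ 2 - 153 / 400) ≤ B) :
    (ζ + 1) / 2 * ((ζ / 2 - d) * h - d / 2) ≤ B := by
  have h1 : (ζ / 2 - d) * h - d / 2 ≤ ζ / 2 * (987 / 400 * d ^ 2) - d / 2 := by
    have h2 := mul_le_mul_of_nonneg_left hh (by linarith : 0 ≤ ζ / 2 - d)
    have h3 : (ζ / 2 - d) * (987 / 400 * d ^ 2) ≤ ζ / 2 * (987 / 400 * d ^ 2) :=
      mul_le_mul_of_nonneg_right (by linarith) (by positivity)
    linarith
  have h3 : (ζ + 1) / 2 * ((ζ / 2 - d) * h - d / 2) ≤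
      (ρ * (ζ / 2)) * (ζ / 2 * (987 / 400 * d ^ 2) - d / 2) :=
    (mul_le_mul_of_nonneg_right hρ hD).trans (mul_le_mul_of_nonneg_left h1 (by positivity))
  have h4 : (ρ * (ζ / 2)) * (ζ / 2 * (987 / 400 * d ^ 2) - d / 2) =
      ρ * (987 / 1600 * (ζ * d) ^ 2 - (ζ * d) / 4) := by ring
  have h0 : 0 ≤ ζ * d := mul_nonneg hζ0 hd
  have h5 : 987 / 1600 * (ζ * d) ^ 2 - (ζ * d) / 4 ≤ 987 / 1600 * (153 / 100) ^ 2 - 153 / 400 := by
    nlinarith [mul_nonneg (sub_nonneg.2 hz) h0]
  have h8 := mul_le_mul_of_nonneg_left h5 hρ0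
  linarith

private theorem dzon_six {c : ℕ} (he : c % 2 = 0) (h6 : 6 ≤ c) (hN : NP c) : c = 6 ∨ 10 ≤ c := by
  by_contra hc
  have h8 : c = 8 := by omega
  exact hN ⟨3, by rw [h8]; norm_num⟩

/-- the child of an even integer -/
private theorem dzon_child {n : ℕ} (ih : ∀ (c : ℕ) (x : ℝ), 1 ≤ c → adj c true x →
    ((c % 2 = 1 ∧ 3 ≤ c ∧ zc c * ds c true x ≤ zx c) ∨ (c % 2 = 0 ∧ zc c * ds c true x ≤ 28 / 25)) →
      th n c true x = 0) {c : ℕ} {x : ℝ} (he : c % 2 = 0) (h6 : 6 ≤ c) (hN : NP c)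
    (h13 : c = 6 → (zc c + 1) / 2 * D c x ≤ 29 / 25)
    (h21 : 10 ≤ c → (zc c + 1) / 2 * D c x ≤ 28 / 25) : th n (T c) (ch c) (cf x) = 0 := by
  have hds := ds_child c x
  rcases le_or_gt (D c x) 0 with hD | hD
  · exact dzon_neg _ _ _ _ (by rw [hds]; exact hD)
  · have hT : T c = c / 2 := by
      unfold T
      rw [if_pos he]
    rw [ch_even he] at hds ⊢
    rw [hT] at hds ⊢
    have hzc : zc (c / 2) = (zc c + 1) / 2 := by
      have h2 : ((c / 2 : ℕ) : ℝ) = c / 2 := by
        rw [Nat.cast_div (Nat.dvd_of_mod_eq_zero he) (by norm_num)]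
        norm_num
      unfold zc
      rw [h2]
      ring
    have hz7 : 7 ≤ zc (c / 2) := by
      have h3 : (3 : ℝ) ≤ ((c / 2 : ℕ) : ℝ) := by exact_mod_cast (by omega : 3 ≤ c / 2)
      unfold zc
      linarith
    have hB : zc (c / 2) * D c x ≤ 29 / 25 := by
      rw [hzc]
      rcases dzon_six he h6 hN with h | h
      · exact h13 h
      · exact (h21 h).trans (by norm_num)
    have hD1 : D c x < 1 := by
      by_contra hc
      have h4 : 7 * 1 ≤ zc (c / 2) * D c x :=
        mul_le_mul hz7 (not_lt.1 hc) (by norm_num) (by linarith)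
      norm_num at h4 hB
      linarith
    refine ih (c / 2) (cf x) (by omega) ⟨by rw [hds]; exact hD, by rw [hds]; exact hD1⟩ ?_
    rw [hds]
    rcases dzon_six he h6 hN with h | h
    · left
      refine ⟨by omega, by omega, ?_⟩
      unfold zx
      rw [if_pos (by omega)]
      exact hB
    · have hB2 : zc (c / 2) * D c x ≤ 28 / 25 := by
        rw [hzc]
        exact h21 h
      rcases Nat.mod_two_eq_zero_or_one (c / 2) with h7 | h7
      · exact Or.inr ⟨h7, hB2⟩
      · refine Or.inl ⟨h7, by omega, hB2.trans ?_⟩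
        unfold zx
        split_ifs <;> norm_num

private theorem dzon_cast {c : ℕ} {k : ℝ} {j : ℕ} (h : j ≤ c) (hk : 2 * (j : ℝ) + 1 = k) : k ≤ zc c := by
  have h1 : (j : ℝ) ≤ c := by exact_mod_cast h
  unfold zc
  linarith

/-- the right side of an even integer -/
private theorem dzon_r {n : ℕ} (ih : ∀ (c : ℕ) (x : ℝ), 1 ≤ c → adj c true x →
    ((c % 2 = 1 ∧ 3 ≤ c ∧ zc c * ds c true x ≤ zx c) ∨ (c % 2 = 0 ∧ zc c * ds c true x ≤ 28 / 25)) →
      th n c true x = 0) {c : ℕ} {x : ℝ} (he : c % 2 = 0) (h6 : 6 ≤ c) (hN : NP c)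
    (hx : adj c true x) (hz : zc c * ds c true x ≤ 28 / 25) : th n (T c) (ch c) (cf x) = 0 := by
  have hD : D c x = (zc c / 2 + ds c true x) * hs (ds c true x) + ds c true x / 2 := by
    conv_lhs => rw [← pc_ds c true x]
    rw [D_pc, if_pos he]
    simp only [if_true]
    unfold zc
    ring
  have h13 : (13 : ℝ) ≤ zc c := dzon_cast h6 (by norm_num)
  have hd := hx.1.le
  refine dzon_child ih he h6 hN (fun h => ?_) (fun h => ?_)
  · rw [hD]
    refine dzon_right (δ := 28 / 325) (ρ := 14 / 13) ?_ hd hz (by linarith) (hs_le _) (by linarith) (by norm_num)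
      (by norm_num)
    have h1 : 13 * ds c true x ≤ zc c * ds c true x := mul_le_mul_of_nonneg_right h13 hd
    linarith
  · rw [hD]
    have h21 : (21 : ℝ) ≤ zc c := dzon_cast h (by norm_num)
    refine dzon_right (δ := 28 / 525) (ρ := 22 / 21) ?_ hd hz (by linarith) (hs_le _) (by linarith) (by norm_num)
      (by norm_num)
    have h1 : 21 * ds c true x ≤ zc c * ds c true x := mul_le_mul_of_nonneg_right h21 hd
    linarith

/-- the left side of an even integer -/
private theorem dzon_l {n : ℕ} (ih : ∀ (c : ℕ) (x : ℝ), 1 ≤ c → adj c true x →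
    ((c % 2 = 1 ∧ 3 ≤ c ∧ zc c * ds c true x ≤ zx c) ∨ (c % 2 = 0 ∧ zc c * ds c true x ≤ 28 / 25)) →
      th n c true x = 0) {c : ℕ} {x : ℝ} (he : c % 2 = 0) (h6 : 6 ≤ c) (hN : NP c)
    (hx : adj c false x) (hf : Fre x) (hz : zc c * ds c false x ≤ 153 / 100) :
    th n (T c) (ch c) (cf x) = 0 := by
  have hD : D c x = (zc c / 2 - ds c false x) * hs (ds c false x) - ds c false x / 2 := by
    conv_lhs => rw [← pc_ds c false x]
    rw [D_pc, if_pos he]
    simp only [Bool.false_eq_true, if_false]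
    unfold zc
    ring
  have hD0 : 0 ≤ D c x := D_nonneg (Or.inl (by omega)) (by omega) hx hf
  rw [hD] at hD0
  have h13 : (13 : ℝ) ≤ zc c := dzon_cast h6 (by norm_num)
  have hd := hx.1.le
  have hd1 := hx.2
  refine dzon_child ih he h6 hN (fun h => ?_) (fun h => ?_)
  · rw [hD]
    exact dzon_left (ρ := 14 / 13) hd (by linarith) hz (by linarith) (hs_le _) (by linarith) (by norm_num)
      hD0 (by norm_num)
  · rw [hD]
    have h21 : (21 : ℝ) ≤ zc c := dzon_cast h (by norm_num)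
    exact dzon_left (ρ := 22 / 21) hd (by linarith) hz (by linarith) (hs_le _) (by linarith) (by norm_num)
      hD0 (by norm_num)

/-- children of powers of two have no cost -/
private theorem dzon_pow {n c : ℕ} (h : ¬ NP c) (h2 : 2 ≤ c) (x : ℝ) : th n (T c) (ch c) x = 0 := by
  obtain ⟨k, hk⟩ : ∃ k : ℕ, c = 2 ^ k := by
    unfold NP at h
    exact not_not.1 h
  rcases k with _ | k
  · rw [pow_zero] at hk
    omega
  · have he : c % 2 = 0 := by omega
    have hT : T c = 2 ^ k := by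
      unfold T
      rw [if_pos he]
      omega
    rw [hT, ch_even he]
    exact th_pow n k x

theorem dz_right : ∀ (n c : ℕ) (x : ℝ), 1 ≤ c → adj c true x →
    ((c % 2 = 1 ∧ 3 ≤ c ∧ zc c * ds c true x ≤ zx c) ∨ (c % 2 = 0 ∧ zc c * ds c true x ≤ 28 / 25)) → th n c true x = 0 := by
  intro n
  induction n with
  | zero =>
    intro c x _ _ _
    rfl
  | succ n ih =>
    intro c x h1 hx h
    rcases h with ⟨ho, h3, hz⟩ | ⟨he, hz⟩
    · have hds : ds c true x = x - c := by simp [ds]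
      have hT : Trp x := by
        have h0 := hx.1
        rw [hds] at h0 hz
        exact trp_zone ho h3 (by linarith) hz
      have hF : ¬ Fre x := fun a => a.1 hT
      refine dzon_succ n c true x ?_ (fun _ hf => absurd hf hF)
      unfold kR
      rw [(od_iff c).2 ho, if_pos rfl, if_neg (by omega), if_neg]
      rintro ⟨_, _, h4⟩
      exact hF (h4 hx.2)
    · refine dzon_succ n c true x (dzon_even he x) (fun _ _ => ?_)
      by_cases hN : NP c
      · have h6 : 6 ≤ c := by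
          rcases Nat.lt_or_ge c 3 with h7 | h7
          · have h8 : c = 2 := by omega
            exact absurd ⟨1, by rw [h8]; norm_num⟩ hN
          · exact np_even_ge he h7 hN
        exact dzon_r ih he h6 hN hx hz
      · exact dzon_pow hN (by omega) _

/-- free points nearer than the dead distance have no cost -/
theorem dz {n c : ℕ} {s : Bool} {x : ℝ} (h3 : 3 ≤ c) (hN : NP c) (hx : adj c s x) (hf : Fre x) (hd : ds c s x < dd c s) :
    th n (T c) (ch c) (cf x) = 0 := by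
  have hzc : 0 < zc c := by
    unfold zc
    positivity
  rcases Nat.mod_two_eq_zero_or_one c with he | ho
  · have h6 := np_even_ge he h3 hN
    unfold dd at hd
    rw [(od_false_iff c).2 he] at hd
    cases s
    · simp only [Bool.false_eq_true, if_false] at hd
      rw [lt_div_iff₀ hzc, mul_comm] at hd
      exact dzon_l (dz_right n) he h6 hN hx hf hd.le
    · simp only [Bool.false_eq_true, if_false, if_true] at hd
      rw [lt_div_iff₀ hzc, mul_comm] at hd
      exact dzon_r (dz_right n) he h6 hN hx hd.le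
  · unfold dd at hd
    rw [(od_iff c).2 ho, if_pos rfl] at hd
    exact absurd hx.1 (not_lt.2 hd.le)

/-- children of powers of two have no cost -/
theorem dz_pow {n c : ℕ} (h : ¬ NP c) (h2 : 2 ≤ c) (x : ℝ) : th n (T c) (ch c) x = 0 := dzon_pow h h2 x

end Pool.Agent.Lib.MP_a247fa_nt.X
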