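import Pool.Agent.Lib.MP_a247fa_nt.X.NatA
import Pool.Agent.Lib.MP_a247fa_nt.V.Branch
import Pool.Agent.Lib.MP_a247fa_nt.V.Disp
import Pool.Agent.Lib.MP_a247fa_nt.V.G0

/-! DSA (50 min, old scale).
Free points near `c ≥ 1` on the side `s`. The unit is `i = c` (`s = true`) or `i = c - 1` (`s = false`, then `c ≥ 2`: for `c = 1`, `s = false` the point is in `(0,1)`; exclude it by the hypothesis `2 ≤ c ∨ s = true`).
`Br i p q h` (`exists_br`), `T_eq_even`, `T_eq_odd`.

`ds_child`: `D c x = ds (T c) (ch c) (cf x)`: unfold; even `c`: `ch c = true`, `T c = c/2`; odd `c`: `ch c = false`, `T c = (3c+1)/2`.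
`D_pc`: `D c (pc c s d)`: `D_even_add`, .. ; `ds_pc`.
Four cases (`x` in the unit, `x = pc c s (ds c s x)`):
 even `c`, right: unit `c` even, no `Trp`, no `Fld` (`⌊x⌋₊ = c` even); `cf` strictly increasing on `[c, c+1]`, `cf c = c/2`.
 even `c`, left: unit `c-1` odd; `Fld` is the part nearest to `c` (`q < x`), where `cf x < c/2`, `D < 0`; on `[p, q]` `cf` is strictly decreasing with `cf q = lo (c-1) = c/2`, so `D = cf x - c/2` increases with the distance `c - x`.
 odd `c`, right: unit `c` odd: `Trp` is `x ≤ p`, there `cf x ≥ T c`, `D ≤ 0`; on `[p, q]` `cf` decreases, `D = T c - cf x` increases with `x`.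
 odd `c`, left: unit `c-1` even (`c ≥ 3`): `cf` increases on `[c-1, c]`, `cf c = T c`, so `D = T c - cf x` increases with `c - x`.
`D_pos`: a free point has `D > 0`. `D_lt`: `y` free, `x` nearer to `c` (`ds c s x < ds c s y`), both in the unit: if `x` is free: strict monotonicity on `[p, q]`; otherwise `x` is between `c` and the free interval (`x ≤ p` in the case odd right, `x > q` in the
case even left; in the other two units everything is free), so `D c x ≤ 0 < D c y`. `fre_of_pos`: same distinction: `x` nearer to `c` than the free `y` and `0 < D c x` implies `x` free.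
`D_between`: `w` is free by `fre_of_pos` (far point `y`), the free points of the unit form the interval `(p, q]` or the whole unit, so `x` (between `w` and `y`) is free; `D_lt`.
 `floor_adj`: `⌊x⌋₊ = c` or `c - 1`. -/

set_option autoImplicit false

namespace Pool.Agent.Lib.MP_a247fa_nt.X

open Set MeasureTheory
open Pool.Agent.Lib.MP_a247fa_nt.W Pool.Agent.Lib.MP_a247fa_nt.V

theorem ds_pc (c : ℕ) (s : Bool) (d : ℝ) : ds c s (pc c s d) = d := by
  cases s
  · simp [ds, pc]
  · simp [ds, pc]

theorem pc_ds (c : ℕ) (s : Bool) (x : ℝ) : pc c s (ds c s x) = x := by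
  cases s
  · simp [ds, pc]
  · simp [ds, pc]

private theorem ds_t (c : ℕ) (x : ℝ) : ds c true x = x - c := by simp [ds]

private theorem ds_f (c : ℕ) (x : ℝ) : ds c false x = c - x := by simp [ds]

private theorem dsa_floor {i : ℕ} {x : ℝ} (hx : x ∈ Ioo (i : ℝ) (i + 1)) : ⌊x⌋₊ = i := by
  have h0 : (0 : ℝ) ≤ i := Nat.cast_nonneg i
  rw [Nat.floor_eq_iff (by linarith [hx.1])]
  exact ⟨hx.1.le, hx.2⟩

private theorem adj_t {c : ℕ} {x : ℝ} (h : adj c true x) : x ∈ Ioo (c : ℝ) (c + 1) := by
  unfold adj at h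
  rw [ds_t] at h
  constructor <;> linarith [h.1, h.2]

private theorem adj_f {i : ℕ} {x : ℝ} (h : adj (i + 1) false x) : x ∈ Ioo (i : ℝ) (i + 1) := by
  unfold adj at h
  rw [ds_f] at h
  push_cast at h
  constructor <;> linarith [h.1, h.2]

theorem floor_adj_true {c : ℕ} {x : ℝ} (h : adj c true x) : ⌊x⌋₊ = c := dsa_floor (adj_t h)

theorem floor_adj_false {c : ℕ} (hc : 1 ≤ c) {x : ℝ} (h : adj c false x) : ⌊x⌋₊ = c - 1 := by
  obtain ⟨i, rfl⟩ : ∃ i, c = i + 1 := ⟨c - 1, by omega⟩
  exact dsa_floor (adj_f h)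

theorem ds_child (c : ℕ) (x : ℝ) : ds (T c) (ch c) (cf x) = D c x := by
  rcases Nat.mod_two_eq_zero_or_one c with h | h
  · have e := T_eq_even h
    rw [ch_even h, ds_t, e.1, e.2.2.1]
    unfold D
    rw [if_pos h]
  · have e := T_eq_odd h
    rw [ch_odd h, ds_f, e.1, e.2.2.2]
    unfold D
    rw [if_neg (by omega)]

/-- the displacement at distance `d` -/
theorem D_pc {c : ℕ} (s : Bool) (d : ℝ) : D c (pc c s d) =
    (c + 1 / 2 + (if s = true then d else -d)) * hs d +
      (if c % 2 = 0 then (if s = true then d / 2 else -(d / 2)) else (if s = true then -(3 * d / 2) else 3 * d / 2)) := by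
  rcases Nat.mod_two_eq_zero_or_one c with h | h
  · rw [if_pos h]
    cases s
    · simp only [pc, Bool.false_eq_true, if_false]
      rw [D_even_sub h]
      ring
    · simp only [pc, if_true]
      rw [D_even_add h]
  · rw [if_neg (by omega : ¬ c % 2 = 0)]
    cases s
    · simp only [pc, Bool.false_eq_true, if_false]
      rw [D_odd_sub h]
      ring
    · simp only [pc, if_true]
      rw [D_odd_add h]
      ring

/-- in an even unit all points are free -/
theorem fre_even {x : ℝ} (h : ⌊x⌋₊ % 2 = 0) : Fre x := by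
  refine ⟨fun a => ?_, fun a => ?_⟩
  · have := a.1
    omega
  · have := a.1
    omega

private theorem D_e {c : ℕ} (h : c % 2 = 0) (x : ℝ) : D c x = cf x - c / 2 := by
  unfold D
  rw [if_pos h]

private theorem D_o {c : ℕ} (h : c % 2 = 1) (x : ℝ) : D c x = (3 * c + 1) / 2 - cf x := by
  unfold D
  rw [if_neg (by omega)]

/-- the structure of the side `s` of `c` -/
private structure Sd (c : ℕ) (s : Bool) (e1 e2 : ℝ) : Prop where
  fre : ∀ x, adj c s x → Fre x → e1 ≤ ds c s x ∧ ds c s x ≤ e2
  fre' : ∀ x, adj c s x → e1 < ds c s x → ds c s x < e2 → Fre x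
  neg : ∀ x, adj c s x → ds c s x ≤ e1 → D c x ≤ 0
  mono : ∀ x y, adj c s x → adj c s y → e1 ≤ ds c s x → ds c s x < ds c s y → ds c s y ≤ e2 → D c x < D c y
  near : ∀ x y, adj c s x → adj c s y → Fre y → ds c s x < e1 → D c x < D c y
  pos : ∀ y, adj c s y → Fre y → 0 ≤ D c y

private theorem exists_sd {c : ℕ} {s : Bool} (hc : 2 ≤ c ∨ s = true) (h1 : 1 ≤ c) : ∃ e1 e2, Sd c s e1 e2 := by
  cases s
  · -- left side
    obtain ⟨i, rfl⟩ : ∃ i, c = i + 1 := ⟨c - 1, by omega⟩
    have hi : 1 ≤ i := by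
      rcases hc with h | h
      · omega
      · simp at h
    obtain ⟨p, q, h, hb⟩ := exists_br hi
    have hcast : ((i + 1 : ℕ) : ℝ) = (i : ℝ) + 1 := by push_cast; ring
    rcases Nat.mod_two_eq_zero_or_one i with he | ho
    · -- `c` odd
      have hco : (i + 1) % 2 = 1 := by omega
      obtain ⟨hm, hp, hq, hcp, hcq⟩ := hb.even he
      subst hp hq
      have hq2 : cf ((i : ℝ) + 1) = (3 * ((i : ℝ) + 1) + 1) / 2 := by
        rw [hcq, (T_eq_even he).2.2.2]
        ring
      refine ⟨0, 1, ⟨fun x hx _ => ⟨hx.1.le, hx.2.le⟩, fun x hx _ _ => fre_even ?_, fun x hx h0 => ?_, ?_, ?_, ?_⟩⟩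
      · rw [dsa_floor (adj_f hx)]
        exact he
      · exact absurd hx.1 (by linarith)
      · intro x y hx hy _ hxy _
        have h3 := adj_f hx
        have h4 := adj_f hy
        rw [ds_f, ds_f] at hxy
        rw [D_o hco, D_o hco]
        have := hm ⟨h4.1.le, h4.2.le⟩ ⟨h3.1.le, h3.2.le⟩ (by linarith : y < x)
        linarith
      · intro x y hx _ _ h0
        exact absurd hx.1 (by linarith)
      · intro y hy _
        have h4 := adj_f hy
        rw [D_o hco, hcast]
        have := hm ⟨h4.1.le, h4.2.le⟩ ⟨by linarith, le_refl _⟩ h4.2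
        linarith
    · -- `c` even
      have hce : (i + 1) % 2 = 0 := by omega
      obtain ⟨hm, hp, hq, hcp, hcq⟩ := hb.odd ho
      have hq2 : cf q = ((i : ℝ) + 1) / 2 := by
        rw [hcq, (T_eq_odd ho).2.2.1]
      have hfld : ∀ x ∈ Ioo (i : ℝ) (i + 1), Fld x → cf x < ((i : ℝ) + 1) / 2 := by
        intro x hx hf
        have := hf.2
        rw [dsa_floor hx] at this
        exact this
      refine ⟨(i : ℝ) + 1 - q, (i : ℝ) + 1 - p, ⟨fun x hx hf => ?_, fun x hx h3 h4 => ?_, fun x hx h3 => ?_, ?_, ?_, ?_⟩⟩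
      · rw [ds_f, hcast]
        have h5 := adj_f hx
        have h6 : ¬ x ≤ p := fun a => hf.1 ((hb.trp x h5).2 a)
        have h7 : ¬ q < x := fun a => hf.2 ((hb.fld x h5).2 a)
        constructor <;> linarith
      · rw [ds_f, hcast] at h3 h4
        have h5 := adj_f hx
        refine ⟨fun a => ?_, fun a => ?_⟩
        · have := (hb.trp x h5).1 a
          linarith
        · have := (hb.fld x h5).1 a
          linarith
      · rw [ds_f, hcast] at h3
        have h5 := adj_f hx
        rw [D_e hce, hcast]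
        rcases (by linarith : q ≤ x).lt_or_eq with a | a
        · have := hfld x h5 ((hb.fld x h5).2 a)
          linarith
        · rw [← a, hq2]
          linarith
      · intro x y hx hy h3 h4 h5
        rw [ds_f, hcast] at h3 h5
        rw [ds_f, ds_f] at h4
        rw [D_e hce, D_e hce]
        have := hm (⟨by linarith, by linarith⟩ : y ∈ Icc p q) (⟨by linarith, by linarith⟩ : x ∈ Icc p q)
          (by linarith : y < x)
        linarith
      · intro x y hx hy hf h3
        rw [ds_f, hcast] at h3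
        have h5 := adj_f hx
        have h6 := adj_f hy
        have h7 := hfld x h5 ((hb.fld x h5).2 (by linarith))
        have h8 : ¬ y ≤ p := fun a => hf.1 ((hb.trp y h6).2 a)
        have h9 : ¬ q < y := fun a => hf.2 ((hb.fld y h6).2 a)
        have h10 := hm.antitoneOn (⟨by linarith, by linarith⟩ : y ∈ Icc p q)
          (⟨hb.lt.le, le_refl _⟩ : q ∈ Icc p q) (by linarith : y ≤ q)
        rw [D_e hce, D_e hce, hcast]
        linarith
      · intro y hy hf
        have h6 := adj_f hy
        have h8 : ¬ y ≤ p := fun a => hf.1 ((hb.trp y h6).2 a)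
        have h9 : ¬ q < y := fun a => hf.2 ((hb.fld y h6).2 a)
        have h10 := hm.antitoneOn (⟨by linarith, by linarith⟩ : y ∈ Icc p q)
          (⟨hb.lt.le, le_refl _⟩ : q ∈ Icc p q) (by linarith : y ≤ q)
        rw [D_e hce, hcast]
        linarith
  · -- right side
    obtain ⟨p, q, h, hb⟩ := exists_br h1
    rcases Nat.mod_two_eq_zero_or_one c with he | ho
    · -- `c` even
      obtain ⟨hm, hp, hq, hcp, hcq⟩ := hb.even he
      subst hp hq
      have hp2 : cf (c : ℝ) = (c : ℝ) / 2 := by
        rw [hcp, (T_eq_even he).2.2.1]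
      refine ⟨0, 1, ⟨fun x hx _ => ⟨hx.1.le, hx.2.le⟩, fun x hx _ _ => fre_even ?_, fun x hx h0 => ?_, ?_, ?_, ?_⟩⟩
      · rw [dsa_floor (adj_t hx)]
        exact he
      · exact absurd hx.1 (by linarith)
      · intro x y hx hy _ hxy _
        have h3 := adj_t hx
        have h4 := adj_t hy
        rw [ds_t, ds_t] at hxy
        rw [D_e he, D_e he]
        have := hm ⟨h3.1.le, h3.2.le⟩ ⟨h4.1.le, h4.2.le⟩ (by linarith : x < y)
        linarith
      · intro x y hx _ _ h0
        exact absurd hx.1 (by linarith)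
      · intro y hy _
        have h4 := adj_t hy
        rw [D_e he]
        have := hm ⟨le_refl _, by linarith⟩ ⟨h4.1.le, h4.2.le⟩ h4.1
        linarith
    · -- `c` odd
      obtain ⟨hm, hp, hq, hcp, hcq⟩ := hb.odd ho
      have hp2 : cf p = (3 * (c : ℝ) + 1) / 2 := by
        rw [hcp, (T_eq_odd ho).2.2.2]
      have htrp : ∀ x ∈ Ioo (c : ℝ) (c + 1), Trp x → (3 * (c : ℝ) + 1) / 2 ≤ cf x := by
        intro x hx hf
        have := hf.2
        rw [dsa_floor hx, (T_eq_odd ho).1, (T_eq_odd ho).2.2.2] at this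
        exact this
      refine ⟨p - c, q - c, ⟨fun x hx hf => ?_, fun x hx h3 h4 => ?_, fun x hx h3 => ?_, ?_, ?_, ?_⟩⟩
      · rw [ds_t]
        have h5 := adj_t hx
        have h6 : ¬ x ≤ p := fun a => hf.1 ((hb.trp x h5).2 a)
        have h7 : ¬ q < x := fun a => hf.2 ((hb.fld x h5).2 a)
        constructor <;> linarith
      · rw [ds_t] at h3 h4
        have h5 := adj_t hx
        refine ⟨fun a => ?_, fun a => ?_⟩
        · have := (hb.trp x h5).1 a
          linarith
        · have := (hb.fld x h5).1 a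
          linarith
      · rw [ds_t] at h3
        have h5 := adj_t hx
        rw [D_o ho]
        have := htrp x h5 ((hb.trp x h5).2 (by linarith))
        linarith
      · intro x y hx hy h3 h4 h5
        rw [ds_t] at h3 h5
        rw [ds_t, ds_t] at h4
        rw [D_o ho, D_o ho]
        have := hm (⟨by linarith, by linarith⟩ : x ∈ Icc p q) (⟨by linarith, by linarith⟩ : y ∈ Icc p q)
          (by linarith : x < y)
        linarith
      · intro x y hx hy hf h3
        rw [ds_t] at h3
        have h5 := adj_t hx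
        have h6 := adj_t hy
        have h7 := htrp x h5 ((hb.trp x h5).2 (by linarith))
        have h8 : ¬ y ≤ p := fun a => hf.1 ((hb.trp y h6).2 a)
        have h9 : ¬ q < y := fun a => hf.2 ((hb.fld y h6).2 a)
        have h10 := hm (⟨le_refl _, hb.lt.le⟩ : p ∈ Icc p q)
          (⟨by linarith, by linarith⟩ : y ∈ Icc p q) (by linarith : p < y)
        rw [D_o ho, D_o ho]
        linarith
      · intro y hy hf
        have h6 := adj_t hy
        have h8 : ¬ y ≤ p := fun a => hf.1 ((hb.trp y h6).2 a)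
        have h9 : ¬ q < y := fun a => hf.2 ((hb.fld y h6).2 a)
        have h10 := hm (⟨le_refl _, hb.lt.le⟩ : p ∈ Icc p q)
          (⟨by linarith, by linarith⟩ : y ∈ Icc p q) (by linarith : p < y)
        rw [D_o ho]
        linarith

private theorem ds_inj {c : ℕ} {s : Bool} {x y : ℝ} (h : ds c s x = ds c s y) : x = y := by
  rw [← pc_ds c s x, ← pc_ds c s y, h]

/-- a free point has nonnegative displacement (zero only at the boundary of a fold) -/
theorem D_nonneg {c : ℕ} {s : Bool} {x : ℝ} (hc : 2 ≤ c ∨ s = true) (h1 : 1 ≤ c) (hx : adj c s x) (hf : Fre x) : 0 ≤ D c x := by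
  obtain ⟨e1, e2, hs⟩ := exists_sd hc h1
  exact hs.pos x hx hf

theorem D_pos {c : ℕ} {s : Bool} {x : ℝ} (hc : 2 ≤ c ∨ s = true) (h1 : 1 ≤ c) (hx : adj c s x) (hf : Fre x)
    (hne : D c x ≠ 0) : 0 < D c x :=
  lt_of_le_of_ne (D_nonneg hc h1 hx hf) (Ne.symm hne)

theorem D_lt {c : ℕ} {s : Bool} {x y : ℝ} (hc : 2 ≤ c ∨ s = true) (h1 : 1 ≤ c) (hx : adj c s x) (hy : adj c s y) (hf : Fre y)
    (hxy : ds c s x < ds c s y) : D c x < D c y := by
  obtain ⟨e1, e2, hs⟩ := exists_sd hc h1
  rcases lt_or_ge (ds c s x) e1 with h | h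
  · exact hs.near x y hx hy hf h
  · exact hs.mono x y hx hy h hxy (hs.fre y hy hf).2

theorem fre_of_pos {c : ℕ} {s : Bool} {x y : ℝ} (hc : 2 ≤ c ∨ s = true) (h1 : 1 ≤ c) (hx : adj c s x) (hy : adj c s y)
    (hf : Fre y) (hxy : ds c s x ≤ ds c s y) (hD : 0 < D c x) : Fre x := by
  obtain ⟨e1, e2, hs⟩ := exists_sd hc h1
  rcases hxy.lt_or_eq with h | h
  · have h3 : ¬ ds c s x ≤ e1 := fun a => absurd (hs.neg x hx a) (by linarith)
    have h4 := (hs.fre y hy hf).2
    exact hs.fre' x hx (by linarith) (by linarith)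
  · rw [ds_inj h]
    exact hf

/-- between a point of positive displacement and a farther free point all points are free, the displacement increases -/
theorem D_between {c : ℕ} {s : Bool} {w x y : ℝ} (hc : 2 ≤ c ∨ s = true) (h1 : 1 ≤ c) (hw : adj c s w) (hx : adj c s x)
    (hy : adj c s y) (hf : Fre y) (hwx : ds c s w < ds c s x) (hxy : ds c s x ≤ ds c s y) (hD : 0 < D c w) :
    Fre x ∧ D c w < D c x := by
  have hfx : Fre x := by
    obtain ⟨e1, e2, hs⟩ := exists_sd hc h1
    rcases hxy.lt_or_eq with h | h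
    · have h3 : ¬ ds c s w ≤ e1 := fun a => absurd (hs.neg w hw a) (by linarith)
      have h4 := (hs.fre y hy hf).2
      exact hs.fre' x hx (by linarith) (by linarith)
    · rw [ds_inj h]
      exact hf
  exact ⟨hfx, D_lt hc h1 hw hx hfx hwx⟩

end Pool.Agent.Lib.MP_a247fa_nt.X
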