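import Pool.Agent.Lib.MP_a247fa_nt.X.ThB
import Pool.Agent.Lib.MP_a247fa_nt.X.DsA

/-! DEC (35 min, old scale).
`dec`: `x ≥ 1` not an integer, `i = ⌊x⌋₊ ≥ 1`: `adj i true x`, `adj (i+1) false x`. Fold indicator: `Nf` has `1` iff `Fld x`, `En (i+1)`: this is the first part of `tau n (i+1) false x` (the first part of `tau n i true x` is `0`). If `Fre x` and `2 ≤ i`: even `i`: `T i = i/2 = lo i`, `ch i = true`; `T (i+1) = hi i`, `ch (i+1) = false`;
odd `i`: `T i = hi i`, `ch i = false`; `T (i+1) = lo i`, `ch (i+1) = true` (`T_eq_even`, `T_eq_odd`): the two `th` terms are exactly the second parts of `tau n i true x`, `tau n (i+1) false x`, in one or the other order. For `i = 1` or `x` not free `Nf` has no further terms (`tau ≥ 0`, `qf ≥ 0`).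
`bm_nf`: `Nf n x` is a countable case distinction in `⌊x⌋₊`: measurable (`Nat.measurable_floor`, composition with a function on `ℕ × ..`: for measurability of `x ↦ th n (lo ⌊x⌋₊) true (cf x)` use `measurable_from_prod_countable`-type lemmas or: on each set `{⌊x⌋₊ = i}` it equals a measurable function; `measurable_of_..` / `Measurable.piecewise`
over a countable partition, e.g. `measurable_of_restrict_..`; as for `bm_nx` in V.MeasV). Boundedness of `Nf` on all of `ℝ` is not clear, so here only measurability on bounded sets is used: `bm_nfb`: for every `b`, `x ↦ if x < b then Nf n x else 0` is `BM` (finitely many `i`).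
`dec_itg`: induction on `b`: one unit `(c, c+1)`: `itg_mono`, `itg_add`; the integral over `(a, b)` splits (`itg_split` for the truncated function, which has the same integrals over subsets of `(a, b)`). -/

set_option autoImplicit false

namespace Pool.Agent.Lib.MP_a247fa_nt.X

open Set MeasureTheory
open Pool.Agent.Lib.MP_a247fa_nt.W Pool.Agent.Lib.MP_a247fa_nt.V

private theorem Dec_kR_nonneg (c : ℕ) (s : Bool) (x : ℝ) : 0 ≤ kR c s x := by
  unfold kR
  split_ifs <;> first | exact le_rfl | exact zero_le_one | exact hr_nonneg _ _ _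

private theorem Dec_th_nonneg (n c : ℕ) (s : Bool) (x : ℝ) : 0 ≤ th n c s x := by
  induction n generalizing c s x with
  | zero => exact le_rfl
  | succ n ih =>
    show 0 ≤ kR c s x + _
    refine add_nonneg (Dec_kR_nonneg c s x) ?_
    split_ifs
    · exact ih _ _ _
    · exact le_rfl

theorem nf_nonneg (n : ℕ) (x : ℝ) : 0 ≤ Nf n x := by
  unfold Nf
  refine add_nonneg ?_ ?_
  · split_ifs <;> norm_num
  · split_ifs
    · exact add_nonneg (add_nonneg (ph_nonneg _) (Dec_th_nonneg _ _ _ _)) (Dec_th_nonneg _ _ _ _)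
    · exact le_rfl

theorem dec {n i : ℕ} {x : ℝ} (h1 : 1 ≤ i) (hx : x ∈ Ioo (i : ℝ) (i + 1)) :
    Nf n x ≤ qf x + tau n i true x + tau n (i + 1) false x := by
  have fl : ⌊x⌋₊ = i := by
    have h0 : (0 : ℝ) ≤ i := Nat.cast_nonneg i
    rw [Nat.floor_eq_iff (by linarith [hx.1])]
    exact ⟨hx.1.le, hx.2⟩
  have a1 : adj i true x := by
    unfold adj ds
    simp only [if_true]
    constructor <;> linarith [hx.1, hx.2]
  have a2 : adj (i + 1) false x := by
    unfold adj ds
    simp only [Bool.false_eq_true, if_false]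
    push_cast
    constructor <;> linarith [hx.1, hx.2]
  have t1 := tau_nonneg n i true x
  unfold Nf qf
  rw [fl]
  by_cases hF : Fre x
  · have hFl : ¬ Fld x := hF.2
    rw [if_neg (by rintro ⟨h, -⟩; exact hFl h)]
    by_cases h2 : 2 ≤ i
    · rw [if_pos ⟨hF, h2⟩, if_pos ⟨hF, h2⟩]
      unfold tau
      rw [if_neg (by rintro ⟨-, -, h, -⟩; exact hFl h), if_pos ⟨a1, hF⟩,
        if_neg (by rintro ⟨-, -, h, -⟩; exact hFl h), if_pos ⟨a2, hF⟩]
      rcases (by omega : i % 2 = 0 ∨ i % 2 = 1) with he | ho
      · obtain ⟨e1, e2, -, -⟩ := T_eq_even he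
        rw [e1, e2, ch_even he, ch_odd (by omega : (i + 1) % 2 = 1)]
        linarith
      · obtain ⟨e1, e2, -, -⟩ := T_eq_odd ho
        rw [e1, e2, ch_odd ho, ch_even (by omega : (i + 1) % 2 = 0)]
        linarith
    · rw [if_neg (by rintro ⟨-, h⟩; exact h2 h), if_neg (by rintro ⟨-, h⟩; exact h2 h)]
      have t2 := tau_nonneg n (i + 1) false x
      linarith
  · rw [if_neg (by rintro ⟨h, -⟩; exact hF h : ¬ (Fre x ∧ 2 ≤ i)),
      if_neg (by rintro ⟨h, -⟩; exact hF h : ¬ (Fre x ∧ 2 ≤ i))]
    by_cases hE : Fld x ∧ En (i + 1) = true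
    · rw [if_pos hE]
      have h3 : tau n (i + 1) false x = 1 := by
        unfold tau
        rw [if_pos ⟨rfl, hE.2, hE.1, a2⟩,
          if_neg (by rintro ⟨-, h⟩; exact hF h : ¬ (adj (i + 1) false x ∧ Fre x)), add_zero]
      rw [h3]
      linarith
    · rw [if_neg hE]
      have t2 := tau_nonneg n (i + 1) false x
      linarith

open Classical in
theorem bm_nfb (n b : ℕ) : BM (fun x => if x < b then Nf n x else 0) := by
  have hcm := continuous_cf.measurable
  refine ⟨?_, ?_⟩
  · refine Measurable.ite (measurableSet_lt measurable_id measurable_const) ?_ measurable_const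
    unfold Nf
    refine Measurable.add ?_ ?_
    · refine Measurable.ite ?_ measurable_const measurable_const
      exact meas_fld.inter (Nat.measurable_floor
        (MeasurableSet.of_discrete (s := {m : ℕ | En (m + 1) = true})))
    · refine Measurable.ite ?_ ?_ measurable_const
      · exact meas_fre.inter (Nat.measurable_floor
          (MeasurableSet.of_discrete (s := {m : ℕ | 2 ≤ m})))
      · have g1 : Measurable (fun p : ℕ × ℝ => th n (lo p.1) true p.2) :=
          measurable_from_prod_countable_right fun m => (bm_th n (lo m) true).1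
        have g2 : Measurable (fun p : ℕ × ℝ => th n (hi p.1) false p.2) :=
          measurable_from_prod_countable_right fun m => (bm_th n (hi m) false).1
        have hp : Measurable (fun x : ℝ => (⌊x⌋₊, cf x)) := Nat.measurable_floor.prodMk hcm
        exact ((bm_ph.1.comp hcm).add (g1.comp hp)).add (g2.comp hp)
  · -- bound
    obtain ⟨C0, hC0⟩ := bm_ph.2
    have hth : ∀ c s, ∃ C : ℝ, ∀ x, |th n c s x| ≤ C := fun c s => (bm_th n c s).2
    choose B hB using hth
    have hC0' : 0 ≤ C0 := (abs_nonneg _).trans (hC0 0)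
    have hB' : ∀ c s, 0 ≤ B c s := fun c s => (abs_nonneg _).trans (hB c s 0)
    refine ⟨1 + (C0 + ∑ i ∈ Finset.range (b + 1), B (lo i) true + ∑ i ∈ Finset.range (b + 1), B (hi i) false), ?_⟩
    intro x
    have hs1 : 0 ≤ ∑ i ∈ Finset.range (b + 1), B (lo i) true := Finset.sum_nonneg fun i _ => hB' _ _
    have hs2 : 0 ≤ ∑ i ∈ Finset.range (b + 1), B (hi i) false := Finset.sum_nonneg fun i _ => hB' _ _
    show |if x < (b : ℝ) then Nf n x else 0| ≤ _
    by_cases hx : x < b
    · rw [if_pos hx, abs_of_nonneg (nf_nonneg n x)]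
      unfold Nf
      have hfl : ⌊x⌋₊ ∈ Finset.range (b + 1) := by
        rw [Finset.mem_range]
        have : ⌊x⌋₊ ≤ b := Nat.floor_le_of_le hx.le
        omega
      have e1 : B (lo ⌊x⌋₊) true ≤ ∑ i ∈ Finset.range (b + 1), B (lo i) true :=
        Finset.single_le_sum (f := fun i => B (lo i) true) (fun i _ => hB' _ _) hfl
      have e2 : B (hi ⌊x⌋₊) false ≤ ∑ i ∈ Finset.range (b + 1), B (hi i) false :=
        Finset.single_le_sum (f := fun i => B (hi i) false) (fun i _ => hB' _ _) hfl
      have e3 := (le_abs_self _).trans (hC0 (cf x))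
      have e4 := (le_abs_self _).trans (hB (lo ⌊x⌋₊) true (cf x))
      have e5 := (le_abs_self _).trans (hB (hi ⌊x⌋₊) false (cf x))
      refine add_le_add ?_ ?_
      · split_ifs <;> norm_num
      · split_ifs
        · linarith
        · linarith
    · rw [if_neg hx, abs_zero]
      linarith

open Classical in
private theorem Dec_trunc {ν : Measure ℝ} (n : ℕ) {b : ℕ} {u v : ℝ} (h : v ≤ b) :
    itg ν (fun x => if x < b then Nf n x else 0) u v = itg ν (Nf n) u v := by
  unfold itg
  refine setIntegral_congr_fun measurableSet_Ioo ?_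
  intro x hx
  show (if x < b then Nf n x else 0) = Nf n x
  rw [if_pos (hx.2.trans_le h)]

theorem nf_itg_split {ν : Measure ℝ} [IsFiniteMeasure ν] [NullSingletonClass ν] (n : ℕ) {a c b : ℕ} (h1 : a ≤ c) (h2 : c ≤ b) :
    itg ν (Nf n) a b = itg ν (Nf n) a c + itg ν (Nf n) c b := by
  have h1' : (a : ℝ) ≤ c := by exact_mod_cast h1
  have h2' : (c : ℝ) ≤ b := by exact_mod_cast h2
  have h := itg_split (ν := ν) (bm_nfb n b) h1' h2'
  rw [Dec_trunc n le_rfl, Dec_trunc n h2', Dec_trunc n le_rfl] at h
  exact h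

theorem dec_itg {ν : Measure ℝ} [IsFiniteMeasure ν] [NullSingletonClass ν] (n : ℕ) {a b : ℕ} (h1 : 1 ≤ a) (hab : a ≤ b) :
    itg ν (Nf n) a b ≤ itg ν qf a b + ∑ c ∈ Finset.Ico a b,
      (itg ν (tau n c true) c (c + 1) + itg ν (tau n (c + 1) false) c (c + 1)) := by
  induction b, hab using Nat.le_induction with
  | base => simp [itg]
  | succ b hab ih =>
    have hab' : (a : ℝ) ≤ b := by exact_mod_cast hab
    have e1 := nf_itg_split (ν := ν) n hab (Nat.le_succ b)
    have e2 := itg_split (ν := ν) bm_qf (x := (a : ℝ)) (y := b) (z := ((b + 1 : ℕ) : ℝ)) hab'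
      (by push_cast; linarith)
    rw [Nat.succ_eq_add_one] at e1
    rw [e1, e2, Finset.sum_Ico_succ_top hab]
    have e3 : itg ν (Nf n) b ((b + 1 : ℕ) : ℝ) ≤ itg ν qf b ((b + 1 : ℕ) : ℝ) +
        (itg ν (tau n b true) b (b + 1) + itg ν (tau n (b + 1) false) b (b + 1)) := by
      push_cast
      have t1 : itg ν (fun x => if x < ((b + 1 : ℕ) : ℝ) then Nf n x else 0) b ((b : ℝ) + 1) =
          itg ν (Nf n) b ((b : ℝ) + 1) := Dec_trunc n (by push_cast; exact le_rfl)
      rw [← t1]
      rw [← itg_add (bm_tau n b true) (bm_tau n (b + 1) false),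
        ← itg_add bm_qf (bm_add (bm_tau n b true) (bm_tau n (b + 1) false))]
      refine itg_mono (bm_nfb n (b + 1)) (bm_add bm_qf (bm_add (bm_tau n b true) (bm_tau n (b + 1) false))) ?_
      intro x hx
      rw [if_pos (by push_cast; exact hx.2)]
      have := dec (n := n) (i := b) (by omega) hx
      linarith
    linarith

end Pool.Agent.Lib.MP_a247fa_nt.X
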