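import Pool.Agent.Lib.MP_a247fa_nt.X.LDefs
import Pool.Agent.Lib.MP_a247fa_nt.V.Defs

/-! DEFS. Theorem W2 (MP_a247fa_nt): the real functions. Paper proof: /team-store/BJ_W2.md.

`K = (a, b)` integers, `ν` in the class CR(a,b). `FF n`: the points whose first capture, within `n` steps, is a fold at a
suspicious even integer `e` (`En e = true`). Statement `PX n`: `ν (FF n ∩ (a,b)) ≤ ∫ ph + ∫ th n a true + ∫ th n b false`.
`s = true` is the right side of an integer, `s = false` the left side. The vertex `(c, s)` has the child `(T c, ch c)`. -/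

set_option autoImplicit false

namespace Pool.Agent.Lib.MP_a247fa_nt.X

open Set MeasureTheory
open Pool.Agent.Lib.MP_a247fa_nt.W Pool.Agent.Lib.MP_a247fa_nt.V

/-- `2 c + 1` -/
noncomputable def zc (c : ℕ) : ℝ := 2 * c + 1

/-- the potential -/
noncomputable def ph (x : ℝ) : ℝ :=
  if x < 1024 then ((Pn ⌊x⌋₊ : ℝ) + ((Pn (⌊x⌋₊ + 1) : ℝ) - Pn ⌊x⌋₊) * (x - ⌊x⌋₊)) / 4294967296
  else (AA : ℝ) / 4294967296 - 3 / x

/-- the end cost `V c` -/
noncomputable def Vr (c : ℕ) : ℝ := (Vn c : ℝ) / 4294967296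

/-- width of the suspicious fold at `c`, in units `1/zc c` -/
noncomputable def fw (c : ℕ) : ℝ := if En c = true then 407 / 1000 else 0

/-- the cost of an interior integer -/
noncomputable def Wr (c : ℕ) : ℝ :=
  if c < 2048 then (Wn c : ℝ) / 4294967296
  else (fw c + 2 * Vr c) / (zc c * (2 - 15 / 512) - 11 / 5)

/-- the levels -/
noncomputable def hr (l c : ℕ) (s : Bool) : ℝ :=
  if c < 2048 then
    ((if l = 1 then h1 c s else if l = 2 then h2 c s else if l = 3 then h3 c s else if l = 4 then h4 c s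
      else h5 c s : ℕ) : ℝ) / 4294967296
  else (if l = 1 then 61 / 50 else if l = 2 then 109 / 100 else if l = 3 then 63 / 100 else 11 / 100) / c

/-- side of the child: `true` (right) for even `c`, `false` (left) for odd `c` -/
def ch (c : ℕ) : Bool := cond (od c) false true

/-- signed distance of `x` from `c`, positive on the side `s` -/
noncomputable def ds (c : ℕ) (s : Bool) (x : ℝ) : ℝ := if s = true then x - c else c - x

/-- `x` is in the unit at the side `s` of `c` -/
def adj (c : ℕ) (s : Bool) (x : ℝ) : Prop := 0 < ds c s x ∧ ds c s x < 1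

/-- `x` is not captured -/
def Fre (x : ℝ) : Prop := ¬ Trp x ∧ ¬ Fld x

/-- the closed interval of the points at distances `u, .., v` of `c` on the side `s` -/
noncomputable def seg (c : ℕ) (s : Bool) (u v : ℝ) : Set ℝ :=
  if s = true then Icc ((c : ℝ) + u) (c + v) else Icc ((c : ℝ) - v) (c - u)

open Classical in
/-- direct cost at the vertex `(c, s)` -/
noncomputable def kR (c : ℕ) (s : Bool) (x : ℝ) : ℝ :=
  if od c = true then
    (if c < 3 then 0
     else if 0 < ds c s x ∧ ds c s x < 2 ∧ (ds c s x < 1 → Fre x) then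
      (if ds c s x < 102 / 512 then hr 1 c s else if ds c s x < 204 / 512 then hr 2 c s
        else if ds c s x < 308 / 512 then hr 3 c s else if ds c s x < 1 then hr 4 c s else hr 5 c s)
     else 0)
  else (if s = false ∧ En c = true ∧ Fld x ∧ adj c false x then 1 else 0)

open Classical in
/-- cost of `n` steps at the end `(c, s)` -/
noncomputable def th : ℕ → ℕ → Bool → ℝ → ℝ
  | 0, _, _, _ => 0
  | n + 1, c, s, x => kR c s x + (if adj c s x ∧ Fre x then th n (T c) (ch c) (cf x) else 0)

open Classical in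
/-- the transported cost at the side `s` of `c` -/
noncomputable def tau (n c : ℕ) (s : Bool) (x : ℝ) : ℝ :=
  (if s = false ∧ En c = true ∧ Fld x ∧ adj c false x then 1 else 0) +
    (if adj c s x ∧ Fre x then th n (T c) (ch c) (cf x) else 0)

open Classical in
/-- the potential of the image -/
noncomputable def qf (x : ℝ) : ℝ := if Fre x ∧ 2 ≤ ⌊x⌋₊ then ph (cf x) else 0

open Classical in
/-- cost of `x` after one step -/
noncomputable def Nf (n : ℕ) (x : ℝ) : ℝ :=
  (if Fld x ∧ En (⌊x⌋₊ + 1) = true then 1 else 0) +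
    (if Fre x ∧ 2 ≤ ⌊x⌋₊ then
      ph (cf x) + th n (lo ⌊x⌋₊) true (cf x) + th n (hi ⌊x⌋₊) false (cf x) else 0)

/-- first capture within `n` steps by a fold at a suspicious integer -/
def FF : ℕ → Set ℝ
  | 0 => ∅
  | n + 1 => {x | (Fld x ∧ En (⌊x⌋₊ + 1) = true) ∨ (Fre x ∧ cf x ∈ FF n)}

/-- the induction statement -/
def PX (n : ℕ) : Prop := ∀ (a b : ℕ) (ν : Measure ℝ), 1 ≤ a → a + 3 ≤ b → CR ν a b →
  (ν (Ioo (a : ℝ) b ∩ FF n)).toReal ≤ itg ν ph a b + itg ν (th n a true) a b + itg ν (th n b false) a b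

/-- constant of the quadratic term -/
noncomputable def ga (c : ℕ) : ℝ := (an c : ℝ) / 20

/-- constant of the linear term -/
noncomputable def gb (c : ℕ) : ℝ := (bn c : ℝ) / 20

/-- the solution `z ≥ 0` of `a z^2 + b z = Z` -/
noncomputable def psi (c : ℕ) (Z : ℝ) : ℝ := (√(gb c ^ 2 + 4 * ga c * Z) - gb c) / (2 * ga c)

/-- cost functional of the vertex `(c, s)`: `Γ Z` bounds the measure of an interval of scaled length `Z` -/
noncomputable def KK (c : ℕ) (s : Bool) (Γ : ℝ → ℝ) : ℝ :=
  if od c = true then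
    (if c < 3 then 0
     else (hr 1 c s - hr 2 c s) * Γ (zc c * (102 / 512)) + (hr 2 c s - hr 3 c s) * Γ (zc c * (204 / 512)) +
      (hr 3 c s - hr 4 c s) * Γ (zc c * (308 / 512)) + (hr 4 c s - hr 5 c s) * Γ (zc c) +
      hr 5 c s * Γ (2 * zc c))
  else (if s = false ∧ En c = true then Γ (407 / 1000) else 0)

/-- cost functional of `n` steps -/
noncomputable def NN : ℕ → ℕ → Bool → (ℝ → ℝ) → ℝ
  | 0, _, _, _ => 0
  | n + 1, c, s, Γ => KK c s Γ + NN n (T c) (ch c) (fun Z => Γ (psi c Z))

/-- range of the hypothesis at `c` -/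
noncomputable def Yc (c : ℕ) : ℝ := if c < 31 then 1 else 2

/-- `ν` has at most `Γ (zc c (v-u))` in the interval at distances `u, .., v`, if `v ≤ Y` and `u ≤ 2.2/zc c` -/
def HG (ν : Measure ℝ) (c : ℕ) (s : Bool) (Y : ℝ) (Γ : ℝ → ℝ) : Prop :=
  ∀ u v : ℝ, 0 ≤ u → u ≤ v → v ≤ Y → u * zc c ≤ 11 / 5 → (ν (seg c s u v)).toReal ≤ Γ (zc c * (v - u))

/-- `Γ` is nonnegative and nondecreasing on `[0, ∞)` -/
def GM (Γ : ℝ → ℝ) : Prop := ∀ x y : ℝ, 0 ≤ x → x ≤ y → 0 ≤ Γ x ∧ Γ x ≤ Γ y

/-- dead distance: nearer points on the side `s` of the even `c` are captured without cost -/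
noncomputable def dd (c : ℕ) (s : Bool) : ℝ :=
  if od c = true then 0 else (if s = true then 28 / 25 else 153 / 100) / zc c

/-- `x` is a free point near `c`, beyond the dead distance -/
def act (c : ℕ) (s : Bool) (x : ℝ) : Prop := adj c s x ∧ Fre x ∧ dd c s ≤ ds c s x

/-- the measure transported from the side `s` of `c` -/
noncomputable def ptr (ν : Measure ℝ) (c : ℕ) (s : Bool) : Measure ℝ := (ν.restrict {x | act c s x}).map cf

/-- not a power of two -/
def NP (c : ℕ) : Prop := ¬ ∃ k : ℕ, c = 2 ^ k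

/-- twice the costs on the units of the window of `m`, real version -/
noncomputable def Sm (m : ℕ) (x : ℝ) : ℝ :=
  if x < m then (S2l m : ℝ) / 2 / 4294967296 else (S2r m : ℝ) / 2 / 4294967296

/-- bound of the scaled length of the trap of the odd `c` -/
noncomputable def zx (c : ℕ) : ℝ := if c < 8 then 29 / 25 else if c < 16 then 6 / 5 else 121 / 100

/-- the point at distance `d` of `c` on the side `s` -/
noncomputable def pc (c : ℕ) (s : Bool) (d : ℝ) : ℝ := if s = true then c + d else c - d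

/-- the costs on the two units of the window of `m` -/
noncomputable def Sx (m : ℕ) (x : ℝ) : ℝ :=
  Wr m + (if x < m then (if m - 1 < 32 then Wr (m - 1) else Wr (m - 1) / 2) + (if m + 1 < 32 then 0 else Wr (m + 1) / 2)
    else (if m - 1 < 32 then 0 else Wr (m - 1) / 2) + (if m + 1 < 32 then Wr (m + 1) else Wr (m + 1) / 2))

/-- transported cost on both sides of `c` -/
noncomputable def RL (ν : Measure ℝ) (n c : ℕ) : ℝ :=
  itg ν (tau n c true) c (c + 1) + itg ν (tau n c false) (c - 1) c

/-- share of the even `c` paid by the window on its right -/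
noncomputable def SR (ν : Measure ℝ) (c : ℕ) : ℝ :=
  if c < 32 then Wr c * mu ν c (c + 1) else Wr c / 2 * mu ν c (c + 2)

/-- share of the even `c` paid by the window on its left -/
noncomputable def SL (ν : Measure ℝ) (c : ℕ) : ℝ :=
  if c < 32 then Wr c * mu ν (c - 1) c else Wr c / 2 * mu ν (c - 2) c

end Pool.Agent.Lib.MP_a247fa_nt.X
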