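import Pool.Agent.Lib.MP_a247fa_nt.X.WrGe

/-! HRA (30 min, old scale).
Levels. `c < 2048`: `h1 = nmax (..) h2`, `h2 = nmax (..) h3`, .. (`nmax x y = max x y`), so `h1 ≥ h2 ≥ h3 ≥ h4 ≥ h5`. `c ≥ 2048`: `61/50 ≥ 109/100 ≥ 63/100 ≥ 11/100`. `h5_zero`: `c < 31`: `nbr c s ≤ 31 < 32`, so `h5 c s = 0`.
`h5_ge`: `c < 2048`, `32 ≤ nbr c s`: `h5 = (Wn (nbr) + 1)/2 ≥ Wn/2 ≥ 2^32 Wr (nbr)/2` (`wr_le_wn`).
`hrn_*`: for `c ≥ 2048` the natural numbers `h_l c s = ⌊G_l / c⌋ + 1` satisfy `hr l c s * 2^32 ≤ h_l c s` and they are decreasing too (`472446402 ≥ 0.11 * 2^32`, `2705829396 ≥ 0.63 * 2^32`, `4681514352 ≥ 1.09 * 2^32`, `5239860101 ≥ 1.22 * 2^32`); for `c < 2048` equality. `hN l c s` is `h1, .., h5`. -/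

set_option autoImplicit false

namespace Pool.Agent.Lib.MP_a247fa_nt.X

open Set MeasureTheory
open Pool.Agent.Lib.MP_a247fa_nt.W Pool.Agent.Lib.MP_a247fa_nt.V

/-- the natural number levels -/
def hN (l c : ℕ) (s : Bool) : ℕ :=
  if l = 1 then h1 c s else if l = 2 then h2 c s else if l = 3 then h3 c s else if l = 4 then h4 c s else h5 c s

private theorem hra_nmax (x y : ℕ) : y ≤ nmax x y := by
  unfold nmax
  cases h : Nat.ble x y
  · have : ¬ x ≤ y := fun hxy => by
      rw [Nat.ble_eq_true_of_le hxy] at h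
      exact Bool.noConfusion h
    simp only [cond_false]
    omega
  · simp

private theorem hra_lt {c : ℕ} (h : c < 2048) : Nat.blt c 2048 = true := by
  rw [Nat.blt_eq]; exact h

private theorem hra_ge {c : ℕ} (h : ¬ c < 2048) : Nat.blt c 2048 = false := by
  cases hb : Nat.blt c 2048
  · rfl
  · rw [Nat.blt_eq] at hb; exact absurd hb h

theorem hN_anti (c : ℕ) (s : Bool) : hN 2 c s ≤ hN 1 c s ∧ hN 3 c s ≤ hN 2 c s ∧ hN 4 c s ≤ hN 3 c s ∧ hN 5 c s ≤ hN 4 c s := by
  show h2 c s ≤ h1 c s ∧ h3 c s ≤ h2 c s ∧ h4 c s ≤ h3 c s ∧ h5 c s ≤ h4 c s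
  by_cases hc : c < 2048
  · have e1 : h1 c s = nmax (hx c s 0 102) (h2 c s) := by
      unfold h1; rw [hra_lt hc]; rfl
    have e2 : h2 c s = nmax (hx c s 102 204) (h3 c s) := by
      unfold h2; rw [hra_lt hc]; rfl
    have e3 : h3 c s = nmax (hx c s 204 308) (h4 c s) := by
      unfold h3; rw [hra_lt hc]; rfl
    have e4 : h4 c s = nmax (hx c s 308 512) (h5 c s) := by
      unfold h4; rw [hra_lt hc]; rfl
    exact ⟨e1 ▸ hra_nmax _ _, e2 ▸ hra_nmax _ _, e3 ▸ hra_nmax _ _, e4 ▸ hra_nmax _ _⟩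
  · have e1 : h1 c s = 5239860101 / c + 1 := by
      unfold h1; rw [hra_ge hc]; rfl
    have e2 : h2 c s = 4681514352 / c + 1 := by
      unfold h2; rw [hra_ge hc]; rfl
    have e3 : h3 c s = 2705829396 / c + 1 := by
      unfold h3; rw [hra_ge hc]; rfl
    have e4 : h4 c s = 472446402 / c + 1 := by
      unfold h4; rw [hra_ge hc]; rfl
    have e5 : h5 c s = 472446402 / c + 1 := by
      unfold h5; rw [hra_ge hc]; rfl
    rw [e1, e2, e3, e4, e5]
    exact ⟨Nat.succ_le_succ (Nat.div_le_div_right (by norm_num)),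
      Nat.succ_le_succ (Nat.div_le_div_right (by norm_num)),
      Nat.succ_le_succ (Nat.div_le_div_right (by norm_num)), le_rfl⟩

private theorem hra_hr_small {c : ℕ} (hc : c < 2048) (l : ℕ) (s : Bool) :
    hr l c s = (hN l c s : ℝ) / 4294967296 := by
  unfold hr hN
  rw [if_pos hc]

private theorem hra_div (G c : ℕ) (t : ℝ) (hc : 0 < c) (ht : t * 4294967296 ≤ (G : ℝ) + 1) :
    t / c * 4294967296 ≤ ((G / c + 1 : ℕ) : ℝ) := by
  have h : G + 1 ≤ c * (G / c + 1) := Nat.lt_mul_div_succ G hc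
  have h' : (G : ℝ) + 1 ≤ (c : ℝ) * ((G / c + 1 : ℕ) : ℝ) := by exact_mod_cast h
  have hc' : (0 : ℝ) < c := by exact_mod_cast hc
  rw [div_mul_eq_mul_div, div_le_iff₀ hc', mul_comm _ (c : ℝ)]
  exact ht.trans h'

theorem hr_le_hN (l c : ℕ) (s : Bool) : hr l c s * 4294967296 ≤ hN l c s := by
  by_cases hc : c < 2048
  · rw [hra_hr_small hc, div_mul_cancel₀ _ (by norm_num)]
  · have hc0 : 0 < c := by omega
    have e1 : h1 c s = 5239860101 / c + 1 := by
      unfold h1; rw [hra_ge hc]; rfl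
    have e2 : h2 c s = 4681514352 / c + 1 := by
      unfold h2; rw [hra_ge hc]; rfl
    have e3 : h3 c s = 2705829396 / c + 1 := by
      unfold h3; rw [hra_ge hc]; rfl
    have e4 : h4 c s = 472446402 / c + 1 := by
      unfold h4; rw [hra_ge hc]; rfl
    have e5 : h5 c s = 472446402 / c + 1 := by
      unfold h5; rw [hra_ge hc]; rfl
    unfold hr hN
    rw [if_neg hc]
    by_cases l1 : l = 1
    · rw [if_pos l1, if_pos l1, e1]
      exact hra_div _ c _ hc0 (by norm_num)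
    rw [if_neg l1, if_neg l1]
    by_cases l2 : l = 2
    · rw [if_pos l2, if_pos l2, e2]
      exact hra_div _ c _ hc0 (by norm_num)
    rw [if_neg l2, if_neg l2]
    by_cases l3 : l = 3
    · rw [if_pos l3, if_pos l3, e3]
      exact hra_div _ c _ hc0 (by norm_num)
    rw [if_neg l3, if_neg l3]
    by_cases l4 : l = 4
    · rw [if_pos l4, e4]
      exact hra_div _ c _ hc0 (by norm_num)
    · rw [if_neg l4, e5]
      exact hra_div _ c _ hc0 (by norm_num)

theorem hr_anti (c : ℕ) (s : Bool) : hr 2 c s ≤ hr 1 c s ∧ hr 3 c s ≤ hr 2 c s ∧ hr 4 c s ≤ hr 3 c s ∧ hr 5 c s ≤ hr 4 c s ∧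
    0 ≤ hr 5 c s := by
  by_cases hc : c < 2048
  · obtain ⟨a1, a2, a3, a4⟩ := hN_anti c s
    rw [hra_hr_small hc, hra_hr_small hc, hra_hr_small hc, hra_hr_small hc, hra_hr_small hc]
    refine ⟨?_, ?_, ?_, ?_, by positivity⟩
    · exact div_le_div_of_nonneg_right (by exact_mod_cast a1) (by norm_num)
    · exact div_le_div_of_nonneg_right (by exact_mod_cast a2) (by norm_num)
    · exact div_le_div_of_nonneg_right (by exact_mod_cast a3) (by norm_num)
    · exact div_le_div_of_nonneg_right (by exact_mod_cast a4) (by norm_num)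
  · have e : ∀ l : ℕ, hr l c s = (if l = 1 then 61 / 50 else if l = 2 then 109 / 100 else
        if l = 3 then 63 / 100 else 11 / 100) / c := by
      intro l
      unfold hr
      rw [if_neg hc]
    have hc' : (0 : ℝ) ≤ c := Nat.cast_nonneg c
    have e1 : hr 1 c s = (61 / 50 : ℝ) / c := by rw [e, if_pos rfl]
    have e2 : hr 2 c s = (109 / 100 : ℝ) / c := by rw [e, if_neg (by norm_num), if_pos rfl]
    have e3 : hr 3 c s = (63 / 100 : ℝ) / c := by
      rw [e, if_neg (by norm_num), if_neg (by norm_num), if_pos rfl]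
    have e4 : hr 4 c s = (11 / 100 : ℝ) / c := by
      rw [e, if_neg (by norm_num), if_neg (by norm_num), if_neg (by norm_num)]
    have e5 : hr 5 c s = (11 / 100 : ℝ) / c := by
      rw [e, if_neg (by norm_num), if_neg (by norm_num), if_neg (by norm_num)]
    rw [e1, e2, e3, e4, e5]
    refine ⟨?_, ?_, ?_, le_rfl, by positivity⟩
    · exact div_le_div_of_nonneg_right (by norm_num) hc'
    · exact div_le_div_of_nonneg_right (by norm_num) hc'
    · exact div_le_div_of_nonneg_right (by norm_num) hc'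

theorem hr5_zero {c : ℕ} (h : c < 31) (s : Bool) : hr 5 c s = 0 := by
  rw [hra_hr_small (by omega)]
  have : hN 5 c s = 0 := by
    show h5 c s = 0
    unfold h5
    rw [hra_lt (by omega)]
    have hn : Nat.blt (nbr c s) 32 = true := by
      rw [Nat.blt_eq]
      cases s
      · show c - 1 < 32
        omega
      · show c + 1 < 32
        omega
    rw [hn]
    rfl
  rw [this]
  norm_num

theorem hr5_ge {c : ℕ} (hc : c < 2048) {s : Bool} (h : 32 ≤ nbr c s) : Wr (nbr c s) / 2 ≤ hr 5 c s := by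
  rw [hra_hr_small hc]
  have e : hN 5 c s = (Wn (nbr c s) + 1) / 2 := by
    show h5 c s = _
    unfold h5
    rw [hra_lt hc]
    have hn : Nat.blt (nbr c s) 32 = false := by
      cases hb : Nat.blt (nbr c s) 32
      · rfl
      · rw [Nat.blt_eq] at hb; omega
    rw [hn]
    show Nat.shiftRight (Nat.add (Wn (nbr c s)) 1) 1 = _
    exact Nat.shiftRight_one _
  have h1 : Wn (nbr c s) ≤ 2 * hN 5 c s := by omega
  have h1' : (Wn (nbr c s) : ℝ) ≤ 2 * (hN 5 c s : ℝ) := by exact_mod_cast h1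
  have h2 := wr_le_wn (nbr c s)
  have h3 : (Wn (nbr c s) : ℝ) / 4294967296 ≤ 2 * (hN 5 c s : ℝ) / 4294967296 :=
    div_le_div_of_nonneg_right h1' (by norm_num)
  have h4 : 2 * (hN 5 c s : ℝ) / 4294967296 = 2 * ((hN 5 c s : ℝ) / 4294967296) := by ring
  linarith

end Pool.Agent.Lib.MP_a247fa_nt.X
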