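import Pool.Agent.Lib.MP_a247fa_nt.X.CfB
import Pool.Agent.Lib.MP_a247fa_nt.X.HrA

/-! HXS (40 min, old scale).
Soundness of `hx`. Odd `3 ≤ c < 2048`, `x` free, `adj c s x`, `y0/512 ≤ ds c s x < y1/512` (`y0 < y1 ≤ 512`). Claim `2^32 (qf x - ph x + Wr (nbr c s)) ≤ hx c s y0 y1`.

`qf x ≤ ph (cf x)`; `cf x ≤ T c` (right: `cf_free_lt`; left: unit `c-1` even, `cf x ≤ cf c = T c`, `cf_even_le`); `cf x ≤ cf (pos c s y0/512)`: right: `cf_odd_le` (`c ≤ c + y0/512 ≤ x`); left: `cf_even_le` (`x ≤ c - y0/512`). So `2^32 ph (cf x) ≤ pu (nmin (2^43 T c) (Fu (pos c s y0)))` (`ph_le_pu`, `cf_le_Fu`, `Tn_eq`).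
`ph x ≥ pl (..)/2^32`: right: `x ≥ pos c true y0/512`; left: `x ≥ pos c false y1/512`. `Wr (nbr) ≤ Wn (nbr)/2^32` (`wr_le_wn`). The truncated subtraction is `≥` the real one. `pos`: `512 c + y`, `512 c - y` (no truncation).
`wk_ph`: kernel fact: for odd `3 ≤ c < 2048`: `Wn (c+1) ≤ pl (512 c)` (`decide +kernel`), so `Wr (c+1) ≤ ph x` for `x ≥ c`.
`eta_small`: odd `3 ≤ c < 2048`, `adj c s x`: `qf x - ph x + Wr (nbr c s) ≤ kR c s x`. Free: the piece of `ds c s x` among `[0,102), [102,204), [204,308), [308,512)` (times `1/512`): `hx .. ≤ h_l`, `kR = hr l = h_l/2^32`. Not free: then the unit is odd, `s = true`; `qf x = 0`, `Wr (c+1) ≤ ph x`, `kR ≥ 0`. -/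

set_option autoImplicit false

namespace Pool.Agent.Lib.MP_a247fa_nt.X

open Set MeasureTheory
open Pool.Agent.Lib.MP_a247fa_nt.W Pool.Agent.Lib.MP_a247fa_nt.V

private theorem hxs_sub (a b : ℕ) : (a : ℝ) - b ≤ ((Nat.sub a b : ℕ) : ℝ) := by
  rcases le_total b a with h | h
  · have : ((a - b : ℕ) : ℝ) = (a : ℝ) - b := Nat.cast_sub h
    exact this.symm.le
  · have h' : (a : ℝ) ≤ b := by exact_mod_cast h
    have : (0 : ℝ) ≤ ((Nat.sub a b : ℕ) : ℝ) := Nat.cast_nonneg _
    linarith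

private theorem hxs_nmin {x : ℝ} {a b : ℕ} (ha : x ≤ a) (hb : x ≤ b) : x ≤ ((nmin a b : ℕ) : ℝ) := by
  unfold nmin
  cases Nat.ble a b
  · exact hb
  · exact ha

private theorem hxs_T {c : ℕ} (ho : c % 2 = 1) : ((T c : ℕ) : ℝ) = (3 * c + 1) / 2 := by
  unfold T
  rw [if_neg (by omega)]
  obtain ⟨k, hk⟩ : ∃ k, 3 * c + 1 = 2 * k := ⟨(3 * c + 1) / 2, by omega⟩
  rw [hk, Nat.mul_div_cancel_left _ (by norm_num)]
  have hk' : (3 * (c : ℝ) + 1) = 2 * k := by exact_mod_cast hk
  rw [hk']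
  ring

private theorem hxs_cf {c : ℕ} (ho : c % 2 = 1) : cf (c : ℝ) = ((T c : ℕ) : ℝ) := by
  have h := D_odd_add ho 0
  have h0 : hs 0 = 0 := by
    unfold hs
    simp
  rw [h0] at h
  unfold D at h
  rw [if_neg (by omega)] at h
  rw [hxs_T ho]
  simp only [add_zero, mul_zero, zero_div, sub_zero] at h
  linarith

private theorem hxs_core {c : ℕ} {s : Bool} {P Q : ℕ} {x : ℝ} (hT : cf x ≤ ((T c : ℕ) : ℝ))
    (hP : cf x ≤ cf ((P : ℝ) / 512)) (hQ : (Q : ℝ) / 512 ≤ x) :
    4294967296 * (qf x - ph x + Wr (nbr c s)) ≤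
      ((Nat.sub (Nat.add (pu (nmin (Nat.shiftLeft (Tn c) 43) (Fu P))) (Wn (nbr c s))) (pl Q) : ℕ) : ℝ) := by
  have h1 : cf x * 8796093022208 ≤ ((nmin (Nat.shiftLeft (Tn c) 43) (Fu P) : ℕ) : ℝ) := by
    apply hxs_nmin
    · have e : Nat.shiftLeft (Tn c) 43 = T c * 8796093022208 := by
        have : Nat.shiftLeft (Tn c) 43 = Tn c * 2 ^ 43 := Nat.shiftLeft_eq _ _
        rw [this, Tn_eq]
        norm_num
      rw [e]
      push_cast
      exact mul_le_mul_of_nonneg_right hT (by norm_num)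
    · exact le_trans (mul_le_mul_of_nonneg_right hP (by norm_num)) (cf_le_Fu P)
  have h2 := ph_le_pu h1
  have h3 : qf x ≤ ph (cf x) := by
    unfold qf
    split_ifs
    · exact le_rfl
    · exact ph_nonneg _
  have h4 := pl_le_ph hQ
  have h5 := wr_le_wn (nbr c s)
  have h6 : Wr (nbr c s) * 4294967296 ≤ (Wn (nbr c s) : ℝ) := by
    have := mul_le_mul_of_nonneg_right h5 (by norm_num : (0 : ℝ) ≤ 4294967296)
    rwa [div_mul_cancel₀ _ (by norm_num : (4294967296 : ℝ) ≠ 0)] at this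
  refine le_trans ?_ (hxs_sub _ _)
  have h7 : ((Nat.add (pu (nmin (Nat.shiftLeft (Tn c) 43) (Fu P))) (Wn (nbr c s)) : ℕ) : ℝ) =
      (pu (nmin (Nat.shiftLeft (Tn c) 43) (Fu P)) : ℝ) + (Wn (nbr c s) : ℝ) := Nat.cast_add _ _
  rw [h7]
  linarith

theorem hx_sound {c : ℕ} {s : Bool} {y0 y1 : ℕ} {x : ℝ} (ho : c % 2 = 1) (h3 : 3 ≤ c) (hc : c < 2048) (h01 : y0 < y1)
    (hy1 : y1 ≤ 512) (hadj : adj c s x) (hf : Fre x) (h0 : (y0 : ℝ) / 512 ≤ ds c s x) (h1 : ds c s x < (y1 : ℝ) / 512) :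
    4294967296 * (qf x - ph x + Wr (nbr c s)) ≤ hx c s y0 y1 := by
  have hcr : (3 : ℝ) ≤ c := by exact_mod_cast h3
  have hy0 : (0 : ℝ) ≤ y0 := Nat.cast_nonneg _
  cases s
  · have hds : ds c false x = c - x := by
      unfold ds
      rw [if_neg Bool.false_ne_true]
    obtain ⟨a1, a2⟩ := hadj
    rw [hds] at a1 a2 h0 h1
    have hi : ((c - 1 : ℕ) : ℝ) = (c : ℝ) - 1 := by
      rw [Nat.cast_sub (by omega)]; norm_num
    have hev : (c - 1) % 2 = 0 := by omega
    have hT : cf x ≤ ((T c : ℕ) : ℝ) := by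
      rw [← hxs_cf ho]
      exact cf_even_le (i := c - 1) (by omega) hev (by rw [hi]; linarith) (by linarith) (by rw [hi]; linarith)
    have hPc : (((pos c false y0 : ℕ) : ℝ)) / 512 = c - (y0 : ℝ) / 512 := by
      have : pos c false y0 = 512 * c - y0 := rfl
      rw [this, Nat.cast_sub (by omega)]
      push_cast
      ring
    have hQc : (((pos c false y1 : ℕ) : ℝ)) / 512 = c - (y1 : ℝ) / 512 := by
      have : pos c false y1 = 512 * c - y1 := rfl
      rw [this, Nat.cast_sub (by omega)]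
      push_cast
      ring
    have hP : cf x ≤ cf (((pos c false y0 : ℕ) : ℝ) / 512) := by
      rw [hPc]
      exact cf_even_le (i := c - 1) (by omega) hev (by rw [hi]; linarith) (by linarith) (by rw [hi]; linarith)
    exact hxs_core (s := false) hT hP (Q := pos c false y1) (by rw [hQc]; linarith)
  · have hds : ds c true x = x - c := by
      unfold ds
      rw [if_pos rfl]
    obtain ⟨a1, a2⟩ := hadj
    rw [hds] at a1 a2 h0 h1
    have hx : x ∈ Ioo (c : ℝ) (c + 1) := ⟨by linarith, by linarith⟩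
    have hT : cf x ≤ ((T c : ℕ) : ℝ) := (cf_free_lt ho hx hf).le
    have hPc : (((pos c true y0 : ℕ) : ℝ)) / 512 = c + (y0 : ℝ) / 512 := by
      have : pos c true y0 = 512 * c + y0 := rfl
      rw [this]
      push_cast
      ring
    have hP : cf x ≤ cf (((pos c true y0 : ℕ) : ℝ) / 512) := by
      rw [hPc]
      exact cf_odd_le ho hx hf (by linarith [div_nonneg hy0 (by norm_num : (0 : ℝ) ≤ 512)]) (by linarith)
    exact hxs_core (s := true) hT hP (Q := pos c true y0) (by rw [hPc]; linarith)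

private def hxs_f (f : ℕ) : ℕ → Bool :=
  Nat.rec (fun _ => true) (fun _ ih c =>
    cond (Nat.ble (Wn (Nat.add c 1)) (pl (Nat.mul 512 c))) (ih (Nat.add c 2)) false) f

set_option maxRecDepth 100000 in
private theorem hxs_k : hxs_f 1023 3 = true := by decide +kernel

private theorem hxs_spec (f : ℕ) : ∀ c k : ℕ, hxs_f f c = true → k < f → Wn (c + 2 * k + 1) ≤ pl (512 * (c + 2 * k)) := by
  induction f with
  | zero => intro c k _ hk; omega
  | succ f ih =>
    intro c k h hk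
    have h' : cond (Nat.ble (Wn (Nat.add c 1)) (pl (Nat.mul 512 c))) (hxs_f f (Nat.add c 2)) false = true := h
    cases hb : Nat.ble (Wn (Nat.add c 1)) (pl (Nat.mul 512 c))
    · rw [hb] at h'
      exact Bool.noConfusion h'
    · rw [hb] at h'
      cases k with
      | zero =>
        exact Nat.le_of_ble_eq_true hb
      | succ k =>
        have := ih (c + 2) k h' (by omega)
        have e1 : c + 2 * (k + 1) = c + 2 + 2 * k := by ring
        rw [e1]
        exact this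

private theorem hxs_wk {c : ℕ} (ho : c % 2 = 1) (h3 : 3 ≤ c) (hc : c < 2048) : Wn (c + 1) ≤ pl (512 * c) := by
  have := hxs_spec 1023 3 ((c - 3) / 2) hxs_k (by omega)
  have e : 3 + 2 * ((c - 3) / 2) = c := by omega
  rwa [e] at this

private theorem hxs_nmax_left (x y : ℕ) : x ≤ nmax x y := by
  unfold nmax
  cases h : Nat.ble x y
  · exact le_rfl
  · exact Nat.le_of_ble_eq_true h

private theorem hxs_lt {c : ℕ} (h : c < 2048) : Nat.blt c 2048 = true := by
  rw [Nat.blt_eq]; exact h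

theorem eta_small {c : ℕ} {s : Bool} {x : ℝ} (ho : c % 2 = 1) (h3 : 3 ≤ c) (hc : c < 2048) (hx : adj c s x) :
    qf x - ph x + Wr (nbr c s) ≤ kR c s x := by
  have hod : od c = true := (od_iff c).2 ho
  by_cases hf : Fre x
  · have hcond : 0 < ds c s x ∧ ds c s x < 2 ∧ (ds c s x < 1 → Fre x) :=
      ⟨hx.1, by linarith [hx.2], fun _ => hf⟩
    unfold kR
    rw [if_pos hod, if_neg (by omega), if_pos hcond]
    have fin : ∀ (h : ℕ) (y0 y1 : ℕ), y0 < y1 → y1 ≤ 512 → (y0 : ℝ) / 512 ≤ ds c s x →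
        ds c s x < (y1 : ℝ) / 512 → Pool.Agent.Lib.MP_a247fa_nt.X.hx c s y0 y1 ≤ h →
        qf x - ph x + Wr (nbr c s) ≤ (h : ℝ) / 4294967296 := by
      intro h y0 y1 a b d e g
      have h1 := hx_sound ho h3 hc a b hx hf d e
      have h2 : ((Pool.Agent.Lib.MP_a247fa_nt.X.hx c s y0 y1 : ℕ) : ℝ) ≤ h := by exact_mod_cast g
      rw [le_div_iff₀ (by norm_num)]
      linarith
    have e1 : h1 c s = nmax (Pool.Agent.Lib.MP_a247fa_nt.X.hx c s 0 102) (h2 c s) := by
      unfold h1; rw [hxs_lt hc]; rfl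
    have e2 : h2 c s = nmax (Pool.Agent.Lib.MP_a247fa_nt.X.hx c s 102 204) (Pool.Agent.Lib.MP_a247fa_nt.X.h3 c s) := by
      unfold h2; rw [hxs_lt hc]; rfl
    have e3 : Pool.Agent.Lib.MP_a247fa_nt.X.h3 c s = nmax (Pool.Agent.Lib.MP_a247fa_nt.X.hx c s 204 308) (h4 c s) := by
      unfold Pool.Agent.Lib.MP_a247fa_nt.X.h3; rw [hxs_lt hc]; rfl
    have e4 : h4 c s = nmax (Pool.Agent.Lib.MP_a247fa_nt.X.hx c s 308 512) (h5 c s) := by
      unfold h4; rw [hxs_lt hc]; rfl
    have r : ∀ l : ℕ, hr l c s = (hN l c s : ℝ) / 4294967296 := by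
      intro l
      unfold hr hN
      rw [if_pos hc]
    split_ifs with c1 c2 c3 c4
    · rw [r]
      exact fin _ 0 102 (by norm_num) (by norm_num) (by simpa using hx.1.le) (by exact_mod_cast c1)
        (by show _ ≤ h1 c s; rw [e1]; exact hxs_nmax_left _ _)
    · rw [r]
      exact fin _ 102 204 (by norm_num) (by norm_num) (by exact_mod_cast (not_lt.1 c1)) (by exact_mod_cast c2)
        (by show _ ≤ h2 c s; rw [e2]; exact hxs_nmax_left _ _)
    · rw [r]
      exact fin _ 204 308 (by norm_num) (by norm_num) (by exact_mod_cast (not_lt.1 c2)) (by exact_mod_cast c3)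
        (by show _ ≤ Pool.Agent.Lib.MP_a247fa_nt.X.h3 c s; rw [e3]; exact hxs_nmax_left _ _)
    · rw [r]
      exact fin _ 308 512 (by norm_num) (by norm_num) (by exact_mod_cast (not_lt.1 c3))
        (by have : ((512 : ℕ) : ℝ) / 512 = 1 := by norm_num
            rw [this]; exact c4)
        (by show _ ≤ h4 c s; rw [e4]; exact hxs_nmax_left _ _)
    · exact absurd hx.2 c4
  · have hst : s = true := by
      cases s
      · exfalso
        apply hf
        apply fre_even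
        rw [floor_adj_false (by omega) hx]
        omega
      · rfl
    subst hst
    have hds : ds c true x = x - c := by
      unfold ds
      rw [if_pos rfl]
    have hq : qf x = 0 := by
      unfold qf
      rw [if_neg (fun h => hf h.1)]
    have hk : kR c true x = 0 := by
      unfold kR
      rw [if_pos hod, if_neg (by omega), if_neg (fun h => hf (h.2.2 hx.2))]
    rw [hq, hk]
    have h1 := wr_le_wn (nbr c true)
    have e : nbr c true = c + 1 := rfl
    rw [e] at h1 ⊢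
    have h2 : (Wn (c + 1) : ℝ) ≤ (pl (512 * c) : ℝ) := by exact_mod_cast hxs_wk ho h3 hc
    have h3' : (pl (512 * c) : ℝ) ≤ ph x * 4294967296 := by
      apply pl_le_ph
      push_cast
      have := hx.1
      rw [hds] at this
      linarith
    have h4 : Wr (c + 1) * 4294967296 ≤ (Wn (c + 1) : ℝ) := by
      have := mul_le_mul_of_nonneg_right h1 (by norm_num : (0 : ℝ) ≤ 4294967296)
      rwa [div_mul_cancel₀ _ (by norm_num : (4294967296 : ℝ) ≠ 0)] at this
    linarith

end Pool.Agent.Lib.MP_a247fa_nt.X
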