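import Pool.Agent.Lib.MP_a247fa_nt.X.DZon
import Pool.Agent.Lib.MP_a247fa_nt.X.CfB
import Pool.Agent.Lib.MP_a247fa_nt.V.MeasV

/-! THB (40 min, old scale).
Measurability and boundedness. `BM F`: measurable and bounded (`bm_add`, `bm_cmul`, `bm_comp`, .. in V.MuBasic).

`{x | Fre x}` is measurable (`meas_trp`, `meas_fld`). `{x | adj c s x}` is an open interval. `kR c s`: a finite case distinction with measurable conditions (`Measurable.ite`), bounded by `hr 1 c s + .. + hr 5 c s + 1` (`0 ≤ hr`). `th`: induction on `n` for all `c, s`:
`th (n+1) c s = kR c s + (indicator of {adj, Fre}) * (th n (T c) (ch c) ∘ cf)`; `cf` is continuous. `tau` the same. `ind_th`: the product form as an `ite`. -/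

set_option autoImplicit false

namespace Pool.Agent.Lib.MP_a247fa_nt.X

open Set MeasureTheory
open Pool.Agent.Lib.MP_a247fa_nt.W Pool.Agent.Lib.MP_a247fa_nt.V

theorem meas_fre : MeasurableSet {x : ℝ | Fre x} :=
  meas_trp.compl.inter meas_fld.compl

private theorem ThB_ds (c : ℕ) (s : Bool) : Measurable (ds c s) := by
  unfold ds
  cases s
  · simp only [Bool.false_eq_true, if_false]
    exact measurable_const.sub measurable_id
  · simp only [if_true]
    exact measurable_id.sub measurable_const

theorem meas_adj (c : ℕ) (s : Bool) : MeasurableSet {x : ℝ | adj c s x} :=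
  (measurableSet_lt measurable_const (ThB_ds c s)).inter
    (measurableSet_lt (ThB_ds c s) measurable_const)

theorem meas_act (c : ℕ) (s : Bool) : MeasurableSet {x : ℝ | act c s x} :=
  (meas_adj c s).inter (meas_fre.inter (measurableSet_le measurable_const (ThB_ds c s)))

theorem hr_nonneg (l c : ℕ) (s : Bool) : 0 ≤ hr l c s := by
  unfold hr
  split_ifs <;> positivity

private theorem ThB_bd {F : ℝ → ℝ} (hF : BM F) {S : Set ℝ} (hS : MeasurableSet S)
    [DecidablePred (· ∈ S)] : BM (fun x => if x ∈ S then F x else 0) := by
  obtain ⟨h1, C, h2⟩ := hF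
  refine ⟨Measurable.ite hS h1 measurable_const, |C|, fun x => ?_⟩
  by_cases hx : x ∈ S
  · simp only [hx, if_true]
    exact (h2 x).trans (le_abs_self C)
  · simp only [hx, if_false, abs_zero]
    exact abs_nonneg C

private theorem ThB_ind {p : ℝ → Prop} [DecidablePred p] (hp : MeasurableSet {x | p x}) :
    BM (fun x => if p x then (1 : ℝ) else 0) :=
  ThB_bd (S := {x | p x}) (bm_const 1) hp

theorem bm_kR (c : ℕ) (s : Bool) : BM (kR c s) := by
  have hds := ThB_ds c s
  have h1 := hr_nonneg 1 c s
  have h2 := hr_nonneg 2 c s
  have h3 := hr_nonneg 3 c s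
  have h4 := hr_nonneg 4 c s
  have h5 := hr_nonneg 5 c s
  refine ⟨?_, hr 1 c s + hr 2 c s + hr 3 c s + hr 4 c s + hr 5 c s + 1, fun x => ?_⟩
  · unfold kR
    refine Measurable.ite (MeasurableSet.const _) ?_ ?_
    · refine Measurable.ite (MeasurableSet.const _) measurable_const ?_
      refine Measurable.ite ?_ ?_ measurable_const
      · refine (measurableSet_lt measurable_const hds).inter
          ((measurableSet_lt hds measurable_const).inter ?_)
        have e : {x : ℝ | ds c s x < 1 → Fre x} = {x : ℝ | ds c s x < 1}ᶜ ∪ {x : ℝ | Fre x} := by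
          ext x
          show (ds c s x < 1 → Fre x) ↔ (¬ ds c s x < 1 ∨ Fre x)
          tauto
        show MeasurableSet {x : ℝ | ds c s x < 1 → Fre x}
        rw [e]
        exact (measurableSet_lt hds measurable_const).compl.union meas_fre
      · refine Measurable.ite (measurableSet_lt hds measurable_const) measurable_const ?_
        refine Measurable.ite (measurableSet_lt hds measurable_const) measurable_const ?_
        refine Measurable.ite (measurableSet_lt hds measurable_const) measurable_const ?_
        exact Measurable.ite (measurableSet_lt hds measurable_const) measurable_const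
          measurable_const
    · refine Measurable.ite ?_ measurable_const measurable_const
      exact (MeasurableSet.const _).inter ((MeasurableSet.const _).inter
        (meas_fld.inter (meas_adj c false)))
  · unfold kR
    generalize hr 1 c s = a1 at *
    generalize hr 2 c s = a2 at *
    generalize hr 3 c s = a3 at *
    generalize hr 4 c s = a4 at *
    generalize hr 5 c s = a5 at *
    rw [abs_le]
    split_ifs <;> constructor <;> linarith

open Classical in
private theorem ThB_ite (c : ℕ) (s : Bool) {F : ℝ → ℝ} (hF : BM F) :
    BM (fun x => if adj c s x ∧ Fre x then F (cf x) else 0) :=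
  ThB_bd (S := {x | adj c s x ∧ Fre x}) (bm_comp hF continuous_cf.measurable)
    ((meas_adj c s).inter meas_fre)

theorem bm_th (n c : ℕ) (s : Bool) : BM (th n c s) := by
  classical
  induction n generalizing c s with
  | zero =>
    have : th 0 c s = fun _ => 0 := by
      ext x
      simp [th]
    rw [this]
    exact bm_const 0
  | succ n ih =>
    have : th (n + 1) c s = fun x => kR c s x +
        (if adj c s x ∧ Fre x then th n (T c) (ch c) (cf x) else 0) := by
      ext x
      simp only [th]
    rw [this]
    exact bm_add (bm_kR c s) (ThB_ite c s (ih _ _))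

open Classical in
theorem bm_ite (n c : ℕ) (s : Bool) : BM (fun x => if adj c s x ∧ Fre x then th n (T c) (ch c) (cf x) else 0) :=
  ThB_ite c s (bm_th n (T c) (ch c))

theorem bm_tau (n c : ℕ) (s : Bool) : BM (tau n c s) := by
  classical
  have h1 : BM (fun x => if s = false ∧ En c = true ∧ Fld x ∧ adj c false x then (1 : ℝ) else 0) :=
    ThB_ind (p := fun x => s = false ∧ En c = true ∧ Fld x ∧ adj c false x)
      ((MeasurableSet.const _).inter ((MeasurableSet.const _).inter
        (meas_fld.inter (meas_adj c false))))
  have h2 := bm_add h1 (bm_ite n c s)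
  exact h2

theorem tau_nonneg (n c : ℕ) (s : Bool) (x : ℝ) : 0 ≤ tau n c s x := by
  unfold tau
  have := th_nonneg n (T c) (ch c) (cf x)
  split_ifs <;> linarith

end Pool.Agent.Lib.MP_a247fa_nt.X
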