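import Pool.Agent.Lib.MP_a247fa_nt.X.EtaL
import Pool.Agent.Lib.MP_a247fa_nt.X.HxS
import Pool.Agent.Lib.MP_a247fa_nt.X.ThB

/-! ETA (25 min, old scale).
`eta`: `3 ≤ c < 2048`: `eta_small`; `c ≥ 2049`: `eta_large`; `c = 1`, `s = true`: `⌊x⌋₊ = 1 < 2`, so `qf x = 0`, `Wr 2 = 0`, `ph x ≥ 0`, `kR ≥ 0`.
`eta_two`: odd `c ≥ 1`, `32 ≤ nbr c s`, `1 ≤ ds c s x < 2`: `kR c s x = hr 5 c s` (no condition on `Fre`); `c < 2048`: `hr5_ge`; `c ≥ 2049`: `Wr (nbr) ≤ 0.217/(c-1)` (`wr_even`), `0.1085/(c-1) ≤ 0.11/c`. (`32 ≤ nbr` gives `c ≥ 31`.) -/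

set_option autoImplicit false

namespace Pool.Agent.Lib.MP_a247fa_nt.X

open Set MeasureTheory
open Pool.Agent.Lib.MP_a247fa_nt.W Pool.Agent.Lib.MP_a247fa_nt.V

private theorem eta_kR {c : ℕ} (ho : c % 2 = 1) (s : Bool) (x : ℝ) : 0 ≤ kR c s x := by
  unfold kR
  rw [if_pos ((od_iff c).2 ho)]
  split_ifs <;> first | exact le_rfl | exact hr_nonneg _ _ _

theorem eta {c : ℕ} {s : Bool} {x : ℝ} (ho : c % 2 = 1) (h : 3 ≤ c ∨ s = true) (hx : adj c s x) :
    qf x - ph x + Wr (nbr c s) ≤ kR c s x := by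
  rcases lt_or_ge c 3 with h3 | h3
  · have hc : c = 1 := by omega
    have hs : s = true := by
      rcases h with h | h
      · omega
      · exact h
    subst hc
    subst hs
    unfold adj ds at hx
    simp only [if_true] at hx
    have hfl : ⌊x⌋₊ = 1 := by
      rw [Nat.floor_eq_iff (by push_cast at hx; linarith [hx.1])]
      push_cast at hx ⊢
      constructor <;> linarith [hx.1, hx.2]
    have hq : qf x = 0 := by
      unfold qf
      rw [if_neg]
      rintro ⟨-, h2⟩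
      omega
    have hn : nbr 1 true = 2 := rfl
    rw [hq, hn, wr_small (by norm_num)]
    have h1 := ph_nonneg x
    have h2 := eta_kR ho true x
    linarith
  · rcases lt_or_ge c 2048 with h4 | h4
    · exact eta_small ho h3 h4 hx
    · exact eta_large ho (by omega) hx

theorem eta_two {c : ℕ} {s : Bool} {x : ℝ} (ho : c % 2 = 1) (hn : 32 ≤ nbr c s) (h1 : 1 ≤ ds c s x) (h2 : ds c s x < 2) :
    Wr (nbr c s) / 2 ≤ kR c s x := by
  have hnb : nbr c s ≤ c + 1 ∧ c ≤ nbr c s + 1 := by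
    unfold nbr
    rcases s with _ | _
    · show c - 1 ≤ c + 1 ∧ c ≤ c - 1 + 1
      omega
    · show c + 1 ≤ c + 1 ∧ c ≤ c + 1 + 1
      omega
  have hk : kR c s x = hr 5 c s := by
    unfold kR
    rw [if_pos ((od_iff c).2 ho), if_neg (by omega), if_pos ⟨by linarith, h2, fun h => absurd h (not_lt.2 h1)⟩,
      if_neg (by linarith), if_neg (by linarith), if_neg (by linarith), if_neg (by linarith)]
  rw [hk]
  rcases lt_or_ge c 2048 with h4 | h4
  · exact hr5_ge h4 hn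
  · have h5 : 2049 ≤ c := by omega
    have h6 : 2048 ≤ nbr c s := by omega
    have h7 : nbr c s % 2 = 0 := by
      unfold nbr
      rcases s with _ | _
      · show (c - 1) % 2 = 0
        omega
      · show (c + 1) % 2 = 0
        omega
    have h8 := wr_even h6 h7
    have hc : (2049 : ℝ) ≤ c := by exact_mod_cast h5
    have hnc : (c : ℝ) - 1 ≤ (nbr c s : ℝ) := by
      have : (c : ℝ) ≤ (nbr c s : ℝ) + 1 := by exact_mod_cast hnb.2
      linarith
    have hW := wr_nonneg (nbr c s)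
    unfold hr
    rw [if_neg (by omega)]
    simp only [show (5 : ℕ) ≠ 1 by norm_num, show (5 : ℕ) ≠ 2 by norm_num,
      show (5 : ℕ) ≠ 3 by norm_num, show (5 : ℕ) ≠ 4 by norm_num, if_false]
    rw [le_div_iff₀ (by linarith)]
    have h9 : Wr (nbr c s) * ((c : ℝ) - 1) ≤ 217 / 1000 := by
      refine le_trans (mul_le_mul_of_nonneg_left hnc hW) h8
    nlinarith

end Pool.Agent.Lib.MP_a247fa_nt.X
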