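import Pool.Agent.Lib.MP_a247fa_nt.X.WinM
import Pool.Agent.Lib.MP_a247fa_nt.X.Eta

/-! ENDS (35 min, old scale).
Odd ends. `end_left`: `a` odd, `c = a + 1`. `RL c ≤ Wr c mu (c-1) (c+1) = Wr c mu a c + Wr c mu c (c+1)` (`int_one`; `c ≥ 2`). On the unit `(a, a+1)`: `qf - ph + Wr c ≤ kR a true` (`eta`, `nbr a true = a + 1`), integrate (`itg_mono`, `itg_const`). Second: if `c < 32`: `Wr c mu c (c+1) = SR c`. If `c ≥ 32`:
`SR c = Wr c/2 mu c (c+2) ≥ Wr c/2 mu c (c+1)` (`mu_mono`) and `Wr c/2 mu c (c+1) ≤ itg (kR a true) c (c+1)` (`eta_two`). Sum up: `itg_split` for `kR a true` over `(a, a+1)`, `(a+1, a+2)`.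
`end_right`: `b` odd, `c = b - 1`: mirror image (`nbr b false = b - 1`, `SL c`). -/

set_option autoImplicit false

namespace Pool.Agent.Lib.MP_a247fa_nt.X

open Set MeasureTheory
open Pool.Agent.Lib.MP_a247fa_nt.W Pool.Agent.Lib.MP_a247fa_nt.V

theorem end_left {ν : Measure ℝ} {n a : ℕ} {b : ℝ} (hν : CR ν a b) (ho : a % 2 = 1) (h1 : 1 ≤ a) (hb : (a : ℝ) + 2 ≤ b) :
    itg ν (fun x => qf x - ph x) a (a + 1) + RL ν n (a + 1) ≤ itg ν (kR a true) a (a + 2) + SR ν (a + 1) := by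
  haveI := hν.fin
  haveI := hν.noat
  have c1 : ((a + 1 : ℕ) : ℝ) = (a : ℝ) + 1 := by push_cast; ring
  have hR : RL ν n (a + 1) ≤ Wr (a + 1) * mu ν (a : ℝ) (a + 2) := by
    have := int_one (n := n) hν (c := a + 1) (by omega) (by rw [c1]; linarith) (by rw [c1]; linarith)
    rw [c1, show (a : ℝ) + 1 - 1 = a by ring, show (a : ℝ) + 1 + 1 = a + 2 by ring] at this
    exact this
  have hmu := mu_add (ν := ν) (show (a : ℝ) ≤ (a : ℝ) + 1 by linarith)
    (show (a : ℝ) + 1 ≤ (a : ℝ) + 2 by linarith)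
  have hbm : BM (fun x => qf x - ph x) := bm_sub bm_qf bm_ph
  have hnb : nbr a true = a + 1 := rfl
  have hA : itg ν (fun x => (qf x - ph x) + Wr (a + 1)) a (a + 1) ≤ itg ν (kR a true) a (a + 1) := by
    refine itg_mono (bm_add hbm (bm_const _)) (bm_kR a true) ?_
    intro x hx
    have hadj : adj a true x := by
      unfold adj ds
      rw [if_pos rfl]
      constructor
      · linarith [hx.1]
      · linarith [hx.2]
    have := eta (c := a) (s := true) (x := x) ho (Or.inr rfl) hadj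
    rwa [hnb] at this
  rw [itg_add hbm (bm_const _), itg_const] at hA
  have hsp := itg_split (ν := ν) (bm_kR a true) (show (a : ℝ) ≤ (a : ℝ) + 1 by linarith)
    (show (a : ℝ) + 1 ≤ (a : ℝ) + 2 by linarith)
  have hkn : 0 ≤ itg ν (kR a true) ((a : ℝ) + 1) (a + 2) := itg_nonneg (fun x _ => kR_nonneg a true x)
  rw [hsp]
  rw [hmu] at hR
  have hw0 := wr_nonneg (a + 1)
  unfold SR
  rw [c1, show (a : ℝ) + 1 + 1 = a + 2 by ring]
  by_cases h32 : a + 1 < 32
  · rw [if_pos h32]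
    linarith
  · rw [if_neg h32]
    have hB : Wr (a + 1) / 2 * mu ν ((a : ℝ) + 1) (a + 2) ≤ itg ν (kR a true) ((a : ℝ) + 1) (a + 2) := by
      rw [← itg_const]
      refine itg_mono (bm_const _) (bm_kR a true) ?_
      intro x hx
      have h2 : ds a true x = x - a := by
        unfold ds
        rw [if_pos rfl]
      have := eta_two (c := a) (s := true) (x := x) ho (by rw [hnb]; omega)
        (by rw [h2]; linarith [hx.1]) (by rw [h2]; linarith [hx.2])
      rwa [hnb] at this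
    have hC : mu ν ((a : ℝ) + 1) (a + 2) ≤ mu ν ((a : ℝ) + 1) ((a : ℝ) + 1 + 2) :=
      mu_mono le_rfl (by linarith)
    have hD := mul_le_mul_of_nonneg_left hC (show 0 ≤ Wr (a + 1) / 2 by linarith)
    linarith

theorem end_right {ν : Measure ℝ} {n b : ℕ} {a : ℝ} (hν : CR ν a b) (ho : b % 2 = 1) (h3 : 3 ≤ b) (ha : a ≤ (b : ℝ) - 2) :
    itg ν (fun x => qf x - ph x) ((b : ℝ) - 1) b + RL ν n (b - 1) ≤ itg ν (kR b false) ((b : ℝ) - 2) b + SL ν (b - 1) := by
  haveI := hν.fin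
  haveI := hν.noat
  have c1 : ((b - 1 : ℕ) : ℝ) = (b : ℝ) - 1 := by
    rw [Nat.cast_sub (by omega)]
    norm_num
  have hR : RL ν n (b - 1) ≤ Wr (b - 1) * mu ν ((b : ℝ) - 2) b := by
    have := int_one (n := n) hν (c := b - 1) (by omega) (by rw [c1]; linarith) (by rw [c1]; linarith)
    rw [c1, show (b : ℝ) - 1 - 1 = b - 2 by ring, show (b : ℝ) - 1 + 1 = b by ring] at this
    exact this
  have hmu := mu_add (ν := ν) (show (b : ℝ) - 2 ≤ (b : ℝ) - 1 by linarith)
    (show (b : ℝ) - 1 ≤ (b : ℝ) by linarith)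
  have hbm : BM (fun x => qf x - ph x) := bm_sub bm_qf bm_ph
  have hnb : nbr b false = b - 1 := rfl
  have hA : itg ν (fun x => (qf x - ph x) + Wr (b - 1)) ((b : ℝ) - 1) b ≤
      itg ν (kR b false) ((b : ℝ) - 1) b := by
    refine itg_mono (bm_add hbm (bm_const _)) (bm_kR b false) ?_
    intro x hx
    have hadj : adj b false x := by
      unfold adj ds
      rw [if_neg (by simp)]
      constructor
      · linarith [hx.2]
      · linarith [hx.1]
    have := eta (c := b) (s := false) (x := x) ho (Or.inl h3) hadj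
    rwa [hnb] at this
  rw [itg_add hbm (bm_const _), itg_const] at hA
  have hsp := itg_split (ν := ν) (bm_kR b false) (show (b : ℝ) - 2 ≤ (b : ℝ) - 1 by linarith)
    (show (b : ℝ) - 1 ≤ (b : ℝ) by linarith)
  have hkn : 0 ≤ itg ν (kR b false) ((b : ℝ) - 2) ((b : ℝ) - 1) :=
    itg_nonneg (fun x _ => kR_nonneg b false x)
  rw [hsp]
  rw [hmu] at hR
  have hw0 := wr_nonneg (b - 1)
  unfold SL
  rw [c1, show (b : ℝ) - 1 - 1 = b - 2 by ring]
  by_cases h32 : b - 1 < 32
  · rw [if_pos h32]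
    linarith
  · rw [if_neg h32]
    have hB : Wr (b - 1) / 2 * mu ν ((b : ℝ) - 2) ((b : ℝ) - 1) ≤
        itg ν (kR b false) ((b : ℝ) - 2) ((b : ℝ) - 1) := by
      rw [← itg_const]
      refine itg_mono (bm_const _) (bm_kR b false) ?_
      intro x hx
      have h2 : ds b false x = b - x := by
        unfold ds
        rw [if_neg (by simp)]
      have := eta_two (c := b) (s := false) (x := x) ho (by rw [hnb]; omega)
        (by rw [h2]; linarith [hx.2]) (by rw [h2]; linarith [hx.1])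
      rwa [hnb] at this
    have hC : mu ν ((b : ℝ) - 2) ((b : ℝ) - 1) ≤ mu ν ((b : ℝ) - 1 - 2) ((b : ℝ) - 1) :=
      mu_mono (by linarith) le_rfl
    have hD := mul_le_mul_of_nonneg_left hC (show 0 ≤ Wr (b - 1) / 2 by linarith)
    linarith

end Pool.Agent.Lib.MP_a247fa_nt.X
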