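import Pool.Agent.Lib.MP_a247fa_nt.V.Disp
import Pool.Agent.Lib.MP_a247fa_nt.Trap

/-! HSX (30 min, old scale).
`9.869 < π^2 < 9.87` (`pi_sq_lt`; lower bound from `Real.pi_gt_d4` or similar).

`hs_ge4`: `sin^2 u = (1 - cos 2u)/2 ≥ u^2 - u^4/3` for all real `u` because `cos y ≤ 1 - y^2/2 + y^4/24` (`Real.cos_le_one_sub_mul_cos_sq`.. or `Real.cos_lt..`; if Mathlib has only a weaker form prove it by monotonicity: the function
`1 - y^2/2 + y^4/24 - cos y` is even, vanishes at `0` and has derivative `-y + y^3/6 + sin y ≥ 0` for `y ≥ 0` (`Real.sin_gt_sub_cube`/`Real.sub_cube_lt_sin` style: `y - y^3/6 ≤ sin y` for `y ≥ 0`, proved the same way)). With `u = π s/2`: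
`u^2 (1 - u^2/3) = (π^2/4) s^2 (1 - π^2 s^2/12) ≥ 2.46725 s^2 (1 - 0.8225 s^2)` (if `1 - 0.8225 s^2 ≥ 0`; otherwise the right side is `≤ 0 ≤ hs s`).
`hp s = (π/2) sin (π s)` is the derivative of `hs`. `hp_ge`: `(π/2)(π s - π^3 s^3/6) = (π^2/2) s (1 - π^2 s^2/6) ≥ 4.9345 s (1 - 1.645 s^2)` for `0 ≤ s ≤ 3/4`. `hasDerivAt_hs`: `2 sin cos * π/2`, double angle.
`dg_*`: derivatives of the displacement as a function of the distance `d`. -/

set_option autoImplicit false

namespace Pool.Agent.Lib.MP_a247fa_nt.X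

open Set MeasureTheory
open Pool.Agent.Lib.MP_a247fa_nt.W Pool.Agent.Lib.MP_a247fa_nt.V

/-- derivative of `hs` -/
noncomputable def hp (s : ℝ) : ℝ := Real.pi / 2 * Real.sin (Real.pi * s)

theorem hasDerivAt_hs (s : ℝ) : HasDerivAt hs (hp s) s := by
  have h1 : HasDerivAt (fun s : ℝ => Real.pi * s / 2) (Real.pi / 2) s := by
    have h := ((hasDerivAt_id s).const_mul Real.pi).div_const 2
    simpa using h
  have h2 := h1.sin.pow 2
  have h3 : hp s = (2 : ℕ) * Real.sin (Real.pi * s / 2) ^ (2 - 1) *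
      (Real.cos (Real.pi * s / 2) * (Real.pi / 2)) := by
    unfold hp
    have h4 : Real.pi * s = 2 * (Real.pi * s / 2) := by ring
    rw [h4, Real.sin_two_mul]
    have h5 : 2 * (Real.pi * s / 2) / 2 = Real.pi * s / 2 := by ring
    rw [h5]
    push_cast
    norm_num
    ring
  rw [h3]
  exact h2

private theorem hsx_eq (s : ℝ) : hs s = (1 - Real.cos (Real.pi * s)) / 2 := by
  unfold hs
  rw [Real.sin_sq, Real.cos_sq]
  have h : 2 * (Real.pi * s / 2) = Real.pi * s := by ring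
  rw [h]
  ring

private theorem hsx_nonneg (s : ℝ) : 0 ≤ hs s := by
  unfold hs
  exact sq_nonneg _

theorem hs_ge4 (s : ℝ) : 246725 / 100000 * s ^ 2 * (1 - 8225 / 10000 * s ^ 2) ≤ hs s := by
  by_cases hc : 1 - 8225 / 10000 * s ^ 2 < 0
  · have h1 : 246725 / 100000 * s ^ 2 * (1 - 8225 / 10000 * s ^ 2) ≤ 0 :=
      mul_nonpos_of_nonneg_of_nonpos (by positivity) hc.le
    exact h1.trans (hsx_nonneg s)
  · push Not at hc
    rw [hsx_eq]
    have h1 := le_one_sub_cos s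
    have h2 := pi_sq_lt
    have h3 := pi_sq_gt
    obtain ⟨q, hq⟩ : ∃ q : ℝ, q = Real.pi ^ 2 := ⟨_, rfl⟩
    have h4 : Real.pi ^ 4 = q ^ 2 := by rw [hq]; ring
    rw [h4, ← hq] at h1
    rw [← hq] at h2 h3
    obtain ⟨v, hv⟩ : ∃ v : ℝ, v = s ^ 2 := ⟨_, rfl⟩
    have h5 : s ^ 4 = v ^ 2 := by rw [hv]; ring
    rw [h5, ← hv] at h1
    rw [← hv] at hc ⊢
    have hv0 : 0 ≤ v := by rw [hv]; positivity
    -- q/4 v (1 - q v / 12) ≥ 2.46725 v (1 - .8225 v)
    have h6 : 246725 / 100000 * v * (1 - 8225 / 10000 * v) ≤ q / 4 * v * (1 - q / 12 * v) := by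
      have h7 : 1 - 8225 / 10000 * v ≤ 1 - q / 12 * v := by
        have : q / 12 * v ≤ 8225 / 10000 * v := by
          apply mul_le_mul_of_nonneg_right _ hv0
          norm_num at h2 ⊢
          linarith
        linarith
      have h8 : 246725 / 100000 * v ≤ q / 4 * v := by
        apply mul_le_mul_of_nonneg_right _ hv0
        norm_num at h3 ⊢
        linarith
      exact mul_le_mul h8 h7 hc (by nlinarith)
    have h9 : q / 4 * v * (1 - q / 12 * v) = (q * v / 2 - q ^ 2 * v ^ 2 / 24) / 2 := by ring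
    linarith

theorem hp_ge {s : ℝ} (h0 : 0 ≤ s) (h1 : s ≤ 3 / 4) : 49345 / 10000 * s * (1 - 1645 / 1000 * s ^ 2) ≤ hp s := by
  unfold hp
  have h2 := pi_sq_lt
  have h3 := pi_sq_gt
  have h4 := Real.sin_ge_sub_cube (x := Real.pi * s) (by positivity)
  obtain ⟨q, hq⟩ : ∃ q : ℝ, q = Real.pi ^ 2 := ⟨_, rfl⟩
  have h5 : Real.pi / 2 * (Real.pi * s - (Real.pi * s) ^ 3 / 6) =
      q / 2 * s * (1 - q / 6 * s ^ 2) := by rw [hq]; ring
  have h6 : q / 2 * s * (1 - q / 6 * s ^ 2) ≤ Real.pi / 2 * Real.sin (Real.pi * s) := by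
    rw [← h5]
    exact mul_le_mul_of_nonneg_left h4 (by positivity)
  refine le_trans ?_ h6
  rw [← hq] at h2 h3
  have h7 : s ^ 2 ≤ 9 / 16 := by nlinarith
  have h8 : 0 ≤ s ^ 2 := sq_nonneg s
  have h9 : 1 - 1645 / 1000 * s ^ 2 ≤ 1 - q / 6 * s ^ 2 := by
    have : q / 6 * s ^ 2 ≤ 1645 / 1000 * s ^ 2 := by
      apply mul_le_mul_of_nonneg_right _ h8
      norm_num at h2 ⊢
      linarith
    linarith
  have h10 : 49345 / 10000 * s ≤ q / 2 * s := by
    apply mul_le_mul_of_nonneg_right _ h0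
    norm_num at h3 ⊢
    linarith
  have h11 : 0 ≤ 1 - 1645 / 1000 * s ^ 2 := by linarith
  exact mul_le_mul h10 h9 h11 (by nlinarith)

theorem hp_nonneg {s : ℝ} (h0 : 0 ≤ s) (h1 : s ≤ 1) : 0 ≤ hp s := by
  unfold hp
  have h2 : 0 ≤ Real.sin (Real.pi * s) := by
    apply Real.sin_nonneg_of_nonneg_of_le_pi
    · positivity
    · nlinarith [Real.pi_pos]
  positivity

/-- right side: derivative of `(c + 1/2 + d) hs d + k d` -/
theorem hasDerivAt_right (n k d : ℝ) : HasDerivAt (fun d => (n + d) * hs d + k * d) (hs d + (n + d) * hp d + k) d := by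
  have h1 : HasDerivAt (fun d : ℝ => n + d) 1 d := by
    simpa using (hasDerivAt_id d).const_add n
  have h2 := h1.mul (hasDerivAt_hs d)
  have h3 : HasDerivAt (fun d : ℝ => k * d) k d := by
    simpa using (hasDerivAt_id d).const_mul k
  have h4 := h2.add h3
  have h5 : hs d + (n + d) * hp d + k = 1 * hs d + (n + d) * hp d + k := by ring
  rw [h5]
  exact h4

/-- left side -/
theorem hasDerivAt_left (n k d : ℝ) : HasDerivAt (fun d => (n - d) * hs d + k * d) (-hs d + (n - d) * hp d + k) d := by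
  have h1 : HasDerivAt (fun d : ℝ => n - d) (-1) d := by
    simpa using (hasDerivAt_id d).const_sub n
  have h2 := h1.mul (hasDerivAt_hs d)
  have h3 : HasDerivAt (fun d : ℝ => k * d) k d := by
    simpa using (hasDerivAt_id d).const_mul k
  have h4 := h2.add h3
  have h5 : -hs d + (n - d) * hp d + k = -1 * hs d + (n - d) * hp d + k := by ring
  rw [h5]
  exact h4

end Pool.Agent.Lib.MP_a247fa_nt.X
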