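import Pool.Agent.Lib.MP_a247fa_nt.X.KnB

/-! WRGE (30 min, old scale).
The costs `Wr c`. `FW = 1748051690 ≥ (407/1000) 2^32`.

`wr_ge`: `c < 2048`: `Wn c = ⌊2560 (E + 2 Vn c) / (5 (1024 - kn c)(2c+1) - 5632)⌋ + 1` and `5 (1024 - kn c)(2c+1) - 5632 = 2560 (zc c (2 - kn c/512) - 11/5)` (no truncation: `kn c ≤ 232`, `c ≥ 3`: `5 * 792 * 7 > 5632`);
`c ≥ 2048`: equality (`kl_big`). `wr_le_wn`: `c < 2048` equality, else the same computation (`Vr`, `fw` times `2^32` are `≤` the natural numbers; `⌊.⌋ + 1 ≥ .`). `wr_even`, `wr_odd`: for `c ≥ 2048`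
`Wr c * c = (fw + 2 Vr) c / (zc c * 1009/512 - 11/5)`, with `fw = 407/1000` (`En_big`) resp. `0` (`En_odd`), `Vr ≤ 224/1000` resp. `≤ 272/1000` (`vr_big_*`): `855/1000 c ≤ 217/1000 ((2c+1) 1009/512 - 11/5)` and
`544/1000 c ≤ 1385/10000 ((2c+1) 1009/512 - 11/5)` for `c ≥ 2048`. `wr_two`: `Wn c = 0` for `c < 3`. -/

set_option autoImplicit false

namespace Pool.Agent.Lib.MP_a247fa_nt.X

open Set MeasureTheory
open Pool.Agent.Lib.MP_a247fa_nt.W Pool.Agent.Lib.MP_a247fa_nt.V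

/-- numerator of the cost, as natural number -/
private def wg_num (c : ℕ) : ℕ := 2560 * ((if En c = true then 1748051690 else 0) + 2 * Vn c)

/-- denominator of the cost, as natural number -/
private def wg_den (c : ℕ) : ℕ := 5 * (1024 - kn c) * (2 * c + 1) - 5632

private theorem wg_Wn {c : ℕ} (h : 3 ≤ c) : Wn c = wg_num c / wg_den c + 1 := by
  have hb : Nat.blt c 3 = false := by
    rcases hb : Nat.blt c 3 with _ | _
    · rfl
    · rw [Nat.blt_eq] at hb
      omega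
  unfold Wn wg_num wg_den
  rw [hb, Bool.cond_false]
  rcases hE : En c with _ | _
  · rfl
  · rfl

private theorem wg_den_real {c : ℕ} (h : 3 ≤ c) :
    (wg_den c : ℝ) = 2560 * (zc c * (2 - (kn c : ℝ) / 512) - 11 / 5) ∧ 0 < wg_den c := by
  have hk := kn_le c
  have h1 : 5632 < 5 * (1024 - kn c) * (2 * c + 1) := by
    have h2 : 792 ≤ 1024 - kn c := by omega
    calc 5632 < 5 * 792 * 7 := by norm_num
      _ ≤ 5 * (1024 - kn c) * (2 * c + 1) := Nat.mul_le_mul (Nat.mul_le_mul_left 5 h2) (by omega)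
  constructor
  · unfold wg_den zc
    rw [Nat.cast_sub h1.le]
    push_cast [Nat.cast_sub (show kn c ≤ 1024 by omega)]
    ring
  · unfold wg_den
    omega

private theorem wg_num_real (c : ℕ) : 2560 * 4294967296 * (fw c + 2 * Vr c) ≤ (wg_num c : ℝ) := by
  unfold wg_num fw Vr
  rcases hE : En c with _ | _
  · simp only [Bool.false_eq_true, if_false]
    push_cast
    ring_nf
    exact le_refl _
  · simp only [if_true]
    push_cast
    have : (0 : ℝ) ≤ Vn c := Nat.cast_nonneg _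
    linarith

theorem wr_nonneg (c : ℕ) : 0 ≤ Wr c := by
  unfold Wr
  split_ifs with h
  · exact div_nonneg (Nat.cast_nonneg _) (by norm_num)
  · have h1 : (2048 : ℝ) ≤ c := by exact_mod_cast (not_lt.1 h)
    have h2 := vr_nonneg c
    have h3 : 0 ≤ fw c := by
      unfold fw
      split_ifs <;> norm_num
    apply div_nonneg (by linarith)
    unfold zc
    linarith

theorem wr_small {c : ℕ} (h : c < 3) : Wr c = 0 := by
  unfold Wr
  rw [if_pos (by omega)]
  have hb : Nat.blt c 3 = true := by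
    rw [Nat.blt_eq]
    exact h
  have : Wn c = 0 := by
    unfold Wn
    rw [hb]
    rfl
  rw [this]
  simp

private theorem wg_fv (c : ℕ) : 0 ≤ fw c + 2 * Vr c := by
  have h2 := vr_nonneg c
  have h3 : 0 ≤ fw c := by
    unfold fw
    split_ifs <;> norm_num
  linarith

/-- the rounded quotient is an upper bound -/
private theorem wg_quot {c : ℕ} (h : 3 ≤ c) :
    fw c + 2 * Vr c ≤ (Wn c : ℝ) / 4294967296 * (zc c * (2 - (kn c : ℝ) / 512) - 11 / 5) := by
  obtain ⟨h1, h2⟩ := wg_den_real h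
  have h3 := wg_num_real c
  have h4 : wg_num c < wg_den c * Wn c := by
    rw [wg_Wn h]
    exact Nat.lt_mul_div_succ _ h2
  have h5 : (wg_num c : ℝ) ≤ (wg_den c : ℝ) * Wn c := by exact_mod_cast h4.le
  rw [h1] at h5
  generalize zc c * (2 - (kn c : ℝ) / 512) - 11 / 5 = D at h5 ⊢
  generalize fw c + 2 * Vr c = F at h3 ⊢
  generalize (Wn c : ℝ) = W at h5 ⊢
  rw [div_mul_eq_mul_div, le_div_iff₀ (by norm_num)]
  linarith

theorem wr_ge {c : ℕ} (h : 3 ≤ c) : 0 < zc c * (2 - (kn c : ℝ) / 512) - 11 / 5 ∧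
    fw c + 2 * Vr c ≤ Wr c * (zc c * (2 - (kn c : ℝ) / 512) - 11 / 5) := by
  obtain ⟨h1, h2⟩ := wg_den_real h
  have h0 : 0 < zc c * (2 - (kn c : ℝ) / 512) - 11 / 5 := by
    have : (0 : ℝ) < wg_den c := by exact_mod_cast h2
    rw [h1] at this
    linarith
  refine ⟨h0, ?_⟩
  unfold Wr
  split_ifs with hc
  · exact wg_quot h
  · have hk : kn c = 15 := (kl_big (by omega) true).2
    rw [hk] at h0 ⊢
    push_cast at h0 ⊢
    rw [div_mul_cancel₀ _ h0.ne']

theorem wr_le_wn (c : ℕ) : Wr c ≤ (Wn c : ℝ) / 4294967296 := by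
  by_cases hc : c < 2048
  · unfold Wr
    rw [if_pos hc]
  · have h3 : 3 ≤ c := by omega
    obtain ⟨h1, h2⟩ := wg_den_real h3
    have h0 : 0 < zc c * (2 - (kn c : ℝ) / 512) - 11 / 5 := by
      have : (0 : ℝ) < wg_den c := by exact_mod_cast h2
      rw [h1] at this
      linarith
    have hq := wg_quot h3
    have hk : kn c = 15 := (kl_big (by omega) true).2
    unfold Wr
    rw [if_neg hc]
    rw [hk] at h0 hq
    push_cast at h0 hq
    rw [div_le_iff₀ h0]
    exact hq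

theorem wr_even {c : ℕ} (h : 2048 ≤ c) (he : c % 2 = 0) : Wr c * c ≤ 217 / 1000 := by
  have hc : (2048 : ℝ) ≤ c := by exact_mod_cast h
  unfold Wr
  rw [if_neg (by omega), vr_big_even (by omega) he]
  unfold fw zc
  rw [if_pos (En_big (by omega) he)]
  have h0 : 0 < (2 * (c : ℝ) + 1) * (2 - 15 / 512) - 11 / 5 := by linarith
  rw [div_mul_eq_mul_div, div_le_iff₀ h0]
  nlinarith

theorem wr_odd {c : ℕ} (h : 2048 ≤ c) (ho : c % 2 = 1) : Wr c * c ≤ 1385 / 10000 := by
  have hc : (2048 : ℝ) ≤ c := by exact_mod_cast h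
  unfold Wr
  rw [if_neg (by omega), vr_big_odd (by omega) ho]
  unfold fw zc
  rw [En_odd ho]
  simp only [Bool.false_eq_true, if_false]
  have h0 : 0 < (2 * (c : ℝ) + 1) * (2 - 15 / 512) - 11 / 5 := by linarith
  rw [div_mul_eq_mul_div, div_le_iff₀ h0]
  nlinarith

end Pool.Agent.Lib.MP_a247fa_nt.X
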