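import Pool.Agent.Lib.MP_a247fa_nt.X.CfB
import Pool.Agent.Lib.MP_a247fa_nt.X.HrA
import Pool.Agent.Lib.MP_a247fa_nt.X.HsX
import Pool.Agent.Lib.MP_a247fa_nt.X.WrGe
import Pool.Agent.Lib.MP_a247fa_nt.V.Disp

/-! ETAL (40 min, old scale).
Odd `c ≥ 2049`, `adj c s x`: `qf x - ph x + Wr (nbr c s) ≤ kR c s x`. `A = AA/2^32`, `y = ds c s x = |x - c| ∈ (0,1)`, `hr l c s = G_l/c`.

Not free: (`s = true`) `qf = 0`, `ph x ≥ 0.07 ≥ Wr`. Free: `cf x ≥ 1024` (`cf_free_ge`, `lo ≥ 1024`), `ph (cf x) = A - 3/cf x`, `cf x ≤ (x + 1/2) xi y` (`cf_xi`, `xi_abs`); `ph x = A - 3/x`. So `c (qf x - ph x + Wr (nbr)) ≤ 3c/x - 3c/((x+1/2) xi y) + c Wr(nbr)`, `c Wr (nbr) ≤ 0.217 c/(c-1) ≤ 0.21711` (`wr_even`).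
Pieces (`|x - c| = y`): `3c/x ≤ 3 c/(c - y)`, `3c/((x+1/2) xi) ≥ 3c/((c + y + 1/2) xi)`.
 `y < 102/512`: `xi ≤ 3/2`: `≤ 3 (1.0001) - 2 (0.99965) + 0.21711 ≤ 1.2181 ≤ 1.22`.
 `102/512 ≤ y < 204/512`: `xi y ≤ xi (102/512) ≤ 1.4053` (`xi_anti`; numeric: `xi t = 3/2 - hs t`, `hs_ge4 (102/512)`: `hs ≥ 0.09472`): `≤ 3.0006 - 2.1347 * 0.9995 + 0.2172 ≤ 1.0843 ≤ 1.09`.
 `204/512 ≤ y < 308/512`: `xi ≤ xi (204/512) ≤ 1.1597` (`hs_ge4 (204/512)`: `hs ≥ 0.34`; exact `0.3431`): `≤ 3.0009 - 2.5868 * 0.9994 + 0.2172 ≤ 0.633`: slightly too large, so use a better value: `hs (204/512) ≥ 0.3427`: from `cos (π 204/512) ≤ 0.3146` (Taylor of order 6, or `Real.cos_bound` at a reduced angle, or `hs (2t) = 4 hs t (1 - hs t)` with `t = 102/512`: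
 `hs t ≥ 0.09472` gives `4 * 0.09472 * 0.90528 = 0.34299`): `xi ≤ 1.15701`: `3.0009 - 2.59289 * 0.9994 + 0.2172 ≤ 0.6268 ≤ 0.63`.
 `308/512 ≤ y < 1`: `xi ≤ xi (3/5) ≤ 9/10` (`xi_le9`): `≤ 3.0015 - 3.3333 * 0.9992 + 0.2172 < 0 ≤ 0.11`. -/

set_option autoImplicit false

namespace Pool.Agent.Lib.MP_a247fa_nt.X

open Set MeasureTheory
open Pool.Agent.Lib.MP_a247fa_nt.W Pool.Agent.Lib.MP_a247fa_nt.V

private theorem etal_piece {c x X Y F w G : ℝ} (hc : 2049 ≤ c) (hY0 : 0 ≤ Y) (hY1 : Y ≤ 1) (hx1 : c - Y ≤ x)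
    (hx2 : x ≤ c + Y) (hX : 0 < X) (hF0 : 0 < F) (hF : F ≤ (x + 1 / 2) * X) (hw : w * c ≤ 21711 / 100000)
    (hG : 3 * 2049 / (2049 - Y) - 3 / X * (2049 / (2049 + Y + 1 / 2)) + 21711 / 100000 ≤ G) :
    3 / x - 3 / F + w ≤ G / c := by
  have hc0 : 0 < c := by linarith
  have hcY : 0 < c - Y := by linarith
  have hx0 : 0 < x := by linarith
  have a1 : 3 / x ≤ 3 / (c - Y) := div_le_div_of_nonneg_left (by norm_num) hcY hx1
  have a2 : 3 / ((c + Y + 1 / 2) * X) ≤ 3 / F := by
    apply div_le_div_of_nonneg_left (by norm_num) hF0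
    refine hF.trans ?_
    apply mul_le_mul_of_nonneg_right _ hX.le
    linarith
  have a3 : 3 / (c - Y) * c ≤ 3 * 2049 / (2049 - Y) := by
    rw [div_mul_eq_mul_div, div_le_div_iff₀ hcY (by linarith)]
    nlinarith [mul_nonneg hY0 (by linarith : (0 : ℝ) ≤ c - 2049)]
  have a4 : 3 / X * (2049 / (2049 + Y + 1 / 2)) ≤ 3 / ((c + Y + 1 / 2) * X) * c := by
    have e : 3 / ((c + Y + 1 / 2) * X) * c = 3 / X * (c / (c + Y + 1 / 2)) := by
      field_simp
    rw [e]
    apply mul_le_mul_of_nonneg_left _ (by positivity)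
    rw [div_le_div_iff₀ (by linarith) (by linarith)]
    nlinarith [mul_nonneg hY0 (by linarith : (0 : ℝ) ≤ c - 2049)]
  rw [le_div_iff₀ hc0]
  have b1 := mul_le_mul_of_nonneg_right a1 hc0.le
  have b2 := mul_le_mul_of_nonneg_right a2 hc0.le
  nlinarith [b1, b2, a3, a4, hw, hG]

private theorem etal_hs1 : 9472 / 100000 ≤ hs (102 / 512) ∧ hs (102 / 512) ≤ 1 / 10 := by
  constructor
  · have := hs_ge4 (102 / 512)
    norm_num at this ⊢
    linarith
  · have := hs_le (102 / 512)
    norm_num at this ⊢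
    linarith

private theorem etal_hs2 : 34299 / 100000 ≤ hs (204 / 512) := by
  have e : hs (204 / 512) = 4 * hs (102 / 512) * (1 - hs (102 / 512)) := by
    have e1 : Real.pi * (204 / 512) / 2 = 2 * (Real.pi * (102 / 512) / 2) := by ring
    have h1 := Real.sin_sq_add_cos_sq (Real.pi * (102 / 512) / 2)
    unfold hs
    rw [e1, Real.sin_two_mul]
    have h2 : 1 - Real.sin (Real.pi * (102 / 512) / 2) ^ 2 = Real.cos (Real.pi * (102 / 512) / 2) ^ 2 := by linarith
    rw [h2]
    ring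
  obtain ⟨g1, g2⟩ := etal_hs1
  rw [e]
  nlinarith

theorem eta_large {c : ℕ} {s : Bool} {x : ℝ} (ho : c % 2 = 1) (hc : 2049 ≤ c) (hx : adj c s x) :
    qf x - ph x + Wr (nbr c s) ≤ kR c s x := by
  have hcR : (2049 : ℝ) ≤ c := by exact_mod_cast hc
  obtain ⟨hd0, hd1⟩ := hx
  -- the position
  have hpos : (s = true ∧ x = c + ds c s x) ∨ (s = false ∧ x = c - ds c s x) := by
    cases s
    · right
      refine ⟨rfl, ?_⟩
      unfold ds
      simp
    · left
      refine ⟨rfl, ?_⟩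
      unfold ds
      simp
  set y := ds c s x with hy
  have hxl : (c : ℝ) - y ≤ x := by
    rcases hpos with ⟨-, h⟩ | ⟨-, h⟩ <;> linarith
  have hxu : x ≤ c + y := by
    rcases hpos with ⟨-, h⟩ | ⟨-, h⟩ <;> linarith
  have habs : |x - c| = y := by
    rcases hpos with ⟨-, h⟩ | ⟨-, h⟩
    · have e : x - c = y := by linarith
      rw [e, abs_of_pos hd0]
    · have e : x - c = -y := by linarith
      rw [e, abs_neg, abs_of_pos hd0]
  have hx1024 : ¬ x < 1024 := by linarith
  -- the cost of the neighbour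
  have hw : Wr (nbr c s) * c ≤ 21711 / 100000 := by
    cases s
    · have hn : nbr c false = c - 1 := rfl
      rw [hn]
      have h1 := wr_even (c := c - 1) (by omega) (by omega)
      have h0 := wr_nonneg (c - 1)
      have e : ((c - 1 : ℕ) : ℝ) = c - 1 := by
        rw [Nat.cast_sub (by omega)]; norm_num
      rw [e] at h1
      have h2 : Wr (c - 1) ≤ 217 / 1000 / 2048 := by
        rw [le_div_iff₀ (by norm_num)]
        nlinarith
      nlinarith
    · have hn : nbr c true = c + 1 := rfl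
      rw [hn]
      have h1 := wr_even (c := c + 1) (by omega) (by omega)
      have h0 := wr_nonneg (c + 1)
      push_cast at h1
      nlinarith
  have hAA : (AA : ℝ) / 4294967296 - 3 / x = ph x := by
    unfold ph
    rw [if_neg hx1024]
  have hod : od c = true := (od_iff c).2 ho
  have hc3 : ¬ c < 3 := by omega
  have hc2048 : ¬ c < 2048 := by omega
  by_cases hf : Fre x
  · -- free
    have hx2 : 2 ≤ ⌊x⌋₊ := by
      rw [Nat.le_floor_iff (by linarith)]
      push_cast
      linarith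
    have hq : qf x = ph (cf x) := by
      unfold qf
      rw [if_pos ⟨hf, hx2⟩]
    have hcf1 : 1024 ≤ cf x := by
      cases s
      · have hu : x ∈ Ioo (((c - 1 : ℕ)) : ℝ) (((c - 1 : ℕ) : ℝ) + 1) := by
          have e : ((c - 1 : ℕ) : ℝ) = c - 1 := by
            rw [Nat.cast_sub (by omega)]; norm_num
          rw [e]
          rcases hpos with ⟨h, -⟩ | ⟨-, h⟩
          · cases h
          · constructor <;> linarith
        have h1 := (cf_free_ge (i := c - 1) (by omega) hu hf).1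
        have h2 : (1024 : ℝ) ≤ (lo (c - 1) : ℝ) := by
          exact_mod_cast (by unfold lo; omega : 1024 ≤ lo (c - 1))
        linarith
      · have hu : x ∈ Ioo (c : ℝ) ((c : ℝ) + 1) := by
          rcases hpos with ⟨-, h⟩ | ⟨h, -⟩
          · constructor <;> linarith
          · cases h
        have h1 := (cf_free_ge (i := c) (by omega) hu hf).1
        have h2 : (1024 : ℝ) ≤ (lo c : ℝ) := by
          exact_mod_cast (by unfold lo; omega : 1024 ≤ lo c)
        linarith
    have hphc : ph (cf x) = (AA : ℝ) / 4294967296 - 3 / cf x := by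
      unfold ph
      rw [if_neg (not_lt.2 hcf1)]
    have hcfle : cf x ≤ (x + 1 / 2) * xi y := by
      have h1 := cf_xi ho x
      rw [← xi_abs, habs] at h1
      linarith
    have hcf0 : 0 < cf x := by linarith
    have hlhs : qf x - ph x + Wr (nbr c s) = 3 / x - 3 / cf x + Wr (nbr c s) := by
      rw [hq, hphc, ← hAA]
      ring
    rw [hlhs]
    have hk : kR c s x = if y < 102 / 512 then hr 1 c s else if y < 204 / 512 then hr 2 c s
        else if y < 308 / 512 then hr 3 c s else if y < 1 then hr 4 c s else hr 5 c s := by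
      unfold kR
      rw [if_pos hod, if_neg hc3, if_pos ⟨hd0, by linarith, fun _ => hf⟩]
    rw [hk]
    have hxi0 : ∀ X : ℝ, xi y ≤ X → 0 < X := fun X h => by linarith [xi_ge y]
    have hxF : ∀ X : ℝ, xi y ≤ X → cf x ≤ (x + 1 / 2) * X := fun X h =>
      hcfle.trans (mul_le_mul_of_nonneg_left h (by linarith))
    have hr1 : hr 1 c s = 61 / 50 / c := by unfold hr; rw [if_neg hc2048]; norm_num
    have hr2 : hr 2 c s = 109 / 100 / c := by unfold hr; rw [if_neg hc2048]; norm_num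
    have hr3 : hr 3 c s = 63 / 100 / c := by unfold hr; rw [if_neg hc2048]; norm_num
    have hr4 : hr 4 c s = 11 / 100 / c := by unfold hr; rw [if_neg hc2048]; norm_num
    split_ifs with k1 k2 k3
    · rw [hr1]
      have hX : xi y ≤ 3 / 2 := xi_le y
      exact etal_piece (X := 3 / 2) (Y := 102 / 512) hcR (by norm_num) (by norm_num) (by linarith) (by linarith)
        (hxi0 _ hX) hcf0 (hxF _ hX) hw (by norm_num)
    · rw [hr2]
      have hX : xi y ≤ 140528 / 100000 := by
        refine (xi_anti (by norm_num) (not_lt.1 k1) (by linarith)).trans ?_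
        rw [xi_hs]
        linarith [etal_hs1.1]
      exact etal_piece (X := 140528 / 100000) (Y := 204 / 512) hcR (by norm_num) (by norm_num) (by linarith) (by linarith)
        (hxi0 _ hX) hcf0 (hxF _ hX) hw (by norm_num)
    · rw [hr3]
      have hX : xi y ≤ 115701 / 100000 := by
        refine (xi_anti (by norm_num) (not_lt.1 k2) (by linarith)).trans ?_
        rw [xi_hs]
        linarith [etal_hs2]
      exact etal_piece (X := 115701 / 100000) (Y := 308 / 512) hcR (by norm_num) (by norm_num) (by linarith) (by linarith)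
        (hxi0 _ hX) hcf0 (hxF _ hX) hw (by norm_num)
    · rw [hr4]
      have hX : xi y ≤ 9 / 10 := by
        apply xi_le9 _ hd1.le
        have := not_lt.1 k3
        linarith
      exact etal_piece (X := 9 / 10) (Y := 1) hcR (by norm_num) (by norm_num) (by linarith) (by linarith)
        (hxi0 _ hX) hcf0 (hxF _ hX) hw (by norm_num)
  · have hq : qf x = 0 := by
      unfold qf
      rw [if_neg (fun h => hf h.1)]
    have hk : kR c s x = 0 := by
      unfold kR
      rw [if_pos hod, if_neg hc3, if_neg (fun h => hf (h.2.2 hd1))]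
    rw [hq, hk, ← hAA]
    have h1 : (7 : ℝ) / 100 ≤ (AA : ℝ) / 4294967296 := by
      unfold AA
      norm_num
    have h2 : 3 / x ≤ 3 / 2048 := div_le_div_of_nonneg_left (by norm_num) (by norm_num) (by linarith)
    have h3 : Wr (nbr c s) ≤ 1 / 1000 := by
      have h0 := wr_nonneg (nbr c s)
      nlinarith
    linarith

end Pool.Agent.Lib.MP_a247fa_nt.X
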