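import Pool.Agent.Lib.MP_a247fa_nt.X.MainX
import Pool.Agent.Lib.MP_a247fa_nt.X.PhA

/-! FINX (40 min, old scale).
`volume (Ioo n (n+1) ∩ FF t) ≤ 777/10000` for all `n ≥ 1`, `t`.

`t = 0` or `n = 1`: `0` (`ff_one`). Let `n ≥ 2`, `t = t' + 1`, `ν = volume.restrict (Ioo n (n+1))`, `CR ν n (n+1)` (`cr_volume`). `unit_x` (with `main_x t'`): `≤ itg ν (Nf t') n (n+1) ≤ itg qf + itg (tau t' n true) n (n+1) + itg (tau t' (n+1) false) n (n+1)` (`dec`).
`HG ν c s (kn c/512) (fun Z => (1/zc c) * Z)` for `(c, s) = (n, true), (n+1, false)`: `ν (seg c s u v) ≤ volume (seg ..) = v - u = (1/zc c) (zc c (v-u))`. `lin_cost` (`n ≥ 3`, resp. `n + 1 ≥ 3`; `n = 2`: `tau_two`): `itg (tau t' n true) ≤ Vr n/zc n`, `itg (tau t' (n+1) false) ≤ (fw (n+1) + Vr (n+1))/zc (n+1)`.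
`qf x ≤ ph (hi n)` on the unit (`cf_free_ge`, `ph_mono`), `mu ν n (n+1) = 1`.
(1) `n ≥ 1024`: `ph ≤ A = AA/2^32 ≤ 0.077168`; `Vr ≤ 0.272`: even `n`: `(0.224 + 0.272)/2049`; odd `n`: `0.272/2051 + (0.407 + 0.224)/2053`: sum `≤ 0.00045`; total `≤ 0.07762`.
(2) `2 ≤ n < 1024`: kernel check in natural numbers: `pu (2^43 (3 (n/2) + 2)) + Vn n/(2n+1) + 1 + (Vn (n+1) + (if En (n+1) then 1748051690 else 0))/(2n+3) + 1 ≤ 333718958` (`0.0777 * 2^32 = 333718958.9`; largest value `324452171`, at `n = 1001`). `hi n = 3 (n/2) + 2`. (`Vn n = 0` for `n < 3`? not needed: for `n = 2` the term is `0` by `tau_two`, and `Vn 2 ≥ 0`.) -/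

set_option autoImplicit false

namespace Pool.Agent.Lib.MP_a247fa_nt.X

open Set MeasureTheory
open Pool.Agent.Lib.MP_a247fa_nt.W Pool.Agent.Lib.MP_a247fa_nt.V

private def FinX_ck (n : ℕ) : Bool :=
  Nat.ble (pu (8796093022208 * (3 * (n / 2) + 2)) + Vn n / (2 * n + 1) + 1 +
    (Vn (n + 1) + cond (En (n + 1)) 1748051690 0) / (2 * n + 3) + 1) 333718958

set_option maxRecDepth 100000 in
private theorem FinX_all : (List.range 1024).all (fun n => Nat.blt n 2 || FinX_ck n) = true := by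
  decide +kernel

private theorem FinX_div (x y : ℕ) (hy : 0 < y) : (x : ℝ) / y ≤ ((x / y : ℕ) : ℝ) + 1 := by
  have h := Nat.lt_div_mul_add (a := x) hy
  have h2 : x < (x / y + 1) * y := by
    rw [add_mul, one_mul]
    exact h
  have hy' : (0 : ℝ) < y := by exact_mod_cast hy
  rw [div_le_iff₀ hy']
  exact_mod_cast h2.le

private theorem FinX_small {n : ℕ} (h2 : 2 ≤ n) (h : n < 1024) :
    ph (hi n) + Vr n / zc n + (fw (n + 1) + Vr (n + 1)) / zc (n + 1) ≤ 777 / 10000 := by
  have hall := FinX_all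
  rw [List.all_eq_true] at hall
  have h1 := hall n (List.mem_range.2 h)
  have h3 : Nat.blt n 2 = false := by
    rw [← Bool.not_eq_true, Nat.blt_eq]
    omega
  rw [h3, Bool.false_or] at h1
  unfold FinX_ck at h1
  have h4 := Nat.le_of_ble_eq_true h1
  have hhi : hi n = 3 * (n / 2) + 2 := rfl
  have e1 : ph (hi n) * 4294967296 ≤ (pu (8796093022208 * (3 * (n / 2) + 2)) : ℝ) := by
    apply ph_le_pu
    rw [hhi]
    push_cast
    linarith
  have e2 := FinX_div (Vn n) (2 * n + 1) (by omega)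
  have e3 := FinX_div (Vn (n + 1) + cond (En (n + 1)) 1748051690 0) (2 * n + 3) (by omega)
  have e4 : Vr n / zc n * 4294967296 = (Vn n : ℝ) / ((2 * n + 1 : ℕ) : ℝ) := by
    unfold Vr zc
    push_cast
    field_simp
  have hz : (0 : ℝ) < ((2 * n + 3 : ℕ) : ℝ) := by exact_mod_cast (by omega : 0 < 2 * n + 3)
  have e5 : (fw (n + 1) + Vr (n + 1)) / zc (n + 1) * 4294967296 ≤
      ((Vn (n + 1) + cond (En (n + 1)) 1748051690 0 : ℕ) : ℝ) / ((2 * n + 3 : ℕ) : ℝ) := by
    have e6 : zc (n + 1) = ((2 * n + 3 : ℕ) : ℝ) := by unfold zc; push_cast; ring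
    rw [e6, div_mul_eq_mul_div]
    refine div_le_div_of_nonneg_right ?_ hz.le
    have e7 : fw (n + 1) * 4294967296 ≤ ((cond (En (n + 1)) 1748051690 0 : ℕ) : ℝ) := by
      unfold fw
      cases En (n + 1)
      · simp
      · simp only [if_true, cond_true]
        norm_num
    have e8 : Vr (n + 1) * 4294967296 = Vn (n + 1) := by unfold Vr; field_simp
    rw [add_mul, e8]
    push_cast at e7 ⊢
    linarith
  have h5 : ((pu (8796093022208 * (3 * (n / 2) + 2)) : ℕ) : ℝ) + ((Vn n / (2 * n + 1) : ℕ) : ℝ) + 1 +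
      (((Vn (n + 1) + cond (En (n + 1)) 1748051690 0) / (2 * n + 3) : ℕ) : ℝ) + 1 ≤ 333718958 := by
    exact_mod_cast h4
  have h6 : (ph (hi n) + Vr n / zc n + (fw (n + 1) + Vr (n + 1)) / zc (n + 1)) * 4294967296 ≤
      333718958 := by
    rw [add_mul, add_mul, e4]
    linarith
  have h7 : (777 / 10000 : ℝ) * 4294967296 ≥ 333718958 := by norm_num
  nlinarith

private theorem FinX_large {n : ℕ} (h : 1024 ≤ n) :
    ph (hi n) + Vr n / zc n + (fw (n + 1) + Vr (n + 1)) / zc (n + 1) ≤ 777 / 10000 := by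
  have h1 := ph_le (hi n)
  have hA : (AA : ℝ) / 4294967296 ≤ 772 / 10000 := by
    have : AA ≤ 331571475 := by decide +kernel
    have h2 : (AA : ℝ) ≤ 331571475 := by exact_mod_cast this
    rw [div_le_iff₀ (by norm_num)]
    refine h2.trans ?_
    norm_num
  have hn : (1024 : ℝ) ≤ n := by exact_mod_cast h
  have hz1 : 2049 ≤ zc n := by unfold zc; linarith
  have hz2 : 2049 ≤ zc (n + 1) := by unfold zc; push_cast; linarith
  rcases (by omega : n % 2 = 0 ∨ n % 2 = 1) with he | ho
  · have v1 := vr_big_even h he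
    have v2 := vr_big_odd (c := n + 1) (by omega) (by omega)
    have f1 : fw (n + 1) = 0 := by
      unfold fw
      rw [En_odd (by omega)]
      simp
    rw [v1, v2, f1]
    have t1 : (962072674 / 4294967296 : ℝ) / zc n ≤ 962072674 / 4294967296 / 2049 :=
      div_le_div_of_nonneg_left (by norm_num) (by norm_num) hz1
    have t2 : (0 + 1168231104 / 4294967296 : ℝ) / zc (n + 1) ≤ (0 + 1168231104 / 4294967296) / 2049 :=
      div_le_div_of_nonneg_left (by norm_num) (by norm_num) hz2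
    have t3 : (962072674 / 4294967296 : ℝ) / 2049 + (0 + 1168231104 / 4294967296) / 2049 ≤ 5 / 10000 := by norm_num
    linarith
  · have v1 := vr_big_odd h ho
    have v2 := vr_big_even (c := n + 1) (by omega) (by omega)
    have f1 : fw (n + 1) ≤ 407 / 1000 := by
      unfold fw
      split_ifs <;> norm_num
    rw [v1, v2]
    have t1 : (1168231104 / 4294967296 : ℝ) / zc n ≤ 1168231104 / 4294967296 / 2049 :=
      div_le_div_of_nonneg_left (by norm_num) (by norm_num) hz1
    have t2 : (fw (n + 1) + 962072674 / 4294967296 : ℝ) / zc (n + 1) ≤ (407 / 1000 + 962072674 / 4294967296) / 2049 := by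
      refine div_le_div₀ (by norm_num) (by linarith) (by norm_num) hz2
    have t3 : (1168231104 / 4294967296 : ℝ) / 2049 + (407 / 1000 + 962072674 / 4294967296) / 2049 ≤ 5 / 10000 := by norm_num
    linarith

private theorem FinX_hg (n c : ℕ) (s : Bool) :
    HG (volume.restrict (Ioo (n : ℝ) (n + 1))) c s ((kn c : ℝ) / 512) (fun Z => 1 / zc c * Z) := by
  intro u v _ huv _ _
  have hz : 0 < zc c := by unfold zc; positivity
  have e : 1 / zc c * (zc c * (v - u)) = v - u := by field_simp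
  show _ ≤ 1 / zc c * (zc c * (v - u))
  rw [e]
  have h1 : (volume.restrict (Ioo (n : ℝ) (n + 1))) (seg c s u v) ≤ volume (seg c s u v) :=
    Measure.restrict_le_self _
  have h2 : volume (seg c s u v) = ENNReal.ofReal (v - u) := by
    unfold seg
    split_ifs
    · rw [Real.volume_Icc]; congr 1; ring
    · rw [Real.volume_Icc]; congr 1; ring
  rw [h2] at h1
  have h3 := ENNReal.toReal_mono ENNReal.ofReal_ne_top h1
  rwa [ENNReal.toReal_ofReal (by linarith)] at h3

theorem final_ff {n : ℕ} (hn : 1 ≤ n) (t : ℕ) : volume (Ioo (n : ℝ) (n + 1) ∩ FF t) ≤ ENNReal.ofReal (777 / 10000) := by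
  rcases Nat.eq_zero_or_pos t with ht | ht
  · subst ht
    have h0 : Ioo (n : ℝ) (n + 1) ∩ FF 0 = ∅ := by simp [FF]
    rw [h0, measure_empty]
    exact zero_le
  obtain ⟨t', rfl⟩ : ∃ t', t = t' + 1 := ⟨t - 1, by omega⟩
  rcases hn.eq_or_lt with h1 | h2
  · have hA : Ioo (n : ℝ) (n + 1) ∩ FF (t' + 1) = ∅ := by
      rw [← h1]
      ext x
      simp only [mem_inter_iff, mem_empty_iff_false, iff_false]
      rintro ⟨hx, hv⟩
      have a1 := hx.1
      have a2 := hx.2
      push_cast at a1 a2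
      exact ff_one (t' + 1) (by linarith) (by linarith) hv
    rw [hA, measure_empty]
    exact zero_le
  obtain ⟨ν, hνd⟩ : ∃ ν : Measure ℝ, ν = volume.restrict (Ioo (n : ℝ) (n + 1)) := ⟨_, rfl⟩
  have hν : CR ν n (n + 1) := by rw [hνd]; exact cr_volume n
  have fin := hν.fin
  have noat := hν.noat
  have hms : MeasurableSet (Ioo (n : ℝ) (n + 1) ∩ FF (t' + 1)) := measurableSet_Ioo.inter (meas_FF _)
  have hvol : volume (Ioo (n : ℝ) (n + 1) ∩ FF (t' + 1)) = ν (Ioo (n : ℝ) (n + 1) ∩ FF (t' + 1)) := by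
    rw [hνd, Measure.restrict_apply hms]
    congr 1
    ext x
    simp only [mem_inter_iff]
    tauto
  have hmu : mu ν n (n + 1) = 1 := by
    unfold mu
    rw [hνd, Measure.restrict_apply measurableSet_Ioo, inter_self, Real.volume_Ioo]
    rw [ENNReal.toReal_ofReal (by linarith)]
    ring
  have hu := unit_x (main_x t') hn hν le_rfl le_rfl
  have hd := dec_itg (ν := ν) t' hn (Nat.le_succ n)
  rw [Nat.succ_eq_add_one, Finset.sum_Ico_succ_top le_rfl, Finset.Ico_self, Finset.sum_empty, zero_add] at hd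
  push_cast at hd
  have hq : itg ν qf n (n + 1) ≤ ph (hi n) := by
    have h3 : itg ν qf n (n + 1) ≤ itg ν (fun _ => ph (hi n)) n (n + 1) := by
      refine itg_mono bm_qf (bm_const _) ?_
      intro x hx
      unfold qf
      split_ifs with hc
      · exact ph_mono (cf_free_ge hn hx hc.1).2
      · exact ph_nonneg _
    rw [itg_const, hmu, mul_one] at h3
    exact h3
  have hz : ∀ c : ℕ, 0 < zc c := fun c => by unfold zc; positivity
  have ht1 : itg ν (tau t' n true) n (n + 1) ≤ Vr n / zc n := by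
    rcases Nat.eq_or_lt_of_le h2 with h | h3
    · have e : tau t' n true = fun _ => 0 := by
        funext x
        rw [show n = 2 by omega]
        exact tau_two t' true x
      rw [e]
      have : 0 ≤ Vr n / zc n := div_nonneg (vr_nonneg n) (hz n).le
      simpa [itg] using this
    · rw [itg_tau_true]
      have h4 := lin_cost (ν := ν) (n := t') (c := n) (s := true) (K := 1 / zc n) (by omega)
        (div_nonneg zero_le_one (hz n).le) (by rw [hνd]; exact FinX_hg n n true)
      simp only [if_true, zero_add] at h4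
      refine h4.trans (le_of_eq ?_)
      rw [one_div_mul_eq_div]
  have ht2 : itg ν (tau t' (n + 1) false) n (n + 1) ≤ (fw (n + 1) + Vr (n + 1)) / zc (n + 1) := by
    have e := itg_tau_false ν t' (n + 1)
    have e1 : (((n + 1 : ℕ) : ℝ)) - 1 = (n : ℝ) := by push_cast; ring
    rw [e1] at e
    push_cast at e
    rw [e]
    have h4 := lin_cost (ν := ν) (n := t') (c := n + 1) (s := false) (K := 1 / zc (n + 1)) (by omega)
      (div_nonneg zero_le_one (hz _).le) (by rw [hνd]; exact FinX_hg n (n + 1) false)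
    simp only [Bool.false_eq_true, if_false] at h4
    refine h4.trans (le_of_eq ?_)
    rw [one_div_mul_eq_div]
  have hT : ph (hi n) + Vr n / zc n + (fw (n + 1) + Vr (n + 1)) / zc (n + 1) ≤ 777 / 10000 := by
    rcases Nat.lt_or_ge n 1024 with h | h
    · exact FinX_small h2 h
    · exact FinX_large h
  rw [hvol]
  have hfin : (ν (Ioo (n : ℝ) (n + 1) ∩ FF (t' + 1))).toReal ≤ 777 / 10000 := by linarith
  rw [← ENNReal.ofReal_toReal (measure_ne_top ν (Ioo (n : ℝ) (n + 1) ∩ FF (t' + 1)))]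
  exact ENNReal.ofReal_le_ofReal hfin

end Pool.Agent.Lib.MP_a247fa_nt.X
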