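import Pool.Agent.Lib.MP_a247fa_nt.X.NatA

/-! KNB (25 min, old scale).
Bounds for `kn`, `kl`. Everything is a case distinction over the thresholds `4, 8, 16, .., 1024` (unfold `kn`, `kl`, `Bool.cond_eq_ite`, `Nat.blt_eq`, `split_ifs`, `omega`; parity by `od_iff`). -/

set_option autoImplicit false

namespace Pool.Agent.Lib.MP_a247fa_nt.X

open Set MeasureTheory
open Pool.Agent.Lib.MP_a247fa_nt.W Pool.Agent.Lib.MP_a247fa_nt.V

private theorem knb_odd {c : ℕ} (h : c % 2 = 1) : kn c =
    if c < 4 then 232 else if c < 8 then 174 else if c < 16 then 126 else if c < 32 then 109 else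
      if c < 64 then 86 else if c < 128 then 60 else if c < 256 then 42 else if c < 512 then 30 else
        if c < 1024 then 21 else 15 := by
  unfold kn
  rw [(od_iff c).2 h]
  simp only [Bool.cond_eq_ite, Nat.blt_eq, if_true]

private theorem knb_even {c : ℕ} (h : c % 2 = 0) : kn c =
    if c < 8 then 145 else if c < 16 then 109 else if c < 32 then 80 else
      if c < 64 then 60 else if c < 128 then 58 else if c < 256 then 41 else if c < 512 then 29 else
        if c < 1024 then 21 else 15 := by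
  unfold kn
  rw [(od_false_iff c).2 h]
  simp only [Bool.cond_eq_ite, Nat.blt_eq, Bool.false_eq_true, if_false]

private theorem knb_kl_even {c : ℕ} (h : c % 2 = 0) (s : Bool) : kl c s = kn c := by
  unfold kl
  rw [(od_false_iff c).2 h]
  rfl

private theorem knb_kl_right {c : ℕ} (h : c % 2 = 1) : kl c true = kn c := by
  unfold kl
  rw [(od_iff c).2 h]
  rfl

private theorem knb_kl_left {c : ℕ} (h : c % 2 = 1) : kl c false =
    if c < 64 then (if c < 4 then 143 else if c < 8 then 118 else if c < 16 then 93 else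
      if c < 32 then 95 else 76) else kn c := by
  unfold kl
  rw [(od_iff c).2 h]
  simp only [Bool.cond_eq_ite, Nat.blt_eq, Bool.false_eq_true, if_true, if_false]

theorem kl_le_kn (c : ℕ) (s : Bool) : kl c s ≤ kn c := by
  rcases Nat.mod_two_eq_zero_or_one c with h | h
  · rw [knb_kl_even h]
  · rcases s with _ | _
    · rw [knb_kl_left h, knb_odd h]
      split_ifs <;> omega
    · rw [knb_kl_right h]

theorem kn_le (c : ℕ) : kn c ≤ 232 := by
  rcases Nat.mod_two_eq_zero_or_one c with h | h
  · rw [knb_even h]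
    split_ifs <;> omega
  · rw [knb_odd h]
    split_ifs <;> omega

theorem kl_pos (c : ℕ) (s : Bool) : 15 ≤ kl c s := by
  rcases Nat.mod_two_eq_zero_or_one c with h | h
  · rw [knb_kl_even h, knb_even h]
    split_ifs <;> omega
  · rcases s with _ | _
    · rw [knb_kl_left h, knb_odd h]
      split_ifs <;> omega
    · rw [knb_kl_right h, knb_odd h]
      split_ifs <;> omega

theorem kl_big {c : ℕ} (h : 1024 ≤ c) (s : Bool) : kl c s = 15 ∧ kn c = 15 := by
  rcases Nat.mod_two_eq_zero_or_one c with h2 | h2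
  · rw [knb_kl_even h2, knb_even h2]
    split_ifs <;> omega
  · rcases s with _ | _
    · rw [knb_kl_left h2, knb_odd h2]
      split_ifs <;> omega
    · rw [knb_kl_right h2, knb_odd h2]
      split_ifs <;> omega

/-- even `c ≥ 6` -/
theorem kl_even {c : ℕ} (he : c % 2 = 0) (s : Bool) : (6 ≤ c → kl c s ≤ 145) ∧ (8 ≤ c → kl c s ≤ 109) ∧ (16 ≤ c → kl c s ≤ 80) := by
  rw [knb_kl_even he, knb_even he]
  split_ifs <;> omega

/-- odd `c`, right side -/
theorem kl_odd_right {c : ℕ} (ho : c % 2 = 1) : kl c true ≤ 232 ∧ (5 ≤ c → kl c true ≤ 174) ∧ (8 ≤ c → kl c true ≤ 126) ∧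
    (16 ≤ c → kl c true ≤ 109) := by
  rw [knb_kl_right ho, knb_odd ho]
  split_ifs <;> omega

/-- odd `c`, left side -/
theorem kl_odd_left {c : ℕ} (ho : c % 2 = 1) : kl c false ≤ 143 ∧ (5 ≤ c → kl c false ≤ 118) ∧ (8 ≤ c → c < 16 → kl c false ≤ 93) ∧
    (16 ≤ c → kl c false ≤ 95) := by
  rw [knb_kl_left ho, knb_odd ho]
  split_ifs <;> omega

end Pool.Agent.Lib.MP_a247fa_nt.X
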