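import Pool.Agent.Lib.MP_a247fa_nt.X.HsX
import Pool.Agent.Lib.MP_a247fa_nt.X.DsA
import Pool.Agent.Lib.MP_a247fa_nt.X.KnB

/-! GPEL (45 min, old scale).
Inequality (G') at an integer `c`. `ζ = zc c = 2c+1`, `d ≤ e` distances, `Z = ζ (e - d)`. Claim `b Z + a Z^2 ≤ ζ' (D(e) - D(d))`.

It is enough that `g(t) = ζ' D(t) - b ζ t - a ζ^2 (t - d)^2` is nondecreasing on `[d, e]` (`monotoneOn_of_deriv_nonneg`, derivative from `hasDerivAt_right/left` through `D_pc`): `g'(t) = ζ' D'(t) - b ζ - 2 a ζ^2 (t - d) ≥ 0`, and as `ζ d ≥ z0`: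
`2 a ζ^2 (t-d) ≤ 2 a ζ (z - z0)`, `z = ζ t`. So it is enough that `ζ' D'(t)/ζ ≥ b + 2 a (z - z0)`.

Even `c ≥ 6`, left side, `z0 = 153/100`, `D(t) = (ζ/2 - t) hs t - t/2`, `ζ' = (ζ+1)/2`. `D' = -hs + (ζ/2 - t) hp - 1/2 ≥ 2 Q`, `Q = -1/4 - 1.23375 t^2 + 1.233625 z (1 - 2t/ζ)(1 - 1.645 t^2)` (`hs_le`: `hs ≤ 2.4675 t^2`; `hp_ge`). To show `Q ≥ b + 2a (z - 1.53)`; then `Q > 0`, and
`ζ' D' ≥ (ζ/2) 2 Q`, so `ζ' D'/ζ ≥ Q`. `t ≤ kl/512` (`kl_even`), `z ≥ 1.53`, `z * 2t/ζ = 2 t^2`.
Classes: `c < 8` (`c = 6`, `ζ = 13`, `t ≤ 145/512`), `a = 2/5, b = 7/5`: one variable `t ∈ [1.53/13, 145/512]`, slack `0.144`. `8 ≤ c < 16`: `a = 1/2, b = 3/2`, `t ≤ 109/512`, `ζ ≥ 17`; `c ≥ 16`: `a = 11/20, b = 8/5`, `t ≤ 80/512`, `ζ ≥ 33`. In the last two classes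
`Q - b - 2a(z - 1.53) = (-1/4 - b + 3.06 a) + z (1.233625 (1 - 1.645 t^2) - 2a) - 1.23375 t^2 - 2.46725 t^2 (1 - 1.645 t^2)`, the coefficient of `z` is positive; split `t` small (use `z ≥ 1.53`) and `t` large (use `z ≥ ζmin t`). Class 3: constant `-0.167`, `-0.167 + z (0.133625 - 2.0293 t^2) - 3.701 t^2`:
`t ≤ 0.047`: `z ≥ 1.53`: `≥ -0.167 + 1.53 * 0.12914 - 0.0082 > 0.022`; `t ≥ 0.046`: `z ≥ 33 t`: positive on `[0.046, 0.15625]` (at `0.046`: `0.0216`; at `0.15625`: `0.18`; `33 t (0.133625 - 2.0293 t^2) - 3.701 t^2` is concave there).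
Class 2 (`8 ≤ c < 16`): constant `-0.22`, `-0.22 + z (0.233625 - 2.0293 t^2) - 3.701 t^2`: `t ≤ 0.09`: `z ≥ 1.53`: `≥ -0.22 + 1.53 * 0.2172 - 0.03 > 0`; `t ≥ 0.09`: `z ≥ 17 t`. -/

set_option autoImplicit false

namespace Pool.Agent.Lib.MP_a247fa_nt.X

open Set MeasureTheory
open Pool.Agent.Lib.MP_a247fa_nt.W Pool.Agent.Lib.MP_a247fa_nt.V

private theorem gpel_cell {z t a b z0 Z p q : ℝ} (hp : 0 ≤ p) (hpt : p ≤ t) (htq : t ≤ q) (hZ : Z ≤ z)
    (hZ0 : 0 ≤ Z)
    (hco : 0 ≤ 1233625 / 1000000 * (1 - 1645 / 1000 * q ^ 2) - 2 * a)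
    (hv : 0 ≤ -(1 / 4) - b + 2 * a * z0 + Z * (1233625 / 1000000 * (1 - 1645 / 1000 * q ^ 2) - 2 * a) -
      123375 / 100000 * q ^ 2 - 246725 / 100000 * q ^ 2) :
    b + 2 * a * (z - z0) ≤ -(1 / 4) - 123375 / 100000 * t ^ 2 +
      1233625 / 1000000 * (z - 2 * t ^ 2) * (1 - 1645 / 1000 * t ^ 2) := by
  have h1 : t ^ 2 ≤ q ^ 2 := pow_le_pow_left₀ (le_trans hp hpt) htq 2
  have hz : 0 ≤ z := le_trans hZ0 hZ
  have h3 : z * (1 - 1645 / 1000 * q ^ 2) ≤ z * (1 - 1645 / 1000 * t ^ 2) := by
    apply mul_le_mul_of_nonneg_left _ hz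
    linarith
  have h4 := mul_le_mul_of_nonneg_right hZ hco
  have h5 : 0 ≤ t ^ 2 * t ^ 2 := by positivity
  nlinarith [h3, h4, h5]

private theorem gpel_cls {c : ℕ} (he : c % 2 = 0) (h6 : 6 ≤ c) {t : ℝ} (h0 : 153 / 100 ≤ zc c * t) (ht : 0 ≤ t)
    (hk : t ≤ (kl c false : ℝ) / 512) :
    gb c + 2 * ga c * (zc c * t - 153 / 100) ≤ -(1 / 4) - 123375 / 100000 * t ^ 2 +
      1233625 / 1000000 * (zc c * t - 2 * t ^ 2) * (1 - 1645 / 1000 * t ^ 2) := by
  have hod : od c = false := (od_false_iff c).2 he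
  obtain ⟨k1, k2, k3⟩ := kl_even he false
  rcases Nat.lt_or_ge c 8 with h8 | h8
  · have b8 : Nat.blt c 8 = true := by rw [Nat.blt_eq]; exact h8
    have ea : ga c = 2 / 5 := by
      unfold ga; simp only [an, b8, hod, cond_true, cond_false]; norm_num
    have eb : gb c = 7 / 5 := by
      unfold gb; simp only [bn, b8, hod, cond_true, cond_false]; norm_num
    rw [ea, eb]
    have hk' : t ≤ 145 / 512 := by
      refine le_trans hk ?_
      have : (kl c false : ℝ) ≤ 145 := by exact_mod_cast k1 h6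
      linarith
    have hz : 13 ≤ zc c := by
      unfold zc
      have : (6 : ℝ) ≤ c := by exact_mod_cast h6
      linarith
    rcases le_total t (93 / 500) with g1 | g1
    · exact gpel_cell le_rfl ht g1 h0 (by norm_num) (by norm_num) (by norm_num)
    · rcases le_total t (67 / 250) with g2 | g2
      · exact gpel_cell (Z := 13 * (93 / 500)) (by norm_num) g1 g2 (mul_le_mul hz g1 (by norm_num) (by linarith))
          (by norm_num) (by norm_num) (by norm_num)
      · exact gpel_cell (Z := 13 * (67 / 250)) (by norm_num) g2 hk' (mul_le_mul hz g2 (by norm_num) (by linarith))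
          (by norm_num) (by norm_num) (by norm_num)
  · have b8 : Nat.blt c 8 = false := by
      rw [Bool.eq_false_iff, ne_eq, Nat.blt_eq]; omega
    rcases Nat.lt_or_ge c 16 with h16 | h16
    · have b16 : Nat.blt c 16 = true := by rw [Nat.blt_eq]; exact h16
      have ea : ga c = 1 / 2 := by
        unfold ga; simp only [an, b8, b16, hod, cond_true, cond_false]; norm_num
      have eb : gb c = 3 / 2 := by
        unfold gb; simp only [bn, b8, b16, hod, cond_true, cond_false]; norm_num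
      rw [ea, eb]
      have hk' : t ≤ 109 / 512 := by
        refine le_trans hk ?_
        have : (kl c false : ℝ) ≤ 109 := by exact_mod_cast k2 h8
        linarith
      have hz : 17 ≤ zc c := by
        unfold zc
        have : (8 : ℝ) ≤ c := by exact_mod_cast h8
        linarith
      rcases le_total t (71 / 500) with g1 | g1
      · exact gpel_cell le_rfl ht g1 h0 (by norm_num) (by norm_num) (by norm_num)
      · rcases le_total t (199 / 1000) with g2 | g2
        · exact gpel_cell (Z := 17 * (71 / 500)) (by norm_num) g1 g2 (mul_le_mul hz g1 (by norm_num) (by linarith))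
            (by norm_num) (by norm_num) (by norm_num)
        · exact gpel_cell (Z := 17 * (199 / 1000)) (by norm_num) g2 hk' (mul_le_mul hz g2 (by norm_num) (by linarith))
            (by norm_num) (by norm_num) (by norm_num)
    · have b16 : Nat.blt c 16 = false := by
        rw [Bool.eq_false_iff, ne_eq, Nat.blt_eq]; omega
      have ea : ga c = 11 / 20 := by
        unfold ga; simp only [an, b8, b16, hod, cond_false]; norm_num
      have eb : gb c = 8 / 5 := by
        unfold gb; simp only [bn, b8, b16, hod, cond_false]; norm_num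
      rw [ea, eb]
      have hk' : t ≤ 80 / 512 := by
        refine le_trans hk ?_
        have : (kl c false : ℝ) ≤ 80 := by exact_mod_cast k3 h16
        linarith
      have hz : 33 ≤ zc c := by
        unfold zc
        have : (16 : ℝ) ≤ c := by exact_mod_cast h16
        linarith
      rcases le_total t (37 / 500) with g1 | g1
      · exact gpel_cell le_rfl ht g1 h0 (by norm_num) (by norm_num) (by norm_num)
      · rcases le_total t (27 / 200) with g2 | g2
        · exact gpel_cell (Z := 33 * (37 / 500)) (by norm_num) g1 g2 (mul_le_mul hz g1 (by norm_num) (by linarith))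
            (by norm_num) (by norm_num) (by norm_num)
        · exact gpel_cell (Z := 33 * (27 / 200)) (by norm_num) g2 hk' (mul_le_mul hz g2 (by norm_num) (by linarith))
            (by norm_num) (by norm_num) (by norm_num)

theorem gp_el {c : ℕ} (he : c % 2 = 0) (h6 : 6 ≤ c) {d e : ℝ} (hd : 153 / 100 ≤ zc c * d) (hde : d ≤ e)
    (hek : e ≤ (kl c false : ℝ) / 512) :
    gb c * (zc c * (e - d)) + ga c * (zc c * (e - d)) ^ 2 ≤ zc (T c) * (D c (pc c false e) - D c (pc c false d)) := by
  have hζ : 0 < zc c := by unfold zc; positivity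
  have hζ13 : 13 ≤ zc c := by
    unfold zc
    have : (6 : ℝ) ≤ c := by exact_mod_cast h6
    linarith
  have hd0 : 0 < d := by
    by_contra hh
    push Not at hh
    have := mul_nonpos_of_nonneg_of_nonpos hζ.le hh
    linarith
  have hT : zc (T c) = (zc c + 1) / 2 := by
    obtain ⟨h1, -, h3, -⟩ := T_eq_even he
    unfold zc
    rw [h1, h3]
    ring
  have ha : 0 ≤ ga c := by unfold ga; positivity
  have hkl : (kl c false : ℝ) / 512 ≤ 145 / 512 := by
    have : (kl c false : ℝ) ≤ 145 := by exact_mod_cast (kl_even he false).1 h6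
    linarith
  have hg : ∀ t : ℝ, HasDerivAt (fun t => zc (T c) * ((zc c / 2 - t) * hs t + (-(1 / 2)) * t) - gb c * (zc c * t) -
      ga c * ((zc c * (t - d)) * (zc c * (t - d))))
      (zc (T c) * (-hs t + (zc c / 2 - t) * hp t + (-(1 / 2))) - gb c * (zc c * 1) -
      ga c * ((zc c * 1) * (zc c * (t - d)) + (zc c * (t - d)) * (zc c * 1))) t := by
    intro t
    have e1 := (hasDerivAt_left (zc c / 2) (-(1 / 2)) t).const_mul (zc (T c))
    have e2 := ((hasDerivAt_id t).const_mul (zc c)).const_mul (gb c)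
    have e3 := (((hasDerivAt_id t).sub_const d).const_mul (zc c))
    have e4 := (e3.mul e3).const_mul (ga c)
    exact (e1.sub e2).sub e4
  have hmono : MonotoneOn (fun t => zc (T c) * ((zc c / 2 - t) * hs t + (-(1 / 2)) * t) - gb c * (zc c * t) -
      ga c * ((zc c * (t - d)) * (zc c * (t - d)))) (Icc d e) := by
    apply monotoneOn_of_deriv_nonneg (convex_Icc d e)
    · intro t _
      exact (hg t).continuousAt.continuousWithinAt
    · intro t _
      exact (hg t).differentiableAt.differentiableWithinAt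
    · intro t ht
      rw [interior_Icc] at ht
      rw [(hg t).deriv]
      have ht0 : 0 ≤ t := hd0.le.trans ht.1.le
      have htk : t ≤ (kl c false : ℝ) / 512 := ht.2.le.trans hek
      have hzt : 153 / 100 ≤ zc c * t := hd.trans (mul_le_mul_of_nonneg_left ht.1.le hζ.le)
      have key := gpel_cls he h6 hzt ht0 htk
      have hp1 := hp_ge ht0 (by linarith : t ≤ 3 / 4)
      have hs1 := hs_le t
      have hn : 0 ≤ zc c / 2 - t := by linarith
      have h1 := mul_le_mul_of_nonneg_left hp1 hn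
      set R := -(1 / 4) - 123375 / 100000 * t ^ 2 +
        1233625 / 1000000 * (zc c * t - 2 * t ^ 2) * (1 - 1645 / 1000 * t ^ 2) with hR
      have hD : 2 * R ≤ -hs t + (zc c / 2 - t) * hp t + (-(1 / 2)) := by
        rw [hR]
        nlinarith [h1, hs1]
      have hb : 0 < gb c := by
        unfold gb
        have : 0 < bn c := by
          unfold bn
          cases Nat.blt c 8 <;> cases Nat.blt c 16 <;> cases od c <;> simp
        positivity
      have hR0 : 0 ≤ R := by
        have : 0 ≤ 2 * ga c * (zc c * t - 153 / 100) := by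
          apply mul_nonneg (by linarith)
          linarith
        linarith
      have h5 : (zc c / 2) * (2 * R) ≤ zc (T c) * (-hs t + (zc c / 2 - t) * hp t + (-(1 / 2))) := by
        apply mul_le_mul _ hD (by linarith) _
        · rw [hT]; linarith
        · rw [hT]; linarith
      have h6 : zc c * (gb c + 2 * ga c * (zc c * t - 153 / 100)) ≤ zc c * R := mul_le_mul_of_nonneg_left key hζ.le
      have h7 : 2 * ga c * zc c * (zc c * (t - d)) ≤ 2 * ga c * zc c * (zc c * t - 153 / 100) := by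
        apply mul_le_mul_of_nonneg_left _ (by positivity)
        linarith
      nlinarith [h5, h6, h7]
  have hfin := hmono (left_mem_Icc.2 hde) (right_mem_Icc.2 hde) hde
  simp only [sub_self, mul_zero, sub_zero] at hfin
  have pd : ∀ t : ℝ, D c (pc c false t) = (zc c / 2 - t) * hs t + (-(1 / 2)) * t := by
    intro t
    unfold pc
    rw [if_neg (by decide), D_even_sub he]
    unfold zc
    ring
  rw [pd, pd]
  nlinarith [hfin]

end Pool.Agent.Lib.MP_a247fa_nt.X
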