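import Pool.Agent.Lib.MP_a247fa_nt.X.HsX
import Pool.Agent.Lib.MP_a247fa_nt.X.DsA
import Pool.Agent.Lib.MP_a247fa_nt.X.KnB

/-! GPER (40 min, old scale).
Inequality (G') at an integer `c`. `ζ = zc c = 2c+1`, `d ≤ e` distances, `Z = ζ (e - d)`. Claim `b Z + a Z^2 ≤ ζ' (D(e) - D(d))`.

It is enough that `g(t) = ζ' D(t) - b ζ t - a ζ^2 (t - d)^2` is nondecreasing on `[d, e]` (`monotoneOn_of_deriv_nonneg`, derivative from `hasDerivAt_right/left` through `D_pc`): `g'(t) = ζ' D'(t) - b ζ - 2 a ζ^2 (t - d) ≥ 0`, and as `ζ d ≥ z0`: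
`2 a ζ^2 (t-d) ≤ 2 a ζ (z - z0)`, `z = ζ t`. So it is enough that `ζ' D'(t)/ζ ≥ b + 2 a (z - z0)`.

Even `c ≥ 6`, right side, `z0 = 28/25`, `D(t) = (ζ/2 + t) hs t + t/2`, `ζ' = (ζ+1)/2`. `D' = hs + (ζ/2 + t) hp + 1/2 ≥ (ζ/2) 4.9345 t (1 - 1.645 t^2) + 1/2` (`hp_ge`), `ζ' ≥ ζ/2`, so `ζ' D'/ζ ≥ 1/4 + 1.233625 z (1 - 1.645 t^2)`. To show:
`F = 1/4 + 1.233625 z (1 - 1.645 t^2) - b - 2a (z - 1.12) ≥ 0`, `z = ζ t ≥ 1.12`, `t ≤ kl/512` (`kl_even`).
Classes: `c ∈ {6}` (`c < 8`): `a = 2/5, b = 7/5`, `t ≤ 145/512`: `F ≥ (1/4 + 0.896 - 1.4) + z (1.233625 (1 - 0.132) - 0.8) > 0`. `8 ≤ c < 16`: `a = 1/2, b = 3/2`, `t ≤ 109/512`: `F ≥ (1/4 + 1.12 - 1.5) + z (1.233625 (1 - 0.0746) - 1) ≥ -0.13 + 1.12 * 0.1416 > 0`.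
`c ≥ 16`: `a = 11/20, b = 8/5`, `ζ ≥ 33`, `t ≤ 80/512`: `F = -0.118 + z (0.133625 - 2.02931 t^2)`; the bracket is `≥ 0.084`; if `t ≤ 0.04`: `F ≥ -0.118 + 1.12 * 0.1303 > 0`; if `t ≥ 0.04`: `z ≥ 33 t`: `F ≥ -0.118 + 33 t (0.133625 - 2.02931 t^2)`, positive on `[0.04, 0.15625]`
(concave; values `0.054`, `0.315`). Smallest slack `0.0296`. The result holds for every even `c ≥ 6` (powers of two included). -/

set_option autoImplicit false

namespace Pool.Agent.Lib.MP_a247fa_nt.X

open Set MeasureTheory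
open Pool.Agent.Lib.MP_a247fa_nt.W Pool.Agent.Lib.MP_a247fa_nt.V

private theorem gper_cell {z t a b z0 Z p q : ℝ} (_hp : 0 ≤ p) (hpt : p ≤ t) (hp0 : 0 ≤ t) (htq : t ≤ q) (hZ : Z ≤ z)
    (hZ0 : 0 ≤ Z)
    (hco : 0 ≤ 1233625 / 1000000 * (1 - 1645 / 1000 * q ^ 2) - 2 * a)
    (hv : 0 ≤ 1 / 4 - b + 2 * a * z0 + Z * (1233625 / 1000000 * (1 - 1645 / 1000 * q ^ 2) - 2 * a)) :
    b + 2 * a * (z - z0) ≤ 1 / 4 + 1233625 / 1000000 * z * (1 - 1645 / 1000 * t ^ 2) := by
  have _ := hpt
  have h1 : t ^ 2 ≤ q ^ 2 := pow_le_pow_left₀ hp0 htq 2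
  have hz : 0 ≤ z := le_trans hZ0 hZ
  have h3 : z * (1 - 1645 / 1000 * q ^ 2) ≤ z * (1 - 1645 / 1000 * t ^ 2) := by
    apply mul_le_mul_of_nonneg_left _ hz
    linarith
  have h4 := mul_le_mul_of_nonneg_right hZ hco
  nlinarith [h3, h4]

private theorem gper_cls {c : ℕ} (he : c % 2 = 0) (h6 : 6 ≤ c) {t : ℝ} (h0 : 28 / 25 ≤ zc c * t) (ht : 0 ≤ t)
    (hk : t ≤ (kl c true : ℝ) / 512) :
    gb c + 2 * ga c * (zc c * t - 28 / 25) ≤ 1 / 4 + 1233625 / 1000000 * (zc c * t) * (1 - 1645 / 1000 * t ^ 2) := by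
  have hod : od c = false := (od_false_iff c).2 he
  obtain ⟨k1, k2, k3⟩ := kl_even he true
  rcases Nat.lt_or_ge c 8 with h8 | h8
  · have b8 : Nat.blt c 8 = true := by rw [Nat.blt_eq]; exact h8
    have ea : ga c = 2 / 5 := by
      unfold ga; simp only [an, b8, hod, cond_true, cond_false]; norm_num
    have eb : gb c = 7 / 5 := by
      unfold gb; simp only [bn, b8, hod, cond_true, cond_false]; norm_num
    rw [ea, eb]
    have hk' : t ≤ 145 / 512 := by
      refine le_trans hk ?_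
      have : (kl c true : ℝ) ≤ 145 := by exact_mod_cast k1 h6
      linarith
    exact gper_cell le_rfl ht ht hk' h0 (by norm_num) (by norm_num) (by norm_num)
  · have b8 : Nat.blt c 8 = false := by
      rw [Bool.eq_false_iff, ne_eq, Nat.blt_eq]; omega
    rcases Nat.lt_or_ge c 16 with h16 | h16
    · have b16 : Nat.blt c 16 = true := by rw [Nat.blt_eq]; exact h16
      have ea : ga c = 1 / 2 := by
        unfold ga; simp only [an, b8, b16, hod, cond_true, cond_false]; norm_num
      have eb : gb c = 3 / 2 := by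
        unfold gb; simp only [bn, b8, b16, hod, cond_true, cond_false]; norm_num
      rw [ea, eb]
      have hk' : t ≤ 109 / 512 := by
        refine le_trans hk ?_
        have : (kl c true : ℝ) ≤ 109 := by exact_mod_cast k2 h8
        linarith
      exact gper_cell le_rfl ht ht hk' h0 (by norm_num) (by norm_num) (by norm_num)
    · have b16 : Nat.blt c 16 = false := by
        rw [Bool.eq_false_iff, ne_eq, Nat.blt_eq]; omega
      have ea : ga c = 11 / 20 := by
        unfold ga; simp only [an, b8, b16, hod, cond_false]; norm_num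
      have eb : gb c = 8 / 5 := by
        unfold gb; simp only [bn, b8, b16, hod, cond_false]; norm_num
      rw [ea, eb]
      have hk' : t ≤ 80 / 512 := by
        refine le_trans hk ?_
        have : (kl c true : ℝ) ≤ 80 := by exact_mod_cast k3 h16
        linarith
      have hz : 33 ≤ zc c := by
        unfold zc
        have : (16 : ℝ) ≤ c := by exact_mod_cast h16
        linarith
      rcases le_total t (59 / 500) with g1 | g1
      · exact gper_cell le_rfl ht ht g1 h0 (by norm_num) (by norm_num) (by norm_num)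
      · exact gper_cell (Z := 33 * (59 / 500)) (by norm_num) g1 ht hk' (mul_le_mul hz g1 (by norm_num) (by linarith))
          (by norm_num) (by norm_num) (by norm_num)

theorem gp_er {c : ℕ} (he : c % 2 = 0) (h6 : 6 ≤ c) {d e : ℝ} (hd : 28 / 25 ≤ zc c * d) (hde : d ≤ e)
    (hek : e ≤ (kl c true : ℝ) / 512) :
    gb c * (zc c * (e - d)) + ga c * (zc c * (e - d)) ^ 2 ≤ zc (T c) * (D c (pc c true e) - D c (pc c true d)) := by
  have hζ : 0 < zc c := by unfold zc; positivity
  have hd0 : 0 < d := by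
    by_contra hh
    push Not at hh
    have := mul_nonpos_of_nonneg_of_nonpos hζ.le hh
    linarith
  have hT : zc (T c) = (zc c + 1) / 2 := by
    obtain ⟨h1, -, h3, -⟩ := T_eq_even he
    unfold zc
    rw [h1, h3]
    ring
  have ha : 0 ≤ ga c := by unfold ga; positivity
  have hkl : (kl c true : ℝ) / 512 ≤ 232 / 512 := by
    have : (kl c true : ℝ) ≤ 145 := by exact_mod_cast (kl_even he true).1 h6
    linarith
  have hg : ∀ t : ℝ, HasDerivAt (fun t => zc (T c) * ((zc c / 2 + t) * hs t + (1 / 2) * t) - gb c * (zc c * t) -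
      ga c * ((zc c * (t - d)) * (zc c * (t - d))))
      (zc (T c) * (hs t + (zc c / 2 + t) * hp t + (1 / 2)) - gb c * (zc c * 1) -
      ga c * ((zc c * 1) * (zc c * (t - d)) + (zc c * (t - d)) * (zc c * 1))) t := by
    intro t
    have e1 := (hasDerivAt_right (zc c / 2) (1 / 2) t).const_mul (zc (T c))
    have e2 := ((hasDerivAt_id t).const_mul (zc c)).const_mul (gb c)
    have e3 := (((hasDerivAt_id t).sub_const d).const_mul (zc c))
    have e4 := (e3.mul e3).const_mul (ga c)
    exact (e1.sub e2).sub e4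
  have hmono : MonotoneOn (fun t => zc (T c) * ((zc c / 2 + t) * hs t + (1 / 2) * t) - gb c * (zc c * t) -
      ga c * ((zc c * (t - d)) * (zc c * (t - d)))) (Icc d e) := by
    apply monotoneOn_of_deriv_nonneg (convex_Icc d e)
    · intro t _
      exact (hg t).continuousAt.continuousWithinAt
    · intro t _
      exact (hg t).differentiableAt.differentiableWithinAt
    · intro t ht
      rw [interior_Icc] at ht
      rw [(hg t).deriv]
      have ht0 : 0 ≤ t := hd0.le.trans ht.1.le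
      have htk : t ≤ (kl c true : ℝ) / 512 := ht.2.le.trans hek
      have hzt : 28 / 25 ≤ zc c * t := hd.trans (mul_le_mul_of_nonneg_left ht.1.le hζ.le)
      have key := gper_cls he h6 hzt ht0 htk
      have hp1 := hp_ge ht0 (by linarith : t ≤ 3 / 4)
      have hpn := hp_nonneg ht0 (by linarith : t ≤ 1)
      have hs0 : 0 ≤ hs t := by unfold hs; positivity
      have hn : 0 ≤ zc c / 2 := by linarith
      have h1 := mul_le_mul_of_nonneg_left hp1 hn
      have h1' : 0 ≤ t * hp t := mul_nonneg ht0 hpn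
      set R := 1 / 4 + 1233625 / 1000000 * (zc c * t) * (1 - 1645 / 1000 * t ^ 2) with hR
      have hD : 2 * R ≤ hs t + (zc c / 2 + t) * hp t + (1 / 2) := by
        rw [hR]
        nlinarith [h1, hs0, h1']
      have hb : 0 < gb c := by
        unfold gb
        have : 0 < bn c := by
          unfold bn
          cases Nat.blt c 8 <;> cases Nat.blt c 16 <;> cases od c <;> simp
        positivity
      have hR0 : 0 ≤ R := by
        have : 0 ≤ 2 * ga c * (zc c * t - 28 / 25) := by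
          apply mul_nonneg (by linarith)
          linarith
        linarith
      have h5 : (zc c / 2) * (2 * R) ≤ zc (T c) * (hs t + (zc c / 2 + t) * hp t + (1 / 2)) := by
        apply mul_le_mul _ hD (by linarith) _
        · rw [hT]; linarith
        · rw [hT]; linarith
      have h6 : zc c * (gb c + 2 * ga c * (zc c * t - 28 / 25)) ≤ zc c * R := mul_le_mul_of_nonneg_left key hζ.le
      have h7 : 2 * ga c * zc c * (zc c * (t - d)) ≤ 2 * ga c * zc c * (zc c * t - 28 / 25) := by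
        apply mul_le_mul_of_nonneg_left _ (by positivity)
        linarith
      nlinarith [h5, h6, h7]
  have hfin := hmono (left_mem_Icc.2 hde) (right_mem_Icc.2 hde) hde
  simp only [sub_self, mul_zero, sub_zero] at hfin
  have pd : ∀ t : ℝ, D c (pc c true t) = (zc c / 2 + t) * hs t + (1 / 2) * t := by
    intro t
    unfold pc
    rw [if_pos rfl, D_even_add he]
    unfold zc
    ring
  rw [pd, pd]
  nlinarith [hfin]

end Pool.Agent.Lib.MP_a247fa_nt.X
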