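import Pool.Agent.Lib.MP_a247fa_nt.X.Defs

/-! PSIA (30 min, old scale).
`psi c Z` is the solution `z ≥ 0` of `a z^2 + b z = Z`, `a = ga c > 0`, `b = gb c > 0` (`an`, `bn` take the values `20, 8, 30, 10, 34, 11` and `36, 28, 40, 30, 43, 32`).

`psi_eq`: quadratic formula (`Real.sq_sqrt`). `psi_nonneg`: `√(b^2 + 4aZ) ≥ b`. `psi_mono`: square root. `psi_le_iff`-type statements: `le_psi`: `0 ≤ z`, `a z^2 + b z ≤ Z` implies `z ≤ psi c Z`; `psi_le`: `0 ≤ z`, `Z ≤ a z^2 + b z` implies `psi c Z ≤ z` (strict monotonicity of `a z^2 + b z` on `z ≥ 0`).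
`psi_le_div`: `psi_le` with `z = Z/b`. `psi_smul`: `t ≥ 1`: `psi c (t Z) ≤ t psi c Z` since `a t^2 z^2 + b t z ≥ t Z`. `gm_psi`: composition. -/

set_option autoImplicit false

namespace Pool.Agent.Lib.MP_a247fa_nt.X

open Set MeasureTheory
open Pool.Agent.Lib.MP_a247fa_nt.W Pool.Agent.Lib.MP_a247fa_nt.V

private lemma an_ge (c : ℕ) : 8 ≤ an c := by
  unfold an
  cases Nat.blt c 8 <;> cases Nat.blt c 16 <;> cases od c <;> simp

private lemma bn_ge (c : ℕ) : 28 ≤ bn c := by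
  unfold bn
  cases Nat.blt c 8 <;> cases Nat.blt c 16 <;> cases od c <;> simp

private lemma od_eq (c : ℕ) : od c = Nat.beq (c % 2) 1 := by
  unfold od
  have : Nat.land c 1 = c % 2 := Nat.and_one_is_mod c
  rw [this]

theorem ga_pos (c : ℕ) : 0 < ga c := by
  unfold ga
  have h : (8 : ℝ) ≤ an c := by exact_mod_cast an_ge c
  positivity

theorem gb_ge (c : ℕ) : 7 / 5 ≤ gb c := by
  unfold gb
  have h : (28 : ℝ) ≤ bn c := by exact_mod_cast bn_ge c
  linarith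

private lemma gb_pos (c : ℕ) : 0 < gb c := by
  have := gb_ge c
  linarith

/-- the constants for `c ≥ 16` -/
theorem gab_even {c : ℕ} (h : 16 ≤ c) (he : c % 2 = 0) : ga c = 11 / 20 ∧ gb c = 8 / 5 := by
  have h8 : Nat.blt c 8 = false := by
    rw [← Bool.not_eq_true, Nat.blt_eq]
    omega
  have h16 : Nat.blt c 16 = false := by
    rw [← Bool.not_eq_true, Nat.blt_eq]
    omega
  have ho : od c = false := by
    rw [od_eq, he]
    rfl
  unfold ga gb an bn
  rw [h8, h16, ho]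
  norm_num

theorem gab_odd {c : ℕ} (h : 16 ≤ c) (ho : c % 2 = 1) : ga c = 17 / 10 ∧ gb c = 43 / 20 := by
  have h8 : Nat.blt c 8 = false := by
    rw [← Bool.not_eq_true, Nat.blt_eq]
    omega
  have h16 : Nat.blt c 16 = false := by
    rw [← Bool.not_eq_true, Nat.blt_eq]
    omega
  have ho : od c = true := by
    rw [od_eq, ho]
    rfl
  unfold ga gb an bn
  rw [h8, h16, ho]
  norm_num

theorem psi_nonneg {c : ℕ} {Z : ℝ} (h : 0 ≤ Z) : 0 ≤ psi c Z := by
  have ha := ga_pos c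
  have hb := gb_pos c
  unfold psi
  apply div_nonneg _ (by positivity)
  rw [sub_nonneg]
  apply Real.le_sqrt_of_sq_le
  have : 0 ≤ 4 * ga c * Z := by positivity
  linarith

theorem psi_eq {c : ℕ} {Z : ℝ} (h : 0 ≤ Z) : ga c * psi c Z ^ 2 + gb c * psi c Z = Z := by
  have ha := ga_pos c
  have hb := gb_pos c
  have h1 : √(gb c ^ 2 + 4 * ga c * Z) ^ 2 = gb c ^ 2 + 4 * ga c * Z :=
    Real.sq_sqrt (by positivity)
  unfold psi
  set s := √(gb c ^ 2 + 4 * ga c * Z) with hs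
  have h2 : ga c * ((s - gb c) / (2 * ga c)) ^ 2 + gb c * ((s - gb c) / (2 * ga c)) =
      (s ^ 2 - gb c ^ 2) / (4 * ga c) := by
    field_simp
    ring
  rw [h2, h1]
  field_simp
  ring

theorem psi_mono {c : ℕ} {Z W : ℝ} (h0 : 0 ≤ Z) (h : Z ≤ W) : psi c Z ≤ psi c W := by
  have ha := ga_pos c
  unfold psi
  gcongr

theorem le_psi {c : ℕ} {z Z : ℝ} (hz : 0 ≤ z) (h : gb c * z + ga c * z ^ 2 ≤ Z) : z ≤ psi c Z := by
  have ha := ga_pos c
  have hb := gb_pos c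
  have hZ : 0 ≤ Z := le_trans (by positivity) h
  have h1 := psi_eq (c := c) hZ
  have h2 := psi_nonneg (c := c) hZ
  by_contra hn
  push Not at hn
  have h3 : gb c * psi c Z < gb c * z := by gcongr
  have h4 : ga c * psi c Z ^ 2 ≤ ga c * z ^ 2 := by gcongr
  linarith

theorem psi_le {c : ℕ} {z Z : ℝ} (hZ : 0 ≤ Z) (hz : 0 ≤ z) (h : Z ≤ gb c * z + ga c * z ^ 2) : psi c Z ≤ z := by
  have ha := ga_pos c
  have hb := gb_pos c
  have h1 := psi_eq (c := c) hZ
  by_contra hn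
  push Not at hn
  have h3 : gb c * z < gb c * psi c Z := by gcongr
  have h4 : ga c * z ^ 2 ≤ ga c * psi c Z ^ 2 := by gcongr
  linarith

theorem psi_le_div {c : ℕ} {Z : ℝ} (h : 0 ≤ Z) : psi c Z ≤ Z / gb c := by
  have ha := ga_pos c
  have hb := gb_pos c
  apply psi_le h (by positivity)
  rw [mul_div_cancel₀ _ hb.ne']
  have : 0 ≤ ga c * (Z / gb c) ^ 2 := by positivity
  linarith

theorem psi_smul {c : ℕ} {t Z : ℝ} (ht : 1 ≤ t) (h : 0 ≤ Z) : psi c (t * Z) ≤ t * psi c Z := by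
  have ha := ga_pos c
  have hb := gb_pos c
  have h1 := psi_eq (c := c) h
  have h2 := psi_nonneg (c := c) h
  apply psi_le (by positivity) (by positivity)
  have h3 : t * (ga c * psi c Z ^ 2) ≤ t * (t * (ga c * psi c Z ^ 2)) := by
    have h4 : 0 ≤ ga c * psi c Z ^ 2 := by positivity
    have h5 : ga c * psi c Z ^ 2 ≤ t * (ga c * psi c Z ^ 2) := le_mul_of_one_le_left h4 ht
    gcongr
  calc t * Z = t * (ga c * psi c Z ^ 2) + t * (gb c * psi c Z) := by rw [← mul_add, h1]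
    _ ≤ t * (t * (ga c * psi c Z ^ 2)) + t * (gb c * psi c Z) := by linarith
    _ = gb c * (t * psi c Z) + ga c * (t * psi c Z) ^ 2 := by ring

theorem gm_psi {Γ : ℝ → ℝ} (c : ℕ) (h : GM Γ) : GM (fun Z => Γ (psi c Z)) :=
  fun _ _ hx hxy => h _ _ (psi_nonneg hx) (psi_mono hx hxy)

end Pool.Agent.Lib.MP_a247fa_nt.X
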