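import Pool.Agent.Lib.MP_a247fa_nt.X.HsX
import Pool.Agent.Lib.MP_a247fa_nt.X.DsA
import Pool.Agent.Lib.MP_a247fa_nt.X.KnB
import Pool.Agent.Lib.MP_a247fa_nt.X.PsiA

/-! GPOL (45 min, old scale).
Inequality (G') at an integer `c`. `ζ = zc c = 2c+1`, `d ≤ e` distances, `Z = ζ (e - d)`. Claim `b Z + a Z^2 ≤ ζ' (D(e) - D(d))`.

It is enough that `g(t) = ζ' D(t) - b ζ t - a ζ^2 (t - d)^2` is nondecreasing on `[d, e]` (`monotoneOn_of_deriv_nonneg`, derivative from `hasDerivAt_right/left` through `D_pc`): `g'(t) = ζ' D'(t) - b ζ - 2 a ζ^2 (t - d) ≥ 0`, and as `ζ d ≥ z0`: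
`2 a ζ^2 (t-d) ≤ 2 a ζ (z - z0)`, `z = ζ t`. So it is enough that `ζ' D'(t)/ζ ≥ b + 2 a (z - z0)`.

Odd `c ≥ 3`, left side, `z0 = 0` (`d ≥ 0`), `D(t) = (ζ/2 - t) hs t + 3t/2`, `ζ' = (3ζ+1)/2 ≥ 3ζ/2`. `D' = -hs + (ζ/2 - t) hp + 3/2 ≥ R`, `R = 3/2 - 2.4675 t^2 + 2.46725 z (1 - 2t/ζ)(1 - 1.645 t^2)`. To show `(3/2) R ≥ b + 2 a z`; then `ζ' D'/ζ ≥ (3/2) R`. With `z * 2t/ζ = 2 t^2`:
`F = 9/4 - b - 3.70125 t^2 + z (3.700875 (1 - 1.645 t^2) - 2a) - 7.40175 t^2 (1 - 1.645 t^2) ≥ 0`, `t ≤ kl/512` (`kl_odd_left`), `z = ζ t`.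
Classes: `c = 3` (`ζ = 7`, `t ≤ 143/512`), `c = 5, 7` (`ζ ≥ 11`, `t ≤ 118/512`): `a = 1, b = 9/5`, constant `0.45`; `8 ≤ c < 16`: `a = 3/2, b = 2`, `ζ ≥ 17`, `t ≤ 93/512`: constant `0.25`; `c ≥ 16`: `a = 17/10, b = 43/20`, `ζ ≥ 33`, `t ≤ 95/512`: constant `0.1`, coefficient of `z`:
`0.300875 - 6.088 t^2 ≥ 0.091`, so `F ≥ 0.1 + 33 t (0.300875 - 6.088 t^2) - 11.103 t^2 > 0` (`z ≥ 33 t`). Smallest slack `0.1`. One variable polynomials in `t` after `z ≥ ζmin t`. -/

set_option autoImplicit false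

namespace Pool.Agent.Lib.MP_a247fa_nt.X

open Set MeasureTheory
open Pool.Agent.Lib.MP_a247fa_nt.W Pool.Agent.Lib.MP_a247fa_nt.V

private lemma poly_ol {z t tm a b z0 : ℝ} (ht : 0 ≤ t) (htm : t ≤ tm) (hz : z0 ≤ z)
    (hz0 : 0 ≤ z0) (hb : b ≤ 9 / 4)
    (hK : 0 ≤ 3700875 / 1000000 * (1 - 1645 / 1000 * tm ^ 2) - 2 * a)
    (hs0 : 0 ≤ 1 - 1645 / 1000 * tm ^ 2)
    (hM : 11104 / 1000 * tm ≤ z0 * (3700875 / 1000000 * (1 - 1645 / 1000 * tm ^ 2) - 2 * a)) :
    b + 2 * a * z * t ≤ 3 / 2 * (3 / 2 - 987 / 400 * t ^ 2 +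
      (z / 2 - t) * (49345 / 10000 * t * (1 - 1645 / 1000 * t ^ 2))) := by
  have htm0 : 0 ≤ tm := ht.trans htm
  have h1 : t ^ 2 ≤ tm * t := by nlinarith
  have h2 : 1 - 1645 / 1000 * tm ^ 2 ≤ 1 - 1645 / 1000 * t ^ 2 := by
    have : t ^ 2 ≤ tm ^ 2 := by gcongr
    linarith
  set S := 1 - 1645 / 1000 * t ^ 2 with hS
  set S0 := 1 - 1645 / 1000 * tm ^ 2 with hS0
  have hS1 : S ≤ 1 := by
    rw [hS]
    nlinarith [sq_nonneg t]
  have hSn : 0 ≤ S := hs0.trans h2
  -- main term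
  have h3 : z0 * (3700875 / 1000000 * S0 - 2 * a) * t ≤
      z * (3700875 / 1000000 * S - 2 * a) * t := by
    have e1 : z0 * (3700875 / 1000000 * S0 - 2 * a) ≤ z * (3700875 / 1000000 * S0 - 2 * a) := by
      gcongr
    have e2 : z * (3700875 / 1000000 * S0 - 2 * a) ≤ z * (3700875 / 1000000 * S - 2 * a) := by
      have : 0 ≤ z := hz0.trans hz
      gcongr
    have := e1.trans e2
    gcongr
  have h4 : 11104 / 1000 * tm * t ≤ z0 * (3700875 / 1000000 * S0 - 2 * a) * t := by gcongr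
  have h5 : t ^ 2 * S ≤ t ^ 2 := by
    calc t ^ 2 * S ≤ t ^ 2 * 1 := by gcongr
      _ = t ^ 2 := mul_one _
  have h6 : 0 ≤ tm * t := by positivity
  nlinarith

private lemma gp_ol_aux {c : ℕ} (ho : c % 2 = 1) (h3 : 3 ≤ c) {d e : ℝ} (hd : 0 ≤ d) (hde : d ≤ e)
    (hek : e ≤ 3 / 4) (ha : 0 ≤ ga c)
    (hF : ∀ t, 0 ≤ t → t ≤ e → gb c + 2 * ga c * zc c * t ≤ 3 / 2 * (3 / 2 - 987 / 400 * t ^ 2 +
      (zc c / 2 - t) * (49345 / 10000 * t * (1 - 1645 / 1000 * t ^ 2)))) :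
    gb c * (zc c * (e - d)) + ga c * (zc c * (e - d)) ^ 2 ≤ zc (T c) * (D c (pc c false e) - D c (pc c false d)) := by
  have hzT : zc (T c) = (3 * zc c + 1) / 2 := by
    obtain ⟨t1, -, -, t4⟩ := T_eq_odd ho
    unfold zc
    rw [t1, t4]
    ring
  have hz : 7 ≤ zc c := by
    unfold zc
    have : (3 : ℝ) ≤ c := by exact_mod_cast h3
    linarith
  have hD : ∀ t : ℝ, D c (pc c false t) = (zc c / 2 - t) * hs t + 3 / 2 * t := by
    intro t
    rw [D_pc]
    simp only [Bool.false_eq_true, if_false]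
    rw [if_neg (by omega)]
    unfold zc
    ring
  set z := zc c with hzdef
  set a := ga c with hadef
  set b := gb c with hbdef
  have hmono : MonotoneOn (fun t => zc (T c) * ((z / 2 - t) * hs t + 3 / 2 * t) - b * z * t -
      a * z ^ 2 * (t - d) ^ 2) (Icc d e) := by
    have hder : ∀ t : ℝ, HasDerivAt (fun t => zc (T c) * ((z / 2 - t) * hs t + 3 / 2 * t) - b * z * t -
      a * z ^ 2 * (t - d) ^ 2) (zc (T c) * (-hs t + (z / 2 - t) * hp t + 3 / 2) - b * z -
        a * z ^ 2 * (2 * (t - d))) t := by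
      intro t
      have e1 := (hasDerivAt_left (z / 2) (3 / 2) t).const_mul (zc (T c))
      have e2 : HasDerivAt (fun t : ℝ => b * z * t) (b * z) t := by
        simpa using (hasDerivAt_id t).const_mul (b * z)
      have e3 : HasDerivAt (fun t : ℝ => (t - d) ^ 2) (2 * (t - d)) t := by
        have := ((hasDerivAt_id' t).sub_const d).fun_pow 2
        simpa using this
      exact (e1.sub e2).sub (e3.const_mul (a * z ^ 2))
    apply monotoneOn_of_deriv_nonneg (convex_Icc d e)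
    · exact fun t _ => (hder t).continuousAt.continuousWithinAt
    · exact fun t _ => (hder t).differentiableAt.differentiableWithinAt
    · intro t ht
      rw [interior_Icc] at ht
      obtain ⟨ht1, ht2⟩ := ht
      rw [(hder t).deriv]
      have ht0 : 0 ≤ t := hd.trans ht1.le
      have f1 := hF t ht0 ht2.le
      have f2 := hs_le t
      have f3 := hp_ge ht0 (ht2.le.trans hek)
      have f4 : 0 ≤ z / 2 - t := by linarith
      have f5 : 3 / 2 - 987 / 400 * t ^ 2 + (z / 2 - t) *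
          (49345 / 10000 * t * (1 - 1645 / 1000 * t ^ 2)) ≤ -hs t + (z / 2 - t) * hp t + 3 / 2 := by
        have := mul_le_mul_of_nonneg_left f3 f4
        linarith
      set R := 3 / 2 - 987 / 400 * t ^ 2 + (z / 2 - t) *
          (49345 / 10000 * t * (1 - 1645 / 1000 * t ^ 2)) with hR
      have hb0 : 0 ≤ b := by
        have := gb_ge c
        rw [hbdef]
        linarith
      have f6 : 0 ≤ b + 2 * a * z * t := by positivity
      have hR0 : 0 ≤ R := by linarith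
      have f7 : 3 / 2 * z * R ≤ zc (T c) * (-hs t + (z / 2 - t) * hp t + 3 / 2) := by
        rw [hzT]
        have g1 : 3 / 2 * z ≤ (3 * z + 1) / 2 := by linarith
        have g2 : 0 ≤ -hs t + (z / 2 - t) * hp t + 3 / 2 := hR0.trans f5
        calc 3 / 2 * z * R ≤ (3 * z + 1) / 2 * R := by gcongr
          _ ≤ (3 * z + 1) / 2 * (-hs t + (z / 2 - t) * hp t + 3 / 2) := by gcongr
      have f8 : z * (b + 2 * a * z * t) ≤ z * (3 / 2 * R) := by gcongr
      have f9 : 0 ≤ a * z ^ 2 * (2 * d) := by positivity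
      nlinarith
  have h := hmono (left_mem_Icc.2 hde) (right_mem_Icc.2 hde) hde
  simp only at h
  rw [hD, hD]
  nlinarith

theorem gp_ol {c : ℕ} (ho : c % 2 = 1) (h3 : 3 ≤ c) {d e : ℝ} (hd : 0 ≤ d) (hde : d ≤ e)
    (hek : e ≤ (kl c false : ℝ) / 512) :
    gb c * (zc c * (e - d)) + ga c * (zc c * (e - d)) ^ 2 ≤ zc (T c) * (D c (pc c false e) - D c (pc c false d)) := by
  obtain ⟨k1, k2, k3, k4⟩ := kl_odd_left ho
  have ha := (ga_pos c).le
  have hc3 : (3 : ℝ) ≤ c := by exact_mod_cast h3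
  have ho' : od c = true := (od_iff c).2 ho
  have k1' : (kl c false : ℝ) ≤ 143 := by exact_mod_cast k1
  have he34 : e ≤ 3 / 4 := by linarith
  refine gp_ol_aux ho h3 hd hde he34 ha ?_
  intro t ht0 hte
  rcases Nat.lt_or_ge c 16 with h16 | h16
  · rcases Nat.lt_or_ge c 8 with h8 | h8
    · have hab : ga c = 1 ∧ gb c = 9 / 5 := by
        have g8 : Nat.blt c 8 = true := by
          rw [Nat.blt_eq]
          exact h8
        unfold ga gb an bn
        rw [g8, ho']
        norm_num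
      rw [hab.1, hab.2]
      rcases Nat.lt_or_ge c 5 with h5 | h5
      · have htm : t ≤ 143 / 512 := by linarith
        refine poly_ol (z0 := 7) ht0 htm ?_ (by norm_num) (by norm_num) (by norm_num)
          (by norm_num) (by norm_num)
        unfold zc
        linarith
      · have k2' : (kl c false : ℝ) ≤ 118 := by exact_mod_cast k2 h5
        have htm : t ≤ 118 / 512 := by linarith
        have hc5 : (5 : ℝ) ≤ c := by exact_mod_cast h5
        refine poly_ol (z0 := 11) ht0 htm ?_ (by norm_num) (by norm_num) (by norm_num)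
          (by norm_num) (by norm_num)
        unfold zc
        linarith
    · have hab : ga c = 3 / 2 ∧ gb c = 2 := by
        have g8 : Nat.blt c 8 = false := by
          rw [← Bool.not_eq_true, Nat.blt_eq]
          omega
        have g16 : Nat.blt c 16 = true := by
          rw [Nat.blt_eq]
          exact h16
        unfold ga gb an bn
        rw [g8, g16, ho']
        norm_num
      rw [hab.1, hab.2]
      have k3' : (kl c false : ℝ) ≤ 93 := by exact_mod_cast k3 h8 h16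
      have htm : t ≤ 93 / 512 := by linarith
      have hc8 : (8 : ℝ) ≤ c := by exact_mod_cast h8
      refine poly_ol (z0 := 17) ht0 htm ?_ (by norm_num) (by norm_num) (by norm_num)
        (by norm_num) (by norm_num)
      unfold zc
      linarith
  · obtain ⟨h1, h2⟩ := gab_odd h16 ho
    rw [h1, h2]
    have k4' : (kl c false : ℝ) ≤ 95 := by exact_mod_cast k4 h16
    have htm : t ≤ 95 / 512 := by linarith
    have hc16 : (16 : ℝ) ≤ c := by exact_mod_cast h16
    refine poly_ol (z0 := 33) ht0 htm ?_ (by norm_num) (by norm_num) (by norm_num)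
      (by norm_num) (by norm_num)
    unfold zc
    linarith

end Pool.Agent.Lib.MP_a247fa_nt.X
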