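import Pool.Agent.Lib.MP_a247fa_nt.X.HsX
import Pool.Agent.Lib.MP_a247fa_nt.X.DsA
import Pool.Agent.Lib.MP_a247fa_nt.X.KnB

/-! GPOR (45 min, old scale).
Inequality (G') at an integer `c`. `ζ = zc c = 2c+1`, `d ≤ e` distances, `Z = ζ (e - d)`. Claim `b Z + a Z^2 ≤ ζ' (D(e) - D(d))`.

It is enough that `g(t) = ζ' D(t) - b ζ t - a ζ^2 (t - d)^2` is nondecreasing on `[d, e]` (`monotoneOn_of_deriv_nonneg`, derivative from `hasDerivAt_right/left` through `D_pc`): `g'(t) = ζ' D'(t) - b ζ - 2 a ζ^2 (t - d) ≥ 0`, and as `ζ d ≥ z0`: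
`2 a ζ^2 (t-d) ≤ 2 a ζ (z - z0)`, `z = ζ t`. So it is enough that `ζ' D'(t)/ζ ≥ b + 2 a (z - z0)`.

Odd `c ≥ 3`, right side, `z0 = zx c`, `D(t) = (ζ/2 + t) hs t - 3t/2`, `ζ' = 2 T c + 1 = 3c + 2 = (3ζ+1)/2 ≥ 3ζ/2`. `D' = hs + (ζ/2+t) hp - 3/2 ≥ R`, `R = -3/2 + (1 + 2t/ζ) 2.46725 z (1 - 1.645 t^2)` (`hp_ge`, `hs ≥ 0`). To show `(3/2) R ≥ b + 2a (z - z0)`; then `R > 0`, `ζ' D'/ζ ≥ (3/2) R`.
Classes (`kl_odd_right`): `c = 3`: `ζ = 7`, `t ≤ 232/512`, `a = 1, b = 9/5`, `z0 = 1.16` (one variable `t ∈ [1.16/7, 232/512]`, slack `0.243`); `c = 5, 7`: `ζ = 11, 15`, `t ≤ 174/512` (one variable each, or `1 + 2t/ζ ≥ 1`); `8 ≤ c < 16`: `a = 3/2, b = 2`, `z0 = 6/5`, `t ≤ 126/512`, `ζ ≥ 19`;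
`c ≥ 16`: `a = 17/10, b = 43/20`, `z0 = 121/100`, `t ≤ 109/512`, `ζ ≥ 35`. For `c ≥ 8` drop `1 + 2t/ζ ≥ 1`: `(3/2) R - b - 2a(z - z0) ≥ (-9/4 - b + 2 a z0) + z (3.700875 (1 - 1.645 t^2) - 2a)`; class 3: constant `-0.286`, coefficient `0.300875 - 6.0879 t^2 ≥ 0.0249`;
`t ≤ 0.06`: `z ≥ 1.21`: `≥ -0.286 + 1.21 * 0.2789 > 0.05`; `t ≥ 0.06`: `z ≥ 33 t`: `33 t (0.300875 - 6.0879 t^2) - 0.286 > 0` on `[0.06, 0.2129]` (concave; ends: `0.266`, `-0.11`!, so near the right end do not drop `2t/ζ`... or use `kl`: `t ≤ 109/512` only for `c < 32`; there `ζ ≤ 63`;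
with the factor `(1 + 2t/ζ)`: `z (1 + 2t/ζ) = z + 2 t^2`, which adds `2 t^2 * 3.700875 (1 - 1.645 t^2) = 0.31` at `t = 0.2129`). So keep it: `F = const + z (3.700875 (1 - 1.645 t^2) - 2a) + 7.40175 t^2 (1 - 1.645 t^2)`; smallest slack `0.078` (near `t = 0`, `z = 1.21`). Class 2: constant `-0.65`,
coefficient `0.700875 - 6.0879 t^2`, similar, slack `0.19`. -/

set_option autoImplicit false

namespace Pool.Agent.Lib.MP_a247fa_nt.X

open Set MeasureTheory
open Pool.Agent.Lib.MP_a247fa_nt.W Pool.Agent.Lib.MP_a247fa_nt.V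

private theorem gpor_cell {z t a b z0 Z p q : ℝ} (hp : 0 ≤ p) (hpt : p ≤ t) (htq : t ≤ q) (hZ : Z ≤ z) (hZ0 : 0 ≤ Z)
    (hq : 0 ≤ 1 - 1645 / 1000 * q ^ 2)
    (hco : 0 ≤ 3 / 2 * (246725 / 100000) * (1 - 1645 / 1000 * q ^ 2) - 2 * a)
    (hv : 0 ≤ -(9 / 4) - b + 2 * a * z0 + Z * (3 / 2 * (246725 / 100000) * (1 - 1645 / 1000 * q ^ 2) - 2 * a) +
      3 / 2 * (246725 / 100000) * (2 * p ^ 2 * (1 - 1645 / 1000 * q ^ 2))) :
    b + 2 * a * (z - z0) ≤ 3 / 2 * (-(3 / 2) + 246725 / 100000 * (z + 2 * t ^ 2) * (1 - 1645 / 1000 * t ^ 2)) := by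
  have h1 : t ^ 2 ≤ q ^ 2 := pow_le_pow_left₀ (le_trans hp hpt) htq 2
  have h2 : p ^ 2 ≤ t ^ 2 := pow_le_pow_left₀ hp hpt 2
  have hz : 0 ≤ z := le_trans hZ0 hZ
  have hw : 1 - 1645 / 1000 * q ^ 2 ≤ 1 - 1645 / 1000 * t ^ 2 := by linarith
  have h3 : (z + 2 * p ^ 2) * (1 - 1645 / 1000 * q ^ 2) ≤ (z + 2 * t ^ 2) * (1 - 1645 / 1000 * t ^ 2) := by
    apply mul_le_mul _ hw hq _
    · linarith
    · have := sq_nonneg t
      linarith
  have h4 := mul_le_mul_of_nonneg_right hZ hco
  nlinarith [h3, h4]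

private theorem gpor_cls {c : ℕ} (ho : c % 2 = 1) (h3 : 3 ≤ c) {t : ℝ} (h0 : zx c ≤ zc c * t) (ht : 0 ≤ t)
    (hk : t ≤ (kl c true : ℝ) / 512) :
    gb c + 2 * ga c * (zc c * t - zx c) ≤
      3 / 2 * (-(3 / 2) + 246725 / 100000 * (zc c * t + 2 * t ^ 2) * (1 - 1645 / 1000 * t ^ 2)) := by
  have hod : od c = true := (od_iff c).2 ho
  obtain ⟨k1, k2, k3, k4⟩ := kl_odd_right ho
  rcases Nat.lt_or_ge c 8 with h8 | h8
  · have b8 : Nat.blt c 8 = true := by rw [Nat.blt_eq]; exact h8
    have ea : ga c = 1 := by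
      unfold ga; simp only [an, b8, hod, cond_true]; norm_num
    have eb : gb c = 9 / 5 := by
      unfold gb; simp only [bn, b8, hod, cond_true]; norm_num
    have ez : zx c = 29 / 25 := by
      unfold zx; rw [if_pos h8]
    rw [ea, eb, ez]
    rw [ez] at h0
    rcases Nat.lt_or_ge c 5 with h5 | h5
    · have hc : c = 3 := by omega
      subst hc
      have hk' : t ≤ 232 / 512 := by
        refine le_trans hk ?_
        have : (kl 3 true : ℝ) ≤ 232 := by exact_mod_cast k1
        linarith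
      have hz : zc 3 = 7 := by unfold zc; norm_num
      rw [hz] at h0 ⊢
      rcases le_total t (37 / 200) with g1 | g1
      · exact gpor_cell le_rfl ht g1 h0 (by norm_num) (by norm_num) (by norm_num) (by norm_num)
      · rcases le_total t (59 / 200) with g2 | g2
        · exact gpor_cell (Z := 7 * (37 / 200)) (by norm_num) g1 g2 (by linarith) (by norm_num) (by norm_num) (by norm_num)
            (by norm_num)
        · rcases le_total t (421 / 1000) with g3 | g3
          · exact gpor_cell (Z := 7 * (59 / 200)) (by norm_num) g2 g3 (by linarith) (by norm_num) (by norm_num)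
              (by norm_num) (by norm_num)
          · exact gpor_cell (Z := 7 * (421 / 1000)) (by norm_num) g3 hk' (by linarith) (by norm_num) (by norm_num)
              (by norm_num) (by norm_num)
    · have hk' : t ≤ 174 / 512 := by
        refine le_trans hk ?_
        have : (kl c true : ℝ) ≤ 174 := by exact_mod_cast k2 h5
        linarith
      have hz : 11 ≤ zc c := by
        unfold zc
        have : (5 : ℝ) ≤ c := by exact_mod_cast h5
        linarith
      rcases le_total t (37 / 200) with g1 | g1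
      · exact gpor_cell le_rfl ht g1 h0 (by norm_num) (by norm_num) (by norm_num) (by norm_num)
      · exact gpor_cell (Z := 11 * (37 / 200)) (by norm_num) g1 hk' (mul_le_mul hz g1 (by norm_num) (by linarith))
          (by norm_num) (by norm_num) (by norm_num) (by norm_num)
  · have b8 : Nat.blt c 8 = false := by
      rw [Bool.eq_false_iff, ne_eq, Nat.blt_eq]; omega
    rcases Nat.lt_or_ge c 16 with h16 | h16
    · have b16 : Nat.blt c 16 = true := by rw [Nat.blt_eq]; exact h16
      have ea : ga c = 3 / 2 := by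
        unfold ga; simp only [an, b8, b16, hod, cond_true, cond_false]; norm_num
      have eb : gb c = 2 := by
        unfold gb; simp only [bn, b8, b16, hod, cond_true, cond_false]; norm_num
      have ez : zx c = 6 / 5 := by
        unfold zx; rw [if_neg (by omega), if_pos h16]
      rw [ea, eb, ez]
      rw [ez] at h0
      have hk' : t ≤ 126 / 512 := by
        refine le_trans hk ?_
        have : (kl c true : ℝ) ≤ 126 := by exact_mod_cast k3 h8
        linarith
      have hz : 19 ≤ zc c := by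
        unfold zc
        have : (9 : ℝ) ≤ c := by exact_mod_cast (by omega : 9 ≤ c)
        linarith
      rcases le_total t (161 / 1000) with g1 | g1
      · exact gpor_cell le_rfl ht g1 h0 (by norm_num) (by norm_num) (by norm_num) (by norm_num)
      · exact gpor_cell (Z := 19 * (161 / 1000)) (by norm_num) g1 hk' (mul_le_mul hz g1 (by norm_num) (by linarith))
          (by norm_num) (by norm_num) (by norm_num) (by norm_num)
    · have b16 : Nat.blt c 16 = false := by
        rw [Bool.eq_false_iff, ne_eq, Nat.blt_eq]; omega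
      have ea : ga c = 17 / 10 := by
        unfold ga; simp only [an, b8, b16, hod, cond_true, cond_false]; norm_num
      have eb : gb c = 43 / 20 := by
        unfold gb; simp only [bn, b8, b16, hod, cond_true, cond_false]; norm_num
      have ez : zx c = 121 / 100 := by
        unfold zx; rw [if_neg (by omega), if_neg (by omega)]
      rw [ea, eb, ez]
      rw [ez] at h0
      have hk' : t ≤ 109 / 512 := by
        refine le_trans hk ?_
        have : (kl c true : ℝ) ≤ 109 := by exact_mod_cast k4 h16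
        linarith
      have hz : 35 ≤ zc c := by
        unfold zc
        have : (17 : ℝ) ≤ c := by exact_mod_cast (by omega : 17 ≤ c)
        linarith
      rcases le_total t (51 / 500) with g1 | g1
      · exact gpor_cell le_rfl ht g1 h0 (by norm_num) (by norm_num) (by norm_num) (by norm_num)
      · rcases le_total t (99 / 500) with g2 | g2
        · exact gpor_cell (Z := 35 * (51 / 500)) (by norm_num) g1 g2 (mul_le_mul hz g1 (by norm_num) (by linarith))
            (by norm_num) (by norm_num) (by norm_num) (by norm_num)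
        · exact gpor_cell (Z := 35 * (99 / 500)) (by norm_num) g2 hk' (mul_le_mul hz g2 (by norm_num) (by linarith))
            (by norm_num) (by norm_num) (by norm_num) (by norm_num)

theorem gp_or {c : ℕ} (ho : c % 2 = 1) (h3 : 3 ≤ c) {d e : ℝ} (hd : zx c ≤ zc c * d) (hde : d ≤ e)
    (hek : e ≤ (kl c true : ℝ) / 512) :
    gb c * (zc c * (e - d)) + ga c * (zc c * (e - d)) ^ 2 ≤ zc (T c) * (D c (pc c true e) - D c (pc c true d)) := by
  have hζ : 0 < zc c := by unfold zc; positivity
  have hzx : 0 < zx c := by unfold zx; split_ifs <;> norm_num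
  have hd0 : 0 < d := by
    by_contra hh
    push Not at hh
    have := mul_nonpos_of_nonneg_of_nonpos hζ.le hh
    linarith
  have hT : zc (T c) = (3 * zc c + 1) / 2 := by
    obtain ⟨h1, -, -, h4⟩ := T_eq_odd ho
    unfold zc
    rw [h1, h4]
    ring
  have ha : 0 ≤ ga c := by unfold ga; positivity
  have hkl : (kl c true : ℝ) / 512 ≤ 232 / 512 := by
    have : (kl c true : ℝ) ≤ 232 := by exact_mod_cast (kl_odd_right ho).1
    linarith
  have hg : ∀ t : ℝ, HasDerivAt (fun t => zc (T c) * ((zc c / 2 + t) * hs t + (-(3 / 2)) * t) - gb c * (zc c * t) -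
      ga c * ((zc c * (t - d)) * (zc c * (t - d))))
      (zc (T c) * (hs t + (zc c / 2 + t) * hp t + (-(3 / 2))) - gb c * (zc c * 1) -
      ga c * ((zc c * 1) * (zc c * (t - d)) + (zc c * (t - d)) * (zc c * 1))) t := by
    intro t
    have e1 := (hasDerivAt_right (zc c / 2) (-(3 / 2)) t).const_mul (zc (T c))
    have e2 := ((hasDerivAt_id t).const_mul (zc c)).const_mul (gb c)
    have e3 := (((hasDerivAt_id t).sub_const d).const_mul (zc c))
    have e4 := (e3.mul e3).const_mul (ga c)
    exact (e1.sub e2).sub e4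
  have hmono : MonotoneOn (fun t => zc (T c) * ((zc c / 2 + t) * hs t + (-(3 / 2)) * t) - gb c * (zc c * t) -
      ga c * ((zc c * (t - d)) * (zc c * (t - d)))) (Icc d e) := by
    apply monotoneOn_of_deriv_nonneg (convex_Icc d e)
    · intro t _
      exact (hg t).continuousAt.continuousWithinAt
    · intro t _
      exact (hg t).differentiableAt.differentiableWithinAt
    · intro t ht
      rw [interior_Icc] at ht
      rw [(hg t).deriv]
      have ht0 : 0 ≤ t := hd0.le.trans ht.1.le
      have htk : t ≤ (kl c true : ℝ) / 512 := ht.2.le.trans hek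
      have hzt : zx c ≤ zc c * t := hd.trans (mul_le_mul_of_nonneg_left ht.1.le hζ.le)
      have key := gpor_cls ho h3 hzt ht0 htk
      have hp1 := hp_ge ht0 (by linarith : t ≤ 3 / 4)
      have hs0 : 0 ≤ hs t := by unfold hs; positivity
      have hn : 0 ≤ zc c / 2 + t := by linarith
      have h1 := mul_le_mul_of_nonneg_left hp1 hn
      -- lower bound of D'
      set R := -(3 / 2) + 246725 / 100000 * (zc c * t + 2 * t ^ 2) * (1 - 1645 / 1000 * t ^ 2) with hR
      have hD : R ≤ hs t + (zc c / 2 + t) * hp t + (-(3 / 2)) := by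
        rw [hR]
        nlinarith [h1, hs0]
      have hb : 0 < gb c := by
        unfold gb
        have : 0 < bn c := by
          unfold bn
          cases Nat.blt c 8 <;> cases Nat.blt c 16 <;> cases od c <;> simp
        positivity
      have hR0 : 0 ≤ R := by
        have : 0 ≤ 2 * ga c * (zc c * t - zx c) := by
          apply mul_nonneg (by linarith)
          linarith
        linarith
      have h5 : (3 / 2 * zc c) * R ≤ zc (T c) * (hs t + (zc c / 2 + t) * hp t + (-(3 / 2))) := by
        apply mul_le_mul _ hD hR0 _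
        · rw [hT]; linarith
        · rw [hT]; linarith
      have h6 : zc c * (gb c + 2 * ga c * (zc c * t - zx c)) ≤ zc c * (3 / 2 * R) := mul_le_mul_of_nonneg_left key hζ.le
      have h7 : 2 * ga c * zc c * (zc c * (t - d)) ≤ 2 * ga c * zc c * (zc c * t - zx c) := by
        apply mul_le_mul_of_nonneg_left _ (by positivity)
        linarith
      nlinarith [h5, h6, h7]
  have hfin := hmono (left_mem_Icc.2 hde) (right_mem_Icc.2 hde) hde
  simp only [sub_self, mul_zero, sub_zero] at hfin
  have pd : ∀ t : ℝ, D c (pc c true t) = (zc c / 2 + t) * hs t + (-(3 / 2)) * t := by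
    intro t
    unfold pc
    rw [if_pos rfl, D_odd_add ho]
    unfold zc
    ring
  rw [pd, pd]
  nlinarith [hfin]

end Pool.Agent.Lib.MP_a247fa_nt.X
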