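import Pool.Agent.Lib.MP_a247fa_nt.X.ThB

/-! PTRI (30 min, old scale).
`∫ [adj, Fre] th n (T c) (ch c) (cf x) dν = ∫ th n (T c) (ch c) d(ptr ν c s)` for `c ≥ 3` not a power of two.

The integrand is `0` unless `adj c s x`, `Fre x`; and `0` if moreover `ds c s x < dd c s` (`dz`). So it is the indicator of `{act c s}` times `th n (T c) (ch c) (cf x)`. Then `integral_indicator`, `integral_map` (`cf` measurable, `th` measurable: `bm_th`).
`ptr_fin`: restriction and map of a finite measure. `ptr_zero`: for powers of two the integrand is `0` (`dz_pow`). -/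

set_option autoImplicit false

namespace Pool.Agent.Lib.MP_a247fa_nt.X

open Set MeasureTheory
open Pool.Agent.Lib.MP_a247fa_nt.W Pool.Agent.Lib.MP_a247fa_nt.V

instance ptr_fin (ν : Measure ℝ) [IsFiniteMeasure ν] (c : ℕ) (s : Bool) : IsFiniteMeasure (ptr ν c s) := by
  unfold ptr
  infer_instance

open Classical in
theorem ptr_int {ν : Measure ℝ} [IsFiniteMeasure ν] {n c : ℕ} {s : Bool} (h3 : 3 ≤ c) (hN : NP c) :
    ∫ x, (if adj c s x ∧ Fre x then th n (T c) (ch c) (cf x) else 0) ∂ν = ∫ y, th n (T c) (ch c) y ∂(ptr ν c s) := by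
  unfold ptr
  rw [integral_map continuous_cf.measurable.aemeasurable (bm_th n (T c) (ch c)).1.aestronglyMeasurable,
    ← integral_indicator (meas_act c s)]
  refine integral_congr_ae (Filter.Eventually.of_forall fun x => ?_)
  show (if adj c s x ∧ Fre x then th n (T c) (ch c) (cf x) else 0) =
    indicator {x | act c s x} (fun x => th n (T c) (ch c) (cf x)) x
  by_cases ha : act c s x
  · rw [indicator_of_mem (show x ∈ {x | act c s x} from ha), if_pos ⟨ha.1, ha.2.1⟩]
  · rw [indicator_of_notMem (show x ∉ {x | act c s x} from ha)]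
    by_cases hb : adj c s x ∧ Fre x
    · rw [if_pos hb]
      refine dz h3 hN hb.1 hb.2 ?_
      by_contra hc
      exact ha ⟨hb.1, hb.2, not_lt.mp hc⟩
    · rw [if_neg hb]

open Classical in
theorem ptr_zero {ν : Measure ℝ} {n c : ℕ} {s : Bool} (h2 : 2 ≤ c) (hN : ¬ NP c) :
    ∫ x, (if adj c s x ∧ Fre x then th n (T c) (ch c) (cf x) else 0) ∂ν = 0 := by
  have : (fun x => if adj c s x ∧ Fre x then th n (T c) (ch c) (cf x) else 0) = fun _ => (0 : ℝ) := by
    ext x
    rw [dz_pow hN h2]
    exact ite_self 0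
  rw [this, integral_zero]

end Pool.Agent.Lib.MP_a247fa_nt.X
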