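import Pool.Agent.Lib.MP_a247fa_nt.X.HsX
import Pool.Agent.Lib.MP_a247fa_nt.X.DsA

/-! TZON (25 min, old scale).
`trp_zone`: odd `c ≥ 3`, `x = c + d`, `0 < d`, `d (2c+1) ≤ zx c`. Then `d < 1` and `Trp x` iff `T c ≤ cf x` iff `D c x ≤ 0` iff `(c + 1/2 + d) hs d ≤ 3 d/2` (`D_odd_add`). With `hs d ≤ (987/400) d^2` (`hs_le`) and `z = (2c+1) d`:
`(c+1/2+d) hs d ≤ (d/2)(z + 2 d^2) (987/400)`.. that is `(c + 1/2 + d) d * 987/400 = (z/2 + d^2) * 987/400 ≤ 3/2`: `z ≤ zx c` and `d = z/(2c+1)`: `c ≥ 16`: `z ≤ 1.21`, `d ≤ 1.21/33`: `(0.605 + 0.00135) * 2.4675 = 1.4962`;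
`8 ≤ c`: `z ≤ 1.2`, `d ≤ 1.2/17`: `(0.6 + 0.005) * 2.4675 = 1.4929`; `3 ≤ c`: `z ≤ 1.16`, `d ≤ 1.16/7`: `(0.58 + 0.02747) * 2.4675 = 1.49893`. `⌊x⌋₊ = c`.
`free_zone`: the contrapositive for free points.
`fold_width`: even `c ≥ 54`, `x = c - d`, `Fld x` (`⌊x⌋₊ = c - 1`), so `D c x < 0`: `(c + 1/2 - d) hs d < d/2`. Let `z = (2c+1) d` and suppose `z > 0.407`. If `d ≤ 3/20`: `hs_ge4`: `(c+1/2-d) hs d ≥ (d/2)(z - 2 d^2) * 2.46725 (1 - 0.8225 d^2)`, so it is enough that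
`(z - 2 d^2) 2.46725 (1 - 0.8225 d^2) ≥ 1`; as `z = (2c+1) d ≥ 109 d`: for `d ≤ 0.004`: `z - 2d^2 ≥ 0.407 - 0.000032`, product `≥ 1.0040`; for `d ≥ 0.003`.. in general `z - 2 d^2 ≥ max(0.407, 109 d) - 2 d^2`; for `d ≥ 0.004` it is `≥ 0.43`, and
`0.43 * 2.46725 * (1 - 0.8225 * 0.0225) ≥ 1.04`. If `d ≥ 3/20` (`d < 1`): `hs d ≥ hs (3/20) ≥ 0.054` (`hs_mono`, `hs_ge3`), `(c + 1/2 - d) hs d ≥ 53.5 * 0.054 > 1/2`. Contradiction. (If `0.003 ≤ d ≤ 0.004` both forms overlap.) -/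

set_option autoImplicit false

namespace Pool.Agent.Lib.MP_a247fa_nt.X

open Set MeasureTheory
open Pool.Agent.Lib.MP_a247fa_nt.W Pool.Agent.Lib.MP_a247fa_nt.V

private theorem tzon_key {n d t k : ℝ} (hd : 0 < d) (hk : 0 < k) (hkn : k ≤ 2 * n + 1) (hz : (2 * n + 1) * d ≤ t)
    (ht : 0 ≤ t) (hnum : (t / 2 + (t / k) ^ 2) * (987 / 400) ≤ 3 / 2) :
    (n + 1 / 2 + d) * hs d - 3 * d / 2 ≤ 0 := by
  have hdk : d ≤ t / k := by
    rw [le_div_iff₀ hk]
    nlinarith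
  have hd2 : d ^ 2 ≤ (t / k) ^ 2 := pow_le_pow_left₀ hd.le hdk 2
  have hs1 := hs_le d
  have hn : 0 < n + 1 / 2 + d := by linarith
  have h1 : (n + 1 / 2 + d) * hs d ≤ (n + 1 / 2 + d) * (987 / 400 * d ^ 2) :=
    mul_le_mul_of_nonneg_left hs1 hn.le
  have h2 : (n + 1 / 2 + d) * (987 / 400 * d ^ 2) = d * (((2 * n + 1) * d / 2 + d ^ 2) * (987 / 400)) := by ring
  have h3 : ((2 * n + 1) * d / 2 + d ^ 2) * (987 / 400) ≤ 3 / 2 := by
    refine le_trans ?_ hnum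
    have : (2 * n + 1) * d / 2 + d ^ 2 ≤ t / 2 + (t / k) ^ 2 := by linarith
    exact mul_le_mul_of_nonneg_right this (by norm_num)
  have h4 : d * (((2 * n + 1) * d / 2 + d ^ 2) * (987 / 400)) ≤ d * (3 / 2) :=
    mul_le_mul_of_nonneg_left h3 hd.le
  linarith

theorem trp_zone {c : ℕ} {x : ℝ} (ho : c % 2 = 1) (h3 : 3 ≤ c) (h0 : (c : ℝ) < x) (hz : zc c * (x - c) ≤ zx c) : Trp x := by
  set d : ℝ := x - c with hd
  have hd0 : 0 < d := by rw [hd]; linarith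
  have hx : x = c + d := by rw [hd]; ring
  have hc3 : (3 : ℝ) ≤ c := by exact_mod_cast h3
  unfold zc at hz
  have hmain : (c + 1 / 2 + d) * hs d - 3 * d / 2 ≤ 0 := by
    unfold zx at hz
    split_ifs at hz with h1 h2
    · exact tzon_key hd0 (k := 7) (by norm_num) (by linarith) hz (by norm_num) (by norm_num)
    · have h8 : (8 : ℝ) ≤ c := by exact_mod_cast (not_lt.1 h1)
      exact tzon_key hd0 (k := 17) (by norm_num) (by linarith) hz (by norm_num) (by norm_num)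
    · have h16 : (16 : ℝ) ≤ c := by exact_mod_cast (not_lt.1 h2)
      exact tzon_key hd0 (k := 33) (by norm_num) (by linarith) hz (by norm_num) (by norm_num)
  have hzx : zx c ≤ 121 / 100 := by
    unfold zx
    split_ifs <;> norm_num
  have hd1 : d < 1 := by nlinarith
  have hfl : ⌊x⌋₊ = c := by
    rw [Nat.floor_eq_iff (by linarith)]
    constructor
    · linarith
    · linarith
  have hD : D c x ≤ 0 := by
    rw [hx, D_odd_add ho]
    exact hmain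
  unfold Trp
  rw [hfl]
  refine ⟨ho, ?_⟩
  unfold D at hD
  rw [if_neg (by omega)] at hD
  have hT : ((T c : ℕ) : ℝ) = (3 * c + 1) / 2 := by
    unfold T
    rw [if_neg (by omega)]
    obtain ⟨k, hk⟩ : ∃ k, 3 * c + 1 = 2 * k := ⟨(3 * c + 1) / 2, by omega⟩
    rw [hk, Nat.mul_div_cancel_left _ (by norm_num)]
    have hk' : (3 * (c : ℝ) + 1) = 2 * k := by exact_mod_cast hk
    rw [hk']
    ring
  rw [hT]
  linarith

theorem free_zone {c : ℕ} {x : ℝ} (ho : c % 2 = 1) (h3 : 3 ≤ c) (hx : adj c true x) (hf : Fre x) : zx c < zc c * ds c true x := by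
  by_contra hcon
  rw [not_lt] at hcon
  have hds : ds c true x = x - c := by
    unfold ds
    rw [if_pos rfl]
  have h0 : (c : ℝ) < x := by
    have := hx.1
    rw [hds] at this
    linarith
  rw [hds] at hcon
  exact hf.1 (trp_zone ho h3 h0 hcon)

theorem fold_width {c : ℕ} {x : ℝ} (he : c % 2 = 0) (h54 : 54 ≤ c) (hx : adj c false x) (hF : Fld x) :
    zc c * ds c false x ≤ 407 / 1000 := by
  have hfl : ⌊x⌋₊ = c - 1 := floor_adj_false (by omega) hx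
  have hds : ds c false x = c - x := by
    unfold ds
    rw [if_neg Bool.false_ne_true]
  obtain ⟨hx0, hx1⟩ := hx
  rw [hds] at hx0 hx1 ⊢
  set d : ℝ := c - x with hd
  have hxd : x = c - d := by rw [hd]; ring
  have hc54 : (54 : ℝ) ≤ c := by exact_mod_cast h54
  have hcf : cf x < (c : ℝ) / 2 := by
    have h1 := hF.2
    rw [hfl] at h1
    have h2 : (((c - 1 : ℕ) : ℝ) + 1) = c := by
      rw [Nat.cast_sub (by omega)]
      push_cast
      ring
    rw [h2] at h1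
    exact h1
  have hD : D c x < 0 := by
    unfold D
    rw [if_pos he]
    linarith
  rw [hxd, D_even_sub he] at hD
  by_contra hcon
  rw [not_le] at hcon
  unfold zc at hcon
  have hn : 0 < (c : ℝ) + 1 / 2 - d := by linarith
  by_cases h15 : d ≤ 3 / 20
  · have h4 := hs_ge4 d
    have h5 : ((c : ℝ) + 1 / 2 - d) * (246725 / 100000 * d ^ 2 * (1 - 8225 / 10000 * d ^ 2)) ≤
        ((c : ℝ) + 1 / 2 - d) * hs d := mul_le_mul_of_nonneg_left h4 hn.le
    have h6 : ((c : ℝ) + 1 / 2 - d) * (246725 / 100000 * d ^ 2 * (1 - 8225 / 10000 * d ^ 2)) =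
        (d / 2) * (((2 * c + 1) * d - 2 * d ^ 2) * (246725 / 100000 * (1 - 8225 / 10000 * d ^ 2))) := by ring
    have h7 : (d / 2) * (((2 * (c : ℝ) + 1) * d - 2 * d ^ 2) * (246725 / 100000 * (1 - 8225 / 10000 * d ^ 2))) <
        (d / 2) * 1 := by linarith
    have h8 : ((2 * (c : ℝ) + 1) * d - 2 * d ^ 2) * (246725 / 100000 * (1 - 8225 / 10000 * d ^ 2)) < 1 :=
      lt_of_mul_lt_mul_left h7 (by linarith)
    by_cases h004 : d ≤ 4 / 1000
    · have hd2 : d ^ 2 ≤ (4 / 1000) ^ 2 := pow_le_pow_left₀ hx0.le h004 2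
      have a1 : (407 / 1000 - 2 * (4 / 1000) ^ 2 : ℝ) ≤ (2 * (c : ℝ) + 1) * d - 2 * d ^ 2 := by linarith
      have a2 : (246725 / 100000 * (1 - 8225 / 10000 * (4 / 1000) ^ 2) : ℝ) ≤
          246725 / 100000 * (1 - 8225 / 10000 * d ^ 2) := by linarith
      have a3 := mul_le_mul a1 a2 (by norm_num) (by linarith)
      have a4 : (1 : ℝ) < (407 / 1000 - 2 * (4 / 1000) ^ 2) *
          (246725 / 100000 * (1 - 8225 / 10000 * (4 / 1000) ^ 2)) := by norm_num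
      linarith
    · rw [not_le] at h004
      have hd2 : d ^ 2 ≤ (3 / 20) ^ 2 := pow_le_pow_left₀ hx0.le h15 2
      have a1 : (4347 / 10000 : ℝ) ≤ (2 * (c : ℝ) + 1) * d - 2 * d ^ 2 := by nlinarith
      have a2 : (246725 / 100000 * (1 - 8225 / 10000 * (3 / 20) ^ 2) : ℝ) ≤
          246725 / 100000 * (1 - 8225 / 10000 * d ^ 2) := by linarith
      have a3 := mul_le_mul a1 a2 (by norm_num) (by linarith)
      have a4 : (1 : ℝ) < (4347 / 10000) *
          (246725 / 100000 * (1 - 8225 / 10000 * (3 / 20) ^ 2)) := by norm_num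
      linarith
  · rw [not_le] at h15
    have b1 : hs (3 / 20) ≤ hs d := hs_mono (by norm_num) h15.le hx1.le
    have b2 := hs_ge3 (s := 3 / 20) (by norm_num) le_rfl
    have b3 : (54 / 1000 : ℝ) ≤ hs d := by
      have : (54 / 1000 : ℝ) ≤ 121 / 50 * (3 / 20) ^ 2 := by norm_num
      linarith
    have b4 : (53 : ℝ) * (54 / 1000) ≤ ((c : ℝ) + 1 / 2 - d) * hs d :=
      mul_le_mul (by linarith) b3 (by norm_num) hn.le
    linarith

end Pool.Agent.Lib.MP_a247fa_nt.X
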