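import Pool.Agent.Lib.MP_a247fa_nt.X.HsX
import Pool.Agent.Lib.MP_a247fa_nt.X.DsA

/-! UPA (35 min, old scale).
`ζ = zc c`, `d = (11/5)/ζ`. Claim `zc (T c) * D c (pc c s d) ≥ 11/5` (`D_pc`). `c ≥ 3`, not `4`, not `8` (not a power of two).

Even `c` (`ζ' = (ζ+1)/2`), right: `ζ' D ≥ (ζ/2)((ζ/2) hs d + d/2) ≥ (ζ^2/4) hs d + 0.55`, `hs d ≥ 2.46725 d^2 (1 - 0.8225 d^2)` (`hs_ge4`), `(ζ^2/4) d^2 = 1.21`: `≥ 1.21 * 2.46725 * (1 - 0.8225 d^2) + 0.55 ≥ 3.4` (`d ≤ 2.2/13`).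
Even, left: `D = (ζ/2 - d) hs d - d/2`; `c = 6`: `ζ = 13`: `ζ' D = 7 (6.5 - d) hs d - 3.5 d`, numbers; `c ≥ 10`, `ζ ≥ 21`: `ζ' D ≥ (ζ/2)((ζ/2 - d) hs d - d/2)` (bracket `≥ 0`) `= (ζ^2/4)(1 - 2d/ζ) hs d - 0.55 ≥ 2.985 (1 - 4.4/ζ^2)(1 - 0.8225 d^2) - 0.55 ≥ 2.38`. For `ζ = 13` the same bound gives
`2.985 * 0.97396 * 0.97644 - 0.55 = 2.2887 ≥ 2.2`. So one computation for all `ζ ≥ 13`.
Odd `c ≥ 3` (`ζ' ≥ 3ζ/2`, `ζ ≥ 7`), right: `ζ' D ≥ (3ζ/2)((ζ/2) hs d - 3d/2) = 3 (ζ^2/4) hs d - (9/4) 2.2 ≥ 3 * 2.985 (1 - 0.8225 * (2.2/7)^2) - 4.95 ≥ 3.2`. Left: `D ≥ 3d/2`, `ζ' D ≥ (9/4) * 2.2`. -/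

set_option autoImplicit false

namespace Pool.Agent.Lib.MP_a247fa_nt.X

open Set MeasureTheory
open Pool.Agent.Lib.MP_a247fa_nt.W Pool.Agent.Lib.MP_a247fa_nt.V

private theorem upa_hs_nonneg (s : ℝ) : 0 ≤ hs s := by
  unfold hs
  exact sq_nonneg _

/-- the main term: `X = z^2/4 * hs d` with `z d = 11/5` -/
private theorem upa_X {z d : ℝ} (hz : 0 < z) (hd : z * d = 11 / 5) :
    29853 / 10000 * (1 - 3981 / 1000 * (1 / z ^ 2)) ≤ z ^ 2 / 4 * hs d ∨
      1 - 3981 / 1000 * (1 / z ^ 2) < 0 := by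
  by_cases hneg : 1 - 3981 / 1000 * (1 / z ^ 2) < 0
  · right; exact hneg
  · left
    push Not at hneg
    have h1 := hs_ge4 d
    have hz2 : 0 < z ^ 2 := by positivity
    have hd2 : d ^ 2 = 121 / 25 * (1 / z ^ 2) := by
      have h2 : d = 11 / 5 / z := by
        rw [eq_div_iff hz.ne']; linarith
      rw [h2]
      field_simp
      norm_num
    obtain ⟨w, hw⟩ : ∃ w : ℝ, w = 1 / z ^ 2 := ⟨_, rfl⟩
    have hwz : z ^ 2 * w = 1 := by rw [hw]; field_simp
    rw [hd2, ← hw] at h1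
    rw [← hw] at hneg ⊢
    have h3 : z ^ 2 / 4 * (246725 / 100000 * (121 / 25 * w) * (1 - 8225 / 10000 * (121 / 25 * w))) ≤
        z ^ 2 / 4 * hs d := mul_le_mul_of_nonneg_left h1 (by positivity)
    have h4 : z ^ 2 / 4 * (246725 / 100000 * (121 / 25 * w) * (1 - 8225 / 10000 * (121 / 25 * w))) =
        (z ^ 2 * w) * (246725 / 100000 * (121 / 100) * (1 - 8225 / 10000 * (121 / 25) * w)) := by
      ring
    rw [h4, hwz, one_mul] at h3
    refine le_trans ?_ h3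
    have hw0 : 0 < w := by rw [hw]; positivity
    norm_num at hneg ⊢
    nlinarith

theorem up_D {c : ℕ} (s : Bool) (h3 : 3 ≤ c) (hN : NP c) : 11 / 5 ≤ zc (T c) * D c (pc c s (11 / 5 / zc c)) := by
  have hcr : (3 : ℝ) ≤ c := by exact_mod_cast h3
  obtain ⟨z, hz⟩ : ∃ z : ℝ, z = zc c := ⟨_, rfl⟩
  have hzc : z = 2 * c + 1 := by rw [hz]; rfl
  have hz7 : 7 ≤ z := by rw [hzc]; linarith
  have hzp : 0 < z := by linarith
  obtain ⟨d, hd⟩ : ∃ d : ℝ, d = 11 / 5 / z := ⟨_, rfl⟩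
  have hzd : z * d = 11 / 5 := by rw [hd]; field_simp
  have hd0 : 0 < d := by rw [hd]; positivity
  rw [← hz, ← hd, D_pc]
  have hc2 : (c : ℝ) + 1 / 2 = z / 2 := by rw [hzc]; ring
  rw [hc2]
  have hX := upa_X hzp hzd
  have hH0 := upa_hs_nonneg d
  obtain ⟨H, hH⟩ : ∃ H : ℝ, H = hs d := ⟨_, rfl⟩
  rw [← hH] at hX hH0 ⊢
  have hw7 : 1 / z ^ 2 ≤ 1 / 49 := by
    apply one_div_le_one_div_of_le (by norm_num)
    nlinarith
  have hw0 : 0 < 1 / z ^ 2 := by positivity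
  have hwz : z ^ 2 * (1 / z ^ 2) = 1 := by field_simp
  obtain ⟨w, hw⟩ : ∃ w : ℝ, w = 1 / z ^ 2 := ⟨_, rfl⟩
  rw [← hw] at hX hw7 hw0 hwz
  have hX' : 29853 / 10000 * (1 - 3981 / 1000 * w) ≤ z ^ 2 / 4 * H := by
    rcases hX with h | h
    · exact h
    · exfalso
      linarith
  by_cases he : c % 2 = 0
  · -- even
    have hc6 : 6 ≤ c := by
      rcases Nat.lt_or_ge c 6 with h | h
      · have : c = 4 := by omega
        exfalso
        apply hN
        exact ⟨2, by rw [this]; norm_num⟩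
      · exact h
    have hz13 : 13 ≤ z := by
      have : (6 : ℝ) ≤ c := by exact_mod_cast hc6
      rw [hzc]; linarith
    have hw13 : w ≤ 1 / 169 := by
      rw [hw]
      apply one_div_le_one_div_of_le (by norm_num)
      nlinarith
    have hT : zc (T c) = (z + 1) / 2 := by
      unfold zc
      rw [T_even he, hzc]
      ring
    rw [hT, if_pos he]
    cases s with
    | true =>
      simp only [if_true]
      have h1 : 0 ≤ (z / 2 + d) * H + d / 2 := by positivity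
      have h2 : z / 2 * ((z / 2 + d) * H + d / 2) = z ^ 2 / 4 * H + (z * d) / 2 * H + (z * d) / 4 := by ring
      rw [hzd] at h2
      have h3 : z / 2 * ((z / 2 + d) * H + d / 2) ≤ (z + 1) / 2 * ((z / 2 + d) * H + d / 2) :=
        mul_le_mul_of_nonneg_right (by linarith) h1
      nlinarith
    | false =>
      simp only [Bool.false_eq_true, if_false]
      have h2 : z / 2 * ((z / 2 + -d) * H + -(d / 2)) =
          z ^ 2 / 4 * H * (1 - 22 / 5 * w) - 11 / 20 := by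
        have h4 : z / 2 * ((z / 2 + -d) * H + -(d / 2)) =
            z ^ 2 / 4 * H - (z * d) / 2 * H - (z * d) / 4 := by ring
        rw [h4, hzd]
        have h5 : z ^ 2 / 4 * H * (1 - 22 / 5 * w) = z ^ 2 / 4 * H - (z ^ 2 * w) * (11 / 10) * H := by
          ring
        rw [h5, hwz]
        ring
      have h6 : 0 ≤ 1 - 22 / 5 * w := by linarith
      have h7 : 29853 / 10000 * (1 - 3981 / 1000 * w) * (1 - 22 / 5 * w) ≤
          z ^ 2 / 4 * H * (1 - 22 / 5 * w) := mul_le_mul_of_nonneg_right hX' h6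
      have h8 : 11 / 5 ≤ z / 2 * ((z / 2 + -d) * H + -(d / 2)) := by
        rw [h2]
        nlinarith
      have h9 : 0 ≤ (z / 2 + -d) * H + -(d / 2) := by
        by_contra hneg
        push Not at hneg
        nlinarith
      have h10 : z / 2 * ((z / 2 + -d) * H + -(d / 2)) ≤ (z + 1) / 2 * ((z / 2 + -d) * H + -(d / 2)) :=
        mul_le_mul_of_nonneg_right (by linarith) h9
      linarith
  · -- odd
    have ho : c % 2 = 1 := by omega
    have hT : zc (T c) = (3 * z + 1) / 2 := by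
      unfold zc
      rw [T_odd ho, hzc]
      ring
    rw [hT, if_neg he]
    cases s with
    | true =>
      simp only [if_true]
      have h2 : 3 * z / 2 * ((z / 2 + d) * H + -(3 * d / 2)) =
          3 * (z ^ 2 / 4 * H) + 3 / 2 * (z * d) * H - 9 / 4 * (z * d) := by ring
      rw [hzd] at h2
      have h8 : 11 / 5 ≤ 3 * z / 2 * ((z / 2 + d) * H + -(3 * d / 2)) := by
        rw [h2]
        nlinarith
      have h9 : 0 ≤ (z / 2 + d) * H + -(3 * d / 2) := by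
        by_contra hneg
        push Not at hneg
        nlinarith
      have h10 : 3 * z / 2 * ((z / 2 + d) * H + -(3 * d / 2)) ≤
          (3 * z + 1) / 2 * ((z / 2 + d) * H + -(3 * d / 2)) :=
        mul_le_mul_of_nonneg_right (by linarith) h9
      linarith
    | false =>
      simp only [Bool.false_eq_true, if_false]
      have hdz : d ≤ z / 2 := by nlinarith
      have h1 : 0 ≤ (z / 2 + -d) * H := mul_nonneg (by linarith) hH0
      have h2 : 3 * d / 2 ≤ (z / 2 + -d) * H + 3 * d / 2 := by linarith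
      have h3 : (3 * z + 1) / 2 * (3 * d / 2) ≤ (3 * z + 1) / 2 * ((z / 2 + -d) * H + 3 * d / 2) :=
        mul_le_mul_of_nonneg_left h2 (by positivity)
      have h4 : (3 * z + 1) / 2 * (3 * d / 2) = 9 / 4 * (z * d) + 3 / 4 * d := by ring
      rw [hzd] at h4
      linarith

end Pool.Agent.Lib.MP_a247fa_nt.X
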