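import Pool.Agent.Lib.MP_a247fa_nt.X.FuFl
import Pool.Agent.Lib.MP_a247fa_nt.X.DsA
import Pool.Agent.Lib.MP_a247fa_nt.X.KnB
import Pool.Agent.Lib.MP_a247fa_nt.X.HsX

/-! YKA (50 min, old scale).
`D c (pc c s (kl c s/512)) ≥ Yc (T c)`.

(1) `3 ≤ c < 1024`, `c` not a power of two: kernel check. `D c (pc ..)` is `cf (X/512) - T c` (even `c`) or `T c - cf (X/512)` (odd `c`), `X = 512 c ± kl c s`. Checker in natural numbers: with `Y = if T c < 31 then 1 else 2`:
even: `(Tn c + Y) * 2^43 ≤ Fl X`; odd: `Fu X + Y * 2^43 ≤ Tn c * 2^43`. Define a Boolean function of `c` (true for powers of two, test `Nat.beq (Nat.land c (Nat.sub c 1)) 0`, `pow2_iff`), check `∀ c < 1024, 3 ≤ c → ..` by `decide +kernel` (a loop with `Nat.rec` like `chws` is the fastest; about 2000 evaluations,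
one second). Soundness by `cf_le_Fu`, `Fl_le_cf`, `Tn_eq`.
(2) `c ≥ 1024`: `kl = 15` (`kl_big`), `s = 15/512`, `Yc ≤ 2`: `D ≥ (c + 1/2 - s) hs s - 3s/2` in all four cases (`D_pc`), `hs s ≥ (121/50) s^2` (`hs_ge3`), `≥ 1024.47 * 0.0020770 - 0.0440 = 2.08`. -/

set_option autoImplicit false

namespace Pool.Agent.Lib.MP_a247fa_nt.X

open Set MeasureTheory
open Pool.Agent.Lib.MP_a247fa_nt.W Pool.Agent.Lib.MP_a247fa_nt.V

/-- the natural number version of `Yc (T c)` -/
private def ykY (c : ℕ) : ℕ := cond (Nat.blt (Tn c) 31) 1 2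

/-- the check for the vertex `(c, s)` -/
private def ykc (c : ℕ) (s : Bool) : Bool :=
  cond (Nat.beq (Nat.land c (Nat.sub c 1)) 0) true
    (cond (od c)
      (Nat.ble (Nat.add (Fu (pos c s (kl c s))) (Nat.mul (ykY c) 8796093022208))
        (Nat.mul (Tn c) 8796093022208))
      (Nat.ble (Nat.mul (Nat.add (Tn c) (ykY c)) 8796093022208) (Fl (pos c s (kl c s)))))

/-- the checks for `c, c + 1, ..., c + f - 1` -/
private def ykcs (f : ℕ) : ℕ → Bool :=
  Nat.rec (fun _ => true)
    (fun _ ih c => cond (ykc c true) (cond (ykc c false) (ih (Nat.add c 1)) false) false) f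

set_option maxRecDepth 100000 in
private theorem ykcs_true : ykcs 1021 3 = true := by
  decide +kernel

private theorem ykcs_sound (f : ℕ) : ∀ c : ℕ, ykcs f c = true → ∀ j : ℕ, j < f → ∀ s : Bool,
    ykc (c + j) s = true := by
  induction f with
  | zero =>
    intro c _ j hj
    omega
  | succ f ih =>
    intro c h j hj s
    have h1 : cond (ykc c true) (cond (ykc c false) (ykcs f (c + 1)) false) false = true := h
    have h2 : ykc c true = true := by
      rcases hb : ykc c true with _ | _
      · rw [hb] at h1; exact absurd h1 (by simp)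
      · rfl
    rw [h2, cond_true] at h1
    have h3 : ykc c false = true := by
      rcases hb : ykc c false with _ | _
      · rw [hb] at h1; exact absurd h1 (by simp)
      · rfl
    rw [h3, cond_true] at h1
    rcases Nat.eq_zero_or_pos j with hj0 | hj0
    · rw [hj0, Nat.add_zero]
      cases s with
      | true => exact h2
      | false => exact h3
    · obtain ⟨i, rfl⟩ : ∃ i, j = i + 1 := ⟨j - 1, by omega⟩
      have h4 := ih (c + 1) h1 i (by omega) s
      have h5 : c + (i + 1) = c + 1 + i := by omega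
      rw [h5]
      exact h4

private theorem yk_small {c : ℕ} (s : Bool) (h3 : 3 ≤ c) (hc : c < 1024) (hN : NP c) :
    Yc (T c) ≤ D c (pc c s ((kl c s : ℝ) / 512)) := by
  have h1 : ykc c s = true := by
    have h := ykcs_sound 1021 3 ykcs_true (c - 3) (by omega) s
    have h5 : 3 + (c - 3) = c := by omega
    rwa [h5] at h
  have h2 : Nat.beq (Nat.land c (Nat.sub c 1)) 0 = false := by
    rcases hb : Nat.beq (Nat.land c (Nat.sub c 1)) 0 with _ | _
    · rfl
    · exact absurd ((pow2_iff (by omega)).mp hb) hN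
  unfold ykc at h1
  rw [h2, cond_false] at h1
  have hY : ((ykY c : ℕ) : ℝ) = Yc (T c) := by
    unfold ykY Yc
    rw [Tn_eq]
    by_cases h : T c < 31
    · have hb : Nat.blt (T c) 31 = true := by
        rw [Nat.blt_eq]; exact h
      rw [hb, if_pos h]
      simp
    · have hb : Nat.blt (T c) 31 = false := by
        rw [Bool.eq_false_iff]
        intro h'
        rw [Nat.blt_eq] at h'
        exact h h'
      rw [hb, if_neg h]
      simp
  have hkl : kl c s ≤ 232 := (kl_le_kn c s).trans (kn_le c)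
  have hpos : ((pos c s (kl c s) : ℕ) : ℝ) / 512 = pc c s ((kl c s : ℝ) / 512) := by
    unfold pos pc
    cases s with
    | true =>
      simp only [cond_true, if_true]
      have : Nat.add (Nat.mul 512 c) (kl c true) = 512 * c + kl c true := rfl
      rw [this]
      push_cast
      ring
    | false =>
      simp only [cond_false, Bool.false_eq_true, if_false]
      have : Nat.sub (Nat.mul 512 c) (kl c false) = 512 * c - kl c false := rfl
      rw [this, Nat.cast_sub (by omega)]
      push_cast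
      ring
  rw [← hpos]
  obtain ⟨X, hX⟩ : ∃ X : ℕ, X = pos c s (kl c s) := ⟨_, rfl⟩
  rw [← hX] at h1 ⊢
  rcases Nat.mod_two_eq_zero_or_one c with he | ho
  · have hod : od c = false := (od_false_iff c).mpr he
    rw [hod, cond_false] at h1
    have h4 : (Tn c + ykY c) * 8796093022208 ≤ Fl X := Nat.le_of_ble_eq_true h1
    have h5 : ((T c : ℝ) + Yc (T c)) * 8796093022208 ≤ Fl X := by
      rw [← hY, ← Tn_eq]
      exact_mod_cast h4
    have h6 := Fl_le_cf X
    have h7 : (T c : ℝ) + Yc (T c) ≤ cf ((X : ℝ) / 512) := by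
      have h8 := h5.trans h6
      exact le_of_mul_le_mul_right h8 (by norm_num)
    unfold D
    rw [if_pos he]
    rw [T_even he] at h7
    linarith
  · have hod : od c = true := (od_iff c).mpr ho
    rw [hod, cond_true] at h1
    have h4 : Fu X + ykY c * 8796093022208 ≤ Tn c * 8796093022208 := Nat.le_of_ble_eq_true h1
    have h5 : (Fu X : ℝ) + Yc (T c) * 8796093022208 ≤ (T c : ℝ) * 8796093022208 := by
      rw [← hY, ← Tn_eq]
      exact_mod_cast h4
    have h6 := cf_le_Fu X
    have h7 : cf ((X : ℝ) / 512) + Yc (T c) ≤ T c := by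
      have h8 : (cf ((X : ℝ) / 512) + Yc (T c)) * 8796093022208 ≤ (T c : ℝ) * 8796093022208 := by
        linarith
      exact le_of_mul_le_mul_right h8 (by norm_num)
    unfold D
    rw [if_neg (by omega)]
    rw [T_odd ho] at h7
    linarith

private theorem yk_large {c : ℕ} (s : Bool) (hc : 1024 ≤ c) :
    Yc (T c) ≤ D c (pc c s ((kl c s : ℝ) / 512)) := by
  have hY : Yc (T c) ≤ 2 := by
    unfold Yc
    split_ifs <;> norm_num
  refine hY.trans ?_
  rw [(kl_big hc s).1, D_pc]
  have hcr : (1024 : ℝ) ≤ c := by exact_mod_cast hc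
  have hd : (((15 : ℕ) : ℝ) / 512) = 15 / 512 := by norm_num
  rw [hd]
  have h1 : (20770 : ℝ) / 10000000 ≤ hs (15 / 512) := by
    have h2 := hs_ge4 (15 / 512)
    norm_num at h2 ⊢
    linarith
  have h3 : (c : ℝ) + 1 / 2 - 15 / 512 ≤ (c : ℝ) + 1 / 2 + (if s = true then 15 / 512 else -(15 / 512)) := by
    split_ifs <;> linarith
  have h4 : -(3 * (15 / 512 : ℝ) / 2) ≤ (if c % 2 = 0 then (if s = true then (15 / 512 : ℝ) / 2 else -((15 / 512) / 2))
      else (if s = true then -(3 * (15 / 512) / 2) else 3 * (15 / 512) / 2)) := by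
    split_ifs <;> norm_num
  have h5 : ((c : ℝ) + 1 / 2 - 15 / 512) * (20770 / 10000000) ≤
      ((c : ℝ) + 1 / 2 + (if s = true then 15 / 512 else -(15 / 512))) * hs (15 / 512) :=
    mul_le_mul h3 h1 (by norm_num) (by linarith)
  have h6 : (1024 + 1 / 2 - 15 / 512 : ℝ) * (20770 / 10000000) ≤
      ((c : ℝ) + 1 / 2 - 15 / 512) * (20770 / 10000000) :=
    mul_le_mul_of_nonneg_right (by linarith) (by norm_num)
  norm_num at h4 h6
  norm_num
  norm_num at h5
  linarith

theorem yk_D {c : ℕ} (s : Bool) (h3 : 3 ≤ c) (hN : NP c) : Yc (T c) ≤ D c (pc c s ((kl c s : ℝ) / 512)) := by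
  rcases Nat.lt_or_ge c 1024 with h | h
  · exact yk_small s h3 h hN
  · exact yk_large s h

end Pool.Agent.Lib.MP_a247fa_nt.X
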