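import Pool.Agent.Lib.MP_a247fa_nt.X.GPer
import Pool.Agent.Lib.MP_a247fa_nt.X.GPel
import Pool.Agent.Lib.MP_a247fa_nt.X.GPor
import Pool.Agent.Lib.MP_a247fa_nt.X.GPol
import Pool.Agent.Lib.MP_a247fa_nt.X.UPa
import Pool.Agent.Lib.MP_a247fa_nt.X.YKa
import Pool.Agent.Lib.MP_a247fa_nt.X.PsiA
import Pool.Agent.Lib.MP_a247fa_nt.X.TZon

/-! PUSH (60 min, old scale).
From `HG` at `c` (range `Y ≥ kl c s/512`) to `HG` at the child for the transported measure.

`gp`: `x, y` with `act c s x`, `act c s y`, `ds x ≤ ds y ≤ kl/512`: apply `gp_er`, .. with `d = ds c s x`, `e = ds c s y` (`pc_ds`); `z0`: even `c`: `act` gives `dd c s ≤ ds`, i.e. `28/25` resp. `153/100 ≤ zc c * ds`; odd right: `free_zone`; odd left: `0 ≤ ds`. Even `c ≥ 3` not a power of two: `c ≥ 6` (`np_even_ge`).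
`yk`: `act c s x` and `D c x ≤ Yc (T c)` imply `ds c s x ≤ kl/512 =: k`: otherwise `pc c s k` is in the unit (`0 < k < 1`), nearer, `D_lt`: `Yc ≤ D c (pc c s k) < D c x`. Contradiction.
`push`: let `0 ≤ u ≤ v ≤ Yc (T c)`, `u * zc (T c) ≤ 11/5`. `(ptr ν c s) (seg (T c) (ch c) u v) = ν (S)`, `S = {x | act c s x ∧ u ≤ D c x ≤ v}` (`ptr`, `Measure.map_apply` (`cf` measurable, `seg` closed), `Measure.restrict_apply`; `cf x ∈ seg (T c) (ch c) u v` iff `u ≤ ds (T c) (ch c) (cf x) ≤ v`, `ds_child`).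
If `S = ∅`: `0 ≤ Γ ..`. Otherwise let `x0 = sInf`, `y0 = sSup` of the set of distances `ds c s '' S` (bounded: in `(0, kl/512]` by `yk`). For all `x, y ∈ S` with `ds x ≤ ds y`: `gp` and `D c y - D c x ≤ v - u` give, with `Z = zc c * (ds y - ds x)`, `b Z + a Z^2 ≤ zc (T c) (v - u)`, so `Z ≤ psi c (zc (T c)(v-u))` (`le_psi`).
Hence `zc c * (y0 - x0) ≤ psi c (zc (T c)(v-u))`. `S ⊆ seg c s x0 y0`, `0 ≤ x0 ≤ y0 ≤ kl/512 ≤ Y`. `x0 * zc c ≤ 11/5`: let `r = (11/5)/zc c` (`< 1`), `w = pc c s r`, and suppose `r < x0`; take `x ∈ S` and `x' = pc c s ((r + x0)/2)`. `D c w ≥ (11/5)/zc (T c) ≥ u ≥ 0` (`up_D`), `D c w > 0`. `D_between` (`w, x', x`): `x'` free, `D c x' > D c w ≥ u`; `D c x' < D c x ≤ v` (`D_lt`),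
`ds x' > r ≥ dd c s`, so `x' ∈ S`, contradicting `ds x' < x0`.
The measure: `ν S ≤ ν (seg c s x0 y0) ≤ Γ (zc c (y0 - x0)) ≤ Γ (psi ..)` (`HG` at `c`, `GM`; `(ν ..).toReal` monotone as `ν` is finite). -/

set_option autoImplicit false

namespace Pool.Agent.Lib.MP_a247fa_nt.X

open Set MeasureTheory
open Pool.Agent.Lib.MP_a247fa_nt.W Pool.Agent.Lib.MP_a247fa_nt.V

private theorem Push_zc (c : ℕ) : 0 < zc c := by unfold zc; positivity

private theorem Push_seg {c : ℕ} {s : Bool} {u v x : ℝ} : x ∈ seg c s u v ↔ u ≤ ds c s x ∧ ds c s x ≤ v := by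
  unfold seg ds
  cases s
  · simp only [Bool.false_eq_true, if_false, mem_Icc]
    constructor
    · rintro ⟨h1, h2⟩; constructor <;> linarith
    · rintro ⟨h1, h2⟩; constructor <;> linarith
  · simp only [if_true, mem_Icc]
    constructor
    · rintro ⟨h1, h2⟩; constructor <;> linarith
    · rintro ⟨h1, h2⟩; constructor <;> linarith

theorem gp {c : ℕ} {s : Bool} {x y : ℝ} (h3 : 3 ≤ c) (hN : NP c) (hx : act c s x) (hy : act c s y)
    (hxy : ds c s x ≤ ds c s y) (hk : ds c s y ≤ (kl c s : ℝ) / 512) :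
    gb c * (zc c * (ds c s y - ds c s x)) + ga c * (zc c * (ds c s y - ds c s x)) ^ 2 ≤ zc (T c) * (D c y - D c x) := by
  have hz := Push_zc c
  have key : gb c * (zc c * (ds c s y - ds c s x)) + ga c * (zc c * (ds c s y - ds c s x)) ^ 2 ≤
      zc (T c) * (D c (pc c s (ds c s y)) - D c (pc c s (ds c s x))) := by
    rcases (by omega : c % 2 = 0 ∨ c % 2 = 1) with he | ho
    · have h6 := np_even_ge he h3 hN
      have hod : ¬ od c = true := by rw [od_iff]; omega
      have hdd := hx.2.2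
      unfold dd at hdd
      rw [if_neg hod] at hdd
      cases s
      · simp only [Bool.false_eq_true, if_false] at hdd
        rw [div_le_iff₀ hz] at hdd
        exact gp_el he h6 (by rw [mul_comm]; exact hdd) hxy hk
      · simp only [if_true] at hdd
        rw [div_le_iff₀ hz] at hdd
        exact gp_er he h6 (by rw [mul_comm]; exact hdd) hxy hk
    · cases s
      · exact gp_ol ho h3 hx.1.1.le hxy hk
      · exact gp_or ho h3 (free_zone ho h3 hx.1 hx.2.1).le hxy hk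
  rw [pc_ds, pc_ds] at key
  exact key

theorem yk {c : ℕ} {s : Bool} {x : ℝ} (h3 : 3 ≤ c) (hN : NP c) (hx : act c s x) (hD : D c x ≤ Yc (T c)) :
    ds c s x ≤ (kl c s : ℝ) / 512 := by
  by_contra hcon
  rw [not_le] at hcon
  have hkp : (0 : ℝ) < (kl c s : ℝ) / 512 := by
    have : (15 : ℝ) ≤ kl c s := by exact_mod_cast kl_pos c s
    positivity
  have hw : adj c s (pc c s ((kl c s : ℝ) / 512)) := by
    unfold adj
    rw [ds_pc]
    exact ⟨hkp, hcon.trans hx.1.2⟩
  have h := D_lt (c := c) (s := s) (Or.inl (by omega)) (by omega) hw hx.1 hx.2.1 (by rw [ds_pc]; exact hcon)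
  have h2 := yk_D s h3 hN
  linarith

theorem push {ν : Measure ℝ} [IsFiniteMeasure ν] {c : ℕ} {s : Bool} {Γ : ℝ → ℝ} {Y : ℝ} (h3 : 3 ≤ c) (hN : NP c)
    (hG : HG ν c s Y Γ) (hY : (kl c s : ℝ) / 512 ≤ Y) (hM : GM Γ) :
    HG (ptr ν c s) (T c) (ch c) (Yc (T c)) (fun Z => Γ (psi c Z)) := by
  intro u v hu huv hv hz
  have hzc := Push_zc c
  have hzT := Push_zc (T c)
  obtain ⟨S, hS⟩ : ∃ S : Set ℝ, S = {x | act c s x ∧ u ≤ D c x ∧ D c x ≤ v} := ⟨_, rfl⟩
  have hZ0 : 0 ≤ zc (T c) * (v - u) := mul_nonneg hzT.le (by linarith)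
  have hP0 := psi_nonneg (c := c) hZ0
  have hmeas : (ptr ν c s) (seg (T c) (ch c) u v) = ν S := by
    have hms : MeasurableSet (seg (T c) (ch c) u v) := by
      unfold seg
      split_ifs
      · exact measurableSet_Icc
      · exact measurableSet_Icc
    unfold ptr
    rw [Measure.map_apply continuous_cf.measurable hms,
      Measure.restrict_apply (continuous_cf.measurable hms)]
    congr 1
    rw [hS]
    ext x
    simp only [mem_inter_iff, mem_preimage, mem_ofPred_eq]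
    rw [Push_seg, ds_child]
    tauto
  rw [hmeas]
  show (ν S).toReal ≤ Γ (psi c (zc (T c) * (v - u)))
  rcases S.eq_empty_or_nonempty with h0 | ⟨p, hp⟩
  · rw [h0, measure_empty, ENNReal.toReal_zero]
    exact (hM _ _ hP0 le_rfl).1
  have hmem : ∀ x, x ∈ S ↔ act c s x ∧ u ≤ D c x ∧ D c x ≤ v := by
    intro x
    rw [hS]
    rfl
  have hkb : ∀ x ∈ S, 0 ≤ ds c s x ∧ ds c s x ≤ (kl c s : ℝ) / 512 := by
    intro x hx
    obtain ⟨h1, h2, h4⟩ := (hmem x).1 hx
    exact ⟨h1.1.1.le, yk h3 hN h1 (h4.trans hv)⟩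
  have hne : (ds c s '' S).Nonempty := ⟨_, p, hp, rfl⟩
  have hbb : BddBelow (ds c s '' S) := by
    refine ⟨0, ?_⟩
    rintro _ ⟨x, hx, rfl⟩
    exact (hkb x hx).1
  have hba : BddAbove (ds c s '' S) := by
    refine ⟨(kl c s : ℝ) / 512, ?_⟩
    rintro _ ⟨x, hx, rfl⟩
    exact (hkb x hx).2
  obtain ⟨x0, hx0⟩ : ∃ x0, x0 = sInf (ds c s '' S) := ⟨_, rfl⟩
  obtain ⟨y0, hy0⟩ : ∃ y0, y0 = sSup (ds c s '' S) := ⟨_, rfl⟩
  have hx0le : ∀ x ∈ S, x0 ≤ ds c s x := by
    intro x hx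
    rw [hx0]
    exact csInf_le hbb ⟨x, hx, rfl⟩
  have hy0ge : ∀ x ∈ S, ds c s x ≤ y0 := by
    intro x hx
    rw [hy0]
    exact le_csSup hba ⟨x, hx, rfl⟩
  have hx00 : 0 ≤ x0 := by
    rw [hx0]
    refine le_csInf hne ?_
    rintro _ ⟨x, hx, rfl⟩
    exact (hkb x hx).1
  have hxy0 : x0 ≤ y0 := (hx0le p hp).trans (hy0ge p hp)
  have hy0k : y0 ≤ (kl c s : ℝ) / 512 := by
    rw [hy0]
    refine csSup_le hne ?_
    rintro _ ⟨x, hx, rfl⟩
    exact (hkb x hx).2
  have hpair : ∀ x ∈ S, ∀ y ∈ S, zc c * (ds c s y - ds c s x) ≤ psi c (zc (T c) * (v - u)) := by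
    intro x hx y hy
    rcases le_total (ds c s x) (ds c s y) with h | h
    · have h1 := gp h3 hN ((hmem x).1 hx).1 ((hmem y).1 hy).1 h (hkb y hy).2
      refine le_psi (mul_nonneg hzc.le (by linarith)) (h1.trans ?_)
      refine mul_le_mul_of_nonneg_left ?_ hzT.le
      have h2 := ((hmem x).1 hx).2.1
      have h4 := ((hmem y).1 hy).2.2
      linarith
    · have : zc c * (ds c s y - ds c s x) ≤ 0 := mul_nonpos_of_nonneg_of_nonpos hzc.le (by linarith)
      linarith
  have hlen : zc c * (y0 - x0) ≤ psi c (zc (T c) * (v - u)) := by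
    have h1 : ∀ x ∈ S, y0 ≤ ds c s x + psi c (zc (T c) * (v - u)) / zc c := by
      intro x hx
      rw [hy0]
      refine csSup_le hne ?_
      rintro _ ⟨y, hy, rfl⟩
      have h2 := hpair x hx y hy
      have h4 : ds c s y - ds c s x ≤ psi c (zc (T c) * (v - u)) / zc c := by
        rw [le_div_iff₀ hzc]
        linarith
      linarith
    have h2 : y0 - psi c (zc (T c) * (v - u)) / zc c ≤ x0 := by
      rw [hx0]
      refine le_csInf hne ?_
      rintro _ ⟨x, hx, rfl⟩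
      have := h1 x hx
      linarith
    have h4 : y0 - x0 ≤ psi c (zc (T c) * (v - u)) / zc c := by linarith
    rw [le_div_iff₀ hzc] at h4
    linarith
  have hx0z : x0 * zc c ≤ 11 / 5 := by
    by_contra hcon
    rw [not_le] at hcon
    have hr : 11 / 5 / zc c < x0 := by
      rw [div_lt_iff₀ hzc]
      exact hcon
    have hr0 : 0 < 11 / 5 / zc c := by positivity
    obtain ⟨h1, h2, h4⟩ := (hmem p).1 hp
    have hpx := hx0le p hp
    have hp1 : ds c s p < 1 := h1.1.2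
    have hw : adj c s (pc c s (11 / 5 / zc c)) := by
      unfold adj
      rw [ds_pc]
      exact ⟨hr0, by linarith⟩
    have hx' : adj c s (pc c s ((11 / 5 / zc c + x0) / 2)) := by
      unfold adj
      rw [ds_pc]
      constructor <;> linarith
    have hup := up_D s h3 hN
    have hDw : 0 < D c (pc c s (11 / 5 / zc c)) := by
      by_contra hneg
      rw [not_lt] at hneg
      have := mul_nonpos_of_nonneg_of_nonpos hzT.le hneg
      linarith
    have hDu : u ≤ D c (pc c s (11 / 5 / zc c)) := by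
      have h5 : u * zc (T c) ≤ D c (pc c s (11 / 5 / zc c)) * zc (T c) := by linarith
      exact le_of_mul_le_mul_right h5 hzT
    have hbt := D_between (c := c) (s := s) (Or.inl (by omega)) (by omega) hw hx' h1.1 h1.2.1
      (by rw [ds_pc, ds_pc]; linarith) (by rw [ds_pc]; linarith) hDw
    have hlt := D_lt (c := c) (s := s) (Or.inl (by omega)) (by omega) hx' h1.1 h1.2.1
      (by rw [ds_pc]; linarith)
    have hdd : dd c s ≤ ds c s (pc c s ((11 / 5 / zc c + x0) / 2)) := by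
      rw [ds_pc]
      have h5 : dd c s ≤ 11 / 5 / zc c := by
        unfold dd
        split_ifs
        · exact hr0.le
        · exact div_le_div_of_nonneg_right (by norm_num) hzc.le
        · exact div_le_div_of_nonneg_right (by norm_num) hzc.le
      linarith
    have hmemx' : pc c s ((11 / 5 / zc c + x0) / 2) ∈ S := by
      rw [hmem]
      exact ⟨⟨hx', hbt.1, hdd⟩, by linarith [hbt.2], by linarith⟩
    have := hx0le _ hmemx'
    rw [ds_pc] at this
    linarith
  have hsub : S ⊆ seg c s x0 y0 := by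
    intro x hx
    rw [Push_seg]
    exact ⟨hx0le x hx, hy0ge x hx⟩
  have h1 : (ν S).toReal ≤ (ν (seg c s x0 y0)).toReal :=
    ENNReal.toReal_mono (measure_ne_top _ _) (measure_mono hsub)
  have h2 := hG x0 y0 hx00 hxy0 (hy0k.trans hY) hx0z
  have h4 := (hM (zc c * (y0 - x0)) _ (mul_nonneg hzc.le (by linarith)) hlen).2
  linarith

end Pool.Agent.Lib.MP_a247fa_nt.X
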