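import Pool.Agent.Lib.MP_a247fa_nt.X.KRi
import Pool.Agent.Lib.MP_a247fa_nt.X.PtrI
import Pool.Agent.Lib.MP_a247fa_nt.X.Push

/-! GAM (30 min, old scale).
`∫ th n c s dν ≤ NN n c s Γ` if `HG ν c s (Yc c) Γ`, `GM Γ`, `c ≥ 2`.

Induction on `n`, for all `c, s, ν, Γ`. `n = 0`: `0 ≤ 0`. Step: `∫ th (n+1) c s = ∫ kR c s + ∫ [adj, Fre] th n (T c) (ch c) (cf x)` (`integral_add`, bounded measurable on a finite measure: `bm_int`-type lemmas). First term: `kR_int`.
Second term: if `c` is a power of two: `0` (`ptr_zero`), and `NN (n) (T c) .. ≥ 0` (`nn_nonneg`, `gm_psi`). Otherwise `c ≥ 3`: `ptr_int`, `push` with `Y = Yc c` (`kl/512 ≤ 232/512 ≤ 1 ≤ Yc c`), the induction hypothesis for `T c ≥ 2` (`T_ge_two`) and `ptr ν c s`. -/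

set_option autoImplicit false

namespace Pool.Agent.Lib.MP_a247fa_nt.X

open Set MeasureTheory
open Pool.Agent.Lib.MP_a247fa_nt.W Pool.Agent.Lib.MP_a247fa_nt.V

theorem gam : ∀ (n c : ℕ) (s : Bool) (ν : Measure ℝ) [IsFiniteMeasure ν] (Γ : ℝ → ℝ), 2 ≤ c → HG ν c s (Yc c) Γ → GM Γ →
    ∫ x, th n c s x ∂ν ≤ NN n c s Γ := by
  classical
  intro n
  induction n with
  | zero =>
    intro c s ν _ Γ _ _ _
    simp [th, NN]
  | succ n ih =>
    intro c s ν _ Γ h2 hG hM
    have e : th (n + 1) c s = fun x => kR c s x +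
        (if adj c s x ∧ Fre x then th n (T c) (ch c) (cf x) else 0) := by
      ext x
      simp only [th]
    have e2 : NN (n + 1) c s Γ = KK c s Γ + NN n (T c) (ch c) (fun Z => Γ (psi c Z)) := by
      simp only [NN]
    have i1 : Integrable (kR c s) ν := by
      have := bm_int (ν := ν) (bm_kR c s) univ
      rwa [integrableOn_univ] at this
    have i2 : Integrable (fun x => if adj c s x ∧ Fre x then th n (T c) (ch c) (cf x) else 0) ν := by
      have := bm_int (ν := ν) (bm_ite n c s) univ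
      rwa [integrableOn_univ] at this
    rw [e, e2, integral_add i1 i2]
    refine add_le_add (kR_int hG hM) ?_
    by_cases hN : NP c
    · have h3 : 3 ≤ c := by
        rcases Nat.lt_or_ge c 3 with h | h
        · exfalso
          have : c = 2 := by omega
          exact hN ⟨1, by rw [this]; norm_num⟩
        · exact h
      rw [ptr_int h3 hN]
      refine ih (T c) (ch c) (ptr ν c s) _ (T_ge_two h3) (push h3 hN hG ?_ hM) (gm_psi c hM)
      have h4 : (kl c s : ℝ) ≤ 512 := by
        have : kl c s ≤ 512 := (kl_le_kn c s).trans ((kn_le c).trans (by norm_num))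
        exact_mod_cast this
      have h5 : (1 : ℝ) ≤ Yc c := by
        unfold Yc
        split_ifs <;> norm_num
      rw [div_le_iff₀ (by norm_num)]
      linarith
    · rw [ptr_zero h2 hN]
      exact nn_nonneg _ _ _ (gm_psi c hM)

end Pool.Agent.Lib.MP_a247fa_nt.X
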