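import Pool.Agent.Lib.MP_a247fa_nt.X.WrGe
import Pool.Agent.Lib.MP_a247fa_nt.V.CrCent

/-! HGC (35 min, old scale).
`HG` for a CR measure at an interior integer. `ζ = zc c`, `k = kn c/512`, `K0 = ζ (2 - k) - 11/5 > 0` (`wr_ge`).

Let `0 ≤ u < v ≤ k`, `u ζ ≤ 11/5` (`u = v`: no atoms, measure `0`). `t = (u+v)/2`, `r = (v-u)/2`. Right side: the interval `[c+u, c+v]` is centred at `c + t`; `cr_cent` with centre `c + t`, `x = r`, `L = 1 - t` (`r ≤ L`: `v ≤ 1`): `mu (c+u) (c+v) ≤ (r/(1-t)) mu (c + 2t - 1) (c+1) ≤ ((v-u)/(2 - u - v)) mu (c-1) (c+1)`.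
`2 - u - v ≥ 2 - (11/5)/ζ - k = K0/ζ`, so `≤ ζ (v-u) * mu (c-1) (c+1)/K0`. Left side: mirror, centre `c - t`. For radius `2`: `L = 2 - t`: `(v-u)/(4 - u - v) ≤ (1/2)(v-u)/(2 - u - v)`.
`(ν (Icc ..)).toReal = mu ..` because `ν` has no atoms. -/

set_option autoImplicit false

namespace Pool.Agent.Lib.MP_a247fa_nt.X

open Set MeasureTheory
open Pool.Agent.Lib.MP_a247fa_nt.W Pool.Agent.Lib.MP_a247fa_nt.V

private theorem hgc_right {ν : Measure ℝ} {a b c R u v : ℝ} (hν : CR ν a b) (hR : 1 ≤ R) (ha : a ≤ c - R)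
    (hb : c + R ≤ b) (hu : 0 ≤ u) (huv : u < v) (hv : v < 1) :
    mu ν (c + u) (c + v) ≤ (v - u) / (2 - u - v) * (mu ν (c - R) (c + R) / R) := by
  have fin := hν.fin
  have h1 := cr_cent (c := c + (u + v) / 2) (x := (v - u) / 2) (L := R - (u + v) / 2) hν (by linarith) (by linarith)
    (by linarith) (by linarith)
  have e1 : c + (u + v) / 2 - (v - u) / 2 = c + u := by ring
  have e2 : c + (u + v) / 2 + (v - u) / 2 = c + v := by ring
  have e3 : c + (u + v) / 2 - (R - (u + v) / 2) = c - R + (u + v) := by ring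
  have e4 : c + (u + v) / 2 + (R - (u + v) / 2) = c + R := by ring
  rw [e1, e2, e3, e4] at h1
  refine h1.trans ?_
  have hM0 : 0 ≤ mu ν (c - R) (c + R) := mu_nonneg _ _ _
  have h2 : mu ν (c - R + (u + v)) (c + R) ≤ mu ν (c - R) (c + R) := mu_mono (by linarith) le_rfl
  have h3 : (v - u) / 2 / (R - (u + v) / 2) ≤ (v - u) / (2 - u - v) / R := by
    rw [div_div, div_div, div_le_div_iff₀ (by nlinarith) (by nlinarith)]
    have : (2 - u - v) * R ≤ 2 * (R - (u + v) / 2) := by nlinarith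
    nlinarith [mul_le_mul_of_nonneg_left this (by linarith : 0 ≤ v - u)]
  have h4 : 0 ≤ (v - u) / (2 - u - v) / R := by
    apply div_nonneg (div_nonneg (by linarith) (by linarith)) (by linarith)
  calc (v - u) / 2 / (R - (u + v) / 2) * mu ν (c - R + (u + v)) (c + R)
      ≤ (v - u) / (2 - u - v) / R * mu ν (c - R) (c + R) := by
        apply mul_le_mul h3 h2 (mu_nonneg _ _ _) h4
    _ = (v - u) / (2 - u - v) * (mu ν (c - R) (c + R) / R) := by ring

private theorem hgc_left {ν : Measure ℝ} {a b c R u v : ℝ} (hν : CR ν a b) (hR : 1 ≤ R) (ha : a ≤ c - R)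
    (hb : c + R ≤ b) (hu : 0 ≤ u) (huv : u < v) (hv : v < 1) :
    mu ν (c - v) (c - u) ≤ (v - u) / (2 - u - v) * (mu ν (c - R) (c + R) / R) := by
  have fin := hν.fin
  have h1 := cr_cent (c := c - (u + v) / 2) (x := (v - u) / 2) (L := R - (u + v) / 2) hν (by linarith) (by linarith)
    (by linarith) (by linarith)
  have e1 : c - (u + v) / 2 - (v - u) / 2 = c - v := by ring
  have e2 : c - (u + v) / 2 + (v - u) / 2 = c - u := by ring
  have e3 : c - (u + v) / 2 - (R - (u + v) / 2) = c - R := by ring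
  have e4 : c - (u + v) / 2 + (R - (u + v) / 2) = c + R - (u + v) := by ring
  rw [e1, e2, e3, e4] at h1
  refine h1.trans ?_
  have hM0 : 0 ≤ mu ν (c - R) (c + R) := mu_nonneg _ _ _
  have h2 : mu ν (c - R) (c + R - (u + v)) ≤ mu ν (c - R) (c + R) := mu_mono le_rfl (by linarith)
  have h3 : (v - u) / 2 / (R - (u + v) / 2) ≤ (v - u) / (2 - u - v) / R := by
    rw [div_div, div_div, div_le_div_iff₀ (by nlinarith) (by nlinarith)]
    have : (2 - u - v) * R ≤ 2 * (R - (u + v) / 2) := by nlinarith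
    nlinarith [mul_le_mul_of_nonneg_left this (by linarith : 0 ≤ v - u)]
  have h4 : 0 ≤ (v - u) / (2 - u - v) / R := by
    apply div_nonneg (div_nonneg (by linarith) (by linarith)) (by linarith)
  calc (v - u) / 2 / (R - (u + v) / 2) * mu ν (c - R) (c + R - (u + v))
      ≤ (v - u) / (2 - u - v) / R * mu ν (c - R) (c + R) := by
        apply mul_le_mul h3 h2 (mu_nonneg _ _ _) h4
    _ = (v - u) / (2 - u - v) * (mu ν (c - R) (c + R) / R) := by ring

private theorem hgc_gen {ν : Measure ℝ} {a b R : ℝ} {c : ℕ} (s : Bool) (hν : CR ν a b) (h3 : 3 ≤ c) (hR : 1 ≤ R)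
    (ha : a ≤ (c : ℝ) - R) (hb : (c : ℝ) + R ≤ b) :
    HG ν c s ((kn c : ℝ) / 512)
      (fun Z => mu ν ((c : ℝ) - R) (c + R) / R / (zc c * (2 - (kn c : ℝ) / 512) - 11 / 5) * Z) := by
  have fin := hν.fin
  have noat := hν.noat
  intro u v hu huv hv hz
  have hK := (wr_ge h3).1
  set K := zc c * (2 - (kn c : ℝ) / 512) - 11 / 5 with hKd
  have hζ : 0 < zc c := by unfold zc; positivity
  have hkn : (kn c : ℝ) / 512 ≤ 232 / 512 := by
    have : (kn c : ℝ) ≤ 232 := by exact_mod_cast kn_le c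
    linarith
  have hM0 : 0 ≤ mu ν ((c : ℝ) - R) (c + R) := mu_nonneg _ _ _
  have hMR : 0 ≤ mu ν ((c : ℝ) - R) (c + R) / R := div_nonneg hM0 (by linarith)
  rcases huv.eq_or_lt with he | hlt
  · have h0 : ν (seg c s u v) = 0 := by
      unfold seg
      rw [he]
      cases s
      · simp
      · simp
    rw [h0, he]
    simp
  · have hv1 : v < 1 := by linarith
    have key : (ν (seg c s u v)).toReal ≤ (v - u) / (2 - u - v) * (mu ν ((c : ℝ) - R) (c + R) / R) := by
      cases s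
      · have e : seg c false u v = Icc ((c : ℝ) - v) (c - u) := by
          unfold seg
          rw [if_neg (by decide)]
        rw [e, measure_congr (Ioo_ae_eq_Icc (μ := ν) (a := (c : ℝ) - v) (b := (c : ℝ) - u)).symm]
        exact hgc_left hν hR ha hb hu hlt hv1
      · have e : seg c true u v = Icc ((c : ℝ) + u) (c + v) := by
          unfold seg
          rw [if_pos rfl]
        rw [e, measure_congr (Ioo_ae_eq_Icc (μ := ν) (a := (c : ℝ) + u) (b := (c : ℝ) + v)).symm]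
        exact hgc_right hν hR ha hb hu hlt hv1
    refine key.trans ?_
    have h5 : (v - u) / (2 - u - v) ≤ zc c * (v - u) / K := by
      rw [div_le_div_iff₀ (by linarith) hK]
      have h6 : K ≤ zc c * (2 - u - v) := by
        rw [hKd]
        have := mul_le_mul_of_nonneg_left hv hζ.le
        nlinarith
      nlinarith [mul_le_mul_of_nonneg_left h6 (by linarith : 0 ≤ v - u)]
    calc (v - u) / (2 - u - v) * (mu ν ((c : ℝ) - R) (c + R) / R)
        ≤ zc c * (v - u) / K * (mu ν ((c : ℝ) - R) (c + R) / R) := mul_le_mul_of_nonneg_right h5 hMR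
      _ = mu ν ((c : ℝ) - R) (c + R) / R / K * (zc c * (v - u)) := by ring

theorem hg_one {ν : Measure ℝ} {a b : ℝ} {c : ℕ} (s : Bool) (hν : CR ν a b) (h3 : 3 ≤ c) (ha : a ≤ (c : ℝ) - 1) (hb : (c : ℝ) + 1 ≤ b) :
    HG ν c s ((kn c : ℝ) / 512)
      (fun Z => mu ν ((c : ℝ) - 1) (c + 1) / (zc c * (2 - (kn c : ℝ) / 512) - 11 / 5) * Z) := by
  have h := hgc_gen s hν h3 (le_refl (1 : ℝ)) ha hb
  simpa only [div_one] using h

theorem hg_two {ν : Measure ℝ} {a b : ℝ} {c : ℕ} (s : Bool) (hν : CR ν a b) (h3 : 3 ≤ c) (ha : a ≤ (c : ℝ) - 2) (hb : (c : ℝ) + 2 ≤ b) :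
    HG ν c s ((kn c : ℝ) / 512)
      (fun Z => mu ν ((c : ℝ) - 2) (c + 2) / 2 / (zc c * (2 - (kn c : ℝ) / 512) - 11 / 5) * Z) :=
  hgc_gen s hν h3 (by norm_num : (1 : ℝ) ≤ 2) ha hb

end Pool.Agent.Lib.MP_a247fa_nt.X
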