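import Pool.Agent.Lib.MP_a247fa_nt.X.VcnS

/-! NJS (45 min, old scale).
`nj J path c` bounds `NN n (T c) (ch c) (Γ ∘ psi c)`.

Hypotheses: `PB path Γ`, `GM Γ`, and `Γ Z ≤ (p20 path / pb path) Z` for `Z ≥ 0` (`p20 path / pb path = ∏ 20/bn = ∏ 1/gb` over the path). `c ≥ 3`, not a power of two. `IH`: `NN n' (T c') (ch c') (psi c') ≤ Vr c'` for all `n' < N`, `c' ≥ 3` not powers of two; and `n < N + J`.. precisely: `n < N + J`, so that after `J` steps `n - J < N`.
Induction on `J` for all `n, path, c, Γ`.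
`J = 0`: `NN n (T c) (ch c) (Γ ∘ psi c) ≤ (p20/pb) NN n (T c) (ch c) (psi c)` (`nn_mono`, `nn_smul`, `psi_nonneg`) `≤ (p20/pb) Vr c`, times `2^52`: `= (p20 Vn c/pb) 2^20 ≤ (⌊.⌋ + 1) 2^20`.
`J + 1`: `n = 0`: `NN 0 = 0`. `n + 1`: `NN (n+1) (T c) (ch c) Γ' = KK (T c) (ch c) Γ' + NN n (T (T c)) (ch (T c)) (Γ' ∘ psi (T c))`, `Γ' = Γ ∘ psi c`. First term `≤ vcn (c :: path) (Tn c) (ch c)` (`kk_le_vcn`, `pb_psi`, `Tn_eq`, `ch` unfolds to `cond (od c) false true`).
Second: if `T c` is a power of two (test by `pow2_iff`, `T c ≥ 2`): `0` (`nn_child_pow`), the checker adds `0`. Otherwise `T c ≥ 3` (`T_ge_three`), induction hypothesis for `J`, `n`, `c :: path`, `T c`, `Γ'`: `Γ' Z ≤ (p20/pb) psi c Z ≤ (p20/pb) Z/gb c` (`psi_le_div`), `gb c = bn c/20`.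
`tt_small`: `cht c = true`, `c ≥ 3` not a power of two: `nj 5 [] c ≤ Vn c * 2^20`, i.e. `NN n .. * 2^52 ≤ Vr c 2^52`, with `Γ = id`, `J = 5`, `n < N + 5` for `N = n` or `n+1`.. (for `n` arbitrary take `N = n` and the hypothesis `∀ n' < n`). -/

set_option autoImplicit false

namespace Pool.Agent.Lib.MP_a247fa_nt.X

open Set MeasureTheory
open Pool.Agent.Lib.MP_a247fa_nt.W Pool.Agent.Lib.MP_a247fa_nt.V

private lemma bn_pos (c : ℕ) : 0 < bn c := by
  unfold bn
  cases Nat.blt c 8 <;> cases Nat.blt c 16 <;> cases od c <;> simp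

private lemma pb_pos (path : List ℕ) : 0 < pb path := by
  induction path with
  | nil => exact Nat.one_pos
  | cons c l ih => exact Nat.mul_pos (bn_pos c) ih

theorem nj_sound {N : ℕ} (IH : ∀ n' < N, ∀ c', 3 ≤ c' → NP c' → NN n' (T c') (ch c') (psi c') ≤ Vr c') :
    ∀ (J n : ℕ) (path : List ℕ) (c : ℕ) (Γ : ℝ → ℝ), n < N + J → 3 ≤ c → NP c → PB path Γ → GM Γ →
      (∀ Z, 0 ≤ Z → Γ Z ≤ (p20 path : ℝ) / pb path * Z) →
      NN n (T c) (ch c) (fun Z => Γ (psi c Z)) * 4503599627370496 ≤ nj J path c := by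
  intro J
  induction J with
  | zero =>
    intro n path c Γ hn h3 hNP hPB hGM hΓ
    have hpb : (0 : ℝ) < pb path := by exact_mod_cast pb_pos path
    have h1 : NN n (T c) (ch c) (fun Z => Γ (psi c Z)) ≤
        (p20 path : ℝ) / pb path * NN n (T c) (ch c) (psi c) := by
      have e1 := nn_smul n (T c) (ch c) ((p20 path : ℝ) / pb path) (psi c)
      rw [← e1]
      exact nn_mono _ _ _ (fun Z hZ => hΓ _ (psi_nonneg hZ))
    have h2 := IH n (by omega) c h3 hNP
    have h4 : nj 0 path c = (Vn c * p20 path / pb path + 1) * 1048576 := by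
      unfold nj
      exact Nat.shiftLeft_eq _ 20
    have h5 : Vn c * p20 path ≤ (Vn c * p20 path / pb path + 1) * pb path := by
      have := Nat.lt_div_mul_add (a := Vn c * p20 path) (pb_pos path)
      rw [add_mul, one_mul]
      exact this.le
    have h6 : (Vn c : ℝ) * p20 path / pb path ≤ ((Vn c * p20 path / pb path + 1 : ℕ) : ℝ) := by
      rw [div_le_iff₀ hpb]
      exact_mod_cast h5
    rw [h4]
    have h7 : (p20 path : ℝ) / pb path * NN n (T c) (ch c) (psi c) ≤
        (p20 path : ℝ) / pb path * Vr c := by gcongr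
    have h8 : (p20 path : ℝ) / pb path * Vr c * 4503599627370496 =
        ((Vn c : ℝ) * p20 path / pb path) * 1048576 := by
      unfold Vr
      ring
    have h9 : (((Vn c * p20 path / pb path + 1) * 1048576 : ℕ) : ℝ) =
        ((Vn c * p20 path / pb path + 1 : ℕ) : ℝ) * 1048576 := by
      rw [Nat.cast_mul]
      norm_num
    rw [h9]
    linarith
  | succ J ih =>
    intro n path c Γ hn h3 hNP hPB hGM hΓ
    have hnj : nj (J + 1) path c = vcn (c :: path) (T c) (ch c) +
        cond (Nat.beq (Nat.land (T c) (Nat.sub (T c) 1)) 0) 0 (nj J (c :: path) (T c)) := by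
      rw [← Tn_eq]
      rfl
    rw [hnj]
    have hT2 := T_ge_two h3
    cases n with
    | zero =>
      have : NN 0 (T c) (ch c) (fun Z => Γ (psi c Z)) = 0 := rfl
      rw [this, zero_mul]
      positivity
    | succ n =>
      have hNN : NN (n + 1) (T c) (ch c) (fun Z => Γ (psi c Z)) =
          KK (T c) (ch c) (fun Z => Γ (psi c Z)) +
            NN n (T (T c)) (ch (T c)) (fun Z => (fun W => Γ (psi c W)) (psi (T c) Z)) := rfl
      rw [hNN]
      have k1 := kk_le_vcn (c := T c) (s := ch c) (pb_psi hPB hGM c) (gm_psi c hGM)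
      push_cast
      by_cases hp : NP (T c)
      · have hb : Nat.beq (Nat.land (T c) (Nat.sub (T c) 1)) 0 = false := by
          rw [← Bool.not_eq_true, pow2_iff (by omega)]
          exact hp
        rw [hb, cond_false]
        have hbn : (0 : ℝ) < bn c := by exact_mod_cast bn_pos c
        have hpb : (0 : ℝ) < pb path := by exact_mod_cast pb_pos path
        have k2 := ih n (c :: path) (T c) (fun W => Γ (psi c W)) (by omega) (T_ge_three h3 hp) hp
          (pb_psi hPB hGM c) (gm_psi c hGM) (by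
            intro Z hZ
            have e1 := hΓ (psi c Z) (psi_nonneg hZ)
            have e2 := psi_le_div (c := c) hZ
            have e3 : (p20 (c :: path) : ℝ) / pb (c :: path) * Z =
                (p20 path : ℝ) / pb path * (Z / gb c) := by
              have f1 : p20 (c :: path) = 20 * p20 path := rfl
              have f2 : pb (c :: path) = bn c * pb path := rfl
              rw [f1, f2]
              unfold gb
              push_cast
              field_simp
            rw [e3]
            refine e1.trans ?_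
            gcongr)
        linarith
      · have hb : Nat.beq (Nat.land (T c) (Nat.sub (T c) 1)) 0 = true := by
          rw [pow2_iff (by omega)]
          unfold NP at hp
          push Not at hp
          exact hp
        rw [hb, cond_true]
        have k2 := nn_child_pow (n := n) hT2 hp (fun Z => (fun W => Γ (psi c W)) (psi (T c) Z))
        rw [k2]
        push_cast
        linarith

theorem tt_small {n c : ℕ} (IH : ∀ n' < n, ∀ c', 3 ≤ c' → NP c' → NN n' (T c') (ch c') (psi c') ≤ Vr c') (h3 : 3 ≤ c)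
    (hN : NP c) (hc : cht c = true) : NN n (T c) (ch c) (psi c) ≤ Vr c := by
  have hb : Nat.beq (Nat.land c (Nat.sub c 1)) 0 = false := by
    rw [← Bool.not_eq_true, pow2_iff (by omega)]
    exact hN
  unfold cht at hc
  rw [hb, cond_false, Nat.ble_eq] at hc
  have e1 : Nat.shiftLeft (Vn c) 20 = Vn c * 1048576 := Nat.shiftLeft_eq _ 20
  rw [e1] at hc
  have hid : GM (fun Z => Z) := fun x y hx hxy => ⟨hx, hxy⟩
  have h1 := nj_sound IH 5 n [] c (fun Z => Z) (by omega) h3 hN pb_id hid (by
    intro Z _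
    have f1 : p20 [] = 1 := rfl
    have f2 : pb [] = 1 := rfl
    rw [f1, f2]
    simp)
  have h2 : (nj 5 [] c : ℝ) ≤ (Vn c : ℝ) * 1048576 := by exact_mod_cast hc
  have h3' : NN n (T c) (ch c) (psi c) * 4503599627370496 ≤ (Vn c : ℝ) * 1048576 := h1.trans h2
  unfold Vr
  rw [le_div_iff₀ (by norm_num)]
  linarith

end Pool.Agent.Lib.MP_a247fa_nt.X
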