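import Pool.Agent.Lib.MP_a247fa_nt.X.LDefs

/-! TK4 (15 min, old scale).
Kernel check of the conditions on `V c` for `c = 1536, .., 2047` (about 10 seconds). Proof: `by decide +kernel`. If it takes more than two minutes tell helper46. -/

set_option autoImplicit false

namespace Pool.Agent.Lib.MP_a247fa_nt.X

set_option maxRecDepth 100000 in
theorem tk4 : chts 512 1536 = true := by
  decide +kernel

end Pool.Agent.Lib.MP_a247fa_nt.X
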