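import Pool.Agent.Lib.MP_a247fa_nt.X.TTl
import Pool.Agent.Lib.MP_a247fa_nt.X.NjS
import Pool.Agent.Lib.MP_a247fa_nt.X.TK1
import Pool.Agent.Lib.MP_a247fa_nt.X.TK2
import Pool.Agent.Lib.MP_a247fa_nt.X.TK3
import Pool.Agent.Lib.MP_a247fa_nt.X.TK4

/-! TT (20 min, old scale).
`NN n (T c) (ch c) (psi c) ≤ Vr c` for all `n`, `c ≥ 2`: strong induction on `n`. Powers of two (`c = 2, 4, ..`): `0 ≤ Vr c` (`nn_child_pow`). `3 ≤ c < 2048`: `chts_spec` (`chts f m = true` implies `cht (m + i) = true` for `i < f`, induction) with `tk1, .., tk4`, `tt_small`. `c ≥ 2048`: `tt_large`. -/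

set_option autoImplicit false

namespace Pool.Agent.Lib.MP_a247fa_nt.X

open Set MeasureTheory
open Pool.Agent.Lib.MP_a247fa_nt.W Pool.Agent.Lib.MP_a247fa_nt.V

private theorem TT_spec : ∀ (f m : ℕ), chts f m = true → ∀ i, i < f → cht (m + i) = true := by
  intro f
  induction f with
  | zero =>
    intro m _ i hi
    omega
  | succ f ih =>
    intro m h i hi
    have h' : cond (cht m) (chts f (Nat.add m 1)) false = true := h
    cases hc : cht m with
    | false =>
      rw [hc] at h'
      exact absurd h' (by simp)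
    | true =>
      rw [hc] at h'
      rcases i with _ | i
      · exact hc
      · have := ih (m + 1) h' i (by omega)
        rw [show m + (i + 1) = m + 1 + i by omega]
        exact this

private theorem TT_all {c : ℕ} (h3 : 3 ≤ c) (h : c < 2048) : cht c = true := by
  rcases Nat.lt_or_ge c 512 with h1 | h1
  · have := TT_spec 509 3 tk1 (c - 3) (by omega)
    rwa [show 3 + (c - 3) = c by omega] at this
  rcases Nat.lt_or_ge c 1024 with h2 | h2
  · have := TT_spec 512 512 tk2 (c - 512) (by omega)
    rwa [show 512 + (c - 512) = c by omega] at this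
  rcases Nat.lt_or_ge c 1536 with h4 | h4
  · have := TT_spec 512 1024 tk3 (c - 1024) (by omega)
    rwa [show 1024 + (c - 1024) = c by omega] at this
  · have := TT_spec 512 1536 tk4 (c - 1536) (by omega)
    rwa [show 1536 + (c - 1536) = c by omega] at this

theorem tt (n : ℕ) {c : ℕ} (h2 : 2 ≤ c) : NN n (T c) (ch c) (psi c) ≤ Vr c := by
  induction n using Nat.strong_induction_on generalizing c with
  | _ n ih =>
    by_cases hN : NP c
    · have h3 : 3 ≤ c := by
        rcases Nat.lt_or_ge c 3 with h | h
        · exfalso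
          exact hN ⟨1, by omega⟩
        · exact h
      have IH : ∀ n' < n, ∀ c', 3 ≤ c' → NP c' → NN n' (T c') (ch c') (psi c') ≤ Vr c' :=
        fun n' hn' c' hc' _ => ih n' hn' (by omega)
      rcases Nat.lt_or_ge c 2048 with h | h
      · exact tt_small IH h3 hN (TT_all h3 h)
      · exact tt_large IH h hN
    · rw [nn_child_pow h2 hN]
      exact vr_nonneg c

end Pool.Agent.Lib.MP_a247fa_nt.X
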