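import Pool.Agent.Lib.MP_a247fa_nt.X.HGc
import Pool.Agent.Lib.MP_a247fa_nt.X.Gam
import Pool.Agent.Lib.MP_a247fa_nt.X.TT

/-! INTX (40 min, old scale).
Cost of a vertex under a linear bound. `lin_cost`: if `HG ν c s (kn c/512) (fun Z => K * Z)`, `K ≥ 0`, `c ≥ 3`, then `∫ tau n c s dν ≤ K ((if s = false then fw c else 0) + Vr c)`.

`tau = fold part + [adj, Fre] th n (T c) (ch c) (cf x)`. Fold part (only `s = false`, `En c`, then `c ≥ 54`): the set `{Fld x, adj c false x}` is inside `seg c false 0 (0.407/zc c)` (`fold_width`), `0.407/zc c ≤ kn c/512` (`kn ≥ 15`, `zc ≥ 109`), measure `≤ K * 0.407 = K fw c`.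
Second part: `c` a power of two: `0` (`ptr_zero`). Otherwise `ptr_int`, `push` (`Y = kn c/512 ≥ kl c s/512`), `gam` for `T c ≥ 2`, then `NN n (T c) (ch c) (fun Z => K * psi c Z) = K NN n (T c) (ch c) (psi c) ≤ K Vr c` (`nn_smul`, `tt`).
`tau_supp`: `tau n c true` vanishes outside `(c, c+1)`, so `itg ν (tau n c true) c (c+1) = ∫ tau dν` (`setIntegral_eq_integral_of_forall_compl_eq_zero`), same for `false` (`(c-1, c)`).
`int_one`: `K = mu (c-1)(c+1)/K0` (`hg_one`), sum of both sides: `RL ≤ K (fw c + 2 Vr c) ≤ Wr c mu` (`wr_ge`). `c = 2`: both `tau` are `0` (`En 2 = false`, `th_one`), `Wr 2 = 0`. `int_two`: same with `hg_two`. -/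

set_option autoImplicit false

namespace Pool.Agent.Lib.MP_a247fa_nt.X

open Set MeasureTheory
open Pool.Agent.Lib.MP_a247fa_nt.W Pool.Agent.Lib.MP_a247fa_nt.V

private theorem IntX_zc (c : ℕ) : 0 < zc c := by unfold zc; positivity

private theorem IntX_int {ν : Measure ℝ} [IsFiniteMeasure ν] {F : ℝ → ℝ} (hF : BM F) : Integrable F ν := by
  have h := bm_int (ν := ν) hF univ
  rwa [integrableOn_univ] at h

private theorem IntX_fw (c : ℕ) : 0 ≤ fw c := by
  unfold fw
  split_ifs <;> norm_num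

open Classical in
private theorem IntX_fold {ν : Measure ℝ} [IsFiniteMeasure ν] {c : ℕ} {s : Bool} {K : ℝ} (hK : 0 ≤ K)
    (hG : HG ν c s ((kn c : ℝ) / 512) (fun Z => K * Z)) :
    BM (fun x => if s = false ∧ En c = true ∧ Fld x ∧ adj c false x then (1 : ℝ) else 0) ∧
    ∫ x, (if s = false ∧ En c = true ∧ Fld x ∧ adj c false x then (1 : ℝ) else 0) ∂ν ≤
      K * (if s = true then 0 else fw c) := by
  by_cases h : s = false ∧ En c = true
  · obtain ⟨h1, h2⟩ := h
    obtain ⟨h54, he⟩ := En_ge h2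
    have hM : MeasurableSet {x : ℝ | Fld x ∧ adj c false x} := meas_fld.inter (meas_adj c false)
    have e : (fun x => if s = false ∧ En c = true ∧ Fld x ∧ adj c false x then (1 : ℝ) else 0) =
        {x : ℝ | Fld x ∧ adj c false x}.indicator (fun _ => (1 : ℝ)) := by
      ext x
      by_cases hx : Fld x ∧ adj c false x
      · rw [indicator_of_mem (show x ∈ {x : ℝ | Fld x ∧ adj c false x} from hx), if_pos ⟨h1, h2, hx⟩]
      · rw [indicator_of_notMem (show x ∉ {x : ℝ | Fld x ∧ adj c false x} from hx),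
          if_neg (fun h => hx h.2.2)]
    rw [e]
    refine ⟨⟨measurable_const.indicator hM, 1, fun x => ?_⟩, ?_⟩
    · by_cases hx : x ∈ {x : ℝ | Fld x ∧ adj c false x}
      · rw [indicator_of_mem hx]; norm_num
      · rw [indicator_of_notMem hx]; norm_num
    · rw [integral_indicator hM, setIntegral_const, smul_eq_mul, mul_one, h1]
      have hz := IntX_zc c
      have hz109 : 109 ≤ zc c := by
        unfold zc
        have : (54 : ℝ) ≤ c := by exact_mod_cast h54
        linarith
      have hkn : (15 : ℝ) ≤ kn c := by exact_mod_cast (kl_pos c false).trans (kl_le_kn c false)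
      have hv : 407 / 1000 / zc c ≤ (kn c : ℝ) / 512 := by
        rw [div_le_iff₀ hz]
        have : 15 / 512 * 109 ≤ (kn c : ℝ) / 512 * zc c := by
          refine mul_le_mul (by linarith) hz109 (by norm_num) (by positivity)
        linarith
      have hg := hG 0 (407 / 1000 / zc c) le_rfl (by positivity) hv (by rw [zero_mul]; norm_num)
      have e2 : K * (zc c * (407 / 1000 / zc c - 0)) = K * (407 / 1000) := by
        rw [sub_zero, mul_div_cancel₀ _ hz.ne']
      have hsub : {x : ℝ | Fld x ∧ adj c false x} ⊆ seg c s 0 (407 / 1000 / zc c) := by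
        rintro x ⟨hF, ha⟩
        have h3 := fold_width he h54 ha hF
        have h4 : ds c false x ≤ 407 / 1000 / zc c := by
          rw [le_div_iff₀ hz, mul_comm]
          exact h3
        have h5 := ha.1
        rw [h1]
        unfold seg
        unfold ds at h4 h5
        simp only [Bool.false_eq_true, if_false] at h4 h5 ⊢
        exact ⟨by linarith, by linarith⟩
      have h6 : ν.real {x : ℝ | Fld x ∧ adj c false x} ≤ (ν (seg c s 0 (407 / 1000 / zc c))).toReal :=
        ENNReal.toReal_mono (measure_ne_top _ _) (measure_mono hsub)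
      have h7 : fw c = 407 / 1000 := by unfold fw; rw [if_pos h2]
      simp only [Bool.false_eq_true, if_false]
      rw [h7]
      linarith
  · have e : (fun x => if s = false ∧ En c = true ∧ Fld x ∧ adj c false x then (1 : ℝ) else 0) =
        fun _ => (0 : ℝ) := by
      ext x
      rw [if_neg (fun h' => h ⟨h'.1, h'.2.1⟩)]
    rw [e]
    refine ⟨bm_const 0, ?_⟩
    rw [integral_zero]
    refine mul_nonneg hK ?_
    split_ifs
    · exact le_rfl
    · exact IntX_fw c

theorem lin_cost {ν : Measure ℝ} [IsFiniteMeasure ν] {n c : ℕ} {s : Bool} {K : ℝ} (h3 : 3 ≤ c) (hK : 0 ≤ K)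
    (hG : HG ν c s ((kn c : ℝ) / 512) (fun Z => K * Z)) :
    ∫ x, tau n c s x ∂ν ≤ K * ((if s = true then 0 else fw c) + Vr c) := by
  classical
  obtain ⟨b1, h1⟩ := IntX_fold (s := s) hK hG
  have b2 := bm_ite n c s
  have h2 : ∫ x, (if adj c s x ∧ Fre x then th n (T c) (ch c) (cf x) else 0) ∂ν ≤ K * Vr c := by
    by_cases hN : NP c
    · rw [ptr_int h3 hN]
      have hM : GM (fun Z => K * Z) := by
        intro x y hx hxy
        exact ⟨mul_nonneg hK hx, mul_le_mul_of_nonneg_left hxy hK⟩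
      have hp := push h3 hN hG
        (div_le_div_of_nonneg_right (by exact_mod_cast kl_le_kn c s) (by norm_num)) hM
      have hg := gam n (T c) (ch c) (ptr ν c s) _ (T_ge_two h3) hp (gm_psi c hM)
      refine hg.trans ?_
      have e := nn_smul n (T c) (ch c) K (psi c)
      show NN n (T c) (ch c) (fun Z => K * psi c Z) ≤ K * Vr c
      rw [e]
      exact mul_le_mul_of_nonneg_left (tt n (by omega)) hK
    · rw [ptr_zero (by omega) hN]
      exact mul_nonneg hK (vr_nonneg c)
  have e : ∫ x, tau n c s x ∂ν =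
      ∫ x, (if s = false ∧ En c = true ∧ Fld x ∧ adj c false x then (1 : ℝ) else 0) ∂ν +
      ∫ x, (if adj c s x ∧ Fre x then th n (T c) (ch c) (cf x) else 0) ∂ν := by
    rw [← integral_add (IntX_int b1) (IntX_int b2)]
    rfl
  rw [e, mul_add]
  exact add_le_add h1 h2

theorem tau_two (n : ℕ) (s : Bool) (x : ℝ) : tau n 2 s x = 0 := by
  have hT : T 2 = 1 := by unfold T; norm_num
  unfold tau
  rw [hT, (th_one n (ch 2) (cf x)).1, ite_self, if_neg, add_zero]
  rintro ⟨-, h, -⟩
  have := (En_ge h).1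
  omega

theorem itg_tau_true (ν : Measure ℝ) (n c : ℕ) : itg ν (tau n c true) c (c + 1) = ∫ x, tau n c true x ∂ν := by
  unfold itg
  refine setIntegral_eq_integral_of_forall_compl_eq_zero ?_
  intro x hx
  unfold tau
  rw [if_neg (by rintro ⟨h, -⟩; exact absurd h (by decide)), if_neg, add_zero]
  rintro ⟨h, -⟩
  apply hx
  unfold adj ds at h
  simp only [if_true] at h
  exact ⟨by linarith [h.1], by linarith [h.2]⟩

theorem itg_tau_false (ν : Measure ℝ) (n c : ℕ) : itg ν (tau n c false) ((c : ℝ) - 1) c = ∫ x, tau n c false x ∂ν := by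
  unfold itg
  refine setIntegral_eq_integral_of_forall_compl_eq_zero ?_
  intro x hx
  have ha : ¬ adj c false x := by
    intro h
    apply hx
    unfold adj ds at h
    simp only [Bool.false_eq_true, if_false] at h
    exact ⟨by linarith [h.2], by linarith [h.1]⟩
  unfold tau
  rw [if_neg (fun h => ha h.2.2.2), if_neg (fun h => ha h.1), add_zero]

private theorem IntX_alg {m K W : ℝ} (h : K ≠ 0) : m / K * (W * K) = W * m := by
  field_simp

private theorem IntX_two (ν : Measure ℝ) (n : ℕ) : RL ν n 2 = 0 := by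
  unfold RL
  have h : ∀ s, tau n 2 s = fun _ => 0 := fun s => funext fun x => tau_two n s x
  rw [h, h]
  simp [itg]

theorem int_one {ν : Measure ℝ} {a b : ℝ} {n c : ℕ} (hν : CR ν a b) (h2 : 2 ≤ c) (ha : a ≤ (c : ℝ) - 1) (hb : (c : ℝ) + 1 ≤ b) :
    RL ν n c ≤ Wr c * mu ν ((c : ℝ) - 1) (c + 1) := by
  have fin := hν.fin
  have hm := mu_nonneg ν ((c : ℝ) - 1) (c + 1)
  rcases h2.eq_or_lt with h | h3
  · subst h
    rw [IntX_two]
    exact mul_nonneg (wr_nonneg 2) hm
  · obtain ⟨w1, w2⟩ := wr_ge (c := c) (by omega)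
    have hK : 0 ≤ mu ν ((c : ℝ) - 1) (c + 1) / (zc c * (2 - (kn c : ℝ) / 512) - 11 / 5) :=
      div_nonneg hm w1.le
    have l1 := lin_cost (n := n) (by omega) hK (hg_one true hν (by omega) ha hb)
    have l2 := lin_cost (n := n) (by omega) hK (hg_one false hν (by omega) ha hb)
    simp only [if_true, Bool.false_eq_true, if_false] at l1 l2
    unfold RL
    rw [itg_tau_true, itg_tau_false]
    have h4 := mul_le_mul_of_nonneg_left w2 hK
    have h5 : mu ν ((c : ℝ) - 1) (c + 1) / (zc c * (2 - (kn c : ℝ) / 512) - 11 / 5) *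
        (Wr c * (zc c * (2 - (kn c : ℝ) / 512) - 11 / 5)) = Wr c * mu ν ((c : ℝ) - 1) (c + 1) :=
      IntX_alg w1.ne'
    rw [h5] at h4
    linarith

theorem int_two {ν : Measure ℝ} {a b : ℝ} {n c : ℕ} (hν : CR ν a b) (h2 : 2 ≤ c) (ha : a ≤ (c : ℝ) - 2) (hb : (c : ℝ) + 2 ≤ b) :
    RL ν n c ≤ Wr c / 2 * mu ν ((c : ℝ) - 2) (c + 2) := by
  have fin := hν.fin
  have hm := mu_nonneg ν ((c : ℝ) - 2) (c + 2)
  rcases h2.eq_or_lt with h | h3
  · subst h
    rw [IntX_two]
    exact mul_nonneg (by linarith [wr_nonneg 2]) hm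
  · obtain ⟨w1, w2⟩ := wr_ge (c := c) (by omega)
    have hK : 0 ≤ mu ν ((c : ℝ) - 2) (c + 2) / 2 / (zc c * (2 - (kn c : ℝ) / 512) - 11 / 5) :=
      div_nonneg (by linarith) w1.le
    have l1 := lin_cost (n := n) (by omega) hK (hg_two true hν (by omega) ha hb)
    have l2 := lin_cost (n := n) (by omega) hK (hg_two false hν (by omega) ha hb)
    simp only [if_true, Bool.false_eq_true, if_false] at l1 l2
    unfold RL
    rw [itg_tau_true, itg_tau_false]
    have h4 := mul_le_mul_of_nonneg_left w2 hK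
    have h5 : mu ν ((c : ℝ) - 2) (c + 2) / 2 / (zc c * (2 - (kn c : ℝ) / 512) - 11 / 5) *
        (Wr c * (zc c * (2 - (kn c : ℝ) / 512) - 11 / 5)) = Wr c / 2 * mu ν ((c : ℝ) - 2) (c + 2) := by
      rw [IntX_alg w1.ne']
      ring
    rw [h5] at h4
    linarith

end Pool.Agent.Lib.MP_a247fa_nt.X
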