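import Pool.Agent.Lib.MP_a247fa_nt.X.NNm
import Pool.Agent.Lib.MP_a247fa_nt.X.ThB
import Pool.Agent.Lib.MP_a247fa_nt.X.TZon

/-! KRI (35 min, old scale).
`∫ kR c s dν ≤ KK c s Γ` if `HG ν c s (Yc c) Γ`, `GM Γ`.

Odd `c < 3`: both `0`. Odd `c ≥ 3`: pointwise `kR c s x ≤ ∑_{i=1}^{4} (h_i - h_{i+1}) 1[0 < ds < D_i] + h_5 1[0 < ds < 2]`, `D = 102/512, 204/512, 308/512, 1` (case distinction, `hr_anti`). Integrate (`integral_indicator`, constants): the set `{0 < ds c s < r}` is inside `seg c s 0 r`, so its measure is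
`≤ Γ (zc c (r - 0))` by `HG` with `u = 0`, `v = r ≤ Yc c` (`1 ≤ Yc c`); for `r = 2`: if `c < 31` then `h_5 = 0` (`hr5_zero`), else `Yc c = 2`. Even `c`: `kR ≤ 1[Fld x, adj c false x]`, only if `s = false`, `En c` (`c ≥ 54`, `En_ge`): the set is inside `seg c false 0 (0.407/zc c)` (`fold_width`), `0.407/zc c ≤ 1`. -/

set_option autoImplicit false

namespace Pool.Agent.Lib.MP_a247fa_nt.X

open Set MeasureTheory
open Pool.Agent.Lib.MP_a247fa_nt.W Pool.Agent.Lib.MP_a247fa_nt.V

private theorem KRi_ds (c : ℕ) (s : Bool) : Measurable (ds c s) := by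
  unfold ds
  cases s
  · simp only [Bool.false_eq_true, if_false]
    exact measurable_const.sub measurable_id
  · simp only [if_true]
    exact measurable_id.sub measurable_const

private theorem KRi_one {ν : Measure ℝ} [IsFiniteMeasure ν] {S : Set ℝ} (hS : MeasurableSet S)
    [DecidablePred (· ∈ S)] : ∫ x, (if x ∈ S then (1 : ℝ) else 0) ∂ν = (ν S).toReal := by
  have : (fun x => if x ∈ S then (1 : ℝ) else 0) = S.indicator 1 := by
    ext x
    by_cases hx : x ∈ S
    · simp [hx]
    · simp [hx]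
  rw [this, integral_indicator_one hS]
  rfl

private theorem KRi_bm {S : Set ℝ} (hS : MeasurableSet S) [DecidablePred (· ∈ S)] :
    BM (fun x => if x ∈ S then (1 : ℝ) else 0) := by
  refine ⟨Measurable.ite hS measurable_const measurable_const, 1, fun x => ?_⟩
  show |if x ∈ S then (1 : ℝ) else 0| ≤ 1
  split_ifs <;> simp

private theorem KRi_seg {c : ℕ} {s : Bool} {x r : ℝ} (h0 : 0 ≤ ds c s x) (h1 : ds c s x ≤ r) :
    x ∈ seg c s 0 r := by
  unfold ds at h0 h1
  unfold seg
  cases s
  · simp only [Bool.false_eq_true, if_false] at h0 h1 ⊢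
    constructor <;> linarith
  · simp only [if_true] at h0 h1 ⊢
    constructor <;> linarith

private theorem KRi_meas {ν : Measure ℝ} [IsFiniteMeasure ν] {c : ℕ} {s : Bool} {Γ : ℝ → ℝ} {Y : ℝ}
    (hG : HG ν c s Y Γ) {r : ℝ} (hr : 0 ≤ r) (hY : r ≤ Y) {S : Set ℝ}
    (hS : ∀ x ∈ S, 0 ≤ ds c s x ∧ ds c s x ≤ r) : (ν S).toReal ≤ Γ (zc c * r) := by
  have h1 := hG 0 r le_rfl hr hY (by norm_num)
  rw [sub_zero] at h1
  refine le_trans (ENNReal.toReal_mono (measure_ne_top _ _) (measure_mono ?_)) h1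
  intro x hx
  exact KRi_seg (hS x hx).1 (hS x hx).2

theorem kR_int {ν : Measure ℝ} [IsFiniteMeasure ν] {c : ℕ} {s : Bool} {Γ : ℝ → ℝ} (hG : HG ν c s (Yc c) Γ) (hM : GM Γ) :
    ∫ x, kR c s x ∂ν ≤ KK c s Γ := by
  classical
  have hds := KRi_ds c s
  have hY1 : (1 : ℝ) ≤ Yc c := by
    unfold Yc
    split_ifs <;> norm_num
  have hz : 0 < zc c := by
    unfold zc
    positivity
  by_cases ho : od c = true
  · by_cases h3 : c < 3
    · have e : kR c s = fun _ => 0 := by
        ext x
        unfold kR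
        rw [if_pos ho, if_pos h3]
      have e2 : KK c s Γ = 0 := by
        unfold KK
        rw [if_pos ho, if_pos h3]
      rw [e, e2, integral_zero]
    · have e2 : KK c s Γ = (hr 1 c s - hr 2 c s) * Γ (zc c * (102 / 512)) +
          (hr 2 c s - hr 3 c s) * Γ (zc c * (204 / 512)) +
          (hr 3 c s - hr 4 c s) * Γ (zc c * (308 / 512)) + (hr 4 c s - hr 5 c s) * Γ (zc c) +
          hr 5 c s * Γ (2 * zc c) := by
        unfold KK
        rw [if_pos ho, if_neg h3]
      obtain ⟨a1, a2, a3, a4, a5⟩ := hr_anti c s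
      have hS : ∀ r : ℝ, MeasurableSet {x : ℝ | 0 < ds c s x ∧ ds c s x < r} := fun r =>
        (measurableSet_lt measurable_const hds).inter (measurableSet_lt hds measurable_const)
      have hbm : ∀ r : ℝ, BM (fun x => if x ∈ {x : ℝ | 0 < ds c s x ∧ ds c s x < r} then (1 : ℝ)
        else 0) := fun r => KRi_bm (hS r)
      have hle : ∀ r : ℝ, 0 ≤ r → r ≤ Yc c →
          ∫ x, (if x ∈ {x : ℝ | 0 < ds c s x ∧ ds c s x < r} then (1 : ℝ) else 0) ∂ν ≤
            Γ (zc c * r) := by
        intro r hr hrY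
        rw [KRi_one (hS r)]
        exact KRi_meas hG hr hrY (fun x hx => ⟨hx.1.le, hx.2.le⟩)
      set G : ℝ → ℝ → ℝ := fun r x => if x ∈ {x : ℝ | 0 < ds c s x ∧ ds c s x < r} then (1 : ℝ)
        else 0 with hGdef
      have hbm' : ∀ r : ℝ, BM (G r) := hbm
      have hle' : ∀ r : ℝ, 0 ≤ r → r ≤ Yc c → ∫ x, G r x ∂ν ≤ Γ (zc c * r) := hle
      have hsum : BM (fun x => (((hr 1 c s - hr 2 c s) * G (102 / 512) x +
          (hr 2 c s - hr 3 c s) * G (204 / 512) x) + (hr 3 c s - hr 4 c s) * G (308 / 512) x) +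
          (hr 4 c s - hr 5 c s) * G 1 x) :=
        bm_add (bm_add (bm_add (bm_cmul _ (hbm' _)) (bm_cmul _ (hbm' _))) (bm_cmul _ (hbm' _)))
          (bm_cmul _ (hbm' _))
      have hint : ∀ {F : ℝ → ℝ}, BM F → Integrable F ν := by
        intro F hF
        have := bm_int (ν := ν) hF univ
        rwa [integrableOn_univ] at this
      have hpt : ∀ x, kR c s x ≤ ((((hr 1 c s - hr 2 c s) * G (102 / 512) x +
          (hr 2 c s - hr 3 c s) * G (204 / 512) x) + (hr 3 c s - hr 4 c s) * G (308 / 512) x) +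
          (hr 4 c s - hr 5 c s) * G 1 x) + hr 5 c s * G 2 x := by
        intro x
        have hG1 : ∀ r : ℝ, 0 < ds c s x → ds c s x < r → G r x = 1 := by
          intro r h1 h2
          rw [hGdef]
          exact if_pos ⟨h1, h2⟩
        have hG0 : ∀ r : ℝ, 0 ≤ G r x := by
          intro r
          rw [hGdef]
          show (0 : ℝ) ≤ (if x ∈ {x : ℝ | 0 < ds c s x ∧ ds c s x < r} then (1 : ℝ) else 0)
          split_ifs <;> norm_num
        have p1 := mul_nonneg (sub_nonneg.mpr a1) (hG0 (102 / 512))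
        have p2 := mul_nonneg (sub_nonneg.mpr a2) (hG0 (204 / 512))
        have p3 := mul_nonneg (sub_nonneg.mpr a3) (hG0 (308 / 512))
        have p4 := mul_nonneg (sub_nonneg.mpr a4) (hG0 1)
        have p5 := mul_nonneg a5 (hG0 2)
        unfold kR
        rw [if_pos ho, if_neg h3]
        by_cases hc : 0 < ds c s x ∧ ds c s x < 2 ∧ (ds c s x < 1 → Fre x)
        · rw [if_pos hc]
          obtain ⟨q1, q2, -⟩ := hc
          rw [hG1 2 q1 q2] at p5 ⊢
          split_ifs with t1 t2 t3 t4
          · rw [hG1 _ q1 t1, hG1 _ q1 (by linarith), hG1 _ q1 (by linarith), hG1 1 q1 (by linarith)]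
            linarith
          · rw [hG1 _ q1 t2, hG1 (308 / 512) q1 (by linarith), hG1 1 q1 (by linarith)]
            linarith
          · rw [hG1 _ q1 t3, hG1 1 q1 (by linarith)]
            linarith
          · rw [hG1 _ q1 t4]
            linarith
          · linarith
        · rw [if_neg hc]
          linarith
      have h1 := integral_mono (hint (bm_kR c s)) ((hint hsum).add (hint (bm_cmul (hr 5 c s) (hbm' 2)))) hpt
      refine h1.trans ?_
      have e3 : ∫ x, ((((hr 1 c s - hr 2 c s) * G (102 / 512) x +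
          (hr 2 c s - hr 3 c s) * G (204 / 512) x) + (hr 3 c s - hr 4 c s) * G (308 / 512) x) +
          (hr 4 c s - hr 5 c s) * G 1 x) + hr 5 c s * G 2 x ∂ν =
          (hr 1 c s - hr 2 c s) * ∫ x, G (102 / 512) x ∂ν +
          (hr 2 c s - hr 3 c s) * ∫ x, G (204 / 512) x ∂ν +
          (hr 3 c s - hr 4 c s) * ∫ x, G (308 / 512) x ∂ν +
          (hr 4 c s - hr 5 c s) * ∫ x, G 1 x ∂ν + hr 5 c s * ∫ x, G 2 x ∂ν := by
        rw [integral_add (hint hsum) (hint (bm_cmul _ (hbm' 2))),
          integral_add (hint (bm_add (bm_add (bm_cmul _ (hbm' _)) (bm_cmul _ (hbm' _)))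
            (bm_cmul _ (hbm' _)))) (hint (bm_cmul _ (hbm' _))),
          integral_add (hint (bm_add (bm_cmul _ (hbm' _)) (bm_cmul _ (hbm' _))))
            (hint (bm_cmul _ (hbm' _))),
          integral_add (hint (bm_cmul _ (hbm' _))) (hint (bm_cmul _ (hbm' _)))]
        simp only [integral_const_mul]
      refine (le_of_eq e3).trans ?_
      rw [e2]
      have b1 := mul_le_mul_of_nonneg_left (hle' (102 / 512) (by norm_num) (by linarith)) (sub_nonneg.mpr a1)
      have b2 := mul_le_mul_of_nonneg_left (hle' (204 / 512) (by norm_num) (by linarith)) (sub_nonneg.mpr a2)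
      have b3 := mul_le_mul_of_nonneg_left (hle' (308 / 512) (by norm_num) (by linarith)) (sub_nonneg.mpr a3)
      have b4 := mul_le_mul_of_nonneg_left (hle' 1 (by norm_num) hY1) (sub_nonneg.mpr a4)
      rw [mul_one] at b4
      have b5 : hr 5 c s * ∫ x, G 2 x ∂ν ≤ hr 5 c s * Γ (2 * zc c) := by
        by_cases h31 : c < 31
        · rw [hr5_zero h31, zero_mul, zero_mul]
        · have hY2 : Yc c = 2 := by
            unfold Yc
            rw [if_neg h31]
          have := mul_le_mul_of_nonneg_left (hle' 2 (by norm_num) (by rw [hY2])) a5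
          rwa [mul_comm (zc c) 2] at this
      linarith
  · by_cases hs : s = false ∧ En c = true
    · have e2 : KK c s Γ = Γ (407 / 1000) := by
        unfold KK
        rw [if_neg ho, if_pos hs]
      obtain ⟨rfl, hE⟩ := hs
      have hS : MeasurableSet {x : ℝ | Fld x ∧ adj c false x} := meas_fld.inter (meas_adj c false)
      have e : kR c false = fun x => if x ∈ {x : ℝ | Fld x ∧ adj c false x} then (1 : ℝ) else 0 := by
        ext x
        unfold kR
        rw [if_neg ho]
        by_cases hx : Fld x ∧ adj c false x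
        · rw [if_pos ⟨rfl, hE, hx⟩, if_pos (show x ∈ {x : ℝ | Fld x ∧ adj c false x} from hx)]
        · rw [if_neg (fun h => hx h.2.2), if_neg (show x ∉ {x : ℝ | Fld x ∧ adj c false x} from hx)]
      rw [e, e2, KRi_one hS]
      obtain ⟨h54, hev⟩ := En_ge hE
      have h4 : (407 / 1000 : ℝ) = zc c * (407 / 1000 / zc c) := by
        field_simp
      rw [h4]
      have hz1 : 1 ≤ zc c := by
        unfold zc
        have : (0 : ℝ) ≤ c := Nat.cast_nonneg c
        linarith
      refine KRi_meas hG (by positivity) ?_ ?_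
      · refine le_trans ?_ hY1
        rw [div_le_one hz]
        linarith
      · intro x hx
        refine ⟨hx.2.1.le, ?_⟩
        rw [le_div_iff₀ hz, mul_comm]
        exact fold_width hev h54 hx.2 hx.1
    · have e2 : KK c s Γ = 0 := by
        unfold KK
        rw [if_neg ho, if_neg hs]
      have e : kR c s = fun _ => 0 := by
        ext x
        unfold kR
        rw [if_neg ho, if_neg (fun h => hs ⟨h.1, h.2.1⟩)]
      rw [e, e2, integral_zero]

end Pool.Agent.Lib.MP_a247fa_nt.X
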