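import Pool.Agent.Lib.MP_a247fa_nt.X.NDefs

/-! LDEFS. Natural number functions for the end costs: levels `h1 ≥ h2 ≥ h3 ≥ h4 ≥ h5` at distances `102/512`, `204/512`,
`308/512`, `1`, `2` of an odd integer `c` (`s = true`: right side), upper bounds `psn c Z` (Newton) of the solution of
`a z^2 + b z = Z`, and the cost `nj` along the orbit of `c`. -/

set_option autoImplicit false

namespace Pool.Agent.Lib.MP_a247fa_nt.X

/-- maximum -/
def nmax (x y : ℕ) : ℕ := cond (Nat.ble x y) y x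

/-- minimum -/
def nmin (x y : ℕ) : ℕ := cond (Nat.ble x y) x y

/-- the neighbour of `c` on the side `s` -/
def nbr (c : ℕ) (s : Bool) : ℕ := cond s (Nat.add c 1) (Nat.sub c 1)

/-- the position at distance `y/512` of `c` on the side `s` -/
def pos (c : ℕ) (s : Bool) (y : ℕ) : ℕ := cond s (Nat.add (Nat.mul 512 c) y) (Nat.sub (Nat.mul 512 c) y)

/-- the value of the piece between the distances `y0/512` and `y1/512` -/
def hx (c : ℕ) (s : Bool) (y0 y1 : ℕ) : ℕ :=
  Nat.sub (Nat.add (pu (nmin (Nat.shiftLeft (Tn c) 43) (Fu (pos c s y0)))) (Wn (nbr c s)))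
    (pl (cond s (pos c s y0) (pos c s y1)))

/-- level up to distance `2` -/
def h5 (c : ℕ) (s : Bool) : ℕ :=
  cond (Nat.blt c 2048) (cond (Nat.blt (nbr c s) 32) 0 (Nat.shiftRight (Nat.add (Wn (nbr c s)) 1) 1))
    (Nat.succ (Nat.div 472446402 c))

/-- level up to distance `1` -/
def h4 (c : ℕ) (s : Bool) : ℕ :=
  cond (Nat.blt c 2048) (nmax (hx c s 308 512) (h5 c s)) (Nat.succ (Nat.div 472446402 c))

/-- level up to distance `308/512` -/
def h3 (c : ℕ) (s : Bool) : ℕ :=
  cond (Nat.blt c 2048) (nmax (hx c s 204 308) (h4 c s)) (Nat.succ (Nat.div 2705829396 c))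

/-- level up to distance `204/512` -/
def h2 (c : ℕ) (s : Bool) : ℕ :=
  cond (Nat.blt c 2048) (nmax (hx c s 102 204) (h3 c s)) (Nat.succ (Nat.div 4681514352 c))

/-- level up to distance `102/512` -/
def h1 (c : ℕ) (s : Bool) : ℕ :=
  cond (Nat.blt c 2048) (nmax (hx c s 0 102) (h2 c s)) (Nat.succ (Nat.div 5239860101 c))

/-- `20 a` -/
def an (c : ℕ) : ℕ :=
  cond (Nat.blt c 8) (cond (od c) 20 8) (cond (Nat.blt c 16) (cond (od c) 30 10) (cond (od c) 34 11))

/-- `20 b` -/
def bn (c : ℕ) : ℕ :=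
  cond (Nat.blt c 8) (cond (od c) 36 28) (cond (Nat.blt c 16) (cond (od c) 40 30) (cond (od c) 43 32))

/-- one Newton step (an upper bound of the solution for every start `z`) -/
def nw (c Z z : ℕ) : ℕ :=
  Nat.succ (Nat.div (Nat.add (Nat.mul 20 (Nat.shiftLeft Z 20)) (Nat.mul (an c) (Nat.mul z z)))
    (Nat.add (Nat.shiftLeft (bn c) 20) (Nat.mul 2 (Nat.mul (an c) z))))

/-- upper bound of the solution `z` of `a z^2 + b z = Z` -/
def psn (c Z : ℕ) : ℕ :=
  nw c Z (nw c Z (nw c Z (nw c Z (Nat.shiftLeft 1 (Nat.shiftRight (Nat.add (Nat.log2 Z) 20) 1)))))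

/-- pull a scaled length back along a path (head: the last vertex) -/
def pull : List ℕ → ℕ → ℕ
  | [], Z => Z
  | c :: l, Z => pull l (psn c Z)

/-- one level -/
def lv (path : List ℕ) (c y g : ℕ) : ℕ :=
  cond (Nat.beq g 0) 0
    (Nat.mul g (pull path (Nat.shiftLeft (Nat.mul (Nat.add (Nat.mul 2 c) 1) y) 11)))

/-- cost at the vertex `(c, s)`, in units `2^(-52)` -/
def vcn (path : List ℕ) (c : ℕ) (s : Bool) : ℕ :=
  cond (od c)
    (cond (Nat.blt c 3) 0
      (Nat.add (lv path c 102 (Nat.sub (h1 c s) (h2 c s)))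
        (Nat.add (lv path c 204 (Nat.sub (h2 c s) (h3 c s)))
          (Nat.add (lv path c 308 (Nat.sub (h3 c s) (h4 c s)))
            (Nat.add (lv path c 512 (Nat.sub (h4 c s) (h5 c s))) (lv path c 1024 (h5 c s)))))))
    (cond s 0 (cond (En c) (Nat.shiftLeft (pull path 426771) 32) 0))

/-- product of the `20 b` over a path -/
def pb : List ℕ → ℕ
  | [] => 1
  | c :: l => Nat.mul (bn c) (pb l)

/-- `20 ^ length` -/
def p20 : List ℕ → ℕ
  | [] => 1
  | _ :: l => Nat.mul 20 (p20 l)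

/-- total cost of the next `J` vertices after `c`, and the remainder -/
def nj : ℕ → List ℕ → ℕ → ℕ
  | 0, path, c => Nat.shiftLeft (Nat.succ (Nat.div (Nat.mul (Vn c) (p20 path)) (pb path))) 20
  | J + 1, path, c =>
    Nat.add (vcn (c :: path) (Tn c) (cond (od c) false true))
      (cond (Nat.beq (Nat.land (Tn c) (Nat.sub (Tn c) 1)) 0) 0 (nj J (c :: path) (Tn c)))

/-- the condition on `V c` -/
def cht (c : ℕ) : Bool :=
  cond (Nat.beq (Nat.land c (Nat.sub c 1)) 0) true (Nat.ble (nj 5 [] c) (Nat.shiftLeft (Vn c) 20))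

/-- the conditions for `c, c + 1, ..., c + f - 1` -/
def chts (f : ℕ) : ℕ → Bool :=
  Nat.rec (fun _ => true) (fun _ ih c => cond (cht c) (ih (Nat.add c 1)) false) f

end Pool.Agent.Lib.MP_a247fa_nt.X
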