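import Pool.Agent.Lib.MP_a247fa_nt.X.LDefs
import Pool.Agent.Lib.MP_a247fa_nt.X.HrA

/-! LVB (25 min, old scale).
Kernel facts on levels. `lvb`: for odd `1025 ≤ c < 2048` and both sides: `h1 c s * c * 50 ≤ 61 * 2^32`, `h2 c s * c * 100 ≤ 109 * 2^32`, `h3 c s * c * 100 ≤ 63 * 2^32`, `h5 c s * c * 100 ≤ 11 * 2^32`, `h4 c s * c * 100 ≤ 11 * 2^32` (`decide +kernel`, a loop over 512 values of `c`). Then `hr l c s ≤ G_l / c` for all odd `c ≥ 1025` (`c ≥ 2048`: equality). -/

set_option autoImplicit false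

namespace Pool.Agent.Lib.MP_a247fa_nt.X

open Set MeasureTheory
open Pool.Agent.Lib.MP_a247fa_nt.W Pool.Agent.Lib.MP_a247fa_nt.V

/-- kernel check at one vertex -/
def lvbk (c : ℕ) (s : Bool) : Bool :=
  cond (Nat.ble (Nat.mul (Nat.mul (h1 c s) c) 50) (Nat.mul 61 4294967296))
    (cond (Nat.ble (Nat.mul (Nat.mul (h2 c s) c) 100) (Nat.mul 109 4294967296))
      (cond (Nat.ble (Nat.mul (Nat.mul (h3 c s) c) 100) (Nat.mul 63 4294967296))
        (cond (Nat.ble (Nat.mul (Nat.mul (h4 c s) c) 100) (Nat.mul 11 4294967296))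
          (Nat.ble (Nat.mul (Nat.mul (h5 c s) c) 100) (Nat.mul 11 4294967296)) false) false) false) false

/-- kernel loop -/
def lvbs (f : ℕ) : ℕ → Bool :=
  Nat.rec (fun _ => true) (fun _ ih c => cond (lvbk c true) (cond (lvbk c false) (ih (Nat.add c 2)) false) false) f

set_option maxRecDepth 100000 in
theorem lvbs_true : lvbs 512 1025 = true := by
  decide +kernel

private theorem lvb_step (f : ℕ) : ∀ c : ℕ, lvbs f c = true → ∀ j < f, ∀ s : Bool, lvbk (c + 2 * j) s = true := by
  induction f with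
  | zero => intro c _ j hj; omega
  | succ f ih =>
    intro c h j hj s
    have h' : cond (lvbk c true) (cond (lvbk c false) (lvbs f (Nat.add c 2)) false) false = true := h
    rcases h1 : lvbk c true with _ | _
    · rw [h1] at h'; cases h'
    · rcases h2 : lvbk c false with _ | _
      · rw [h1, h2] at h'; cases h'
      · rw [h1, h2] at h'
        simp only [cond_true] at h'
        rcases j with _ | j
        · cases s
          · simpa using h2
          · simpa using h1
        · have := ih (Nat.add c 2) h' j (by omega) s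
          have e : Nat.add c 2 + 2 * j = c + 2 * (j + 1) := by
            show c + 2 + 2 * j = c + 2 * (j + 1)
            ring
          rw [e] at this
          exact this

private theorem lvb_unfold {c : ℕ} {s : Bool} (h : lvbk c s = true) :
    h1 c s * c * 50 ≤ 61 * 4294967296 ∧ h2 c s * c * 100 ≤ 109 * 4294967296 ∧ h3 c s * c * 100 ≤ 63 * 4294967296 ∧
      h4 c s * c * 100 ≤ 11 * 4294967296 ∧ h5 c s * c * 100 ≤ 11 * 4294967296 := by
  unfold lvbk at h
  rcases e1 : Nat.ble (Nat.mul (Nat.mul (h1 c s) c) 50) (Nat.mul 61 4294967296) with _ | _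
  · rw [e1] at h; cases h
  rcases e2 : Nat.ble (Nat.mul (Nat.mul (h2 c s) c) 100) (Nat.mul 109 4294967296) with _ | _
  · rw [e1, e2] at h; cases h
  rcases e3 : Nat.ble (Nat.mul (Nat.mul (h3 c s) c) 100) (Nat.mul 63 4294967296) with _ | _
  · rw [e1, e2, e3] at h; cases h
  rcases e4 : Nat.ble (Nat.mul (Nat.mul (h4 c s) c) 100) (Nat.mul 11 4294967296) with _ | _
  · rw [e1, e2, e3, e4] at h; cases h
  rw [e1, e2, e3, e4] at h
  simp only [cond_true] at h
  exact ⟨Nat.le_of_ble_eq_true e1, Nat.le_of_ble_eq_true e2, Nat.le_of_ble_eq_true e3, Nat.le_of_ble_eq_true e4,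
    Nat.le_of_ble_eq_true h⟩

private theorem lvb_real {h c a b : ℕ} (hc : 0 < c) (hb : 0 < b) (h1 : h * c * b ≤ a * 4294967296) :
    (h : ℝ) / 4294967296 ≤ (a : ℝ) / b / c := by
  have h1' : (h : ℝ) * c * b ≤ a * 4294967296 := by exact_mod_cast h1
  have hc' : (0 : ℝ) < c := by exact_mod_cast hc
  have hb' : (0 : ℝ) < b := by exact_mod_cast hb
  rw [div_div, div_le_div_iff₀ (by norm_num) (by positivity)]
  linarith

theorem lvb {c : ℕ} (s : Bool) (ho : c % 2 = 1) (h : 1025 ≤ c) : hr 1 c s ≤ 61 / 50 / c ∧ hr 2 c s ≤ 109 / 100 / c ∧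
    hr 3 c s ≤ 63 / 100 / c ∧ hr 4 c s ≤ 11 / 100 / c ∧ hr 5 c s ≤ 11 / 100 / c := by
  rcases Nat.lt_or_ge c 2048 with hc | hc
  · have hk : lvbk c s = true := by
      have := lvb_step 512 1025 lvbs_true ((c - 1025) / 2) (by omega) s
      have e : 1025 + 2 * ((c - 1025) / 2) = c := by omega
      rw [e] at this
      exact this
    obtain ⟨g1, g2, g3, g4, g5⟩ := lvb_unfold hk
    have hc0 : 0 < c := by omega
    have r1 := lvb_real hc0 (by norm_num) g1
    have r2 := lvb_real hc0 (by norm_num) g2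
    have r3 := lvb_real hc0 (by norm_num) g3
    have r4 := lvb_real hc0 (by norm_num) g4
    have r5 := lvb_real hc0 (by norm_num) g5
    unfold hr
    simp only [if_pos hc]
    norm_num at r1 r2 r3 r4 r5 ⊢
    exact ⟨r1, r2, r3, r4, r5⟩
  · unfold hr
    simp only [if_neg (not_lt.2 hc)]
    norm_num

end Pool.Agent.Lib.MP_a247fa_nt.X
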