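import Pool.Agent.Lib.MP_a247fa_nt.X.StepX
import Pool.Agent.Lib.MP_a247fa_nt.V.Transfer
import Pool.Agent.Lib.MP_a247fa_nt.V.Branch

/-! MAINX (50 min, old scale).
As V.Induct. `FF n` is measurable. `ff_one`: no point of `[1, 2)` is in `FF n` (induction: `⌊x⌋₊ + 1 = 2`, `En 2 = false`; a free `x ∈ [1,2)` has `1 ≤ cf x < 2`, see `v_one` in V.Induct).
`unit_x`: `i ≥ 1`, `CR ν a b`, `a ≤ i`, `i + 1 ≤ b`: `ν (Ioo i (i+1) ∩ FF (n+1)) ≤ itg ν (Nf n) i (i+1)`. `i = 1`: left side `0`, right side `≥ 0`. `i ≥ 2`: `Br i p q h`; up to the null set `{p, q}` the points of the unit in `FF (n+1)` are: `Fld x`, `En (i+1)` (there `Nf n x = 1`), or `x ∈ (p, q)`, `cf x ∈ FF n`. The measure of the latter is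
`tr ν p q (Ioo (lo i) (hi i) ∩ FF n)` (`transfer_meas`) `≤ ∫ ph + th n (lo i) true + th n (hi i) false` over `(lo i, hi i)` for `tr ν p q` (`PX n`, `transfer_cr`, `lo i ≥ 1`, `hi i ≥ lo i + 3`) `= itg ν (Nf n) p q` (`transfer_itg`; on `(p,q)`: `Fre x`, `⌊x⌋₊ = i`, not `Fld`).
`main_x`: induction on `n`: `n = 0`: `FF 0 = ∅`, the right side is `≥ 0`. Step: sum `unit_x` over the units of `(a, b)` (induction on the end point, `nf_itg_split`), then `step_x`. -/

set_option autoImplicit false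

namespace Pool.Agent.Lib.MP_a247fa_nt.X

open Set MeasureTheory
open Pool.Agent.Lib.MP_a247fa_nt.W Pool.Agent.Lib.MP_a247fa_nt.V

theorem meas_FF (n : ℕ) : MeasurableSet (FF n) := by
  induction n with
  | zero => exact MeasurableSet.empty
  | succ n ih =>
    have h1 : MeasurableSet {x : ℝ | En (⌊x⌋₊ + 1) = true} :=
      Nat.measurable_floor (MeasurableSet.of_discrete (s := {m : ℕ | En (m + 1) = true}))
    exact (meas_fld.inter h1).union (meas_fre.inter (continuous_cf.measurable ih))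

theorem ff_one (n : ℕ) {x : ℝ} (h1 : 1 ≤ x) (h2 : x < 2) : x ∉ FF n := by
  induction n generalizing x with
  | zero => simp [FF]
  | succ n ih =>
    intro hx
    have hf : ⌊x⌋₊ = 1 := by
      rw [Nat.floor_eq_iff (by linarith)]
      constructor
      · simpa using h1
      · norm_num; exact h2
    have hx' : (Fld x ∧ En (⌊x⌋₊ + 1) = true) ∨ (Fre x ∧ cf x ∈ FF n) := hx
    rcases hx' with ⟨-, hv⟩ | ⟨⟨hT, hF⟩, hv⟩
    · rw [hf] at hv
      have := (En_ge hv).1
      omega
    · unfold Trp at hT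
      unfold Fld at hF
      rw [hf] at hT hF
      have e1 : cf x < 2 := by
        by_contra hcon
        apply hT
        refine ⟨by norm_num, ?_⟩
        have : T 1 = 2 := by unfold T; norm_num
        rw [this]
        push_cast
        linarith
      have e2 : 1 ≤ cf x := by
        by_contra hcon
        apply hF
        refine ⟨by norm_num, ?_⟩
        push_cast
        linarith
      exact ih e2 e1 hv

private lemma MainX_le {ν : Measure ℝ} [IsFiniteMeasure ν] {A B C : Set ℝ} (h : A ⊆ B ∪ C) :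
    (ν A).toReal ≤ (ν B).toReal + (ν C).toReal := by
  have := (measure_mono h).trans (measure_union_le (μ := ν) B C)
  rw [← ENNReal.toReal_add (measure_ne_top _ _) (measure_ne_top _ _)]
  exact ENNReal.toReal_mono (ENNReal.add_ne_top.2 ⟨measure_ne_top _ _, measure_ne_top _ _⟩) this

theorem unit_x {n : ℕ} (hP : PX n) {i : ℕ} (hi1 : 1 ≤ i) {ν : Measure ℝ} {a b : ℝ} (hν : CR ν a b) (ha : a ≤ i)
    (hb : (i : ℝ) + 1 ≤ b) : (ν (Ioo (i : ℝ) (i + 1) ∩ FF (n + 1))).toReal ≤ itg ν (Nf n) i (i + 1) := by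
  classical
  have fin := hν.fin
  have noat := hν.noat
  rcases hi1.eq_or_lt with h1 | h2
  · have hA : Ioo (i : ℝ) (i + 1) ∩ FF (n + 1) = ∅ := by
      rw [← h1]
      ext x
      simp only [mem_inter_iff, mem_empty_iff_false, iff_false]
      rintro ⟨hx, hv⟩
      have a1 := hx.1
      have a2 := hx.2
      push_cast at a1 a2
      exact ff_one (n + 1) (by linarith) (by linarith) hv
    rw [hA]
    simp only [measure_empty, ENNReal.toReal_zero]
    exact itg_nonneg (fun t _ => nf_nonneg n t)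
  · obtain ⟨p, q, h, hB⟩ := exists_br hi1
    have hlo : 1 ≤ lo i := by unfold lo; omega
    have hlh : lo i + 3 ≤ hi i := by unfold lo hi; omega
    have key := hP (lo i) (hi i) (tr ν p q) hlo hlh (transfer_cr hB hν ha hb)
    rw [transfer_meas hB (meas_FF n), transfer_itg hB bm_ph, transfer_itg hB (bm_th n (lo i) true),
      transfer_itg hB (bm_th n (hi i) false)] at key
    have hcm := continuous_cf.measurable
    have b1 := bm_comp bm_ph hcm
    have b2 := bm_comp (bm_th n (lo i) true) hcm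
    have b3 := bm_comp (bm_th n (hi i) false) hcm
    rw [← itg_add b1 b2, ← itg_add (bm_add b1 b2) b3] at key
    have hp := hB.le_p
    have hpq := hB.lt
    have hq := hB.q_le
    have fl : ∀ x ∈ Ioo (i : ℝ) (i + 1), ⌊x⌋₊ = i := by
      intro x hx
      have h0 : (0 : ℝ) ≤ i := Nat.cast_nonneg i
      rw [Nat.floor_eq_iff (by linarith [hx.1])]
      exact ⟨hx.1.le, hx.2⟩
    have hin : ∀ x ∈ Ioo p q, x ∈ Ioo (i : ℝ) (i + 1) ∧ ¬ Trp x ∧ ¬ Fld x := by
      intro x hx
      have hxi : x ∈ Ioo (i : ℝ) (i + 1) := ⟨by linarith [hx.1], by linarith [hx.2]⟩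
      refine ⟨hxi, ?_, ?_⟩
      · rw [hB.trp x hxi]; intro a; linarith [hx.1]
      · rw [hB.fld x hxi]; intro a; linarith [hx.2]
    obtain ⟨G, hG⟩ : ∃ G : ℝ → ℝ, G = fun x => if x < ((i + 1 : ℕ) : ℝ) then Nf n x else 0 := ⟨_, rfl⟩
    have bG : BM G := by
      have hbm := bm_nfb n (i + 1)
      rw [hG]
      refine ⟨?_, hbm.2.imp fun C hC x => ?_⟩
      · convert hbm.1
      · convert hC x
    have hGe : ∀ x, x < (i : ℝ) + 1 → G x = Nf n x := by
      intro x hx
      rw [hG]
      show (if x < ((i + 1 : ℕ) : ℝ) then Nf n x else 0) = Nf n x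
      rw [if_pos (by push_cast; exact hx)]
    have hG0 : ∀ x, 0 ≤ G x := by
      intro x
      rw [hG]
      show 0 ≤ (if x < ((i + 1 : ℕ) : ℝ) then Nf n x else 0)
      split_ifs
      · exact nf_nonneg n x
      · exact le_rfl
    have hGi : itg ν (Nf n) i (i + 1) = itg ν G i (i + 1) := by
      unfold itg
      refine setIntegral_congr_fun measurableSet_Ioo ?_
      intro x hx
      exact (hGe x hx.2).symm
    rw [hGi]
    have sp1 := itg_split (ν := ν) bG (x := (i : ℝ)) (y := p) (z := (i : ℝ) + 1) hp (by linarith)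
    have sp2 := itg_split (ν := ν) bG (x := p) (y := q) (z := (i : ℝ) + 1) hpq.le hq
    have n1 : 0 ≤ itg ν G i p := itg_nonneg (fun t _ => hG0 t)
    have n3 : 0 ≤ itg ν G q (i + 1) := itg_nonneg (fun t _ => hG0 t)
    have mid : itg ν (fun x => ph (cf x) + th n (lo i) true (cf x) + th n (hi i) false (cf x)) p q ≤
        itg ν G p q := by
      apply itg_mono (bm_add (bm_add b1 b2) b3) bG
      intro x hx
      obtain ⟨hxi, hT, hF⟩ := hin x hx
      rw [hGe x hxi.2]
      unfold Nf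
      rw [fl x hxi, if_neg (by rintro ⟨h, -⟩; exact hF h), if_pos ⟨⟨hT, hF⟩, h2⟩, zero_add]
    have z2 : (ν {q}).toReal = 0 := by rw [measure_singleton]; rfl
    have fre : ∀ x ∈ Ioo (i : ℝ) (i + 1), Fre x → cf x ∈ FF n →
        x ∈ (Ioo p q ∩ cf ⁻¹' FF n) ∪ {q} := by
      rintro x hxi ⟨hT, hF⟩ hx
      rw [hB.trp x hxi] at hT
      rw [hB.fld x hxi] at hF
      push Not at hT hF
      rcases hF.lt_or_eq with hl | he
      · exact Or.inl ⟨⟨hT, hl⟩, hx⟩
      · exact Or.inr he
    by_cases hE : En (i + 1) = true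
    · have sub : Ioo (i : ℝ) (i + 1) ∩ FF (n + 1) ⊆
          ((Ioo p q ∩ cf ⁻¹' FF n) ∪ {q}) ∪ Ioo q ((i : ℝ) + 1) := by
        rintro x ⟨hxi, hx⟩
        rcases hx with ⟨hF, -⟩ | ⟨hFr, hx⟩
        · rw [hB.fld x hxi] at hF
          exact Or.inr ⟨hF, hxi.2⟩
        · exact Or.inl (fre x hxi hFr hx)
      have l1 := MainX_le (ν := ν) sub
      have l2 := MainX_le (ν := ν) (Subset.refl ((Ioo p q ∩ cf ⁻¹' FF n) ∪ {q}))
      have l4 : (ν (Ioo q ((i : ℝ) + 1))).toReal ≤ itg ν G q (i + 1) := by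
        have e := itg_const (ν := ν) 1 q ((i : ℝ) + 1)
        rw [one_mul] at e
        change mu ν q ((i : ℝ) + 1) ≤ _
        rw [← e]
        apply itg_mono (bm_const 1) bG
        intro x hx
        have hxi : x ∈ Ioo (i : ℝ) (i + 1) := ⟨by linarith [hx.1], hx.2⟩
        have hF : Fld x := by rw [hB.fld x hxi]; exact hx.1
        rw [hGe x hx.2]
        unfold Nf
        rw [fl x hxi, if_pos ⟨hF, hE⟩, if_neg (by rintro ⟨⟨-, h⟩, -⟩; exact h hF), add_zero]
      linarith
    · have sub : Ioo (i : ℝ) (i + 1) ∩ FF (n + 1) ⊆ (Ioo p q ∩ cf ⁻¹' FF n) ∪ {q} := by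
        rintro x ⟨hxi, hx⟩
        rcases hx with ⟨-, hx⟩ | ⟨hFr, hx⟩
        · rw [fl x hxi] at hx
          exact absurd hx hE
        · exact fre x hxi hFr hx
      have l1 := MainX_le (ν := ν) sub
      linarith

theorem main_x (n : ℕ) : PX n := by
  induction n with
  | zero =>
    intro a b ν ha hab hν
    have fin := hν.fin
    have h0 : Ioo (a : ℝ) b ∩ FF 0 = ∅ := by simp [FF]
    rw [h0]
    simp only [measure_empty, ENNReal.toReal_zero]
    have h1 : 0 ≤ itg ν ph a b := itg_nonneg (fun t _ => ph_nonneg t)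
    have h2 : 0 ≤ itg ν (th 0 a true) a b := itg_nonneg (fun t _ => le_rfl)
    have h3 : 0 ≤ itg ν (th 0 b false) a b := itg_nonneg (fun t _ => le_rfl)
    linarith
  | succ n ih =>
    intro a b ν ha hab hν
    have fin := hν.fin
    have noat := hν.noat
    have cl : ∀ c : ℕ, a ≤ c → c ≤ b → (ν (Ioo (a : ℝ) c ∩ FF (n + 1))).toReal ≤
        itg ν (Nf n) a c := by
      intro c hc
      induction c, hc using Nat.le_induction with
      | base => intro _; simp [itg]
      | succ c hc ihc =>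
        intro hcb
        have h1 := ihc (by omega)
        have hac : (a : ℝ) ≤ c := by exact_mod_cast hc
        have h2 := unit_x ih (i := c) (by omega) hν hac (by exact_mod_cast hcb)
        have sp := nf_itg_split (ν := ν) n (a := a) (c := c) (b := c + 1) hc (by omega)
        push_cast at sp ⊢
        have sub : Ioo (a : ℝ) (c + 1) ∩ FF (n + 1) ⊆
            ((Ioo (a : ℝ) c ∩ FF (n + 1)) ∪ (Ioo (c : ℝ) (c + 1) ∩ FF (n + 1))) ∪ {(c : ℝ)} := by
          rintro x ⟨hx, hv⟩
          rcases lt_trichotomy x c with hl | he | hg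
          · exact Or.inl (Or.inl ⟨⟨hx.1, hl⟩, hv⟩)
          · exact Or.inr he
          · exact Or.inl (Or.inr ⟨⟨hg, hx.2⟩, hv⟩)
        have l1 := MainX_le (ν := ν) sub
        have l2 := MainX_le (ν := ν)
          (Subset.refl ((Ioo (a : ℝ) c ∩ FF (n + 1)) ∪ (Ioo (c : ℝ) (c + 1) ∩ FF (n + 1))))
        have z1 : (ν {(c : ℝ)}).toReal = 0 := by rw [measure_singleton]; rfl
        linarith
    exact (cl b (by omega) le_rfl).trans (step_x ha hab hν)

end Pool.Agent.Lib.MP_a247fa_nt.X
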