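import Pool.Agent.Lib.MP_a247fa_nt.V.HB

/-! MEANI (30 min, old scale).
`∫_0^1 1/xi ≥ 1.14` (exact value `2/√3 = 1.1547`). `xi t = 1 + y`, `y = cos (π t)/2`, `|y| ≤ 1/2`.

`1/(1+y) ≥ 1 - y + y^2 - y^3 + (2/3) y^4`, because `(1+y)(1 - y + y^2 - y^3 + (2/3) y^4) = 1 - y^4/3 + (2/3) y^5 ≤ 1` for `y ≤ 1/2`. Integrals over `[0,1]`: `∫ cos (π t) = 0`, `∫ cos^2 = 1/2`, `∫ cos^3 = 0`, `∫ cos^4 = 3/8`
(`cos^3 (1-t) = - cos^3 t`: symmetry; or by explicit antiderivatives, `integral_comp_mul_left` and `integral_cos_sq`, `integral_cos_pow`..., or the pairing `t ↔ 1-t`: `F(t) + F(1-t)` with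
`F = 1/(1+y)`: `1/(1+y) + 1/(1-y) = 2/(1-y^2) ≥ 2 (1 + y^2)`, which gives `∫ 1/xi ≥ 1 + ∫ y^2 = 1 + 1/8 = 1.125` only, with one more term `2 (1 + y^2 + y^4)`: `1 + 1/8 + 3/128 = 1.1484 ≥ 1.14`). The last version is the easiest:
`∫_0^1 F = (1/2) ∫_0^1 (F(t) + F(1-t)) ≥ ∫_0^1 (1 + y^2 + y^4)`, `y^2 = cos^2(π t)/4`, `y^4 = cos^4 (π t)/16`. -/

set_option autoImplicit false

namespace Pool.Agent.Lib.MP_a247fa_nt.X

open Set MeasureTheory
open Pool.Agent.Lib.MP_a247fa_nt.W Pool.Agent.Lib.MP_a247fa_nt.V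

private theorem MeanI_cos2 : ∫ t in (0 : ℝ)..1, Real.cos (Real.pi * t) ^ 2 = 1 / 2 := by
  have h := intervalIntegral.integral_comp_mul_left (a := 0) (b := 1)
    (fun x => Real.cos x ^ 2) Real.pi_ne_zero
  simp only [mul_zero, mul_one] at h
  rw [h, integral_cos_sq]
  simp only [Real.sin_pi, Real.sin_zero, mul_zero, smul_eq_mul, sub_zero, zero_add]
  field_simp [Real.pi_ne_zero]

private theorem MeanI_cos4 : ∫ t in (0 : ℝ)..1, Real.cos (Real.pi * t) ^ 4 = 3 / 8 := by
  have h := intervalIntegral.integral_comp_mul_left (a := 0) (b := 1)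
    (fun x => Real.cos x ^ 4) Real.pi_ne_zero
  simp only [mul_zero, mul_one] at h
  rw [h, show (4 : ℕ) = 2 + 2 by norm_num, integral_cos_pow, integral_cos_sq]
  simp only [Real.sin_pi, Real.sin_zero, mul_zero, smul_eq_mul, sub_zero, zero_add]
  push_cast
  field_simp [Real.pi_ne_zero]
  ring

private theorem MeanI_cont : Continuous (fun t => 1 / xi t) := by
  unfold xi
  refine continuous_const.div (by fun_prop) ?_
  intro t
  have := Real.neg_one_le_cos (Real.pi * t)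
  linarith

theorem mean_inv_xi : 114 / 100 ≤ ∫ t in (0 : ℝ)..1, 1 / xi t := by
  have hc := MeanI_cont
  have h1 : ∫ t in (0 : ℝ)..1, 1 / xi (1 - t) = ∫ t in (0 : ℝ)..1, 1 / xi t := by
    have := intervalIntegral.integral_comp_sub_left (a := 0) (b := 1) (fun t => 1 / xi t) 1
    simpa using this
  have hc' : Continuous (fun t => 1 / xi (1 - t)) := hc.comp (continuous_const.sub continuous_id)
  have h2 : ∫ t in (0 : ℝ)..1, (1 / xi t + 1 / xi (1 - t)) = 2 * ∫ t in (0 : ℝ)..1, 1 / xi t := by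
    rw [intervalIntegral.integral_add (hc.intervalIntegrable _ _) (hc'.intervalIntegrable _ _), h1]
    ring
  have h3 : ∫ t in (0 : ℝ)..1, (2 + Real.cos (Real.pi * t) ^ 2 / 2 + Real.cos (Real.pi * t) ^ 4 / 8)
      = 2 + 1 / 4 + 3 / 64 := by
    rw [intervalIntegral.integral_add, intervalIntegral.integral_add,
      intervalIntegral.integral_div, intervalIntegral.integral_div, MeanI_cos2, MeanI_cos4]
    · simp only [intervalIntegral.integral_const, sub_zero, smul_eq_mul]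
      norm_num
    · exact (by fun_prop : Continuous _).intervalIntegrable _ _
    · exact (by fun_prop : Continuous (fun t => Real.cos (Real.pi * t) ^ 2 / 2)).intervalIntegrable _ _
    · exact (by fun_prop : Continuous (fun t => 2 + Real.cos (Real.pi * t) ^ 2 / 2)).intervalIntegrable _ _
    · exact (by fun_prop : Continuous (fun t => Real.cos (Real.pi * t) ^ 4 / 8)).intervalIntegrable _ _
  have h4 : ∫ t in (0 : ℝ)..1, (2 + Real.cos (Real.pi * t) ^ 2 / 2 + Real.cos (Real.pi * t) ^ 4 / 8) ≤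
      ∫ t in (0 : ℝ)..1, (1 / xi t + 1 / xi (1 - t)) := by
    refine intervalIntegral.integral_mono_on (by norm_num)
      ((by fun_prop : Continuous (fun t => 2 + Real.cos (Real.pi * t) ^ 2 / 2 +
        Real.cos (Real.pi * t) ^ 4 / 8)).intervalIntegrable _ _)
      ((hc.add hc').intervalIntegrable _ _) ?_
    intro t _
    have e : xi (1 - t) = 1 - Real.cos (Real.pi * t) / 2 := by
      unfold xi
      rw [mul_sub, mul_one, Real.cos_pi_sub]
      ring
    rw [e]
    unfold xi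
    obtain ⟨c, hcdef⟩ : ∃ c, c = Real.cos (Real.pi * t) := ⟨_, rfl⟩
    rw [← hcdef]
    have c1 : -1 ≤ c := hcdef ▸ Real.neg_one_le_cos _
    have c2 : c ≤ 1 := hcdef ▸ Real.cos_le_one _
    have p1 : 0 < 1 + c / 2 := by linarith
    have p2 : 0 < 1 - c / 2 := by linarith
    rw [div_add_div _ _ p1.ne' p2.ne', le_div_iff₀ (mul_pos p1 p2)]
    have c6 : 0 ≤ c ^ 6 := by positivity
    nlinarith
  linarith [h2, h3, h4]

end Pool.Agent.Lib.MP_a247fa_nt.X
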