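import Pool.Agent.Lib.MP_a247fa_nt.X.Tab

/-! NDEFS. Theorem W2 (MP_a247fa_nt): the functions on natural numbers evaluated by the kernel.
Positions are `X` = `512 x`, values of `cf` are in units `2^(-43)`, potentials and costs in units `2^(-32)`, scaled distances
(`Z`) in units `2^(-20)`. -/

set_option autoImplicit false

namespace Pool.Agent.Lib.MP_a247fa_nt.X

/-- table of the potential -/
def Pn (i : ℕ) : ℕ := Nat.land (Nat.shiftRight PT (Nat.mul 32 i)) 4294967295

/-- table of `2^32 (1 + cos (π k/512))` -/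
def ct (k : ℕ) : ℕ := Nat.land (Nat.shiftRight CT (Nat.mul 36 k)) 68719476735

/-- `c` is odd -/
def od (c : ℕ) : Bool := Nat.beq (Nat.land c 1) 1

/-- the Collatz map -/
def Tn (c : ℕ) : ℕ := cond (od c) (Nat.shiftRight (Nat.add (Nat.mul 3 c) 1) 1) (Nat.shiftRight c 1)

/-- end costs -/
def Vn (c : ℕ) : ℕ :=
  cond (Nat.blt c 1024) (Nat.land (Nat.shiftRight VT (Nat.mul 32 c)) 4294967295)
    (cond (od c) 1168231104 962072674)

/-- suspicious folds: the table for `c < 1024`, all even numbers from `1024` on -/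
def En (c : ℕ) : Bool :=
  cond (od c) false (cond (Nat.blt c 1024) (Nat.beq (Nat.land (Nat.shiftRight ET c) 1) 1) true)

/-- first vertex: the free points near `c` with displacement at most `Yc (T c)` are within `kn c / 512` -/
def kn (c : ℕ) : ℕ :=
  cond (od c)
    (cond (Nat.blt c 4) 232 (cond (Nat.blt c 8) 174 (cond (Nat.blt c 16) 126 (cond (Nat.blt c 32) 109
      (cond (Nat.blt c 64) 86 (cond (Nat.blt c 128) 60 (cond (Nat.blt c 256) 42 (cond (Nat.blt c 512) 30
        (cond (Nat.blt c 1024) 21 15)))))))))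
    (cond (Nat.blt c 8) 145 (cond (Nat.blt c 16) 109 (cond (Nat.blt c 32) 80
      (cond (Nat.blt c 64) 60 (cond (Nat.blt c 128) 58 (cond (Nat.blt c 256) 41 (cond (Nat.blt c 512) 29
        (cond (Nat.blt c 1024) 21 15))))))))

/-- the same for the side `s`; only for the left side of odd `c < 64` smaller than `kn c` -/
def kl (c : ℕ) (s : Bool) : ℕ :=
  cond (cond (od c) (cond s false (Nat.blt c 64)) false)
    (cond (Nat.blt c 4) 143 (cond (Nat.blt c 8) 118 (cond (Nat.blt c 16) 93 (cond (Nat.blt c 32) 95 76))))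
    (kn c)

/-- cost of an interior integer -/
def Wn (c : ℕ) : ℕ :=
  cond (Nat.blt c 3) 0 (Nat.succ (Nat.div
    (Nat.mul 2560 (Nat.add (cond (En c) 1748051690 0) (Nat.mul 2 (Vn c))))
    (Nat.sub (Nat.mul (Nat.mul 5 (Nat.sub 1024 (kn c))) (Nat.add (Nat.mul 2 c) 1)) 5632)))

/-- `2^32 (1 + cos (π X/512))` -/
def cX (X : ℕ) : ℕ :=
  cond (Nat.blt 512 (Nat.land X 1023)) (ct (Nat.sub 1024 (Nat.land X 1023))) (ct (Nat.land X 1023))

/-- upper bound of `2^43 cf (X/512)` -/
def Fu (X : ℕ) : ℕ :=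
  Nat.sub (Nat.mul (Nat.add (Nat.mul 6 X) 1024) 4294967296)
    (Nat.mul (Nat.add (Nat.mul 2 X) 512) (Nat.sub (cX X) 4096))

/-- lower bound of `2^43 cf (X/512)` -/
def Fl (X : ℕ) : ℕ :=
  Nat.sub (Nat.mul (Nat.add (Nat.mul 6 X) 1024) 4294967296)
    (Nat.mul (Nat.add (Nat.mul 2 X) 512) (Nat.add (cX X) 4096))

/-- upper bound of the potential at `Y/2^43` -/
def pu (Y : ℕ) : ℕ :=
  cond (Nat.blt Y 9007199254740992)
    (Nat.add (Nat.add (Pn (Nat.shiftRight Y 43)) (Nat.shiftRight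
      (Nat.mul (Nat.sub (Pn (Nat.succ (Nat.shiftRight Y 43))) (Pn (Nat.shiftRight Y 43)))
        (Nat.land Y 8796093022207)) 43)) 1)
    (Nat.sub AA (Nat.div 113336795588871485128704 Y))

/-- lower bound of the potential at `X/512` -/
def pl (X : ℕ) : ℕ :=
  cond (Nat.blt X 524288)
    (Nat.add (Pn (Nat.shiftRight X 9)) (Nat.shiftRight
      (Nat.mul (Nat.sub (Pn (Nat.succ (Nat.shiftRight X 9))) (Pn (Nat.shiftRight X 9)))
        (Nat.land X 511)) 9))
    (Nat.sub AA (Nat.succ (Nat.div 6597069766656 X)))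

/-- the cells of the window of `m` have length `sp m / 512` -/
def sp (m : ℕ) : ℕ := cond (Nat.blt m 64) 1 (cond (Nat.blt m 256) 2 (cond (Nat.blt m 1024) 4 16))

/-- twice the costs on the left unit of the window of `m` -/
def S2l (m : ℕ) : ℕ :=
  Nat.add (Nat.mul 2 (Wn m)) (Nat.add
    (cond (Nat.blt (Nat.sub m 1) 32) (Nat.mul 2 (Wn (Nat.sub m 1))) (Wn (Nat.sub m 1)))
    (cond (Nat.blt (Nat.add m 1) 32) 0 (Wn (Nat.add m 1))))

/-- twice the costs on the right unit of the window of `m` -/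
def S2r (m : ℕ) : ℕ :=
  Nat.add (Nat.mul 2 (Wn m)) (Nat.add
    (cond (Nat.blt (Nat.sub m 1) 32) 0 (Wn (Nat.sub m 1)))
    (cond (Nat.blt (Nat.add m 1) 32) (Nat.mul 2 (Wn (Nat.add m 1))) (Wn (Nat.add m 1))))

/-- upper bound of the potential of the image of the free points of the cell `X, X + s` (right unit of the window of `m`) -/
def uR (m s X : ℕ) : ℕ :=
  cond (cond (Nat.ble (Nat.add X s) (Nat.add (Nat.mul 512 m) 256))
      (Nat.ble (Nat.shiftLeft (Tn m) 43) (Fl (Nat.add X s))) false) 0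
    (cond (cond (Nat.ble (Nat.add (Nat.mul 512 m) 256) X)
        (Nat.blt (Fu X) (Nat.shiftLeft (Nat.shiftRight (Nat.add m 1) 1) 43)) false) 0
      (cond (Nat.ble (Fu X) (Nat.shiftLeft (Tn m) 43)) (pu (Fu X)) (pu (Nat.shiftLeft (Tn m) 43))))

/-- positive part of twice the cell value -/
def ca (m s a b X : ℕ) : ℕ :=
  cond (Nat.blt X (Nat.mul 512 m)) (Nat.add (Nat.mul 2 (pu (Fu (Nat.add X s)))) a)
    (Nat.add (Nat.mul 2 (uR m s X)) b)

/-- negative part of twice the cell value -/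
def cb (X : ℕ) : ℕ := Nat.mul 2 (pl X)

/-- forward pass: ramps decreasing to the right, and the constants -/
def fwd (m s a b : ℕ) (f : ℕ) : ℕ → ℕ → ℕ → ℕ → ℕ → Bool :=
  Nat.rec (fun X pa pb _ _ => Nat.ble (Nat.add pa (ca m s a b X)) (Nat.add pb (cb X)))
    (fun _ ih X pa pb qa qb =>
      cond (Nat.ble (Nat.add qa (Nat.add pa (ca m s a b X))) (Nat.add qb (Nat.add pb (cb X))))
        (ih (Nat.add X s) (Nat.add pa (ca m s a b X)) (Nat.add pb (cb X))
          (Nat.add qa (Nat.add pa (ca m s a b X))) (Nat.add qb (Nat.add pb (cb X)))) false) f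

/-- backward pass: ramps decreasing to the left -/
def bwd (m s a b : ℕ) (f : ℕ) : ℕ → ℕ → ℕ → ℕ → ℕ → Bool :=
  Nat.rec (fun _ _ _ _ _ => true)
    (fun _ ih X pa pb qa qb =>
      cond (Nat.ble (Nat.add qa (Nat.add pa (ca m s a b X))) (Nat.add qb (Nat.add pb (cb X))))
        (ih (Nat.sub X s) (Nat.add pa (ca m s a b X)) (Nat.add pb (cb X))
          (Nat.add qa (Nat.add pa (ca m s a b X))) (Nat.add qb (Nat.add pb (cb X)))) false) f

/-- number of cells minus one -/
def nc (m : ℕ) : ℕ := Nat.sub (Nat.div 1024 (sp m)) 1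

/-- the window inequality of `m` -/
def chw (m : ℕ) : Bool :=
  cond (fwd m (sp m) (S2l m) (S2r m) (nc m) (Nat.mul 512 (Nat.sub m 1)) 0 0 0 0)
    (bwd m (sp m) (S2l m) (S2r m) (nc m)
      (Nat.add (Nat.mul 512 (Nat.sub m 1)) (Nat.mul (sp m) (nc m))) 0 0 0 0) false

/-- the window inequalities of `m, m + 2, ..., m + 2 f - 2` -/
def chws (f : ℕ) : ℕ → Bool :=
  Nat.rec (fun _ => true) (fun _ ih m => cond (chw m) (ih (Nat.add m 2)) false) f

end Pool.Agent.Lib.MP_a247fa_nt.X
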