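import Pool.Agent.Lib.MP_a247fa_nt.X.Defs

/-! NATA (30 min, old scale).
Meaning of the functions evaluated by the kernel, and small facts.

`od_iff`: `Nat.land c 1 = c % 2` (`Nat.and_one_is_mod`; `Nat.land a b` is `a &&& b` definitionally, `Nat.beq` is `==`). `Tn_eq`: `Nat.shiftRight_one`, `Nat.mul`, `Nat.add` are the usual
operations by `rfl`. `ch`: unfold. `En_odd`, `Vn_big`: unfold with `Nat.blt c 1024 = false`. `En_ge`: for odd `c` false; for `c < 54`: `decide +kernel` on `∀ c < 54, En c = false`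
(`set_option maxRecDepth 100000`). `pow2_iff`: `c &&& (c-1) = 0` iff `c` is a power of two (`c ≥ 1`): search Mathlib (`Nat.isPowerOfTwo`, `Nat.land_sub_one..`); direct proof: write `c = 2^k * (2 r + 1)`; if `r = 0`,
`2^k &&& (2^k - 1) = 0` (`Nat.and_two_pow_sub_one_eq_mod`, `Nat.mod_self`); if `r ≥ 1` the bit `j ≥ k+1` of `r`s leading one is set in both `c` and `c-1` (`Nat.testBit`); or: strong induction with
`2a &&& (2a-1) = 2 (a &&& (a-1))` for even numbers `2a`, and `(2a+1) &&& 2a = 2a` (`Nat.land_..`, via `Nat.eq_of_testBit_eq`), so it is `0` iff `a = 0`.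
`np_half`: if `c/2 = 2^k` then `c = 2^(k+1)`. `np_odd`: an odd number `≥ 3` is no power of two. `np_even_ge`: `4` is a power of two. `Vn_pow`: `k < 10`: `decide +kernel`. `T_ge_two`: `T 3 = 5`, `T 4 = 2`.
`vr_big_even`, `vr_big_odd`: from `Vn_big`. -/

set_option autoImplicit false

namespace Pool.Agent.Lib.MP_a247fa_nt.X

open Set MeasureTheory
open Pool.Agent.Lib.MP_a247fa_nt.W Pool.Agent.Lib.MP_a247fa_nt.V

theorem od_iff (c : ℕ) : od c = true ↔ c % 2 = 1 := by
  have h : Nat.land c 1 = c % 2 := Nat.and_one_is_mod c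
  unfold od
  rw [h]
  exact Iff.of_eq Nat.beq_eq

theorem od_false_iff (c : ℕ) : od c = false ↔ c % 2 = 0 := by
  have h := od_iff c
  rcases hb : od c with _ | _
  · rw [hb] at h
    simp only [Bool.false_eq_true, false_iff] at h
    simp only [true_iff]
    omega
  · rw [hb] at h
    simp only [true_iff] at h
    simp only [Bool.true_eq_false, false_iff]
    omega

theorem Tn_eq (c : ℕ) : Tn c = T c := by
  unfold Tn T
  rcases Nat.mod_two_eq_zero_or_one c with h | h
  · rw [(od_false_iff c).2 h]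
    simp only [cond_false]
    rw [if_pos h]
    exact Nat.shiftRight_one c
  · rw [(od_iff c).2 h]
    simp only [cond_true]
    rw [if_neg (by omega)]
    exact Nat.shiftRight_one _

theorem ch_even {c : ℕ} (h : c % 2 = 0) : ch c = true := by
  unfold ch
  rw [(od_false_iff c).2 h]
  rfl

theorem ch_odd {c : ℕ} (h : c % 2 = 1) : ch c = false := by
  unfold ch
  rw [(od_iff c).2 h]
  rfl

theorem En_odd {c : ℕ} (h : c % 2 = 1) : En c = false := by
  unfold En
  rw [(od_iff c).2 h]
  rfl

set_option maxRecDepth 100000 in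
private theorem nata_small : ∀ c < 54, En c = false := by
  decide +kernel

theorem En_ge {c : ℕ} (h : En c = true) : 54 ≤ c ∧ c % 2 = 0 := by
  constructor
  · by_contra hc
    rw [nata_small c (by omega)] at h
    exact absurd h (by decide)
  · by_contra hc
    rw [En_odd (by omega)] at h
    exact absurd h (by decide)

private theorem nata_blt {c : ℕ} (h : 1024 ≤ c) : Nat.blt c 1024 = false := by
  rcases hb : Nat.blt c 1024 with _ | _
  · rfl
  · rw [Nat.blt_eq] at hb
    omega

theorem En_big {c : ℕ} (h : 1024 ≤ c) (he : c % 2 = 0) : En c = true := by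
  unfold En
  rw [(od_false_iff c).2 he, nata_blt h]
  rfl

theorem Vn_big {c : ℕ} (h : 1024 ≤ c) : Vn c = if c % 2 = 1 then 1168231104 else 962072674 := by
  unfold Vn
  rw [nata_blt h]
  rcases Nat.mod_two_eq_zero_or_one c with he | he
  · rw [(od_false_iff c).2 he, if_neg (by omega)]
    rfl
  · rw [(od_iff c).2 he, if_pos he]
    rfl

theorem vr_nonneg (c : ℕ) : 0 ≤ Vr c := by
  unfold Vr
  exact div_nonneg (Nat.cast_nonneg _) (by norm_num)

theorem vr_big_even {c : ℕ} (h : 1024 ≤ c) (he : c % 2 = 0) : Vr c = 962072674 / 4294967296 := by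
  unfold Vr
  rw [Vn_big h, if_neg (by omega)]
  norm_num

theorem vr_big_odd {c : ℕ} (h : 1024 ≤ c) (ho : c % 2 = 1) : Vr c = 1168231104 / 4294967296 := by
  unfold Vr
  rw [Vn_big h, if_pos ho]
  norm_num

private theorem nata_even (a : ℕ) (ha : 1 ≤ a) : (2 * a) &&& (2 * a - 1) = 2 * (a &&& (a - 1)) := by
  apply Nat.eq_of_testBit_eq
  intro i
  rcases i with _ | i
  · rw [Nat.testBit_and]
    simp [Nat.testBit_zero]
  · rw [Nat.testBit_and, Nat.testBit_succ, Nat.testBit_succ, Nat.testBit_succ]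
    have h1 : 2 * a / 2 = a := by omega
    have h2 : (2 * a - 1) / 2 = a - 1 := by omega
    have h3 : 2 * (a &&& (a - 1)) / 2 = a &&& (a - 1) := by omega
    rw [h1, h2, h3, Nat.testBit_and]

private theorem nata_odd (a : ℕ) : (2 * a + 1) &&& (2 * a) = 2 * a := by
  apply Nat.eq_of_testBit_eq
  intro i
  rcases i with _ | i
  · rw [Nat.testBit_and]
    simp [Nat.testBit_zero]
  · rw [Nat.testBit_and, Nat.testBit_succ, Nat.testBit_succ]
    have h1 : (2 * a + 1) / 2 = a := by omega
    have h2 : 2 * a / 2 = a := by omega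
    rw [h1, h2, Bool.and_self]

private theorem nata_pow (c : ℕ) : 1 ≤ c → ((c &&& (c - 1) = 0) ↔ ∃ k : ℕ, c = 2 ^ k) := by
  induction c using Nat.strong_induction_on with
  | _ c ih =>
    intro hc
    rcases Nat.even_or_odd' c with ⟨a, ha | ha⟩
    · subst ha
      rw [nata_even a (by omega)]
      have h1 := ih a (by omega) (by omega)
      constructor
      · intro h
        obtain ⟨k, hk⟩ := h1.1 (by omega)
        exact ⟨k + 1, by rw [pow_succ, ← hk]; ring⟩
      · rintro ⟨k, hk⟩
        have h2 : ∃ k : ℕ, a = 2 ^ k := by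
          rcases k with _ | k
          · rw [pow_zero] at hk
            omega
          · rw [pow_succ] at hk
            exact ⟨k, by omega⟩
        rw [h1.2 h2]
    · subst ha
      have h0 : 2 * a + 1 - 1 = 2 * a := by omega
      rw [h0, nata_odd a]
      constructor
      · intro h
        exact ⟨0, by rw [pow_zero]; omega⟩
      · rintro ⟨k, hk⟩
        rcases k with _ | k
        · rw [pow_zero] at hk
          omega
        · rw [pow_succ] at hk
          omega

theorem pow2_iff {c : ℕ} (h : 1 ≤ c) : Nat.beq (Nat.land c (Nat.sub c 1)) 0 = true ↔ ∃ k : ℕ, c = 2 ^ k := by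
  rw [← nata_pow c h]
  exact Iff.of_eq Nat.beq_eq

theorem np_half {c : ℕ} (he : c % 2 = 0) (h : NP c) : NP (c / 2) := by
  rintro ⟨k, hk⟩
  exact h ⟨k + 1, by rw [pow_succ, ← hk]; omega⟩

theorem np_odd {c : ℕ} (ho : c % 2 = 1) (h3 : 3 ≤ c) : NP c := by
  rintro ⟨k, hk⟩
  rcases k with _ | k
  · rw [pow_zero] at hk
    omega
  · rw [pow_succ] at hk
    omega

theorem np_even_ge {c : ℕ} (he : c % 2 = 0) (h3 : 3 ≤ c) (h : NP c) : 6 ≤ c := by
  by_contra hc
  have h4 : c = 4 := by omega
  exact h ⟨2, by rw [h4]; norm_num⟩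

theorem T_ge_two {c : ℕ} (h3 : 3 ≤ c) : 2 ≤ T c := by
  unfold T
  split_ifs <;> omega

/-- for `c ≥ 3` the child is a power of two or at least `3` -/
theorem T_ge_three {c : ℕ} (h3 : 3 ≤ c) (h : NP (T c)) : 3 ≤ T c := by
  have h2 := T_ge_two h3
  by_contra hc
  have h4 : T c = 2 := by omega
  exact h ⟨1, by rw [h4]; norm_num⟩

end Pool.Agent.Lib.MP_a247fa_nt.X
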