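import Pool.Agent.Lib.MP_a247fa_nt.X.HrA
import Pool.Agent.Lib.MP_a247fa_nt.X.PsiA
import Pool.Agent.Lib.MP_a247fa_nt.X.NatA

/-! NNM (35 min, old scale).
`KK c s Γ = ∑ (h_i - h_{i+1}) Γ (D_i)` with nonnegative coefficients (`hr_anti`), or `Γ (407/1000)`, or `0`.

`kk_nonneg`, `kk_mono`, `kk_smul`: termwise. `nn_*`: induction on `n` for all `c, s, Γ` (`gm_psi`, `psi_nonneg`). `nn_pow`: `s = true`, `c = 2^k`: `KK = 0` (`k ≥ 1`: even, `s = true`; `k = 0`: `c = 1 < 3` odd); children: `T (2^(k+1)) = 2^k`, `ch = true`; `T 1 = 2`, `ch 1 = false`: `NN n 2 false Γ`: `KK 2 false = 0`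
(`En 2 = false`), child `(1, true)`. So first `nn_one`: `NN n 1 s Γ = 0` and `NN n 2 s Γ = 0` by simultaneous induction on `n`. -/

set_option autoImplicit false

namespace Pool.Agent.Lib.MP_a247fa_nt.X

open Set MeasureTheory
open Pool.Agent.Lib.MP_a247fa_nt.W Pool.Agent.Lib.MP_a247fa_nt.V

private theorem nnm_zc_pos (c : ℕ) : 0 < zc c := by
  unfold zc
  positivity

theorem kk_nonneg {Γ : ℝ → ℝ} (h : GM Γ) (c : ℕ) (s : Bool) : 0 ≤ KK c s Γ := by
  have hz := nnm_zc_pos c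
  have hg : ∀ x : ℝ, 0 ≤ x → 0 ≤ Γ x := fun x hx => (h x x hx le_rfl).1
  obtain ⟨h21, h32, h43, h54, h5⟩ := hr_anti c s
  unfold KK
  split_ifs with h1 h2 h3
  · exact le_rfl
  · have t1 := mul_nonneg (sub_nonneg.2 h21) (hg (zc c * (102 / 512)) (by positivity))
    have t2 := mul_nonneg (sub_nonneg.2 h32) (hg (zc c * (204 / 512)) (by positivity))
    have t3 := mul_nonneg (sub_nonneg.2 h43) (hg (zc c * (308 / 512)) (by positivity))
    have t4 := mul_nonneg (sub_nonneg.2 h54) (hg (zc c) hz.le)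
    have t5 := mul_nonneg h5 (hg (2 * zc c) (by positivity))
    linarith
  · exact hg _ (by norm_num)
  · exact le_rfl

theorem kk_mono {Γ Γ' : ℝ → ℝ} (h : ∀ Z, 0 ≤ Z → Γ Z ≤ Γ' Z) (c : ℕ) (s : Bool) : KK c s Γ ≤ KK c s Γ' := by
  have hz := nnm_zc_pos c
  obtain ⟨h21, h32, h43, h54, h5⟩ := hr_anti c s
  unfold KK
  split_ifs with h1 h2 h3
  · exact le_rfl
  · have t1 := mul_le_mul_of_nonneg_left (h (zc c * (102 / 512)) (by positivity)) (sub_nonneg.2 h21)
    have t2 := mul_le_mul_of_nonneg_left (h (zc c * (204 / 512)) (by positivity)) (sub_nonneg.2 h32)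
    have t3 := mul_le_mul_of_nonneg_left (h (zc c * (308 / 512)) (by positivity)) (sub_nonneg.2 h43)
    have t4 := mul_le_mul_of_nonneg_left (h (zc c) hz.le) (sub_nonneg.2 h54)
    have t5 := mul_le_mul_of_nonneg_left (h (2 * zc c) (by positivity)) h5
    linarith
  · exact h _ (by norm_num)
  · exact le_rfl

private theorem nnm_kk_smul (c : ℕ) (s : Bool) (t : ℝ) (Γ : ℝ → ℝ) :
    KK c s (fun Z => t * Γ Z) = t * KK c s Γ := by
  unfold KK
  split_ifs with h1 h2 h3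
  · ring
  · ring
  · ring
  · ring

theorem nn_nonneg (n c : ℕ) (s : Bool) {Γ : ℝ → ℝ} (h : GM Γ) : 0 ≤ NN n c s Γ := by
  induction n generalizing c s Γ with
  | zero => exact le_rfl
  | succ n ih =>
    show 0 ≤ KK c s Γ + NN n (T c) (ch c) (fun Z => Γ (psi c Z))
    exact add_nonneg (kk_nonneg h c s) (ih (T c) (ch c) (gm_psi c h))

theorem nn_mono (n c : ℕ) (s : Bool) {Γ Γ' : ℝ → ℝ} (h : ∀ Z, 0 ≤ Z → Γ Z ≤ Γ' Z) : NN n c s Γ ≤ NN n c s Γ' := by
  induction n generalizing c s Γ Γ' with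
  | zero => exact le_rfl
  | succ n ih =>
    show KK c s Γ + NN n (T c) (ch c) (fun Z => Γ (psi c Z)) ≤
      KK c s Γ' + NN n (T c) (ch c) (fun Z => Γ' (psi c Z))
    exact add_le_add (kk_mono h c s) (ih (T c) (ch c) (fun Z hZ => h _ (psi_nonneg hZ)))

theorem nn_smul (n c : ℕ) (s : Bool) (t : ℝ) (Γ : ℝ → ℝ) : NN n c s (fun Z => t * Γ Z) = t * NN n c s Γ := by
  induction n generalizing c s Γ with
  | zero =>
    show (0 : ℝ) = t * 0
    ring
  | succ n ih =>
    show KK c s (fun Z => t * Γ Z) + NN n (T c) (ch c) (fun Z => t * Γ (psi c Z)) =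
      t * (KK c s Γ + NN n (T c) (ch c) (fun Z => Γ (psi c Z)))
    rw [nnm_kk_smul, ih (T c) (ch c) (fun Z => Γ (psi c Z))]
    ring

private theorem nnm_T1 : T 1 = 2 := by decide

private theorem nnm_T2 : T 2 = 1 := by decide

private theorem nnm_od1 : od 1 = true := (od_iff 1).2 (by norm_num)

private theorem nnm_od2 : od 2 = false := (od_false_iff 2).2 (by norm_num)

private theorem nnm_En2 : ¬ En 2 = true := fun h => by
  have := (En_ge h).1
  omega

private theorem nnm_one_two (n : ℕ) : ∀ (s : Bool) (Γ : ℝ → ℝ), NN n 1 s Γ = 0 ∧ NN n 2 s Γ = 0 := by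
  induction n with
  | zero => exact fun s Γ => ⟨rfl, rfl⟩
  | succ n ih =>
    intro s Γ
    constructor
    · show KK 1 s Γ + NN n (T 1) (ch 1) (fun Z => Γ (psi 1 Z)) = 0
      rw [nnm_T1, (ih _ _).2, add_zero]
      unfold KK
      rw [if_pos nnm_od1, if_pos (by norm_num)]
    · show KK 2 s Γ + NN n (T 2) (ch 2) (fun Z => Γ (psi 2 Z)) = 0
      rw [nnm_T2, (ih _ _).1, add_zero]
      unfold KK
      rw [if_neg (by rw [nnm_od2]; exact Bool.false_ne_true), if_neg (fun h => nnm_En2 h.2)]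

private theorem nnm_T_pow (k : ℕ) : T (2 ^ (k + 1)) = 2 ^ k := by
  unfold T
  have h : 2 ^ (k + 1) % 2 = 0 := by rw [pow_succ]; exact Nat.mul_mod_left _ _
  rw [if_pos h, pow_succ, Nat.mul_div_cancel _ (by norm_num)]

private theorem nnm_ch_pow (k : ℕ) : ch (2 ^ (k + 1)) = true :=
  ch_even (by rw [pow_succ]; exact Nat.mul_mod_left _ _)

theorem nn_pow (n k : ℕ) (Γ : ℝ → ℝ) : NN n (2 ^ k) true Γ = 0 := by
  induction n generalizing k Γ with
  | zero => rfl
  | succ n ih =>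
    cases k with
    | zero => exact (nnm_one_two (n + 1) true Γ).1
    | succ k =>
      show KK (2 ^ (k + 1)) true Γ + NN n (T (2 ^ (k + 1))) (ch (2 ^ (k + 1)))
        (fun Z => Γ (psi (2 ^ (k + 1)) Z)) = 0
      rw [nnm_T_pow, nnm_ch_pow, ih, add_zero]
      unfold KK
      have hod : od (2 ^ (k + 1)) = false :=
        (od_false_iff _).2 (by rw [pow_succ]; exact Nat.mul_mod_left _ _)
      rw [if_neg (by rw [hod]; exact Bool.false_ne_true), if_neg (fun h => by simp at h)]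

/-- the child of a power of two -/
theorem nn_child_pow {n c : ℕ} (h2 : 2 ≤ c) (hN : ¬ NP c) (Γ : ℝ → ℝ) : NN n (T c) (ch c) Γ = 0 := by
  unfold NP at hN
  rw [not_not] at hN
  obtain ⟨k, rfl⟩ := hN
  cases k with
  | zero => norm_num at h2
  | succ k =>
    rw [nnm_T_pow, nnm_ch_pow]
    exact nn_pow n k Γ

end Pool.Agent.Lib.MP_a247fa_nt.X
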