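import Pool.Agent.Lib.MP_a247fa_nt.W.Final
import Pool.Agent.Lib.MP_a247fa_nt.V.Branch

/-! NULLX (45 min, old scale).
The points of `(n, n+1)` that are never captured form a null set.

Let `NC y` mean `∀ k, ¬ Trp (cf^[k] y) ∧ ¬ Fld (cf^[k] y)`; then `Bad y`. `exists_sys` gives `u v b h` with `hW : WSys u v b h`, and `SS_one_null hW (big_of_sys hW) hi1 : volume (SS 1 u v ∩ Qw i) = 0` (see W.Final, W.SNull, W.BadCover).
Claim: `y ∈ Qw i`, `i ≥ 1`, `NC y` implies `y ∈ Icc (u i) (v i)`. By `(hW.geo i hi1).dich`: `y ∈ Icc (u i) (v i)` or `b i < y`. Suppose `b i < y` (`y < i + 1`, `⌊y⌋₊ = i`, `qw_floor`). By `GeoAt.fold`: `b i = i + 1` (impossible) or `v i < b i`. If `i` is even, `i + 1 ≤ v i` (`GeoAt.even`), impossible. So `i` is odd and `v i < y`. `Br i p q h'` (`exists_br`):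
`y` is neither `Trp` nor `Fld`: `p < y ≤ q`. `v i`: `cf (v i) = pt (lo i) > lo i` (`GeoAt.odd`, `pt_gt`) so `v i` is not `Fld` and `cf (v i) < T i` so it is not `Trp` (`v i ∈ (i, i+1)`, `⌊v i⌋₊ = i`; `pt (lo i) < lo i + 1 ≤ hi i = T i`): `p < v i ≤ q`. `cf` is strictly decreasing on `[p, q]`: `lo i = cf q ≤ cf y < cf (v i) = pt (lo i)`.
So `cf y ∈ Icc (lo i) (pt (lo i)) ⊆ trapI (lo i)` (`pt_mem_trap`; `trapI n = Icc n (..)`), not `Bad` (`not_bad_trap`). But `NC (cf y)`, so `Bad (cf y)`. Contradiction.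
Then `y ∈ SS 1 u v`: for all `k`: `cf^[k] y ∈ Qw j ∩ Icc (u j) (v j)` for some `j ≥ 1`: induction on `k` with `bad_inner` (W.BadCover): `cf` maps `y ∈ Qw i ∩ Icc (u i) (v i)`, `Bad y` to some `Qw j`, `j ≥ 1`.
Start: `y ∈ (n, n+1)`: `y ∉ [n, pt n] ⊆ trapI n` (`not_bad_trap`), so `y ∈ Qw n`. -/

set_option autoImplicit false

namespace Pool.Agent.Lib.MP_a247fa_nt.X

open Set MeasureTheory
open Pool.Agent.Lib.MP_a247fa_nt.W Pool.Agent.Lib.MP_a247fa_nt.V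

private theorem xnul_in {u v b : ℕ → ℝ} {h : ℕ → ℝ → ℝ} (hW : WSys u v b h) {i : ℕ} (hi1 : 1 ≤ i) {y : ℝ} (hy : y ∈ Qw i)
    (hnc : ∀ k : ℕ, ¬ Trp (cf^[k] y) ∧ ¬ Fld (cf^[k] y)) : y ∈ Icc (u i) (v i) := by
  have hbad : Bad y := Or.inl hnc
  have hG := hW.geo i hi1
  rcases hG.dich y hy hbad with h0 | h0
  · exact h0
  exfalso
  have hyQ := hy
  have hy2 : y < (i : ℝ) + 1 := hyQ.2
  have hy1 : (i : ℝ) < y := lt_trans (pt_gt i) hyQ.1
  rcases hG.fold with h1 | ⟨h1, h2, -⟩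
  · rw [h1] at h0
    linarith
  have hvy : v i < y := h1.trans h0
  have hodd : i % 2 = 1 := by
    by_contra hcon
    have := (hG.even (by omega)).2.2.2
    linarith
  obtain ⟨-, hcu, hcv, hv1⟩ := hG.odd hodd
  obtain ⟨p, q, h', hB⟩ := exists_br hi1
  have hyI : y ∈ Ioo (i : ℝ) (i + 1) := ⟨hy1, hy2⟩
  have hiv : (i : ℝ) < v i := by
    have := hG.u_gt
    have := hG.u_lt
    have := pt_gt i
    linarith
  have hvI : v i ∈ Ioo (i : ℝ) (i + 1) := ⟨hiv, hv1⟩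
  have hyt := (hnc 0).1
  have hyf := (hnc 0).2
  simp only [Function.iterate_zero, id_eq] at hyt hyf
  have hpy : p < y := by
    by_contra hcon
    exact hyt ((hB.trp y hyI).2 (not_lt.1 hcon))
  have hyq : y ≤ q := by
    by_contra hcon
    exact hyf ((hB.fld y hyI).2 (not_le.1 hcon))
  have hfl : ⌊v i⌋₊ = i := by
    rw [Nat.floor_eq_iff (by linarith)]
    exact ⟨hiv.le, hv1⟩
  have hlo2 : (2 : ℝ) * ((lo i : ℕ) : ℝ) = i + 1 := by
    have h5 : 2 * lo i = i + 1 := by unfold lo; omega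
    exact_mod_cast h5
  have hlo0 : 1 ≤ lo i := by unfold lo; omega
  have hpl := pt_gt (lo i)
  have hpl2 := pt_lt (lo i) hlo0
  have hlohi : ((lo i : ℕ) : ℝ) + 1 ≤ ((hi i : ℕ) : ℝ) := by
    have : lo i + 1 ≤ hi i := by unfold lo hi; omega
    exact_mod_cast this
  have hT : T i = hi i := by unfold T hi; rw [if_neg (by omega)]; omega
  have hpv : p < v i := by
    by_contra hcon
    have h3 := (hB.trp (v i) hvI).2 (not_lt.1 hcon)
    have h4 := h3.2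
    rw [hfl, hT, hcv] at h4
    linarith
  obtain ⟨hanti, -, -, -, hcq⟩ := hB.odd hodd
  have h5 : cf y < cf (v i) := hanti ⟨hpv.le, by linarith⟩ ⟨hpy.le, hyq⟩ hvy
  have h6 : cf q ≤ cf y := hanti.antitoneOn ⟨hpy.le, hyq⟩ ⟨hB.lt.le, le_refl _⟩ hyq
  rw [hcv] at h5
  rw [hcq] at h6
  have h7 : cf y ∈ trapI (lo i) := ⟨h6, h5.le.trans (pt_mem_trap (lo i)).2⟩
  refine not_bad_trap (m := lo i) (by omega) h7 (Or.inl fun k => ?_)
  have := hnc (k + 1)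
  rwa [Function.iterate_succ_apply] at this

theorem nc_null {n : ℕ} (hn : 1 ≤ n) :
    volume {y : ℝ | (n : ℝ) < y ∧ y < n + 1 ∧ ∀ k : ℕ, ¬ Trp (cf^[k] y) ∧ ¬ Fld (cf^[k] y)} = 0 := by
  obtain ⟨u, v, b, h, hW⟩ := exists_sys
  refine measure_mono_null ?_ (SS_one_null hW (big_of_sys hW) hn)
  rintro y ⟨h1, h2, h3⟩
  have hb : Bad y := Or.inl h3
  have hq : y ∈ Qw n := by
    refine ⟨?_, h2⟩
    by_contra h4
    push Not at h4
    have h5 := pt_mem_trap n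
    exact not_bad_trap (m := n) (by omega) (show y ∈ trapI n from ⟨h1.le, h4.trans h5.2⟩) hb
  have key : ∀ k : ℕ, (∃ j, 1 ≤ j ∧ cf^[k] y ∈ Qw j) := by
    intro k
    induction k with
    | zero => exact ⟨n, hn, hq⟩
    | succ k ih =>
      obtain ⟨j, hj1, hj2⟩ := ih
      have hnck : ∀ l : ℕ, ¬ Trp (cf^[l] (cf^[k] y)) ∧ ¬ Fld (cf^[l] (cf^[k] y)) := by
        intro l
        rw [← Function.iterate_add_apply]
        exact h3 (l + k)
      have hin := xnul_in hW hj1 hj2 hnck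
      obtain ⟨-, j', hj1', hj2'⟩ := bad_inner hW hj1 hj2 hin (Or.inl hnck)
      rw [Function.iterate_succ_apply']
      exact ⟨j', hj1', hj2'⟩
  refine ⟨fun k => ?_, hq⟩
  obtain ⟨j, hj1, hj2⟩ := key k
  have hnck : ∀ l : ℕ, ¬ Trp (cf^[l] (cf^[k] y)) ∧ ¬ Fld (cf^[l] (cf^[k] y)) := by
    intro l
    rw [← Function.iterate_add_apply]
    exact h3 (l + k)
  exact ⟨j, hj1, hj2, xnul_in hW hj1 hj2 hnck⟩

end Pool.Agent.Lib.MP_a247fa_nt.X
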