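import Pool.Agent.Lib.MP_a247fa_nt.X.PsiA

/-! PSNS (30 min, old scale).
`psi c Z' ≤ psn c Z / 2^20` for `0 ≤ Z' ≤ Z/2^20`.

`nw_ge`: for every natural `z`: with real `z' = z/2^20`, `Z' ≤ Z/2^20`, `a = an/20`, `b = bn/20`: the Newton value `w = (Z/2^20 + a z'^2)/(b + 2 a z')` satisfies `a w^2 + b w ≥ Z/2^20` because `a w^2 + b w - Z/2^20 = a (w - z')^2` (tangent of a convex function: `(b + 2 a z') w = Z/2^20 + a z'^2`). And
`w * 2^20 = (20 * Z * 2^20 + an z^2)/(bn 2^20 + 2 an z) ≤ ⌊..⌋ + 1 = nw c Z z`. So `psi_le` with the point `nw c Z z / 2^20 ≥ w` (monotone). `psn` is `nw c Z (..)`. -/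

set_option autoImplicit false

namespace Pool.Agent.Lib.MP_a247fa_nt.X

open Set MeasureTheory
open Pool.Agent.Lib.MP_a247fa_nt.W Pool.Agent.Lib.MP_a247fa_nt.V

private lemma an_pos (c : ℕ) : 0 < an c := by
  unfold an
  cases Nat.blt c 8 <;> cases Nat.blt c 16 <;> cases od c <;> simp

private lemma bn_pos (c : ℕ) : 0 < bn c := by
  unfold bn
  cases Nat.blt c 8 <;> cases Nat.blt c 16 <;> cases od c <;> simp

private lemma nw_ge0 {c Z z : ℕ} : (20 * ((Z : ℝ) * 1048576) + an c * ((z : ℝ) * z)) /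
    ((bn c : ℝ) * 1048576 + 2 * (an c * z)) ≤ nw c Z z := by
  have h1 : nw c Z z = (20 * (Z * 1048576) + an c * (z * z)) /
      (bn c * 1048576 + 2 * (an c * z)) + 1 := by
    unfold nw
    have e1 : Nat.shiftLeft Z 20 = Z * 1048576 := by
      have := Nat.shiftLeft_eq Z 20
      exact this
    have e2 : Nat.shiftLeft (bn c) 20 = bn c * 1048576 := by
      have := Nat.shiftLeft_eq (bn c) 20
      exact this
    rw [e1, e2]
    rfl
  have hpos : 0 < bn c * 1048576 + 2 * (an c * z) := by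
    have := bn_pos c
    positivity
  have h2 := Nat.lt_div_mul_add (a := 20 * (Z * 1048576) + an c * (z * z)) hpos
  have h3 : ((20 * (Z * 1048576) + an c * (z * z) : ℕ) : ℝ) ≤
      (nw c Z z : ℝ) * ((bn c * 1048576 + 2 * (an c * z) : ℕ) : ℝ) := by
    rw [h1]
    have h4 : 20 * (Z * 1048576) + an c * (z * z) ≤
      ((20 * (Z * 1048576) + an c * (z * z)) / (bn c * 1048576 + 2 * (an c * z)) + 1) *
        (bn c * 1048576 + 2 * (an c * z)) := by
      rw [add_mul, one_mul]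
      exact h2.le
    exact_mod_cast h4
  have hpos' : (0 : ℝ) < (bn c : ℝ) * 1048576 + 2 * (an c * z) := by exact_mod_cast hpos
  rw [div_le_iff₀ hpos']
  push_cast at h3
  linarith

theorem nw_ge {c Z z : ℕ} : (Z : ℝ) / 1048576 ≤ gb c * ((nw c Z z : ℝ) / 1048576) + ga c * ((nw c Z z : ℝ) / 1048576) ^ 2 := by
  have ha : (0 : ℝ) < an c := by exact_mod_cast an_pos c
  have hb : (0 : ℝ) < bn c := by exact_mod_cast bn_pos c
  obtain ⟨w, hw⟩ : ∃ w : ℝ, w = (20 * ((Z : ℝ) * 1048576) + an c * ((z : ℝ) * z)) /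
    ((bn c : ℝ) * 1048576 + 2 * (an c * z)) := ⟨_, rfl⟩
  have h1 : w ≤ nw c Z z := by
    rw [hw]
    exact nw_ge0
  have hden : (0 : ℝ) < (bn c : ℝ) * 1048576 + 2 * (an c * z) := by positivity
  have hw0 : 0 ≤ w := by
    rw [hw]
    positivity
  have h2 : w * ((bn c : ℝ) * 1048576 + 2 * (an c * z)) =
      20 * ((Z : ℝ) * 1048576) + an c * ((z : ℝ) * z) := by
    rw [hw]
    field_simp
  have h3 : 20 * ((Z : ℝ) * 1048576) ≤ bn c * 1048576 * w + an c * w ^ 2 := by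
    have h4 : 0 ≤ an c * (w - z) ^ 2 := by positivity
    nlinarith
  have h5 : 20 * ((Z : ℝ) * 1048576) ≤ bn c * 1048576 * (nw c Z z : ℝ) +
      an c * (nw c Z z : ℝ) ^ 2 := by
    refine h3.trans ?_
    gcongr
  unfold ga gb
  have h6 : (bn c : ℝ) / 20 * ((nw c Z z : ℝ) / 1048576) +
      (an c : ℝ) / 20 * ((nw c Z z : ℝ) / 1048576) ^ 2 =
      (bn c * 1048576 * (nw c Z z : ℝ) + an c * (nw c Z z : ℝ) ^ 2) /
        (20 * 1048576 * 1048576) := by
    ring
  rw [h6, div_le_div_iff₀ (by norm_num) (by norm_num)]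
  nlinarith

theorem psi_le_psn {c Z : ℕ} {z : ℝ} (h0 : 0 ≤ z) (h : z ≤ (Z : ℝ) / 1048576) : psi c z ≤ (psn c Z : ℝ) / 1048576 := by
  apply psi_le h0 (by positivity)
  unfold psn
  exact h.trans nw_ge

end Pool.Agent.Lib.MP_a247fa_nt.X
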