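import Pool.Agent.Lib.MP_a247fa_nt.X.Defs

/-! RAMP (40 min, old scale).
A nonnegative convex sequence `v 0, .., v (N-1)` is a nonnegative combination of constants and ramps.

Proof. `N ≤ 1` is trivial (`N = 1`: `v 0 q 0 ≤ 0`). Let `i` be an index `< N` where `v` is minimal (`Finset.exists_min_image`). By convexity (`d k = v (k+1) - v k` is nondecreasing) `v` is nonincreasing before `i` and
nondecreasing after `i`. Put `L k = v (min k i) - v i`, `R k = v (max k i) - v i`: `v k = v i + L k + R k`, `L, R ≥ 0`. `∑ (v i) q ≤ 0` by `ht`.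
`L k = ∑_{j=1}^{i} α j (j - k)_+` with `α i = v (i-1) - v i ≥ 0`, `α j = v (j-1) - 2 v j + v (j+1) ≥ 0` for `1 ≤ j < i` (for fixed `k` both sides are `0` at `k ≥ i`, and downward induction on `k`, differences:
`L (k) - L (k+1) = v k - v (k+1) = ∑_{j=k+1}^{i} α j`, a telescoping sum). So `∑_k L k q k = ∑_j α j ∑_{k<j} (j-k) q k ≤ 0` (`j ≤ i ≤ N-1`). Mirror image for `R`: `R k = ∑_{j=i+1}^{N-1} β j (k - j + 1)_+`,
`β (i+1) = v (i+1) - v i`, `β j = v j - 2 v (j-1) + v (j-2)` for `j > i+1`. It is easiest to prove the `L` part as a lemma for sequences which are convex and nonincreasing with last value `0`, and to get `R` by reflection `k ↦ N-1-k`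
(`Finset.sum_range_reflect`). (Any other proof is fine, e.g. summation by parts twice.) -/

set_option autoImplicit false

namespace Pool.Agent.Lib.MP_a247fa_nt.X

open Set MeasureTheory
open Pool.Agent.Lib.MP_a247fa_nt.W Pool.Agent.Lib.MP_a247fa_nt.V

private lemma abel2 (f q : ℕ → ℝ) (n : ℕ) : ∑ k ∈ Finset.range n, f k * q k =
    f n * ∑ k ∈ Finset.range n, q k + (f n - f (n + 1)) * ∑ k ∈ Finset.range n, ((n : ℝ) - k) * q k +
      ∑ k ∈ Finset.range n, (f k - 2 * f (k + 1) + f (k + 2)) *
        ∑ l ∈ Finset.range (k + 1), (((k + 1 : ℕ) : ℝ) - l) * q l := by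
  induction n with
  | zero => simp
  | succ n ih =>
    have h1 : ∑ k ∈ Finset.range (n + 1), (((n + 1 : ℕ) : ℝ) - k) * q k =
        ∑ k ∈ Finset.range n, ((n : ℝ) - k) * q k + ∑ k ∈ Finset.range (n + 1), q k := by
      rw [Finset.sum_range_succ, Finset.sum_range_succ]
      have h2 : ∑ k ∈ Finset.range n, (((n + 1 : ℕ) : ℝ) - k) * q k =
          ∑ k ∈ Finset.range n, ((n : ℝ) - k) * q k + ∑ k ∈ Finset.range n, q k := by
        rw [← Finset.sum_add_distrib]
        apply Finset.sum_congr rfl
        intro k _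
        push_cast
        ring
      rw [h2]
      push_cast
      ring
    rw [Finset.sum_range_succ (fun k => f k * q k), ih,
      Finset.sum_range_succ (fun k => (f k - 2 * f (k + 1) + f (k + 2)) *
        ∑ l ∈ Finset.range (k + 1), (((k + 1 : ℕ) : ℝ) - l) * q l), h1,
      Finset.sum_range_succ q]
    ring

private lemma left_part {N i : ℕ} {L q : ℕ → ℝ} (h1 : ∀ k, i ≤ k → L k = 0)
    (hi : i ≤ N)
    (h2 : ∀ k < i, 0 ≤ L k - 2 * L (k + 1) + L (k + 2))
    (hf : ∀ j, 1 ≤ j → j ≤ i → ∑ k ∈ Finset.range j, ((j : ℝ) - k) * q k ≤ 0) :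
    ∑ k ∈ Finset.range N, L k * q k ≤ 0 := by
  rw [abel2, h1 N hi, h1 (N + 1) (by omega), zero_mul, sub_zero, zero_mul, zero_add, zero_add]
  apply Finset.sum_nonpos
  intro k _
  by_cases hk : k < i
  · exact mul_nonpos_of_nonneg_of_nonpos (h2 k hk) (hf (k + 1) (by omega) (by omega))
  · rw [h1 k (by omega), h1 (k + 1) (by omega), h1 (k + 2) (by omega)]
    simp

theorem ramp {N : ℕ} {v q : ℕ → ℝ} (h0 : ∀ k < N, 0 ≤ v k) (hc : ∀ k, k + 2 < N → 2 * v (k + 1) ≤ v k + v (k + 2))
    (ht : ∑ k ∈ Finset.range N, q k ≤ 0)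
    (hf : ∀ j, 1 ≤ j → j < N → ∑ k ∈ Finset.range j, ((j : ℝ) - k) * q k ≤ 0)
    (hb : ∀ j, 1 ≤ j → j < N → ∑ k ∈ Finset.Ico j N, ((k : ℝ) - j + 1) * q k ≤ 0) :
    ∑ k ∈ Finset.range N, v k * q k ≤ 0 := by
  rcases Nat.eq_zero_or_pos N with hN | hN
  · subst hN
    simp
  obtain ⟨i, hi, hmin⟩ := Finset.exists_min_image (Finset.range N) v ⟨0, Finset.mem_range.2 hN⟩
  rw [Finset.mem_range] at hi
  have hmin' : ∀ k < N, v i ≤ v k := fun k hk => hmin k (Finset.mem_range.2 hk)
  have hL : ∑ k ∈ Finset.range N, (if k < i then v k - v i else 0) * q k ≤ 0 := by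
    refine left_part (i := i) (L := fun k => if k < i then v k - v i else 0) ?_ hi.le ?_ ?_
    · intro k hk
      exact if_neg (by omega)
    · intro k hk
      by_cases h1 : k + 1 < i
      · have h3 := hc k (by omega)
        have e1 : (if k < i then v k - v i else 0) = v k - v i := if_pos hk
        have e2 : (if k + 1 < i then v (k + 1) - v i else 0) = v (k + 1) - v i := if_pos h1
        have e3 : (if k + 2 < i then v (k + 2) - v i else 0) = v (k + 2) - v i := by
          by_cases h4 : k + 2 < i
          · exact if_pos h4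
          · have h5 : k + 2 = i := by omega
            rw [if_neg h4, h5, sub_self]
        simp only [e1, e2, e3]
        linarith
      · have e1 : (if k < i then v k - v i else 0) = v k - v i := if_pos hk
        have e2 : (if k + 1 < i then v (k + 1) - v i else 0) = 0 := if_neg h1
        have e3 : (if k + 2 < i then v (k + 2) - v i else 0) = 0 := if_neg (by omega)
        simp only [e1, e2, e3]
        have := hmin' k (by omega)
        linarith
    · intro j hj1 hj2
      exact hf j hj1 (by omega)
  have hR : ∑ k ∈ Finset.range N, (if i < k then v k - v i else 0) * q k ≤ 0 := by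
    rw [← Finset.sum_range_reflect]
    refine left_part (i := N - 1 - i) (L := fun k => if i < N - 1 - k then v (N - 1 - k) - v i else 0)
      (q := fun k => q (N - 1 - k)) ?_ (by omega) ?_ ?_
    · intro k hk
      exact if_neg (by omega)
    · intro k hk
      by_cases h1 : k + 1 < N - 1 - i
      · have h3 := hc (N - 1 - (k + 2)) (by omega)
        have t1 : N - 1 - (k + 2) + 1 = N - 1 - (k + 1) := by omega
        have t2 : N - 1 - (k + 2) + 2 = N - 1 - k := by omega
        rw [t1, t2] at h3
        have e1 : (if i < N - 1 - k then v (N - 1 - k) - v i else 0) = v (N - 1 - k) - v i :=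
          if_pos (by omega)
        have e2 : (if i < N - 1 - (k + 1) then v (N - 1 - (k + 1)) - v i else 0) =
          v (N - 1 - (k + 1)) - v i := if_pos (by omega)
        have e3 : (if i < N - 1 - (k + 2) then v (N - 1 - (k + 2)) - v i else 0) =
            v (N - 1 - (k + 2)) - v i := by
          by_cases h4 : i < N - 1 - (k + 2)
          · exact if_pos h4
          · have h5 : N - 1 - (k + 2) = i := by omega
            rw [if_neg h4, h5, sub_self]
        simp only [e1, e2, e3]
        linarith
      · have e1 : (if i < N - 1 - k then v (N - 1 - k) - v i else 0) = v (N - 1 - k) - v i :=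
          if_pos (by omega)
        have e2 : (if i < N - 1 - (k + 1) then v (N - 1 - (k + 1)) - v i else 0) = 0 :=
          if_neg (by omega)
        have e3 : (if i < N - 1 - (k + 2) then v (N - 1 - (k + 2)) - v i else 0) = 0 :=
          if_neg (by omega)
        simp only [e1, e2, e3]
        have := hmin' (N - 1 - k) (by omega)
        linarith
    · intro j hj1 hj2
      have h3 := hb (N - j) (by omega) (by omega)
      rw [Finset.sum_Ico_eq_sum_range] at h3
      have t1 : N - (N - j) = j := by omega
      rw [t1, ← Finset.sum_range_reflect] at h3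
      refine le_trans (le_of_eq ?_) h3
      apply Finset.sum_congr rfl
      intro k hk
      rw [Finset.mem_range] at hk
      have t2 : N - j + (j - 1 - k) = N - 1 - k := by omega
      rw [t2]
      congr 1
      have t3 : ((N - 1 - k : ℕ) : ℝ) = (N : ℝ) - 1 - k := by
        rw [Nat.cast_sub (by omega), Nat.cast_sub (by omega)]
        simp
      have t4 : ((N - j : ℕ) : ℝ) = (N : ℝ) - j := Nat.cast_sub (by omega)
      rw [t3, t4]
      ring
  have hdec : ∑ k ∈ Finset.range N, v k * q k = v i * ∑ k ∈ Finset.range N, q k +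
      ∑ k ∈ Finset.range N, (if k < i then v k - v i else 0) * q k +
      ∑ k ∈ Finset.range N, (if i < k then v k - v i else 0) * q k := by
    rw [Finset.mul_sum, ← Finset.sum_add_distrib, ← Finset.sum_add_distrib]
    apply Finset.sum_congr rfl
    intro k _
    rcases lt_trichotomy k i with h | h | h
    · rw [if_pos h, if_neg (by omega)]
      ring
    · rw [if_neg (by omega), if_neg (by omega), h]
      ring
    · rw [if_neg (by omega), if_pos h]
      ring
  rw [hdec]
  have h5 : v i * ∑ k ∈ Finset.range N, q k ≤ 0 := mul_nonpos_of_nonneg_of_nonpos (h0 i hi) ht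
  linarith

end Pool.Agent.Lib.MP_a247fa_nt.X
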