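import Pool.Agent.Lib.MP_a247fa_nt.X.Ends
import Pool.Agent.Lib.MP_a247fa_nt.X.Core
import Pool.Agent.Lib.MP_a247fa_nt.X.Dec

/-! STEPX (45 min, old scale).
`∫ Nf n ≤ ∫ ph + ∫ th (n+1) a true + ∫ th (n+1) b false` over `(a, b)`.

`dec_itg`: `itg Nf ≤ itg qf a b + R(a) + ∑_{a<c<b} RL c + L(b)`, `R(a) = itg (tau n a true) a (a+1)`, `L(b) = itg (tau n b false) (b-1) b` (regroup the sum: `Finset.sum_add_distrib`, shift).
`th (n+1) c s x ≥ tau n c s x` for even `c` (equality: `kR c s x` is the fold part, `s = true`: `0`), and for odd `c`: `th (n+1) c s x = kR c s x + tau n c s x` (fold part of `tau` is `0`: `En c = false`). So it is enough that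
`itg (qf - ph) a b + ∑_{a<c<b} RL c ≤ [a odd] itg (kR a true) a b + [b odd] itg (kR b false) a b` (`kR ≥ 0`, `th ≥ 0`, integrals over `(a, b)` are `≥` those over parts).
Let `k = a` (even) or `a + 1` (odd), `l = b` or `b - 1`: both even, `k < l` (`b ≥ a + 3`), `k ≥ 2`. `core` for `k, l`. If `a` is odd add `end_left` (`c = k = a+1` is interior), if `b` is odd add `end_right`; the shares `SR k`, `SL l` cancel; if `a` is even drop `SR k ≥ 0`, similarly `SL l ≥ 0`. -/

set_option autoImplicit false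

namespace Pool.Agent.Lib.MP_a247fa_nt.X

open Set MeasureTheory
open Pool.Agent.Lib.MP_a247fa_nt.W Pool.Agent.Lib.MP_a247fa_nt.V

private theorem StepX_kR_nonneg (c : ℕ) (s : Bool) (x : ℝ) : 0 ≤ kR c s x := by
  unfold kR
  split_ifs <;> first | exact le_rfl | exact zero_le_one | exact hr_nonneg _ _ _

private theorem StepX_even {n c : ℕ} {s : Bool} (he : c % 2 = 0) : th (n + 1) c s = tau n c s := by
  funext x
  have h1 : ¬ od c = true := by rw [od_iff]; omega
  show kR c s x + _ = _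
  unfold kR
  rw [if_neg h1]
  rfl

private theorem StepX_odd {n c : ℕ} {s : Bool} (ho : c % 2 = 1) :
    th (n + 1) c s = fun x => kR c s x + tau n c s x := by
  funext x
  show kR c s x + _ = kR c s x + tau n c s x
  unfold tau
  rw [if_neg (by rintro ⟨-, h, -⟩; rw [En_odd ho] at h; exact absurd h (by decide) :
    ¬ (s = false ∧ En c = true ∧ Fld x ∧ adj c false x)), zero_add]

private theorem StepX_part {ν : Measure ℝ} [IsFiniteMeasure ν] [NullSingletonClass ν] {F : ℝ → ℝ}
    (hF : BM F) (h0 : ∀ x, 0 ≤ F x) {u u' v' v : ℝ} (h1 : u ≤ u') (h2 : u' ≤ v') (h3 : v' ≤ v) :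
    itg ν F u' v' ≤ itg ν F u v := by
  have e1 := itg_split (ν := ν) hF (x := u) (y := u') (z := v) h1 (h2.trans h3)
  have e2 := itg_split (ν := ν) hF (x := u') (y := v') (z := v) h2 h3
  have e3 : 0 ≤ itg ν F u u' := itg_nonneg fun t _ => h0 t
  have e4 : 0 ≤ itg ν F v' v := itg_nonneg fun t _ => h0 t
  linarith

private theorem StepX_sr (ν : Measure ℝ) (c : ℕ) : 0 ≤ SR ν c := by
  unfold SR
  split_ifs
  · exact mul_nonneg (wr_nonneg c) (mu_nonneg _ _ _)
  · exact mul_nonneg (by linarith [wr_nonneg c]) (mu_nonneg _ _ _)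

private theorem StepX_sl (ν : Measure ℝ) (c : ℕ) : 0 ≤ SL ν c := by
  unfold SL
  split_ifs
  · exact mul_nonneg (wr_nonneg c) (mu_nonneg _ _ _)
  · exact mul_nonneg (by linarith [wr_nonneg c]) (mu_nonneg _ _ _)

private theorem StepX_left {ν : Measure ℝ} {n a b : ℕ} (h1 : 1 ≤ a) (hab : a + 3 ≤ b) (hν : CR ν a b) :
    ∃ k : ℕ, k % 2 = 0 ∧ 2 ≤ k ∧ a ≤ k ∧ k ≤ a + 1 ∧
      itg ν (fun x => qf x - ph x) a k + ∑ c ∈ Finset.Ico (a + 1) (k + 1), RL ν n c ≤
        (itg ν (th (n + 1) a true) a b - itg ν (tau n a true) a (a + 1)) + SR ν k := by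
  have fin := hν.fin
  have noat := hν.noat
  have habr : (a : ℝ) + 3 ≤ b := by exact_mod_cast hab
  have ht := StepX_part (ν := ν) (bm_tau n a true) (fun x => tau_nonneg n a true x)
    (u := (a : ℝ)) (u' := a) (v' := (a : ℝ) + 1) (v := b) le_rfl (by linarith) (by linarith)
  rcases (by omega : a % 2 = 0 ∨ a % 2 = 1) with he | ho
  · refine ⟨a, he, by omega, le_rfl, by omega, ?_⟩
    rw [StepX_even he, Finset.Ico_self, Finset.sum_empty]
    have e : itg ν (fun x => qf x - ph x) a a = 0 := by simp [itg]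
    rw [e]
    have := StepX_sr ν a
    linarith
  · refine ⟨a + 1, by omega, by omega, by omega, le_rfl, ?_⟩
    have h := end_left (n := n) hν ho h1 (by linarith)
    have e3 : Finset.Ico (a + 1) (a + 1 + 1) = {a + 1} := by
      ext c
      simp only [Finset.mem_Ico, Finset.mem_singleton]
      omega
    rw [e3, Finset.sum_singleton, StepX_odd ho, itg_add (bm_kR a true) (bm_tau n a true)]
    have hk := StepX_part (ν := ν) (bm_kR a true) (fun x => StepX_kR_nonneg a true x)
      (u := (a : ℝ)) (u' := a) (v' := (a : ℝ) + 2) (v := b) le_rfl (by linarith) (by linarith)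
    push_cast
    linarith

private theorem StepX_right {ν : Measure ℝ} {n a b : ℕ} (hab : a + 3 ≤ b) (hν : CR ν a b) :
    ∃ l : ℕ, l % 2 = 0 ∧ l ≤ b ∧ b ≤ l + 1 ∧
      itg ν (fun x => qf x - ph x) l b + ∑ c ∈ Finset.Ico l b, RL ν n c ≤
        (itg ν (th (n + 1) b false) a b - itg ν (tau n b false) ((b : ℝ) - 1) b) + SL ν l := by
  have fin := hν.fin
  have noat := hν.noat
  have habr : (a : ℝ) + 3 ≤ b := by exact_mod_cast hab
  have ht := StepX_part (ν := ν) (bm_tau n b false) (fun x => tau_nonneg n b false x)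
    (u := (a : ℝ)) (u' := (b : ℝ) - 1) (v' := (b : ℝ)) (v := b) (by linarith) (by linarith) le_rfl
  rcases (by omega : b % 2 = 0 ∨ b % 2 = 1) with he | ho
  · refine ⟨b, he, le_rfl, by omega, ?_⟩
    rw [StepX_even he, Finset.Ico_self, Finset.sum_empty]
    have e : itg ν (fun x => qf x - ph x) b b = 0 := by simp [itg]
    rw [e]
    have := StepX_sl ν b
    linarith
  · refine ⟨b - 1, by omega, by omega, by omega, ?_⟩
    have h := end_right (n := n) hν ho (by omega) (by linarith)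
    have e3 : Finset.Ico (b - 1) b = {b - 1} := by
      ext c
      simp only [Finset.mem_Ico, Finset.mem_singleton]
      omega
    have hb1 : ((b - 1 : ℕ) : ℝ) = (b : ℝ) - 1 := by
      rw [Nat.cast_sub (by omega)]
      norm_num
    rw [e3, Finset.sum_singleton, StepX_odd ho, itg_add (bm_kR b false) (bm_tau n b false), hb1]
    have hk := StepX_part (ν := ν) (bm_kR b false) (fun x => StepX_kR_nonneg b false x)
      (u := (a : ℝ)) (u' := (b : ℝ) - 2) (v' := (b : ℝ)) (v := b) (by linarith) (by linarith) le_rfl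
    linarith

private theorem StepX_sum (A B : ℕ → ℝ) {a b : ℕ} (hab : a < b) :
    ∑ c ∈ Finset.Ico a b, (A c + B (c + 1)) = A a + ∑ c ∈ Finset.Ico (a + 1) b, (A c + B c) + B b := by
  rw [Finset.sum_add_distrib, Finset.sum_add_distrib, Finset.sum_eq_sum_Ico_succ_bot hab,
    Finset.sum_Ico_add' (fun c => B c) a b 1, Finset.sum_Ico_succ_top (by omega : a + 1 ≤ b)]
  ring

theorem step_x {ν : Measure ℝ} {n a b : ℕ} (h1 : 1 ≤ a) (hab : a + 3 ≤ b) (hν : CR ν a b) :
    itg ν (Nf n) a b ≤ itg ν ph a b + itg ν (th (n + 1) a true) a b + itg ν (th (n + 1) b false) a b := by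
  have fin := hν.fin
  have noat := hν.noat
  have habr : (a : ℝ) + 3 ≤ b := by exact_mod_cast hab
  have bm : BM (fun x => qf x - ph x) := bm_sub bm_qf bm_ph
  have hd := dec_itg (ν := ν) n h1 (by omega : a ≤ b)
  have e1 : ∑ c ∈ Finset.Ico a b, (itg ν (tau n c true) c (c + 1) +
      itg ν (tau n (c + 1) false) c (c + 1)) = itg ν (tau n a true) a (a + 1) +
      ∑ c ∈ Finset.Ico (a + 1) b, RL ν n c + itg ν (tau n b false) ((b : ℝ) - 1) b := by
    have h := StepX_sum (fun c => itg ν (tau n c true) c (c + 1))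
      (fun c => itg ν (tau n c false) ((c : ℝ) - 1) c) (a := a) (b := b) (by omega)
    rw [show ∑ c ∈ Finset.Ico a b, (itg ν (tau n c true) c (c + 1) +
      itg ν (tau n (c + 1) false) c (c + 1)) = ∑ c ∈ Finset.Ico a b,
        ((fun c : ℕ => itg ν (tau n c true) c (c + 1)) c +
          (fun c : ℕ => itg ν (tau n c false) ((c : ℝ) - 1) c) (c + 1)) from ?_, h]
    · rfl
    · refine Finset.sum_congr rfl fun c _ => ?_
      have : (((c + 1 : ℕ) : ℝ)) - 1 = (c : ℝ) := by push_cast; ring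
      simp only [this]
      push_cast
      rfl
  rw [e1] at hd
  obtain ⟨k, hk, hk2, hak, hka, hL⟩ := StepX_left (n := n) h1 hab hν
  obtain ⟨l, hl, hlb, hbl, hR⟩ := StepX_right (n := n) hab hν
  have hkl : k < l := by omega
  have hakr : (a : ℝ) ≤ k := by exact_mod_cast hak
  have hlbr : (l : ℝ) ≤ b := by exact_mod_cast hlb
  have hklr : (k : ℝ) ≤ l := by exact_mod_cast hkl.le
  have hc := core (n := n) hν hk hl hk2 hkl hakr hlbr
  have s1 := itg_split (ν := ν) bm (x := (a : ℝ)) (y := k) (z := b) hakr (hklr.trans hlbr)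
  have s2 := itg_split (ν := ν) bm (x := (k : ℝ)) (y := l) (z := b) hklr hlbr
  have s3 := itg_sub (ν := ν) bm_qf bm_ph (a : ℝ) b
  have t1 : ∑ c ∈ Finset.Ico (a + 1) b, RL ν n c = ∑ c ∈ Finset.Ico (a + 1) (k + 1), RL ν n c +
      ∑ c ∈ Finset.Ico (k + 1) l, RL ν n c + ∑ c ∈ Finset.Ico l b, RL ν n c := by
    rw [Finset.sum_Ico_consecutive _ (by omega) (by omega), Finset.sum_Ico_consecutive _ (by omega) (by omega)]
  rw [t1] at hd
  linarith

end Pool.Agent.Lib.MP_a247fa_nt.X
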