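import Pool.Agent.Lib.MP_a247fa_nt.X.LvB
import Pool.Agent.Lib.MP_a247fa_nt.X.NNm

/-! TTL (45 min, old scale).
`NN n (T c) (ch c) (psi c) ≤ Vr c` for `c ≥ 2048` not a power of two, given the same for smaller `n` (`IH`). `c' = T c`. `n = 0` trivial; write `n + 1`: `NN (n+1) c' (ch c) (psi c) = KK c' (ch c) (psi c) + NN n (T c') (ch c') (psi c ∘ psi c')`.
Remainder: if `c'` is a power of two it is `0` (`nn_child_pow`); otherwise `psi c (psi c' Z) ≤ psi c' Z / gb c` (`psi_le_div`), so it is `≤ Vr c' / gb c` (`nn_mono`, `nn_smul`, `IH`). In all cases `≤ Vr c'/gb c`.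
`levels`: for odd `c' ≥ 1025` and `G = (61/50, 109/100, 63/100, 11/100, 11/100)`: `KK c' s (psi c) ≤ (1/c') [(0.13) psi(ζ' 102/512) + 0.46 psi(ζ' 204/512) + 0.52 psi(ζ' 308/512) + 0.11 psi(2ζ')]` (`ζ' = 2c'+1`; KK is monotone in the levels, summation by parts as in VcnS; `lvb`). `(1/c') psi (ζ' y)` is decreasing in `c'`: `ζ' y = t * (2051 y)` with
`t = ζ'/2051 ≥ 1` (`psi_smul`) and `ζ'/c' ≤ 2051/1025`. So it is enough at `c' = 1025`.
 (1) `c` even, `c' = c/2 ≥ 1024`; `ga c = 11/20, gb c = 8/5`. `c'` odd: `psi(408.7) ≤ 25.9`, `psi(817.3) ≤ 37.2`, `psi(1233.9) ≤ 46.0`, `psi(4102) ≤ 84.93` (`psi_le`: `0.55 z^2 + 1.6 z ≥ Z`): sum `≤ (0.13*25.9 + 0.46*37.2 + 0.52*46.0 + 0.11*84.93)/1025 = 53.742/1025 ≤ 0.0525`. `0.0525 + (0.272)/1.6 = 0.2225 ≤ 0.2239 ≤ Vr c`.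
     `c'` even: `KK = 0` (`ch c = true`), `Vr c'/1.6 ≤ 0.14`.
 (2) `c` odd, `c' = (3c+1)/2 ≥ 3074`, side `false`; `ga = 17/10, gb = 43/20`. `c'` even: `KK ≤ psi c (0.407) ≤ 0.1672` (`1.7 * 0.1672^2 + 2.15 * 0.1672 = 0.407004`), remainder `≤ 0.224/2.15 ≤ 0.1042`: sum `≤ 0.2714 ≤ 0.27199 ≤ Vr c`. `c'` odd: levels with `psi z ≤ √(z/1.7)`-type numbers at `1025`: crude: `psi(408.7) ≤ 15`,
     `psi(817.3) ≤ 22`, `psi(1233.9) ≤ 27`, `psi(4102) ≤ 49`: `(1.95 + 10.12 + 14.04 + 5.39)/1025 ≤ 0.031`, plus `0.272/2.15 ≤ 0.127`: `≤ 0.158`. -/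

set_option autoImplicit false

namespace Pool.Agent.Lib.MP_a247fa_nt.X

open Set MeasureTheory
open Pool.Agent.Lib.MP_a247fa_nt.W Pool.Agent.Lib.MP_a247fa_nt.V

private theorem TTl_scale (c : ℕ) {d : ℕ} (h : 1025 ≤ d) {y q : ℝ} (hy : 0 ≤ y)
    (hq : psi c (2051 * y) ≤ q) : psi c (zc d * y) ≤ (d : ℝ) * (q / 1025) := by
  have hd : (1025 : ℝ) ≤ d := by exact_mod_cast h
  have hz : zc d = 2 * (d : ℝ) + 1 := rfl
  have ht : 1 ≤ zc d / 2051 := by
    rw [hz, le_div_iff₀ (by norm_num)]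
    linarith
  have h1 := psi_smul (c := c) ht (show 0 ≤ 2051 * y by positivity)
  have e : zc d / 2051 * (2051 * y) = zc d * y := by ring
  rw [e] at h1
  have hq0 : 0 ≤ q := (psi_nonneg (c := c) (show 0 ≤ 2051 * y by positivity)).trans hq
  have h2 : zc d / 2051 * psi c (2051 * y) ≤ zc d / 2051 * q :=
    mul_le_mul_of_nonneg_left hq (by linarith)
  have h3 : zc d / 2051 ≤ (d : ℝ) / 1025 := by
    rw [hz, div_le_div_iff₀ (by norm_num) (by norm_num)]
    linarith
  have h4 := mul_le_mul_of_nonneg_right h3 hq0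
  calc psi c (zc d * y) ≤ zc d / 2051 * psi c (2051 * y) := h1
    _ ≤ zc d / 2051 * q := h2
    _ ≤ (d : ℝ) / 1025 * q := h4
    _ = (d : ℝ) * (q / 1025) := by ring

private theorem TTl_levels (c : ℕ) (s : Bool) {d : ℕ} (ho : d % 2 = 1) (h : 1025 ≤ d)
    {q1 q2 q3 q5 : ℝ} (h1 : psi c (2051 * (102 / 512)) ≤ q1) (h2 : psi c (2051 * (204 / 512)) ≤ q2)
    (h3 : psi c (2051 * (308 / 512)) ≤ q3) (h5 : psi c (2051 * 2) ≤ q5) :
    KK d s (psi c) ≤ (13 / 100 * q1 + 46 / 100 * q2 + 52 / 100 * q3 + 11 / 100 * q5) / 1025 := by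
  have hd : (1025 : ℝ) ≤ d := by exact_mod_cast h
  have hd0 : (0 : ℝ) < d := by linarith
  have hz : 0 < zc d := by
    unfold zc
    positivity
  have e : KK d s (psi c) = (hr 1 d s - hr 2 d s) * psi c (zc d * (102 / 512)) +
          (hr 2 d s - hr 3 d s) * psi c (zc d * (204 / 512)) +
          (hr 3 d s - hr 4 d s) * psi c (zc d * (308 / 512)) + (hr 4 d s - hr 5 d s) * psi c (zc d) +
          hr 5 d s * psi c (2 * zc d) := by
    unfold KK
    rw [if_pos ((od_iff d).mpr ho), if_neg (by omega)]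
  obtain ⟨g1, g2, g3, g4, g5⟩ := lvb s ho h
  have m1 : psi c (zc d * (102 / 512)) ≤ psi c (zc d * (204 / 512)) :=
    psi_mono (by positivity) (by nlinarith)
  have m2 : psi c (zc d * (204 / 512)) ≤ psi c (zc d * (308 / 512)) :=
    psi_mono (by positivity) (by nlinarith)
  have m3 : psi c (zc d * (308 / 512)) ≤ psi c (zc d) :=
    psi_mono (by positivity) (by nlinarith)
  have m4 : psi c (zc d) ≤ psi c (2 * zc d) := psi_mono (by positivity) (by nlinarith)
  have m0 : 0 ≤ psi c (zc d * (102 / 512)) := psi_nonneg (by positivity)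
  have s1 := TTl_scale c h (show (0 : ℝ) ≤ 102 / 512 by norm_num) h1
  have s2 := TTl_scale c h (show (0 : ℝ) ≤ 204 / 512 by norm_num) h2
  have s3 := TTl_scale c h (show (0 : ℝ) ≤ 308 / 512 by norm_num) h3
  have s5 := TTl_scale c h (show (0 : ℝ) ≤ 2 by norm_num) h5
  rw [mul_comm (zc d) 2] at s5
  rw [e]
  generalize psi c (zc d * (102 / 512)) = P1 at *
  generalize psi c (zc d * (204 / 512)) = P2 at *
  generalize psi c (zc d * (308 / 512)) = P3 at *
  generalize psi c (zc d) = P4 at *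
  generalize psi c (2 * zc d) = P5 at *
  have b1 := mul_le_mul_of_nonneg_right g1 m0
  have b2 := mul_le_mul_of_nonneg_right g2 (sub_nonneg.mpr m1)
  have b3 := mul_le_mul_of_nonneg_right g3 (sub_nonneg.mpr m2)
  have b4 := mul_le_mul_of_nonneg_right g4 (sub_nonneg.mpr m3)
  have b5 := mul_le_mul_of_nonneg_right g5 (sub_nonneg.mpr m4)
  have hsum : (hr 1 d s - hr 2 d s) * P1 + (hr 2 d s - hr 3 d s) * P2 + (hr 3 d s - hr 4 d s) * P3 +
      (hr 4 d s - hr 5 d s) * P4 + hr 5 d s * P5 ≤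
      (13 / 100 * P1 + 46 / 100 * P2 + 52 / 100 * P3 + 11 / 100 * P5) / d := by
    have e2 : (13 / 100 * P1 + 46 / 100 * P2 + 52 / 100 * P3 + 11 / 100 * P5) / d =
        61 / 50 / d * P1 + 109 / 100 / d * (P2 - P1) + 63 / 100 / d * (P3 - P2) +
        11 / 100 / d * (P4 - P3) + 11 / 100 / d * (P5 - P4) := by
      field_simp
      ring
    rw [e2]
    linarith
  refine hsum.trans ?_
  rw [div_le_iff₀ hd0]
  calc 13 / 100 * P1 + 46 / 100 * P2 + 52 / 100 * P3 + 11 / 100 * P5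
      ≤ 13 / 100 * ((d : ℝ) * (q1 / 1025)) + 46 / 100 * ((d : ℝ) * (q2 / 1025)) +
        52 / 100 * ((d : ℝ) * (q3 / 1025)) + 11 / 100 * ((d : ℝ) * (q5 / 1025)) := by linarith
    _ = (13 / 100 * q1 + 46 / 100 * q2 + 52 / 100 * q3 + 11 / 100 * q5) / 1025 * d := by ring

theorem tt_large {n c : ℕ} (IH : ∀ n' < n, ∀ c', 3 ≤ c' → NP c' → NN n' (T c') (ch c') (psi c') ≤ Vr c') (h : 2048 ≤ c)
    (hN : NP c) : NN n (T c) (ch c) (psi c) ≤ Vr c := by
  rcases n with _ | n
  · have e : NN 0 (T c) (ch c) (psi c) = 0 := by simp only [NN]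
    rw [e]
    exact vr_nonneg c
  have e : NN (n + 1) (T c) (ch c) (psi c) = KK (T c) (ch c) (psi c) +
      NN n (T (T c)) (ch (T c)) (fun Z => psi c (psi (T c) Z)) := by simp only [NN]
  rw [e]
  have hgb := gb_ge c
  have hgb0 : 0 < gb c := by linarith
  have hT2 : 2 ≤ T c := T_ge_two (by omega)
  have hR : NN n (T (T c)) (ch (T c)) (fun Z => psi c (psi (T c) Z)) ≤ Vr (T c) / gb c := by
    by_cases hN' : NP (T c)
    · have h1 : NN n (T (T c)) (ch (T c)) (fun Z => psi c (psi (T c) Z)) ≤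
          NN n (T (T c)) (ch (T c)) (fun Z => 1 / gb c * psi (T c) Z) := by
        refine nn_mono _ _ _ ?_
        intro Z hZ
        refine (psi_le_div (psi_nonneg hZ)).trans (le_of_eq ?_)
        ring
      rw [nn_smul] at h1
      refine h1.trans ?_
      have h2 := IH n (Nat.lt_succ_self n) (T c) (T_ge_three (by omega) hN') hN'
      calc 1 / gb c * NN n (T (T c)) (ch (T c)) (psi (T c)) ≤ 1 / gb c * Vr (T c) :=
            mul_le_mul_of_nonneg_left h2 (by positivity)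
        _ = Vr (T c) / gb c := by ring
    · rw [nn_child_pow hT2 hN']
      exact div_nonneg (vr_nonneg _) hgb0.le
  rcases Nat.mod_two_eq_zero_or_one c with he | ho
  · -- even
    obtain ⟨ga1, gb1⟩ := gab_even (c := c) (by omega) he
    have hT : T c = c / 2 := by
      unfold T
      rw [if_pos he]
    rw [ch_even he]
    rw [vr_big_even (by omega) he]
    rw [gb1] at hR
    rcases Nat.mod_two_eq_zero_or_one (T c) with he' | ho'
    · have hK : KK (T c) true (psi c) = 0 := by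
        unfold KK
        rw [if_neg (by rw [(od_false_iff (T c)).mpr he']; simp), if_neg (by simp)]
      rw [vr_big_even (by omega) he'] at hR
      rw [hK]
      norm_num at hR ⊢
      linarith
    · rw [vr_big_odd (by omega) ho'] at hR
      have hps : ∀ {z Z : ℝ}, 0 ≤ Z → 0 ≤ z → Z ≤ 8 / 5 * z + 11 / 20 * z ^ 2 → psi c Z ≤ z := by
        intro z Z hZ hz hh
        exact psi_le hZ hz (by rw [ga1, gb1]; exact hh)
      have hK := TTl_levels c true ho' (by omega)
        (q1 := 259 / 10) (q2 := 372 / 10) (q3 := 46) (q5 := 8493 / 100)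
        (hps (by norm_num) (by norm_num) (by norm_num)) (hps (by norm_num) (by norm_num) (by norm_num))
        (hps (by norm_num) (by norm_num) (by norm_num)) (hps (by norm_num) (by norm_num) (by norm_num))
      norm_num at hK hR ⊢
      linarith
  · -- odd
    obtain ⟨ga1, gb1⟩ := gab_odd (c := c) (by omega) ho
    have hT : T c = (3 * c + 1) / 2 := by
      unfold T
      rw [if_neg (by omega)]
    rw [ch_odd ho]
    rw [vr_big_odd (by omega) ho]
    rw [gb1] at hR
    have hps : ∀ {z Z : ℝ}, 0 ≤ Z → 0 ≤ z → Z ≤ 43 / 20 * z + 17 / 10 * z ^ 2 → psi c Z ≤ z := by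
      intro z Z hZ hz hh
      exact psi_le hZ hz (by rw [ga1, gb1]; exact hh)
    rcases Nat.mod_two_eq_zero_or_one (T c) with he' | ho'
    · have hp : psi c (407 / 1000) ≤ 1672 / 10000 :=
        hps (by norm_num) (by norm_num) (by norm_num)
      have hK : KK (T c) false (psi c) ≤ 1672 / 10000 := by
        unfold KK
        rw [if_neg (by rw [(od_false_iff (T c)).mpr he']; simp)]
        split_ifs
        · exact hp
        · norm_num
      rw [vr_big_even (by omega) he'] at hR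
      norm_num at hK hR ⊢
      linarith
    · rw [vr_big_odd (by omega) ho'] at hR
      have hK := TTl_levels c false ho' (by omega)
        (q1 := 15) (q2 := 22) (q3 := 27) (q5 := 49)
        (hps (by norm_num) (by norm_num) (by norm_num)) (hps (by norm_num) (by norm_num) (by norm_num))
        (hps (by norm_num) (by norm_num) (by norm_num)) (hps (by norm_num) (by norm_num) (by norm_num))
      norm_num at hK hR ⊢
      linarith

end Pool.Agent.Lib.MP_a247fa_nt.X
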