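import Pool.Agent.Lib.MP_a247fa_nt.X.TubA
import Pool.Agent.Lib.MP_a247fa_nt.X.NatA

/-! TUBB (50 min, old scale).
Checker. Unit `S = 2^64 = 18446744073709551616`. `ltb (fuel) m D : Bool` in natural numbers (`Nat.rec` on the fuel, `cond`, as in NDefs):
 fuel `0`: false; `m = 1`: `50 D ≤ S`; `m` even: `100 (2m+1) D ≤ 120 S` and `ltb (m/2) (min (D/2 + 1) (540 S / (10000 (2m+1)) + 1))`; `m` odd: `10 D ≤ 3 S` and `ltb (T m) (3D/2 + 1 + 12338 (2m+1) D^2 / (10000 S) + 1)` (all divisions rounded down).
Soundness (induction on the fuel): if `ltb f m D = true`, `1 ≤ m`, `m - D/S ≤ x ≤ m`, then `(Conv x ∨ x ∈ Exc) ∧ ∃ j, T^[j] m = 1`. `m = 1`: `49/50 ≤ x ≤ 1`: `toOne_left`, `conv_of_toOne`. Even `m`: `m/2` reaches `1`, so `m` does; `tube_even` with `r = D/S`: either `cf x ∈ trapI (m/2)`: if `x ∉ Exc` then `cf x ∉ Exc` (`exc_iter 1`), `conv_trap`;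
or `cf x` is in the next interval: induction. Odd `m ≥ 3`: `tube_odd`. Going back from `cf x` to `x`: `conv_back` (`Dens.cinv_attracted`, see `vf_attr`, `vf_conv` in V.Final) and `exc_iter 1`.
Kernel check: for all even `4 ≤ e < 1024` with `En e = false`: `ltb 100 (e/2) (540 S/(10000 (2e+1)) + 1) = true` (at most 90 steps each; I have checked it: 333 numbers pass). `tube_all`: `En e = false` and `e` even give `e < 1024` (`En_big`); `fld_depth`. -/

set_option autoImplicit false

namespace Pool.Agent.Lib.MP_a247fa_nt.X

open Set MeasureTheory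
open Pool.Agent.Lib.MP_a247fa_nt.W Pool.Agent.Lib.MP_a247fa_nt.V

open Pool.Agent.Lib.MP_a247fa_nt.Ver in
theorem conv_back {x : ℝ} (hx : 0 < x) (h : Conv (cf x)) : Conv x := by
  rcases h with h | h
  · exact Or.inl ((Dens.cinv_attracted _ x hx).2 h)
  · exact Or.inr ((Dens.cinv_attracted _ x hx).2 h)

/-- the checker; the unit is `2^64` -/
private def tubL (f : ℕ) : ℕ → ℕ → Bool :=
  Nat.rec (fun _ _ => false)
    (fun _ ih m D =>
      cond (Nat.beq m 1) (Nat.ble (Nat.mul 50 D) 18446744073709551616)
        (cond (od m)
          (cond (Nat.ble (Nat.mul 10 D) 55340232221128654848)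
            (ih (Tn m) (Nat.add (Nat.add (Nat.div (Nat.mul 3 D) 2) 1)
              (Nat.add (Nat.div (Nat.mul (Nat.mul 12338 (Nat.add (Nat.mul 2 m) 1)) (Nat.mul D D))
                184467440737095516160000) 1))) false)
          (cond (Nat.ble (Nat.mul (Nat.mul 5 (Nat.add (Nat.mul 2 m) 1)) D) 110680464442257309696)
            (ih (Nat.div m 2)
              (cond (Nat.ble (Nat.add (Nat.div D 2) 1)
                  (Nat.add (Nat.div 9961241799803157872640 (Nat.mul 10000 (Nat.add (Nat.mul 2 m) 1))) 1))
                (Nat.add (Nat.div D 2) 1)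
                (Nat.add (Nat.div 9961241799803157872640 (Nat.mul 10000 (Nat.add (Nat.mul 2 m) 1))) 1)))
            false))) f

private theorem tub_ble (a b : ℕ) : Nat.ble a b = decide (a ≤ b) := by
  by_cases h : a ≤ b
  · rw [decide_eq_true h]
    exact Nat.ble_eq.mpr h
  · rw [decide_eq_false h]
    by_contra hc
    rw [Bool.not_eq_false] at hc
    exact h (Nat.ble_eq.mp hc)

private theorem tubL_succ (f m D : ℕ) : tubL (f + 1) m D =
    cond (Nat.beq m 1) (decide (50 * D ≤ 18446744073709551616))
      (cond (od m)
        (cond (decide (10 * D ≤ 55340232221128654848))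
          (tubL f (Tn m) (3 * D / 2 + 1 + (12338 * (2 * m + 1) * (D * D) / 184467440737095516160000 + 1)))
          false)
        (cond (decide (5 * (2 * m + 1) * D ≤ 110680464442257309696))
          (tubL f (m / 2) (cond (decide (D / 2 + 1 ≤ 9961241799803157872640 / (10000 * (2 * m + 1)) + 1))
            (D / 2 + 1) (9961241799803157872640 / (10000 * (2 * m + 1)) + 1)))
          false)) := by
  rw [← tub_ble, ← tub_ble, ← tub_ble, ← tub_ble]
  rfl

/-- the check for `e, e + 2, ...` -/
private def tubAll (f : ℕ) : ℕ → Bool :=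
  Nat.rec (fun _ => true)
    (fun _ ih e => cond (cond (En e) true (tubL 100 (Nat.div e 2)
      (Nat.add (Nat.div 9961241799803157872640 (Nat.mul 10000 (Nat.add (Nat.mul 2 e) 1))) 1)))
      (ih (Nat.add e 2)) false) f

private theorem tubAll_succ (f e : ℕ) : tubAll (f + 1) e =
    cond (cond (En e) true (tubL 100 (e / 2) (9961241799803157872640 / (10000 * (2 * e + 1)) + 1)))
      (tubAll f (e + 2)) false := by
  rfl

set_option maxRecDepth 100000 in
private theorem tub_check : tubAll 510 4 = true := by decide +kernel

private theorem tubAll_spec : ∀ (f e : ℕ), tubAll f e = true → ∀ i < f, En (e + 2 * i) = false →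
    tubL 100 ((e + 2 * i) / 2) (9961241799803157872640 / (10000 * (2 * (e + 2 * i) + 1)) + 1) = true := by
  intro f
  induction f with
  | zero => intro e _ i hi; omega
  | succ f ih =>
    intro e h i hi hE
    rw [tubAll_succ] at h
    rcases Nat.eq_zero_or_pos i with rfl | hi0
    · rw [Nat.mul_zero, Nat.add_zero] at hE ⊢
      rw [hE] at h
      simp only [cond_false] at h
      by_contra hc
      rw [Bool.not_eq_true] at hc
      rw [hc] at h
      simp at h
    · have h1 : tubAll f (e + 2) = true := by
        by_contra hc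
        rw [Bool.not_eq_true] at hc
        rw [hc] at h
        simp at h
      have h2 := ih (e + 2) h1 (i - 1) (by omega) (by
        rwa [show e + 2 + 2 * (i - 1) = e + 2 * i by omega])
      rwa [show e + 2 + 2 * (i - 1) = e + 2 * i by omega] at h2

private theorem tub_T_even {m : ℕ} (h : m % 2 = 0) : T m = m / 2 := by
  unfold T
  rw [if_pos h]

/-- the division rounded down, plus one -/
private theorem tub_div (a b : ℕ) (hb : 0 < b) : (a : ℝ) / b ≤ ((a / b + 1 : ℕ) : ℝ) := by
  have hb' : (0 : ℝ) < b := by exact_mod_cast hb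
  rw [div_le_iff₀ hb']
  have h1 : a < (a / b + 1) * b := by
    have := Nat.lt_div_mul_add hb (a := a)
    rw [Nat.add_mul, one_mul]
    exact this
  exact_mod_cast h1.le

open Pool.Agent.Lib.MP_a247fa_nt.Ver in
private theorem tub_back {x : ℝ} (hx : 0 < x) (h : Conv (cf x) ∨ cf x ∈ Exc) : Conv x ∨ x ∈ Exc := by
  rcases h with h | h
  · exact Or.inl (conv_back hx h)
  · refine Or.inr (exc_iter 1 ?_)
    simpa using h

private theorem tub_D1 (m : ℕ) : 27 / 500 / (2 * (m : ℝ) + 1) ≤
    ((9961241799803157872640 / (10000 * (2 * m + 1)) + 1 : ℕ) : ℝ) / 18446744073709551616 := by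
  have h1 := tub_div 9961241799803157872640 (10000 * (2 * m + 1)) (by omega)
  rw [le_div_iff₀ (by norm_num)]
  refine le_trans (le_of_eq ?_) h1
  push_cast
  have : (2 * (m : ℝ) + 1) ≠ 0 := by positivity
  field_simp
  norm_num

open Pool.Agent.Lib.MP_a247fa_nt.Ver in
private theorem tub_sound : ∀ (f m D : ℕ), tubL f m D = true → 1 ≤ m → (∃ j : ℕ, T^[j] m = 1) ∧
    ∀ x : ℝ, (m : ℝ) - (D : ℝ) / 18446744073709551616 ≤ x → x ≤ m → Conv x ∨ x ∈ Exc := by
  intro f
  induction f with
  | zero =>
    intro m D h
    exact absurd (show false = true from h) Bool.false_ne_true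
  | succ f ih =>
    intro m D h hm
    rw [tubL_succ] at h
    by_cases h1 : m = 1
    · subst h1
      rw [show Nat.beq 1 1 = true from rfl, cond_true, decide_eq_true_eq] at h
      refine ⟨⟨0, rfl⟩, fun x hx hx1 => Or.inl ?_⟩
      have h2 : (50 : ℝ) * D ≤ 18446744073709551616 := by exact_mod_cast h
      rw [Nat.cast_one] at hx hx1
      have h3 : (D : ℝ) / 18446744073709551616 ≤ 1 / 50 := by
        rw [div_le_iff₀ (by norm_num)]
        linarith
      exact conv_of_toOne (by linarith) (toOne_left (by linarith) hx1)
    · have hb : Nat.beq m 1 = false := by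
        by_contra hc
        rw [Bool.not_eq_false] at hc
        exact h1 (Nat.eq_of_beq_eq_true hc)
      rw [hb, cond_false] at h
      by_cases ho : m % 2 = 1
      · rw [(od_iff m).2 ho, cond_true, Tn_eq] at h
        by_cases h10 : 10 * D ≤ 55340232221128654848
        · rw [decide_eq_true h10, cond_true] at h
          have hT2 := T_ge_two (c := m) (by omega)
          obtain ⟨⟨j, hj⟩, hx⟩ := ih _ _ h (by omega)
          refine ⟨⟨j + 1, ?_⟩, fun x hx1 hx2 => ?_⟩
          · rw [Function.iterate_succ_apply]
            exact hj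
          · have h10' : (10 : ℝ) * D ≤ 55340232221128654848 := by exact_mod_cast h10
            have hr : (D : ℝ) / 18446744073709551616 ≤ 3 / 10 := by
              rw [div_le_iff₀ (by norm_num)]
              linarith
            have ht := tube_odd ho hx1 hx2 hr
            have hx0 : 0 < x := by
              have : (1 : ℝ) ≤ m := by exact_mod_cast hm
              linarith
            refine tub_back hx0 (hx (cf x) (le_trans ?_ ht.2) ht.1)
            have h3 := tub_div (3 * D) 2 (by norm_num)
            have h4 := tub_div (12338 * (2 * m + 1) * (D * D)) 184467440737095516160000 (by norm_num)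
            have h5 : 3 * ((D : ℝ) / 18446744073709551616) / 2 +
                12338 / 10000 * (2 * (m : ℝ) + 1) * ((D : ℝ) / 18446744073709551616) ^ 2 ≤
                ((3 * D / 2 + 1 + (12338 * (2 * m + 1) * (D * D) / 184467440737095516160000 + 1) : ℕ) : ℝ) /
                  18446744073709551616 := by
              rw [le_div_iff₀ (by norm_num)]
              rw [Nat.cast_add (3 * D / 2 + 1)]
              push_cast at h3 h4 ⊢
              refine le_trans (le_of_eq ?_) (add_le_add h3 h4)
              ring
            linarith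
        · rw [decide_eq_false h10, cond_false] at h
          exact absurd h Bool.false_ne_true
      · have he : m % 2 = 0 := by omega
        rw [(od_false_iff m).2 he, cond_false] at h
        by_cases h5 : 5 * (2 * m + 1) * D ≤ 110680464442257309696
        · rw [decide_eq_true h5, cond_true] at h
          obtain ⟨⟨j, hj⟩, hx⟩ := ih _ _ h (by omega)
          have hj' : ∃ j : ℕ, T^[j] (m / 2) = 1 := ⟨j, hj⟩
          refine ⟨⟨j + 1, ?_⟩, fun x hx1 hx2 => ?_⟩
          · rw [Function.iterate_succ_apply, tub_T_even he]
            exact hj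
          · have h5' : (5 : ℝ) * (2 * m + 1) * D ≤ 110680464442257309696 := by exact_mod_cast h5
            have hr : (2 * (m : ℝ) + 1) * ((D : ℝ) / 18446744073709551616) ≤ 6 / 5 := by
              rw [← mul_div_assoc, div_le_iff₀ (by norm_num)]
              linarith
            have hm2 : (2 : ℝ) ≤ m := by exact_mod_cast (by omega : 2 ≤ m)
            have hD0 : 0 ≤ (D : ℝ) / 18446744073709551616 := by positivity
            have hx0 : 0 < x := by
              have h6 : 5 * ((D : ℝ) / 18446744073709551616) ≤
                  (2 * (m : ℝ) + 1) * ((D : ℝ) / 18446744073709551616) :=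
                mul_le_mul_of_nonneg_right (by linarith) hD0
              linarith
            refine tub_back hx0 ?_
            rcases tube_even he (by omega) hx1 hx2 hr with ht | ⟨ht1, ht2, ht3⟩
            · by_cases hE : cf x ∈ Exc
              · exact Or.inr hE
              · exact Or.inl (conv_trap (by omega) hj' ht hE)
            · refine hx (cf x) ?_ ht1
              by_cases hc : D / 2 + 1 ≤ 9961241799803157872640 / (10000 * (2 * m + 1)) + 1
              · rw [decide_eq_true hc, cond_true]
                have h6 := tub_div D 2 (by norm_num)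
                have h7 : (D : ℝ) / 18446744073709551616 / 2 ≤
                    ((D / 2 + 1 : ℕ) : ℝ) / 18446744073709551616 := by
                  rw [div_div, mul_comm, ← div_div]
                  exact div_le_div_of_nonneg_right h6 (by norm_num)
                linarith
              · rw [decide_eq_false hc, cond_false]
                have h6 := tub_D1 m
                linarith
        · rw [decide_eq_false h5, cond_false] at h
          exact absurd h Bool.false_ne_true

open Pool.Agent.Lib.MP_a247fa_nt.Ver in
theorem tube_all {e : ℕ} (he : e % 2 = 0) (h4 : 4 ≤ e) (hE : En e = false) {x : ℝ} (hx : ⌊x⌋₊ + 1 = e) (hF : Fld x) :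
    Conv x ∨ x ∈ Exc := by
  have hlt : e < 1024 := by
    by_contra hc
    have := En_big (c := e) (by omega) he
    rw [hE] at this
    exact Bool.false_ne_true this
  have h1 := tubAll_spec 510 4 tub_check ((e - 4) / 2) (by omega)
  rw [show 4 + 2 * ((e - 4) / 2) = e by omega] at h1
  obtain ⟨_, h2⟩ := tub_sound _ _ _ (h1 hE) (by omega)
  obtain ⟨h3, h5⟩ := fld_depth hx hF
  have hx0 : 0 < x := by
    by_contra hc
    rw [Nat.floor_of_nonpos (not_lt.1 hc)] at hx
    omega
  refine tub_back hx0 (h2 (cf x) ?_ h3)
  have := tub_D1 e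
  linarith

end Pool.Agent.Lib.MP_a247fa_nt.X
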