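import Pool.Agent.Lib.MP_a247fa_nt.X.NullX
import Pool.Agent.Lib.MP_a247fa_nt.X.TubB
import Pool.Agent.Lib.MP_a247fa_nt.X.FinX
import Pool.Agent.Lib.MP_a247fa_nt.V.Final

/-! TENTH (40 min, old scale).
The final assembly, as V.Final. `FVis y`: the first capture of the orbit is by a fold at a suspicious integer. `ff_of_fvis`: as `vt_of_vis`; `FF t ⊆ FF (t+1)`; `fvis_le`: measure of an increasing union (`final_ff`).
`conv_or`: `y > 0`, not never captured, not `Exc`, not `Vis`, not `FVis`: `Conv y`. First capture time `k` (`Nat.find`). `Trp`: exactly as in `conv_of_capture` (V.Final) (copy the proof; the functions `vf_pos`, `vf_conv` there are private, copy them). `Fld` at `z = cf^[k] y`, `e = ⌊z⌋₊ + 1` even: `e = 2`: as in `conv_of_capture` (`fold_two`, `toOne_left`).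
`e ≥ 4`: `En e = false` (not `FVis`), `tube_all`: `Conv z` or `z ∈ Exc` (then `y ∈ Exc`, `exc_iter`).
`nonconv_tenth`: `{¬ Conv} ⊆ never captured ∪ Vis ∪ FVis ∪ Exc`: `0 + 185/10000 + 777/10000 + 0 ≤ 1/10` (`nc_null`, `vis_le`, `fvis_le`, `exc_null`). -/

set_option autoImplicit false

namespace Pool.Agent.Lib.MP_a247fa_nt.X

open Set MeasureTheory
open Pool.Agent.Lib.MP_a247fa_nt.W Pool.Agent.Lib.MP_a247fa_nt.V

/-- the first capture of the orbit of `y` is by a fold at a suspicious integer -/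
def FVis (y : ℝ) : Prop := ∃ k : ℕ, Fld (cf^[k] y) ∧ En (⌊cf^[k] y⌋₊ + 1) = true ∧
  ∀ j < k, ¬ Trp (cf^[j] y) ∧ ¬ Fld (cf^[j] y)

private theorem Tenth_ff : ∀ (k : ℕ) (y : ℝ), Fld (cf^[k] y) → En (⌊cf^[k] y⌋₊ + 1) = true →
    (∀ j < k, ¬ Trp (cf^[j] y) ∧ ¬ Fld (cf^[j] y)) → y ∈ FF (k + 1) := by
  intro k
  induction k with
  | zero => intro y h1 h2 _; exact Or.inl ⟨h1, h2⟩
  | succ k ih =>
    intro y h1 h2 h3
    have h4 := h3 0 (by omega)
    refine Or.inr ⟨h4, ih (cf y) ?_ ?_ ?_⟩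
    · rwa [← Function.iterate_succ_apply]
    · rwa [← Function.iterate_succ_apply]
    · intro j hj
      rw [← Function.iterate_succ_apply]
      exact h3 (j + 1) (by omega)

private theorem Tenth_mono (t : ℕ) : FF t ⊆ FF (t + 1) := by
  induction t with
  | zero => intro x hx; exact absurd hx (Set.notMem_empty x)
  | succ t ih =>
    rintro x (h | ⟨h1, h2⟩)
    · exact Or.inl h
    · exact Or.inr ⟨h1, ih h2⟩

private theorem Tenth_le {n : ℕ} (hn : 1 ≤ n) :
    volume {y : ℝ | (n : ℝ) < y ∧ y < n + 1 ∧ FVis y} ≤ ENNReal.ofReal (777 / 10000) := by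
  have hsub : {y : ℝ | (n : ℝ) < y ∧ y < n + 1 ∧ FVis y} ⊆ ⋃ t : ℕ, (Ioo (n : ℝ) (n + 1) ∩ FF t) := by
    rintro y ⟨h1, h2, k, h3, h4, h5⟩
    exact mem_iUnion.2 ⟨k + 1, ⟨h1, h2⟩, Tenth_ff k y h3 h4 h5⟩
  refine (measure_mono hsub).trans ?_
  have hmono : Monotone (fun t : ℕ => Ioo (n : ℝ) (n + 1) ∩ FF t) :=
    monotone_nat_of_le_succ fun t => inter_subset_inter_right _ (Tenth_mono t)
  rw [hmono.measure_iUnion]
  exact iSup_le fun t => final_ff hn t

open Pool.Agent.Lib.MP_a247fa_nt.Crit Pool.Agent.Lib.MP_a247fa_nt.Ver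

private theorem Tenth_pos {y : ℝ} (hy : 0 < y) (k : ℕ) : 0 < cf^[k] y := by
  induction k with
  | zero => exact hy
  | succ k ih => rw [Function.iterate_succ_apply']; exact cf_pos _ ih

private theorem Tenth_attr {y : ℝ} (hy : 0 < y) (O : Set ℝ) (k : ℕ)
    (h : cf^[k] y ∈ Dens.attracted O) : y ∈ Dens.attracted O := by
  induction k with
  | zero => exact h
  | succ k ih =>
    rw [Function.iterate_succ_apply'] at h
    exact ih ((Dens.cinv_attracted O (cf^[k] y) (Tenth_pos hy k)).2 h)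

private theorem Tenth_conv {y : ℝ} (hy : 0 < y) (k : ℕ) (h : Conv (cf^[k] y)) : Conv y := by
  rcases h with h | h
  · exact Or.inl (Tenth_attr hy _ k h)
  · exact Or.inr (Tenth_attr hy _ k h)

private theorem Tenth_capture {y : ℝ} (hy : 0 < y)
    (hb : ¬ ∀ k : ℕ, ¬ Trp (cf^[k] y) ∧ ¬ Fld (cf^[k] y)) (he : y ∉ Exc) (hv : ¬ Vis y)
    (hf : ¬ FVis y) : Conv y := by
  classical
  have hex : ∃ k : ℕ, Trp (cf^[k] y) ∨ Fld (cf^[k] y) := by
    by_contra hcon
    apply hb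
    intro k
    constructor
    · intro h; exact hcon ⟨k, Or.inl h⟩
    · intro h; exact hcon ⟨k, Or.inr h⟩
  obtain ⟨k, hk⟩ : ∃ k, k = Nat.find hex := ⟨_, rfl⟩
  have hspec : Trp (cf^[k] y) ∨ Fld (cf^[k] y) := by rw [hk]; exact Nat.find_spec hex
  have hmin : ∀ j < k, ¬ Trp (cf^[j] y) ∧ ¬ Fld (cf^[j] y) := by
    intro j hj
    rw [hk] at hj
    have := Nat.find_min hex hj
    push Not at this
    exact this
  by_cases ht : Trp (cf^[k] y)
  · obtain ⟨h3, h4⟩ := trp_trap ht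
    have h5 : VerS ⌊cf^[k] y⌋₊ := by
      by_contra hcon
      exact hv ⟨k, ht, hcon, hmin⟩
    obtain ⟨j, hj⟩ := h5
    have h7 : ∃ i : ℕ, T^[i] (T ⌊cf^[k] y⌋₊) = 1 := by
      rcases j with _ | j
      · refine ⟨1, ?_⟩
        rw [Function.iterate_zero, id_eq] at hj
        rw [hj]; rfl
      · exact ⟨j, by rwa [← Function.iterate_succ_apply]⟩
    rw [← Function.iterate_succ_apply' cf] at h4
    exact Tenth_conv hy (k + 1) (conv_trap h3 h7 h4 (fun h => he (exc_iter (k + 1) h)))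
  · have hF : Fld (cf^[k] y) := hspec.resolve_left ht
    by_cases h3 : 3 ≤ ⌊cf^[k] y⌋₊
    · have hE : En (⌊cf^[k] y⌋₊ + 1) = false := by
        rw [← Bool.not_eq_true]
        intro h
        exact hf ⟨k, hF, h, hmin⟩
      have hodd := hF.1
      rcases tube_all (by omega) (by omega) hE rfl hF with h | h
      · exact Tenth_conv hy k h
      · exact absurd (exc_iter k h) he
    · obtain ⟨z, hz⟩ : ∃ z, z = cf^[k] y := ⟨_, rfl⟩
      have hz0 : 0 < z := by rw [hz]; exact Tenth_pos hy k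
      have hc : Conv (cf z) := by
        rw [← hz] at hF h3
        obtain ⟨h4, h5⟩ := hF
        have h6 : ⌊z⌋₊ = 1 := by omega
        have hz1 : 1 ≤ z := by
          have : (1 : ℕ) ≤ ⌊z⌋₊ := h6.ge
          have h7 := (Nat.le_floor_iff' (by norm_num)).1 this
          exact_mod_cast h7
        have hz2 : z < 2 := by
          have := Nat.lt_floor_add_one z
          rw [h6] at this
          push_cast at this
          linarith
        rw [h6] at h5
        push_cast at h5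
        have h8 : cf z < 1 := by linarith
        exact conv_of_toOne (cf_pos z hz0) (toOne_left (fold_two hz1 hz2 h8) h8.le)
      rw [hz, ← Function.iterate_succ_apply' cf] at hc
      exact Tenth_conv hy (k + 1) hc

theorem nonconv_tenth {n : ℕ} (hn : 1 ≤ n) :
    volume {y : ℝ | (n : ℝ) < y ∧ y < n + 1 ∧ ¬ Conv y} ≤ ENNReal.ofReal (1 / 10) := by
  have hn1 : (1 : ℝ) ≤ n := by exact_mod_cast hn
  have hsub : {y : ℝ | (n : ℝ) < y ∧ y < n + 1 ∧ ¬ Conv y} ⊆
      ({y : ℝ | (n : ℝ) < y ∧ y < n + 1 ∧ ∀ k : ℕ, ¬ Trp (cf^[k] y) ∧ ¬ Fld (cf^[k] y)} ∪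
      {y : ℝ | (n : ℝ) < y ∧ y < n + 1 ∧ Vis y}) ∪
      ({y : ℝ | (n : ℝ) < y ∧ y < n + 1 ∧ FVis y} ∪ Exc) := by
    rintro y ⟨h1, h2, h3⟩
    by_cases hb : ∀ k : ℕ, ¬ Trp (cf^[k] y) ∧ ¬ Fld (cf^[k] y)
    · exact Or.inl (Or.inl ⟨h1, h2, hb⟩)
    by_cases he : y ∈ Exc
    · exact Or.inr (Or.inr he)
    by_cases hvis : Vis y
    · exact Or.inl (Or.inr ⟨h1, h2, hvis⟩)
    by_cases hfv : FVis y
    · exact Or.inr (Or.inl ⟨h1, h2, hfv⟩)
    · exact absurd (Tenth_capture (by linarith) hb he hvis hfv) h3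
  refine (measure_mono hsub).trans ((measure_union_le _ _).trans ?_)
  refine (add_le_add (measure_union_le _ _) (measure_union_le _ _)).trans ?_
  refine (add_le_add (add_le_add (nc_null hn).le (vis_le hn)) (add_le_add (Tenth_le hn) exc_null.le)).trans ?_
  rw [zero_add, add_zero, ← ENNReal.ofReal_add (by norm_num) (by norm_num)]
  exact ENNReal.ofReal_le_ofReal (by norm_num)

end Pool.Agent.Lib.MP_a247fa_nt.X
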