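import Pool.Agent.Lib.MP_a247fa_nt.X.HsX
import Pool.Agent.Lib.MP_a247fa_nt.V.Disp
import Pool.Agent.Lib.MP_a247fa_nt.Ver.ConvOne

/-! TUBA (45 min, old scale).
One step of a left tube: `x ∈ [m - D, m]`, write `x = m - s`, `0 ≤ s ≤ D`.

`depth`: even `e ≥ 2`, `0 ≤ s ≤ 1`: `D e (e - s) = (e + 1/2 - s) hs s - s/2 ≥ -(27/500)/(2e+1)` (`D_even_sub`). `ζ = 2e+1 ≥ 5`, `z = ζ s`. If `1/2 ≤ s`: `hs s ≥ 1/2` (`hs_mono`), `(ζ/2 - s)/2 ≥ s/2` (`ζ ≥ 4`). If `3/20 ≤ s ≤ 1/2`: `hs s ≥ 2 s^2`, `(ζ/2 - s) 2 s^2 ≥ s/2` since `4 s (ζ/2 - s) ≥ 4 s (5/2 - s) ≥ 1`.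
If `s ≤ 3/20`: `hs_ge4`: `ζ ((ζ/2 - s) hs s - s/2) ≥ 1.233625 z^2 κ - z/2`, `κ = (1 - 2s/ζ)(1 - 0.8225 s^2)`. If `z ≥ 1/2`: `κ ≥ 0.94 * 0.981 ≥ 0.922`, `1.233625 κ z ≥ 0.56 ≥ 1/2`: value `≥ 0`. If `z ≤ 1/2`: `s ≤ 1/10`, `κ ≥ 0.96 * 0.9917 ≥ 0.952`, value `≥ -1/(16 * 1.233625 * 0.952) ≥ -0.0533`.
`tube_even`: even `m ≥ 2`, `(2m+1) D ≤ 6/5`. `cf x = m/2 + D m x`, `D m x = (m + 1/2 - s) hs s - s/2`. If `D m x ≤ 0`: `D m x ≥ -s/2 ≥ -D/2` (`m + 1/2 - s ≥ 0`, `hs ≥ 0`) and `depth` (`s ≤ 1`). If `D m x ≥ 0`: `cf x ∈ trapI (m/2) = [m/2, m/2 + 4/(5 (2 (m/2) + 1))]`, `2 (m/2) + 1 = m + 1`: with `z = (2m+1) s ≤ 6/5`: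
`(2m+1) D m x ≤ (z^2/2)(987/400) - z/2 ≤ 1.1766` (`hs_le`), times `(m+1)/(2m+1) ≤ 3/5`: `≤ 0.706 ≤ 4/5`.
`tube_odd`: odd `m ≥ 1`: `cf x = T m - D m x`, `D m x = (m + 1/2 - s) hs s + 3s/2` (`D_odd_sub`), `0 ≤ D m x` (`s ≤ 3/10`), `≤ (m + 1/2)(987/400) s^2 + 3s/2 ≤ (12338/10000)(2m+1) D^2 + 3D/2`.
`fld_depth`: `x` with `⌊x⌋₊ + 1 = e` even, `Fld x`: `cf x < e/2` and `cf x ≥ e/2 - (27/500)/(2e+1)` (`s = e - x ∈ (0, 1]`). -/

set_option autoImplicit false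

namespace Pool.Agent.Lib.MP_a247fa_nt.X

open Set MeasureTheory
open Pool.Agent.Lib.MP_a247fa_nt.W Pool.Agent.Lib.MP_a247fa_nt.V

/-- the main estimate: `ζ = 2 e + 1 ≥ 5` -/
private theorem tuba_main {ζ s h : ℝ} (hζ : 5 ≤ ζ) (h0 : 0 ≤ s) (h1 : s ≤ 1) (hh0 : 0 ≤ h)
    (ha : 1 / 2 ≤ s → 1 / 2 ≤ h) (hb : s ≤ 1 / 2 → 2 * s ^ 2 ≤ h)
    (hc : s ≤ 3 / 20 → 121 / 50 * s ^ 2 ≤ h) :
    -(27 / 500) ≤ ζ * ((ζ / 2 - s) * h - s / 2) := by
  rcases le_total (1 / 2) s with hs | hs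
  · have h2 := ha hs
    have h3 : (ζ / 2 - s) * (1 / 2) ≤ (ζ / 2 - s) * h := mul_le_mul_of_nonneg_left h2 (by linarith)
    have h4 : 0 ≤ (ζ / 2 - s) * h - s / 2 := by linarith
    have h5 : 0 ≤ ζ * ((ζ / 2 - s) * h - s / 2) := mul_nonneg (by linarith) h4
    linarith
  · rcases le_total (3 / 20) s with hs2 | hs2
    · have h2 := hb hs
      have h3 : (ζ / 2 - s) * (2 * s ^ 2) ≤ (ζ / 2 - s) * h :=
        mul_le_mul_of_nonneg_left h2 (by linarith)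
      have h6 : s / 2 ≤ (ζ / 2 - s) * (2 * s ^ 2) := by
        have h7 : (5 / 2 - s) * (2 * s ^ 2) ≤ (ζ / 2 - s) * (2 * s ^ 2) :=
          mul_le_mul_of_nonneg_right (by linarith) (by positivity)
        have h8 : s / 2 ≤ (5 / 2 - s) * (2 * s ^ 2) := by
          have h9 : 0 ≤ s * (s - 3 / 20) := mul_nonneg h0 (by linarith)
          have h10 : 0 ≤ s * (s * (1 / 2 - s)) := mul_nonneg h0 (mul_nonneg h0 (by linarith))
          nlinarith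
        linarith
      have h4 : 0 ≤ (ζ / 2 - s) * h - s / 2 := by linarith
      have h5 : 0 ≤ ζ * ((ζ / 2 - s) * h - s / 2) := mul_nonneg (by linarith) h4
      linarith
    · have h2 := hc hs2
      have h3 : (ζ / 2 - s) * (121 / 50 * s ^ 2) ≤ (ζ / 2 - s) * h :=
        mul_le_mul_of_nonneg_left h2 (by linarith)
      have h4 : ζ * ((ζ / 2 - s) * (121 / 50 * s ^ 2) - s / 2) ≤ ζ * ((ζ / 2 - s) * h - s / 2) :=
        mul_le_mul_of_nonneg_left (by linarith) (by linarith)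
      refine le_trans ?_ h4
      -- `z = ζ s`
      obtain ⟨z, hz⟩ : ∃ z, z = ζ * s := ⟨_, rfl⟩
      have h5 : ζ * ((ζ / 2 - s) * (121 / 50 * s ^ 2) - s / 2) =
          121 / 100 * z ^ 2 - 121 / 50 * z * s ^ 2 - z / 2 := by
        rw [hz]
        ring
      rw [h5]
      have hz5 : 5 * s ≤ z := by
        rw [hz]
        exact mul_le_mul_of_nonneg_right hζ h0
      have hz0 : 0 ≤ z := by linarith
      -- `z s^2 ≤ z^2 s / 5`
      have h6 : z * s ^ 2 ≤ z ^ 2 * s / 5 := by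
        have h7 : z * s * (5 * s) ≤ z * s * z := mul_le_mul_of_nonneg_left hz5 (mul_nonneg hz0 h0)
        nlinarith
      rcases le_total z (1 / 2) with hz2 | hz2
      · have h7 : z ^ 2 * s ≤ z ^ 2 * (1 / 10) := mul_le_mul_of_nonneg_left (by linarith) (sq_nonneg z)
        nlinarith [sq_nonneg (z - 215 / 1000)]
      · have h7 : z ^ 2 * s ≤ z ^ 2 * (3 / 20) := mul_le_mul_of_nonneg_left hs2 (sq_nonneg z)
        nlinarith

theorem depth {e : ℕ} (he : e % 2 = 0) (h2 : 2 ≤ e) {s : ℝ} (h0 : 0 ≤ s) (h1 : s ≤ 1) :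
    -(27 / 500 / (2 * (e : ℝ) + 1)) ≤ D e (e - s) := by
  rw [D_even_sub he]
  have he2 : (2 : ℝ) ≤ e := by exact_mod_cast h2
  have hm := tuba_main (ζ := 2 * (e : ℝ) + 1) (s := s) (h := hs s) (by linarith) h0 h1 (hs_nonneg s)
    (fun h => by
      have h3 := hs_mono (show (0 : ℝ) ≤ 1 / 2 by norm_num) h h1
      have h4 := hs_ge (show (0 : ℝ) ≤ 1 / 2 by norm_num) (le_refl (1 / 2 : ℝ))
      linarith)
    (fun h => hs_ge h0 h) (fun h => hs_ge3 h0 h)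
  have h5 : (2 * (e : ℝ) + 1) / 2 - s = e + 1 / 2 - s := by ring
  rw [h5] at hm
  have hpos : (0 : ℝ) < 2 * (e : ℝ) + 1 := by linarith
  rw [← neg_div, div_le_iff₀ hpos]
  linarith

theorem tube_even {m : ℕ} (he : m % 2 = 0) (h2 : 2 ≤ m) {x r : ℝ} (h1 : (m : ℝ) - r ≤ x) (hx : x ≤ m)
    (hr : (2 * (m : ℝ) + 1) * r ≤ 6 / 5) :
    cf x ∈ trapI (m / 2) ∨ (cf x ≤ ((m / 2 : ℕ) : ℝ) ∧ ((m / 2 : ℕ) : ℝ) - r / 2 ≤ cf x ∧
      ((m / 2 : ℕ) : ℝ) - 27 / 500 / (2 * (m : ℝ) + 1) ≤ cf x) := by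
  have hm2 : (2 : ℝ) ≤ m := by exact_mod_cast h2
  have hcast : ((m / 2 : ℕ) : ℝ) = (m : ℝ) / 2 := by
    rw [Nat.cast_div (by omega) (by norm_num)]
    norm_num
  obtain ⟨s, hs'⟩ : ∃ s, s = (m : ℝ) - x := ⟨_, rfl⟩
  have hs0 : 0 ≤ s := by linarith
  have hsr : s ≤ r := by linarith
  have hr1 : r ≤ 6 / 25 := by nlinarith
  have hxs : x = m - s := by linarith
  have hD : D m x = cf x - m / 2 := by
    unfold D
    rw [if_pos he]
  have hD2 := D_even_sub he s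
  rw [← hxs] at hD2
  have hdep := depth he h2 hs0 (by linarith)
  rw [← hxs] at hdep
  have hhs := hs_nonneg s
  rcases le_total (D m x) 0 with hneg | hpos
  · right
    rw [hcast]
    have h3 : 0 ≤ ((m : ℝ) + 1 / 2 - s) * hs s := mul_nonneg (by linarith) hhs
    refine ⟨by linarith, by linarith, by linarith⟩
  · left
    unfold trapI
    rw [Set.mem_Icc, hcast]
    have h4 : (2 : ℝ) * (m / 2) + 1 = m + 1 := by ring
    rw [h4]
    refine ⟨by linarith, ?_⟩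
    have h5 : D m x ≤ 4 / (5 * ((m : ℝ) + 1)) := by
      rw [le_div_iff₀ (by linarith)]
      have h6 := hs_le s
      have h7 : ((m : ℝ) + 1 / 2 - s) * hs s ≤ ((m : ℝ) + 1 / 2) * (987 / 400 * s ^ 2) :=
        mul_le_mul (by linarith) h6 hhs (by linarith)
      -- `z = (2m+1) s`
      obtain ⟨z, hz⟩ : ∃ z, z = (2 * (m : ℝ) + 1) * s := ⟨_, rfl⟩
      have hz0 : 0 ≤ z := by
        rw [hz]
        exact mul_nonneg (by linarith) hs0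
      have hz1 : z ≤ 6 / 5 := by
        rw [hz]
        exact (mul_le_mul_of_nonneg_left hsr (by linarith)).trans hr
      have h8 : (2 * (m : ℝ) + 1) * D m x ≤ 987 / 800 * z ^ 2 - z / 2 := by
        rw [hD2]
        have h9 : (2 * (m : ℝ) + 1) * (((m : ℝ) + 1 / 2 - s) * hs s) ≤
            (2 * (m : ℝ) + 1) * (((m : ℝ) + 1 / 2) * (987 / 400 * s ^ 2)) :=
          mul_le_mul_of_nonneg_left h7 (by linarith)
        have h10 : (2 * (m : ℝ) + 1) * (((m : ℝ) + 1 / 2) * (987 / 400 * s ^ 2)) =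
            987 / 800 * z ^ 2 := by
          rw [hz]
          ring
        have h11 : (2 * (m : ℝ) + 1) * (s / 2) = z / 2 := by
          rw [hz]
          ring
        nlinarith
      have h12 : 987 / 800 * z ^ 2 - z / 2 ≤ 118 / 100 := by
        have h13 : z ^ 2 ≤ 6 / 5 * z := by nlinarith
        nlinarith
      have h14 : (2 * (m : ℝ) + 1) * D m x ≤ 118 / 100 := h8.trans h12
      have h15 : 5 * ((m : ℝ) + 1) ≤ 3 * (2 * (m : ℝ) + 1) := by linarith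
      have h16 : D m x * (5 * ((m : ℝ) + 1)) ≤ D m x * (3 * (2 * (m : ℝ) + 1)) :=
        mul_le_mul_of_nonneg_left h15 hpos
      linarith
    linarith

theorem tube_odd {m : ℕ} (ho : m % 2 = 1) {x r : ℝ} (h1 : (m : ℝ) - r ≤ x) (hx : x ≤ m) (hr : r ≤ 3 / 10) :
    cf x ≤ (T m : ℝ) ∧ (T m : ℝ) - (3 * r / 2 + 12338 / 10000 * (2 * (m : ℝ) + 1) * r ^ 2) ≤ cf x := by
  have hm1 : (1 : ℝ) ≤ m := by exact_mod_cast (by omega : 1 ≤ m)
  have hcast : ((T m : ℕ) : ℝ) = (3 * (m : ℝ) + 1) / 2 := by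
    unfold T
    rw [if_neg (by omega), Nat.cast_div (by omega) (by norm_num)]
    push_cast
    ring
  obtain ⟨s, hs'⟩ : ∃ s, s = (m : ℝ) - x := ⟨_, rfl⟩
  have hs0 : 0 ≤ s := by linarith
  have hsr : s ≤ r := by linarith
  have hxs : x = m - s := by linarith
  have hD : D m x = (3 * m + 1) / 2 - cf x := by
    unfold D
    rw [if_neg (by omega)]
  have hD2 := D_odd_sub ho s
  rw [← hxs] at hD2
  have hhs := hs_nonneg s
  have h3 : 0 ≤ ((m : ℝ) + 1 / 2 - s) * hs s := mul_nonneg (by linarith) hhs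
  have h6 := hs_le s
  have h7 : ((m : ℝ) + 1 / 2 - s) * hs s ≤ ((m : ℝ) + 1 / 2) * (987 / 400 * s ^ 2) :=
    mul_le_mul (by linarith) h6 hhs (by linarith)
  have h8 : s ^ 2 ≤ r ^ 2 := pow_le_pow_left₀ hs0 hsr 2
  have h9 : ((m : ℝ) + 1 / 2) * (987 / 400 * s ^ 2) ≤ ((m : ℝ) + 1 / 2) * (987 / 400 * r ^ 2) :=
    mul_le_mul_of_nonneg_left (by linarith) (by linarith)
  have h10 : ((m : ℝ) + 1 / 2) * (987 / 400 * r ^ 2) ≤
      12338 / 10000 * (2 * (m : ℝ) + 1) * r ^ 2 := by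
    have : 0 ≤ (2 * (m : ℝ) + 1) * r ^ 2 := mul_nonneg (by linarith) (sq_nonneg r)
    nlinarith
  rw [hcast]
  constructor
  · linarith
  · linarith

theorem fld_depth {x : ℝ} {e : ℕ} (h : ⌊x⌋₊ + 1 = e) (hF : Fld x) :
    cf x ≤ ((e / 2 : ℕ) : ℝ) ∧ ((e / 2 : ℕ) : ℝ) - 27 / 500 / (2 * (e : ℝ) + 1) ≤ cf x := by
  obtain ⟨ho, hlt⟩ := hF
  have he : e % 2 = 0 := by omega
  have h2 : 2 ≤ e := by omega
  have hcast : ((e / 2 : ℕ) : ℝ) = (e : ℝ) / 2 := by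
    rw [Nat.cast_div (by omega) (by norm_num)]
    norm_num
  have hfl : ((⌊x⌋₊ : ℕ) : ℝ) + 1 = e := by exact_mod_cast h
  have hx0 : 0 ≤ x := by
    by_contra hc
    have := Nat.floor_of_nonpos (not_le.1 hc).le
    omega
  have hlo := Nat.floor_le hx0
  have hup := Nat.lt_floor_add_one x
  have hdep := depth he h2 (s := e - x) (by linarith) (by linarith)
  have hxs : (e : ℝ) - (e - x) = x := by ring
  rw [hxs] at hdep
  have hD : D e x = cf x - e / 2 := by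
    unfold D
    rw [if_pos he]
  rw [hfl] at hlt
  rw [hcast]
  constructor
  · exact hlt.le
  · linarith

end Pool.Agent.Lib.MP_a247fa_nt.X
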