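import Pool.Agent.Lib.MP_a247fa_nt.X.PsnS
import Pool.Agent.Lib.MP_a247fa_nt.X.NNm

/-! VCNS (40 min, old scale).
`KK c s Γ * 2^52 ≤ vcn path c s` if `Γ (Z/2^20) ≤ pull path Z / 2^20` for all natural `Z`, `GM Γ`.

Odd `c < 3`: both `0`. Odd `c ≥ 3`: `KK = ∑_i (h_i - h_{i+1}) Γ_i` with `Γ_1 ≤ .. ≤ Γ_5` (`GM`) `= h_1 Γ_1 + ∑_{i≥2} h_i (Γ_i - Γ_{i-1})` is monotone in the levels; replace `hr i` by `hN i / 2^32` (`hr_le_hN`), then `(hN i - hN (i+1))` is the natural (truncated = true, `hN_anti`) difference; each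
`Γ_i = Γ (zc c * y/512) = Γ (Z/2^20)`, `Z = (2c+1) y 2^11` (`y = 102, 204, 308, 512, 1024`), `≤ pull path Z/2^20`; so `(hN i - hN (i+1))/2^32 * Γ_i * 2^52 ≤ lv path c y (..)` (`lv = 0` if the difference is `0`). Even `c`: `Γ (407/1000) ≤ Γ (426771/2^20) ≤ pull path 426771/2^20`, times `2^52` is `pull * 2^32`.
`pull_psi`: if `Γ` is bounded by `pull path` then `Γ ∘ psi c` is bounded by `pull (c :: path)`: `psi c (Z/2^20) ≤ psn c Z/2^20` (`psi_le_psn`), `GM Γ`. -/

set_option autoImplicit false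

namespace Pool.Agent.Lib.MP_a247fa_nt.X

open Set MeasureTheory
open Pool.Agent.Lib.MP_a247fa_nt.W Pool.Agent.Lib.MP_a247fa_nt.V

/-- `Γ` is bounded by `pull path` -/
def PB (path : List ℕ) (Γ : ℝ → ℝ) : Prop := ∀ Z : ℕ, Γ ((Z : ℝ) / 1048576) ≤ (pull path Z : ℝ) / 1048576

theorem pb_id : PB [] (fun Z => Z) := fun _ => le_refl _

theorem pb_psi {path : List ℕ} {Γ : ℝ → ℝ} (h : PB path Γ) (hM : GM Γ) (c : ℕ) : PB (c :: path) (fun Z => Γ (psi c Z)) := by
  intro Z
  have h0 : (0 : ℝ) ≤ (Z : ℝ) / 1048576 := by positivity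
  have h1 : psi c ((Z : ℝ) / 1048576) ≤ (psn c Z : ℝ) / 1048576 := psi_le_psn h0 le_rfl
  have h2 := (hM _ _ (psi_nonneg (c := c) h0) h1).2
  exact h2.trans (h (psn c Z))

private lemma lv_eq (path : List ℕ) (c y g : ℕ) :
    lv path c y g = g * pull path ((2 * c + 1) * y * 2048) := by
  unfold lv
  have e1 : Nat.shiftLeft (Nat.mul (Nat.add (Nat.mul 2 c) 1) y) 11 = (2 * c + 1) * y * 2048 :=
    Nat.shiftLeft_eq _ 11
  rw [e1]
  by_cases h : g = 0
  · subst h
    rw [zero_mul]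
    rfl
  · have h2 : Nat.beq g 0 = false := by
      rw [← Bool.not_eq_true, Nat.beq_eq]
      exact h
    rw [h2]
    rfl

private lemma five (G1 G2 G3 G4 G5 a1 a2 a3 a4 a5 n1 n2 n3 n4 n5 P1 P2 P3 P4 P5 : ℝ)
    (g1 : 0 ≤ G1) (g2 : G1 ≤ G2) (g3 : G2 ≤ G3) (g4 : G3 ≤ G4) (g5 : G4 ≤ G5)
    (b1 : a1 * 4294967296 ≤ n1) (b2 : a2 * 4294967296 ≤ n2) (b3 : a3 * 4294967296 ≤ n3)
    (b4 : a4 * 4294967296 ≤ n4) (b5 : a5 * 4294967296 ≤ n5)
    (m1 : n2 ≤ n1) (m2 : n3 ≤ n2) (m3 : n4 ≤ n3) (m4 : n5 ≤ n4) (m5 : 0 ≤ n5)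
    (p1 : G1 ≤ P1 / 1048576) (p2 : G2 ≤ P2 / 1048576) (p3 : G3 ≤ P3 / 1048576)
    (p4 : G4 ≤ P4 / 1048576) (p5 : G5 ≤ P5 / 1048576) :
    ((a1 - a2) * G1 + (a2 - a3) * G2 + (a3 - a4) * G3 + (a4 - a5) * G4 + a5 * G5) *
      4503599627370496 ≤
      (n1 - n2) * P1 + ((n2 - n3) * P2 + ((n3 - n4) * P3 + ((n4 - n5) * P4 + n5 * P5))) := by
  have t1 := mul_le_mul_of_nonneg_right b1 g1
  have t2 := mul_le_mul_of_nonneg_right b2 (sub_nonneg.2 g2)
  have t3 := mul_le_mul_of_nonneg_right b3 (sub_nonneg.2 g3)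
  have t4 := mul_le_mul_of_nonneg_right b4 (sub_nonneg.2 g4)
  have t5 := mul_le_mul_of_nonneg_right b5 (sub_nonneg.2 g5)
  have u1 := mul_le_mul_of_nonneg_left p1 (sub_nonneg.2 m1)
  have u2 := mul_le_mul_of_nonneg_left p2 (sub_nonneg.2 m2)
  have u3 := mul_le_mul_of_nonneg_left p3 (sub_nonneg.2 m3)
  have u4 := mul_le_mul_of_nonneg_left p4 (sub_nonneg.2 m4)
  have u5 := mul_le_mul_of_nonneg_left p5 m5
  linarith

theorem kk_le_vcn {path : List ℕ} {c : ℕ} {s : Bool} {Γ : ℝ → ℝ} (h : PB path Γ) (hM : GM Γ) :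
    KK c s Γ * 4503599627370496 ≤ vcn path c s := by
  cases hod : od c with
  | false =>
    unfold KK vcn
    rw [hod]
    simp only [Bool.false_eq_true, if_false, cond_false]
    by_cases hsE : s = false ∧ En c = true
    · obtain ⟨hs1, hs2⟩ := hsE
      rw [if_pos ⟨hs1, hs2⟩, hs1, hs2]
      simp only [cond_false, cond_true]
      have e1 : Nat.shiftLeft (pull path 426771) 32 = pull path 426771 * 4294967296 :=
        Nat.shiftLeft_eq _ 32
      rw [e1]
      push_cast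
      have e2 := (hM (407 / 1000) (((426771 : ℕ) : ℝ) / 1048576) (by norm_num) (by norm_num)).2
      have e4 := e2.trans (h 426771)
      rw [le_div_iff₀ (by norm_num)] at e4
      linarith
    · rw [if_neg hsE, zero_mul]
      positivity
  | true =>
    unfold KK vcn
    rw [hod]
    simp only [if_true, cond_true]
    by_cases hc3 : c < 3
    · have hb4 : Nat.blt c 3 = true := by
        rw [Nat.blt_eq]
        exact hc3
      rw [if_pos hc3, hb4, zero_mul]
      positivity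
    · have hb4 : Nat.blt c 3 = false := by
        rw [← Bool.not_eq_true, Nat.blt_eq]
        exact hc3
      rw [if_neg hc3, hb4]
      simp only [cond_false]
      obtain ⟨a1, a2, a3, a4⟩ := hN_anti c s
      have k1 : hN 1 c s = h1 c s := by simp [hN]
      have k2 : hN 2 c s = h2 c s := by simp [hN]
      have k3 : hN 3 c s = h3 c s := by simp [hN]
      have k4 : hN 4 c s = h4 c s := by simp [hN]
      have k5 : hN 5 c s = h5 c s := by simp [hN]
      have l1 := hr_le_hN 1 c s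
      have l2 := hr_le_hN 2 c s
      have l3 := hr_le_hN 3 c s
      have l4 := hr_le_hN 4 c s
      have l5 := hr_le_hN 5 c s
      rw [k1] at a1 l1
      rw [k2] at a1 a2 l2
      rw [k3] at a2 a3 l3
      rw [k4] at a3 a4 l4
      rw [k5] at a4 l5
      change _ ≤ ((lv path c 102 (h1 c s - h2 c s) + (lv path c 204 (h2 c s - h3 c s) +
        (lv path c 308 (h3 c s - h4 c s) + (lv path c 512 (h4 c s - h5 c s) +
          lv path c 1024 (h5 c s)))) : ℕ) : ℝ)
      rw [lv_eq, lv_eq, lv_eq, lv_eq, lv_eq]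
      push_cast [Nat.cast_sub a1, Nat.cast_sub a2, Nat.cast_sub a3, Nat.cast_sub a4]
      have hz : (0 : ℝ) ≤ zc c := by
        unfold zc
        positivity
      have q : ∀ y : ℕ, Γ (zc c * ((y : ℝ) / 512)) ≤
          (pull path ((2 * c + 1) * y * 2048) : ℝ) / 1048576 := by
        intro y
        have q1 := h ((2 * c + 1) * y * 2048)
        have q2 : (((2 * c + 1) * y * 2048 : ℕ) : ℝ) / 1048576 = zc c * ((y : ℝ) / 512) := by
          unfold zc
          push_cast
          ring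
        rw [q2] at q1
        exact q1
      have q1 := q 102
      have q2 := q 204
      have q3 := q 308
      have q4 := q 512
      have q5 := q 1024
      have w4 : zc c * (((512 : ℕ) : ℝ) / 512) = zc c := by
        norm_num
      have w5 : zc c * (((1024 : ℕ) : ℝ) / 512) = 2 * zc c := by
        push_cast
        ring
      rw [w4] at q4
      rw [w5] at q5
      push_cast at q1 q2 q3
      have g1 := (hM (zc c * (102 / 512)) (zc c * (102 / 512)) (by positivity) le_rfl).1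
      have g2 := (hM (zc c * (102 / 512)) (zc c * (204 / 512)) (by positivity) (by nlinarith)).2
      have g3 := (hM (zc c * (204 / 512)) (zc c * (308 / 512)) (by positivity) (by nlinarith)).2
      have g4 := (hM (zc c * (308 / 512)) (zc c) (by positivity) (by nlinarith)).2
      have g5 := (hM (zc c) (2 * zc c) (by positivity) (by nlinarith)).2
      exact five _ _ _ _ _ _ _ _ _ _ _ _ _ _ _ _ _ _ _ _ g1 g2 g3 g4 g5 l1 l2 l3 l4 l5
        (by exact_mod_cast a1) (by exact_mod_cast a2) (by exact_mod_cast a3)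
        (by exact_mod_cast a4) (by positivity) q1 q2 q3 q4 q5

end Pool.Agent.Lib.MP_a247fa_nt.X
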