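import Pool.Agent.Lib.MP_a247fa_nt.X.WKg

/-! WK1. Kernel check of the window inequalities of `3, .., 63` (odd numbers), in 8 pieces. -/

set_option autoImplicit false

namespace Pool.Agent.Lib.MP_a247fa_nt.X

set_option maxRecDepth 100000 in
private theorem wk1_p0 : chws 4 3 = true := by
  decide +kernel

set_option maxRecDepth 100000 in
private theorem wk1_p1 : chws 4 11 = true := by
  decide +kernel

set_option maxRecDepth 100000 in
private theorem wk1_p2 : chws 4 19 = true := by
  decide +kernel

set_option maxRecDepth 100000 in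
private theorem wk1_p3 : chws 4 27 = true := by
  decide +kernel

set_option maxRecDepth 100000 in
private theorem wk1_p4 : chws 4 35 = true := by
  decide +kernel

set_option maxRecDepth 100000 in
private theorem wk1_p5 : chws 4 43 = true := by
  decide +kernel

set_option maxRecDepth 100000 in
private theorem wk1_p6 : chws 4 51 = true := by
  decide +kernel

set_option maxRecDepth 100000 in
private theorem wk1_p7 : chws 3 59 = true := by
  decide +kernel

private theorem wk1_q6 : chws 7 51 = true :=
  chws_glue 3 4 7 51 59 rfl rfl wk1_p6 wk1_p7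

private theorem wk1_q5 : chws 11 43 = true :=
  chws_glue 7 4 11 43 51 rfl rfl wk1_p5 wk1_q6

private theorem wk1_q4 : chws 15 35 = true :=
  chws_glue 11 4 15 35 43 rfl rfl wk1_p4 wk1_q5

private theorem wk1_q3 : chws 19 27 = true :=
  chws_glue 15 4 19 27 35 rfl rfl wk1_p3 wk1_q4

private theorem wk1_q2 : chws 23 19 = true :=
  chws_glue 19 4 23 19 27 rfl rfl wk1_p2 wk1_q3

private theorem wk1_q1 : chws 27 11 = true :=
  chws_glue 23 4 27 11 19 rfl rfl wk1_p1 wk1_q2

theorem wk1 : chws 31 3 = true :=
  chws_glue 27 4 31 3 11 rfl rfl wk1_p0 wk1_q1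

end Pool.Agent.Lib.MP_a247fa_nt.X
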