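import Pool.Agent.Lib.MP_a247fa_nt.X.WKg

/-! WK2. Kernel check of the window inequalities of `65, .., 159` (odd numbers), in 6 pieces. -/

set_option autoImplicit false

namespace Pool.Agent.Lib.MP_a247fa_nt.X

set_option maxRecDepth 100000 in
private theorem wk2_p0 : chws 8 65 = true := by
  decide +kernel

set_option maxRecDepth 100000 in
private theorem wk2_p1 : chws 8 81 = true := by
  decide +kernel

set_option maxRecDepth 100000 in
private theorem wk2_p2 : chws 8 97 = true := by
  decide +kernel

set_option maxRecDepth 100000 in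
private theorem wk2_p3 : chws 8 113 = true := by
  decide +kernel

set_option maxRecDepth 100000 in
private theorem wk2_p4 : chws 8 129 = true := by
  decide +kernel

set_option maxRecDepth 100000 in
private theorem wk2_p5 : chws 8 145 = true := by
  decide +kernel

private theorem wk2_q4 : chws 16 129 = true :=
  chws_glue 8 8 16 129 145 rfl rfl wk2_p4 wk2_p5

private theorem wk2_q3 : chws 24 113 = true :=
  chws_glue 16 8 24 113 129 rfl rfl wk2_p3 wk2_q4

private theorem wk2_q2 : chws 32 97 = true :=
  chws_glue 24 8 32 97 113 rfl rfl wk2_p2 wk2_q3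

private theorem wk2_q1 : chws 40 81 = true :=
  chws_glue 32 8 40 81 97 rfl rfl wk2_p1 wk2_q2

theorem wk2 : chws 48 65 = true :=
  chws_glue 40 8 48 65 81 rfl rfl wk2_p0 wk2_q1

end Pool.Agent.Lib.MP_a247fa_nt.X
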