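import Pool.Agent.Lib.MP_a247fa_nt.X.WKg

/-! WK3. Kernel check of the window inequalities of `161, .., 255` (odd numbers), in 6 pieces. -/

set_option autoImplicit false

namespace Pool.Agent.Lib.MP_a247fa_nt.X

set_option maxRecDepth 100000 in
private theorem wk3_p0 : chws 8 161 = true := by
  decide +kernel

set_option maxRecDepth 100000 in
private theorem wk3_p1 : chws 8 177 = true := by
  decide +kernel

set_option maxRecDepth 100000 in
private theorem wk3_p2 : chws 8 193 = true := by
  decide +kernel

set_option maxRecDepth 100000 in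
private theorem wk3_p3 : chws 8 209 = true := by
  decide +kernel

set_option maxRecDepth 100000 in
private theorem wk3_p4 : chws 8 225 = true := by
  decide +kernel

set_option maxRecDepth 100000 in
private theorem wk3_p5 : chws 8 241 = true := by
  decide +kernel

private theorem wk3_q4 : chws 16 225 = true :=
  chws_glue 8 8 16 225 241 rfl rfl wk3_p4 wk3_p5

private theorem wk3_q3 : chws 24 209 = true :=
  chws_glue 16 8 24 209 225 rfl rfl wk3_p3 wk3_q4

private theorem wk3_q2 : chws 32 193 = true :=
  chws_glue 24 8 32 193 209 rfl rfl wk3_p2 wk3_q3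

private theorem wk3_q1 : chws 40 177 = true :=
  chws_glue 32 8 40 177 193 rfl rfl wk3_p1 wk3_q2

theorem wk3 : chws 48 161 = true :=
  chws_glue 40 8 48 161 177 rfl rfl wk3_p0 wk3_q1

end Pool.Agent.Lib.MP_a247fa_nt.X
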