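import Pool.Agent.Lib.MP_a247fa_nt.X.WKg

/-! WK4. Kernel check of the window inequalities of `257, .., 447` (odd numbers), in 8 pieces. -/

set_option autoImplicit false

namespace Pool.Agent.Lib.MP_a247fa_nt.X

set_option maxRecDepth 100000 in
private theorem wk4_p0 : chws 12 257 = true := by
  decide +kernel

set_option maxRecDepth 100000 in
private theorem wk4_p1 : chws 12 281 = true := by
  decide +kernel

set_option maxRecDepth 100000 in
private theorem wk4_p2 : chws 12 305 = true := by
  decide +kernel

set_option maxRecDepth 100000 in
private theorem wk4_p3 : chws 12 329 = true := by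
  decide +kernel

set_option maxRecDepth 100000 in
private theorem wk4_p4 : chws 12 353 = true := by
  decide +kernel

set_option maxRecDepth 100000 in
private theorem wk4_p5 : chws 12 377 = true := by
  decide +kernel

set_option maxRecDepth 100000 in
private theorem wk4_p6 : chws 12 401 = true := by
  decide +kernel

set_option maxRecDepth 100000 in
private theorem wk4_p7 : chws 12 425 = true := by
  decide +kernel

private theorem wk4_q6 : chws 24 401 = true :=
  chws_glue 12 12 24 401 425 rfl rfl wk4_p6 wk4_p7

private theorem wk4_q5 : chws 36 377 = true :=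
  chws_glue 24 12 36 377 401 rfl rfl wk4_p5 wk4_q6

private theorem wk4_q4 : chws 48 353 = true :=
  chws_glue 36 12 48 353 377 rfl rfl wk4_p4 wk4_q5

private theorem wk4_q3 : chws 60 329 = true :=
  chws_glue 48 12 60 329 353 rfl rfl wk4_p3 wk4_q4

private theorem wk4_q2 : chws 72 305 = true :=
  chws_glue 60 12 72 305 329 rfl rfl wk4_p2 wk4_q3

private theorem wk4_q1 : chws 84 281 = true :=
  chws_glue 72 12 84 281 305 rfl rfl wk4_p1 wk4_q2

theorem wk4 : chws 96 257 = true :=
  chws_glue 84 12 96 257 281 rfl rfl wk4_p0 wk4_q1

end Pool.Agent.Lib.MP_a247fa_nt.X
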