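import Pool.Agent.Lib.MP_a247fa_nt.X.WKg

/-! WK5. Kernel check of the window inequalities of `449, .., 639` (odd numbers), in 8 pieces. -/

set_option autoImplicit false

namespace Pool.Agent.Lib.MP_a247fa_nt.X

set_option maxRecDepth 100000 in
private theorem wk5_p0 : chws 12 449 = true := by
  decide +kernel

set_option maxRecDepth 100000 in
private theorem wk5_p1 : chws 12 473 = true := by
  decide +kernel

set_option maxRecDepth 100000 in
private theorem wk5_p2 : chws 12 497 = true := by
  decide +kernel

set_option maxRecDepth 100000 in
private theorem wk5_p3 : chws 12 521 = true := by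
  decide +kernel

set_option maxRecDepth 100000 in
private theorem wk5_p4 : chws 12 545 = true := by
  decide +kernel

set_option maxRecDepth 100000 in
private theorem wk5_p5 : chws 12 569 = true := by
  decide +kernel

set_option maxRecDepth 100000 in
private theorem wk5_p6 : chws 12 593 = true := by
  decide +kernel

set_option maxRecDepth 100000 in
private theorem wk5_p7 : chws 12 617 = true := by
  decide +kernel

private theorem wk5_q6 : chws 24 593 = true :=
  chws_glue 12 12 24 593 617 rfl rfl wk5_p6 wk5_p7

private theorem wk5_q5 : chws 36 569 = true :=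
  chws_glue 24 12 36 569 593 rfl rfl wk5_p5 wk5_q6

private theorem wk5_q4 : chws 48 545 = true :=
  chws_glue 36 12 48 545 569 rfl rfl wk5_p4 wk5_q5

private theorem wk5_q3 : chws 60 521 = true :=
  chws_glue 48 12 60 521 545 rfl rfl wk5_p3 wk5_q4

private theorem wk5_q2 : chws 72 497 = true :=
  chws_glue 60 12 72 497 521 rfl rfl wk5_p2 wk5_q3

private theorem wk5_q1 : chws 84 473 = true :=
  chws_glue 72 12 84 473 497 rfl rfl wk5_p1 wk5_q2

theorem wk5 : chws 96 449 = true :=
  chws_glue 84 12 96 449 473 rfl rfl wk5_p0 wk5_q1

end Pool.Agent.Lib.MP_a247fa_nt.X
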