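import Pool.Agent.Lib.MP_a247fa_nt.X.WKg

/-! WK6. Kernel check of the window inequalities of `641, .., 831` (odd numbers), in 8 pieces. -/

set_option autoImplicit false

namespace Pool.Agent.Lib.MP_a247fa_nt.X

set_option maxRecDepth 100000 in
private theorem wk6_p0 : chws 12 641 = true := by
  decide +kernel

set_option maxRecDepth 100000 in
private theorem wk6_p1 : chws 12 665 = true := by
  decide +kernel

set_option maxRecDepth 100000 in
private theorem wk6_p2 : chws 12 689 = true := by
  decide +kernel

set_option maxRecDepth 100000 in
private theorem wk6_p3 : chws 12 713 = true := by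
  decide +kernel

set_option maxRecDepth 100000 in
private theorem wk6_p4 : chws 12 737 = true := by
  decide +kernel

set_option maxRecDepth 100000 in
private theorem wk6_p5 : chws 12 761 = true := by
  decide +kernel

set_option maxRecDepth 100000 in
private theorem wk6_p6 : chws 12 785 = true := by
  decide +kernel

set_option maxRecDepth 100000 in
private theorem wk6_p7 : chws 12 809 = true := by
  decide +kernel

private theorem wk6_q6 : chws 24 785 = true :=
  chws_glue 12 12 24 785 809 rfl rfl wk6_p6 wk6_p7

private theorem wk6_q5 : chws 36 761 = true :=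
  chws_glue 24 12 36 761 785 rfl rfl wk6_p5 wk6_q6

private theorem wk6_q4 : chws 48 737 = true :=
  chws_glue 36 12 48 737 761 rfl rfl wk6_p4 wk6_q5

private theorem wk6_q3 : chws 60 713 = true :=
  chws_glue 48 12 60 713 737 rfl rfl wk6_p3 wk6_q4

private theorem wk6_q2 : chws 72 689 = true :=
  chws_glue 60 12 72 689 713 rfl rfl wk6_p2 wk6_q3

private theorem wk6_q1 : chws 84 665 = true :=
  chws_glue 72 12 84 665 689 rfl rfl wk6_p1 wk6_q2

theorem wk6 : chws 96 641 = true :=
  chws_glue 84 12 96 641 665 rfl rfl wk6_p0 wk6_q1

end Pool.Agent.Lib.MP_a247fa_nt.X
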