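import Pool.Agent.Lib.MP_a247fa_nt.X.WKg

/-! WK7. Kernel check of the window inequalities of `833, .., 1023` (odd numbers), in 8 pieces. -/

set_option autoImplicit false

namespace Pool.Agent.Lib.MP_a247fa_nt.X

set_option maxRecDepth 100000 in
private theorem wk7_p0 : chws 12 833 = true := by
  decide +kernel

set_option maxRecDepth 100000 in
private theorem wk7_p1 : chws 12 857 = true := by
  decide +kernel

set_option maxRecDepth 100000 in
private theorem wk7_p2 : chws 12 881 = true := by
  decide +kernel

set_option maxRecDepth 100000 in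
private theorem wk7_p3 : chws 12 905 = true := by
  decide +kernel

set_option maxRecDepth 100000 in
private theorem wk7_p4 : chws 12 929 = true := by
  decide +kernel

set_option maxRecDepth 100000 in
private theorem wk7_p5 : chws 12 953 = true := by
  decide +kernel

set_option maxRecDepth 100000 in
private theorem wk7_p6 : chws 12 977 = true := by
  decide +kernel

set_option maxRecDepth 100000 in
private theorem wk7_p7 : chws 12 1001 = true := by
  decide +kernel

private theorem wk7_q6 : chws 24 977 = true :=
  chws_glue 12 12 24 977 1001 rfl rfl wk7_p6 wk7_p7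

private theorem wk7_q5 : chws 36 953 = true :=
  chws_glue 24 12 36 953 977 rfl rfl wk7_p5 wk7_q6

private theorem wk7_q4 : chws 48 929 = true :=
  chws_glue 36 12 48 929 953 rfl rfl wk7_p4 wk7_q5

private theorem wk7_q3 : chws 60 905 = true :=
  chws_glue 48 12 60 905 929 rfl rfl wk7_p3 wk7_q4

private theorem wk7_q2 : chws 72 881 = true :=
  chws_glue 60 12 72 881 905 rfl rfl wk7_p2 wk7_q3

private theorem wk7_q1 : chws 84 857 = true :=
  chws_glue 72 12 84 857 881 rfl rfl wk7_p1 wk7_q2

theorem wk7 : chws 96 833 = true :=
  chws_glue 84 12 96 833 857 rfl rfl wk7_p0 wk7_q1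

end Pool.Agent.Lib.MP_a247fa_nt.X
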