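import Pool.Agent.Lib.MP_a247fa_nt.X.WKg

/-! WK8. Kernel check of the window inequalities of `1025, .., 2047` (odd numbers), in 8 pieces. -/

set_option autoImplicit false

namespace Pool.Agent.Lib.MP_a247fa_nt.X

set_option maxRecDepth 100000 in
private theorem wk8_p0 : chws 64 1025 = true := by
  decide +kernel

set_option maxRecDepth 100000 in
private theorem wk8_p1 : chws 64 1153 = true := by
  decide +kernel

set_option maxRecDepth 100000 in
private theorem wk8_p2 : chws 64 1281 = true := by
  decide +kernel

set_option maxRecDepth 100000 in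
private theorem wk8_p3 : chws 64 1409 = true := by
  decide +kernel

set_option maxRecDepth 100000 in
private theorem wk8_p4 : chws 64 1537 = true := by
  decide +kernel

set_option maxRecDepth 100000 in
private theorem wk8_p5 : chws 64 1665 = true := by
  decide +kernel

set_option maxRecDepth 100000 in
private theorem wk8_p6 : chws 64 1793 = true := by
  decide +kernel

set_option maxRecDepth 100000 in
private theorem wk8_p7 : chws 64 1921 = true := by
  decide +kernel

private theorem wk8_q6 : chws 128 1793 = true :=
  chws_glue 64 64 128 1793 1921 rfl rfl wk8_p6 wk8_p7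

private theorem wk8_q5 : chws 192 1665 = true :=
  chws_glue 128 64 192 1665 1793 rfl rfl wk8_p5 wk8_q6

private theorem wk8_q4 : chws 256 1537 = true :=
  chws_glue 192 64 256 1537 1665 rfl rfl wk8_p4 wk8_q5

private theorem wk8_q3 : chws 320 1409 = true :=
  chws_glue 256 64 320 1409 1537 rfl rfl wk8_p3 wk8_q4

private theorem wk8_q2 : chws 384 1281 = true :=
  chws_glue 320 64 384 1281 1409 rfl rfl wk8_p2 wk8_q3

private theorem wk8_q1 : chws 448 1153 = true :=
  chws_glue 384 64 448 1153 1281 rfl rfl wk8_p1 wk8_q2

theorem wk8 : chws 512 1025 = true :=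
  chws_glue 448 64 512 1025 1153 rfl rfl wk8_p0 wk8_q1

end Pool.Agent.Lib.MP_a247fa_nt.X
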