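import Pool.Agent.Lib.MP_a247fa_nt.X.NDefs

/-! WKg. Gluing of two runs of window checks (the checks `wk1, .., wk8` are cut into pieces so that the kernel needs less
memory for each). -/

set_option autoImplicit false

namespace Pool.Agent.Lib.MP_a247fa_nt.X

theorem chws_glue (g : ℕ) : ∀ (f n m k : ℕ), f + g = n → m + 2 * f = k → chws f m = true → chws g k = true →
    chws n m = true := by
  intro f
  induction f with
  | zero =>
    intro n m k hn hk _ h2
    have e1 : n = g := by omega
    have e2 : k = m := by omega
    subst e1; subst e2
    exact h2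
  | succ f ih =>
    intro n m k hn hk h1 h2
    obtain ⟨n', rfl⟩ : ∃ n', n = n' + 1 := ⟨f + g, by omega⟩
    have e : ∀ a b : ℕ, chws (a + 1) b = cond (chw b) (chws a (b + 2)) false := fun _ _ => rfl
    rw [e] at h1 ⊢
    cases hc : chw m with
    | false => rw [hc] at h1; exact absurd h1 (by simp)
    | true =>
      rw [hc] at h1
      exact ih n' (m + 2) k (by omega) (by omega) h1 h2

end Pool.Agent.Lib.MP_a247fa_nt.X
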