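import Pool.Agent.Lib.MP_a247fa_nt.X.MeanI
import Pool.Agent.Lib.MP_a247fa_nt.X.WrGe
import Pool.Agent.Lib.MP_a247fa_nt.X.CfB
import Pool.Agent.Lib.MP_a247fa_nt.V.CrLayer

/-! WINL (40 min, old scale).
The window inequality for odd `m ≥ 2049`. `A = AA/2^32`.

For `x ∈ (m-1, m+1)`, `t = |x - m| < 1`: `qf x ≤ A - 3/((m+3) xi t)`: if `x` is free, `1024 ≤ lo ⌊x⌋ ≤ cf x` (`cf_free_ge`), `ph (cf x) = A - 3/cf x` (`ph_big`) and `cf x ≤ cf x + 1 ≤ (m+3) xi t` (`cf_add_one_le`); if `x` is not free, `qf x = 0` and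
`A - 3/((m+3)/2) ≥ 0` (`A ≥ 0.077`, `xi ≥ 1/2`). `ph x = A - 3/x ≥ A - 3/(m-1)`. `Sx m x ≤ Wr m + Wr (m-1)/2 + Wr (m+1)/2 ≤ (3558/10000)/(m-1)`: `wr_odd`, `wr_even` (`m - 1 ≥ 2048`).
So the integrand is `≤ 3/(m-1) + (3558/10000)/(m-1) - (3/(m+3)) / xi t = H t - K` with `H t = 3.3558/(m-1) + K - (3/(m+3))/xi t`, `K` large (`K = 10`), `H ≥ 0`, antitone on `[0,1]` (`xi_anti`). `cr_layer` (`L = 1`, `c = m`): `itg (H |x-m|) ≤ (∫_0^1 H) mu`, so
`itg (integrand) ≤ (3.3558/(m-1) - (3/(m+3)) ∫ 1/xi) mu ≤ (3.3558/(m-1) - 3.42/(m+3)) mu ≤ 0` for `m ≥ 211` (`mean_inv_xi`).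
`win`: both ranges together. -/

set_option autoImplicit false

namespace Pool.Agent.Lib.MP_a247fa_nt.X

open Set MeasureTheory
open Pool.Agent.Lib.MP_a247fa_nt.W Pool.Agent.Lib.MP_a247fa_nt.V

private theorem winl_sx (m : ℕ) : BM (Sx m) := by
  have h : ∀ A B C : ℝ, BM (fun x : ℝ => A + (if x < (m : ℝ) then B else C)) := by
    intro A B C
    refine ⟨measurable_const.add (Measurable.ite measurableSet_Iio measurable_const measurable_const),
      |A| + (|B| + |C|), fun x => ?_⟩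
    refine (abs_add_le _ _).trans ?_
    gcongr
    split_ifs
    · linarith [abs_nonneg C]
    · linarith [abs_nonneg B]
  exact h _ _ _

private theorem winl_sx_le {m : ℕ} (ho : m % 2 = 1) (hm : 2049 ≤ m) (x : ℝ) :
    Sx m x ≤ 3558 / 10000 / ((m : ℝ) - 1) := by
  have hmR : (2049 : ℝ) ≤ m := by exact_mod_cast hm
  have e : Sx m x = Wr m + (Wr (m - 1) / 2 + Wr (m + 1) / 2) := by
    unfold Sx
    rw [if_neg (by omega : ¬ m - 1 < 32), if_neg (by omega : ¬ m + 1 < 32), if_neg (by omega : ¬ m - 1 < 32),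
      if_neg (by omega : ¬ m + 1 < 32), ite_self]
  rw [e, le_div_iff₀ (by linarith)]
  have h1 := wr_odd (c := m) (by omega) ho
  have h2 := wr_even (c := m - 1) (by omega) (by omega)
  have h3 := wr_even (c := m + 1) (by omega) (by omega)
  have e1 : ((m - 1 : ℕ) : ℝ) = m - 1 := by
    rw [Nat.cast_sub (by omega)]; norm_num
  rw [e1] at h2
  push_cast at h3
  have n1 := wr_nonneg m
  have n3 := wr_nonneg (m + 1)
  nlinarith

theorem win_large {ν : Measure ℝ} {a b : ℝ} {m : ℕ} (hν : CR ν a b) (ho : m % 2 = 1) (hm : 2049 ≤ m)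
    (ha : a ≤ (m : ℝ) - 1) (hb : (m : ℝ) + 1 ≤ b) :
    itg ν (fun x => qf x - ph x + Sx m x) ((m : ℝ) - 1) (m + 1) ≤ 0 := by
  have fin := hν.fin
  have hmR : (2049 : ℝ) ≤ m := by exact_mod_cast hm
  obtain ⟨H, hHd⟩ : ∃ H : ℝ → ℝ, H = fun t => 33558 / 10000 / ((m : ℝ) - 1) + 10 - 3 / ((m : ℝ) + 3) * (1 / xi t) :=
    ⟨_, rfl⟩
  have hxi : ∀ t : ℝ, 0 < xi t := fun t => by linarith [xi_ge t]
  have hinv : ∀ t : ℝ, 1 / xi t ≤ 2 := fun t => by
    rw [div_le_iff₀ (hxi t)]
    linarith [xi_ge t]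
  have hinv0 : ∀ t : ℝ, 0 ≤ 1 / xi t := fun t => by
    have := hxi t
    positivity
  have h3m : 0 ≤ 3 / ((m : ℝ) + 3) := by positivity
  have h3m1 : 3 / ((m : ℝ) + 3) ≤ 1 := by
    rw [div_le_one (by linarith)]
    linarith
  have hq0 : 0 ≤ 33558 / 10000 / ((m : ℝ) - 1) := div_nonneg (by norm_num) (by linarith)
  have hprod : ∀ t : ℝ, 3 / ((m : ℝ) + 3) * (1 / xi t) ≤ 2 := fun t => by
    calc 3 / ((m : ℝ) + 3) * (1 / xi t) ≤ 1 * 2 := mul_le_mul h3m1 (hinv t) (hinv0 t) (by norm_num)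
      _ = 2 := by norm_num
  have hprod0 : ∀ t : ℝ, 0 ≤ 3 / ((m : ℝ) + 3) * (1 / xi t) := fun t => mul_nonneg h3m (hinv0 t)
  have hbm : BM H := by
    rw [hHd]
    refine ⟨?_, 33558 / 10000 / ((m : ℝ) - 1) + 12, fun t => ?_⟩
    · have hx := continuous_xi.measurable
      fun_prop
    · rw [abs_le]
      constructor <;> linarith [hprod t, hprod0 t]
  have hanti : AntitoneOn H (Icc 0 1) := by
    rw [hHd]
    intro s hs t ht hst
    have h1 := xi_anti hs.1 hst ht.2
    have h2 : 1 / xi s ≤ 1 / xi t := one_div_le_one_div_of_le (hxi t) h1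
    have h3 := mul_le_mul_of_nonneg_left h2 h3m
    show _ + _ - _ ≤ _ + _ - _
    linarith
  have hpos : ∀ t ∈ Icc (0 : ℝ) 1, 0 ≤ H t := by
    rw [hHd]
    intro t _
    show 0 ≤ _ + _ - _
    linarith [hprod t]
  have hlayer := cr_layer (c := (m : ℝ)) (L := 1) hν ha hb one_pos hanti hpos hbm
  -- the integral of H
  have hint : ∫ t in (0 : ℝ)..1, H t ≤ 33558 / 10000 / ((m : ℝ) - 1) + 10 - 3 / ((m : ℝ) + 3) * (114 / 100) := by
    have hc1 : Continuous fun t : ℝ => 1 / xi t := continuous_const.div continuous_xi (fun t => (hxi t).ne')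
    have e : ∫ t in (0 : ℝ)..1, H t =
        33558 / 10000 / ((m : ℝ) - 1) + 10 - 3 / ((m : ℝ) + 3) * ∫ t in (0 : ℝ)..1, 1 / xi t := by
      rw [hHd, intervalIntegral.integral_sub (by exact intervalIntegrable_const)
        ((hc1.intervalIntegrable _ _).const_mul _), intervalIntegral.integral_const_mul]
      simp
    rw [e]
    have := mul_le_mul_of_nonneg_left mean_inv_xi h3m
    linarith
  have hM0 : 0 ≤ mu ν ((m : ℝ) - 1) (m + 1) := mu_nonneg _ _ _
  have hbmi : BM (fun x => qf x - ph x + Sx m x) := bm_add (bm_sub bm_qf bm_ph) (winl_sx m)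
  have hbm2 : BM (fun x => H |x - m|) := bm_comp hbm (g := fun x => |x - m|) (by fun_prop)
  have hpt : ∀ x ∈ Ioo ((m : ℝ) - 1) (m + 1), qf x - ph x + Sx m x ≤ H |x - m| - 10 := by
    intro x hx
    have hx1 : 1024 ≤ x := by linarith [hx.1]
    have habs : |x - m| < 1 := by
      rw [abs_lt]
      constructor <;> linarith [hx.1, hx.2]
    have hs := winl_sx_le ho hm x
    have hphx := ph_big hx1
    have h3x : 3 / x ≤ 3 / ((m : ℝ) - 1) := div_le_div_of_nonneg_left (by norm_num) (by linarith) hx.1.le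
    have hq : qf x ≤ (AA : ℝ) / 4294967296 - 3 / ((m : ℝ) + 3) * (1 / xi |x - m|) := by
      by_cases hf : Fre x
      · have hx2 : 2 ≤ ⌊x⌋₊ := by
          rw [Nat.le_floor_iff (by linarith)]
          push_cast
          linarith
        have hq : qf x = ph (cf x) := by
          unfold qf
          rw [if_pos ⟨hf, hx2⟩]
        have hc1024 : 1024 ≤ cf x := by
          rcases lt_trichotomy x (m : ℝ) with h | h | h
          · have e1 : ((m - 1 : ℕ) : ℝ) = m - 1 := by
              rw [Nat.cast_sub (by omega)]; norm_num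
            have h1 := (cf_free_ge (i := m - 1) (x := x) (by omega) (by rw [e1]; constructor <;> linarith [hx.1]) hf).1
            have h2 : (1024 : ℝ) ≤ (lo (m - 1) : ℝ) := by
              exact_mod_cast (by unfold lo; omega : 1024 ≤ lo (m - 1))
            linarith
          · have h1 := cf_xi ho x
            have e : x - m = 0 := by linarith
            have h2 : xi 0 = 3 / 2 := by
              unfold xi
              simp
              norm_num
            rw [e, h2] at h1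
            linarith
          · have h1 := (cf_free_ge (i := m) (x := x) (by omega) ⟨h, hx.2⟩ hf).1
            have h2 : (1024 : ℝ) ≤ (lo m : ℝ) := by
              exact_mod_cast (by unfold lo; omega : 1024 ≤ lo m)
            linarith
        have h4 := cf_add_one_le ho habs.le
        have h5 : 3 / (((m : ℝ) + 3) * xi |x - m|) ≤ 3 / cf x :=
          div_le_div_of_nonneg_left (by norm_num) (by linarith) (by linarith)
        have e5 : 3 / (((m : ℝ) + 3) * xi |x - m|) = 3 / ((m : ℝ) + 3) * (1 / xi |x - m|) := by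
          rw [mul_one_div, div_div]
        rw [hq, ph_big hc1024]
        linarith
      · have hq : qf x = 0 := by
          unfold qf
          rw [if_neg (fun h => hf h.1)]
        rw [hq]
        have h1 : (7 : ℝ) / 100 ≤ (AA : ℝ) / 4294967296 := by
          unfold AA
          norm_num
        have h2 : 3 / ((m : ℝ) + 3) ≤ 3 / 2048 := div_le_div_of_nonneg_left (by norm_num) (by norm_num) (by linarith)
        have h6 : 3 / ((m : ℝ) + 3) * (1 / xi |x - m|) ≤ 3 / 2048 * 2 :=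
          mul_le_mul h2 (hinv _) (hinv0 _) (by norm_num)
        linarith
    rw [hHd]
    show qf x - ph x + Sx m x ≤ 33558 / 10000 / ((m : ℝ) - 1) + 10 - 3 / ((m : ℝ) + 3) * (1 / xi |x - m|) - 10
    have e6 : 33558 / 10000 / ((m : ℝ) - 1) = 3 / ((m : ℝ) - 1) + 3558 / 10000 / ((m : ℝ) - 1) := by
      rw [← add_div]
      norm_num
    rw [hphx, e6]
    linarith
  have hstep := itg_mono (ν := ν) hbmi (bm_sub hbm2 (bm_const 10)) hpt
  rw [itg_sub hbm2 (bm_const 10), itg_const] at hstep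
  refine hstep.trans ?_
  have hfin : 33558 / 10000 / ((m : ℝ) - 1) ≤ 3 / ((m : ℝ) + 3) * (114 / 100) := by
    rw [div_mul_eq_mul_div, div_le_div_iff₀ (by linarith) (by linarith)]
    nlinarith
  have h7 : 1 / 1 * (∫ t in (0 : ℝ)..1, H t) * mu ν ((m : ℝ) - 1) (m + 1) ≤ 10 * mu ν ((m : ℝ) - 1) (m + 1) := by
    apply mul_le_mul_of_nonneg_right _ hM0
    linarith
  linarith

end Pool.Agent.Lib.MP_a247fa_nt.X
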