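import Pool.Agent.Lib.MP_a247fa_nt.X.WinS
import Pool.Agent.Lib.MP_a247fa_nt.X.WinL
import Pool.Agent.Lib.MP_a247fa_nt.X.IntX

/-! WINM (35 min, old scale).
`win`: `m < 2048`: `win_small`; else `win_large`.
`winm`: odd `m ≥ 3`. `itg (qf - ph + Sx m) ≤ 0` and `itg (Sx m) (m-1) (m+1) = Wr m mu (m-1)(m+1) + (left share + ..)`: on `(m-1, m)` `Sx m = Wr m + A1 + A2`, on `(m, m+1)` `Sx m = Wr m + B1 + B2` (`itg_split` at `m`, `itg_const`). With `k = m - 1`: `SR ν k = Wr k mu k (k+1)` if `k < 32` (`A1 = Wr k`, `B1 = 0`), else `Wr k/2 mu k (k+2)` (`A1 = B1 = Wr k/2`).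
With `k' = m+1`: `SL ν k' = Wr k' mu (k'-1) k'` if `k' < 32` (`A2 = 0`, `B2 = Wr k'`), else `Wr k'/2 mu (k'-2) k'`. So `itg (Sx m) = Wr m mu (m-1) (m+1) + SR ν (m-1) + SL ν (m+1)`. And `RL ν n m ≤ Wr m mu (m-1)(m+1)` (`int_one`). -/

set_option autoImplicit false

namespace Pool.Agent.Lib.MP_a247fa_nt.X

open Set MeasureTheory
open Pool.Agent.Lib.MP_a247fa_nt.W Pool.Agent.Lib.MP_a247fa_nt.V

theorem win {ν : Measure ℝ} {a b : ℝ} {m : ℕ} (hν : CR ν a b) (ho : m % 2 = 1) (h3 : 3 ≤ m)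
    (ha : a ≤ (m : ℝ) - 1) (hb : (m : ℝ) + 1 ≤ b) :
    itg ν (fun x => qf x - ph x + Sx m x) ((m : ℝ) - 1) (m + 1) ≤ 0 := by
  rcases Nat.lt_or_ge m 2048 with h | h
  · exact win_small hν ho h3 h ha hb
  · exact win_large hν ho (by omega) ha hb

theorem winm {ν : Measure ℝ} {a b : ℝ} {n m : ℕ} (hν : CR ν a b) (ho : m % 2 = 1) (h3 : 3 ≤ m)
    (ha : a ≤ (m : ℝ) - 1) (hb : (m : ℝ) + 1 ≤ b) :
    itg ν (fun x => qf x - ph x) ((m : ℝ) - 1) (m + 1) + RL ν n m + SR ν (m - 1) + SL ν (m + 1) ≤ 0 := by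
  haveI := hν.fin
  haveI := hν.noat
  have hw := win hν ho h3 ha hb
  have hR : RL ν n m ≤ Wr m * mu ν ((m : ℝ) - 1) (m + 1) := int_one hν (by omega) ha hb
  have hbm : BM (fun x => qf x - ph x) := bm_sub bm_qf bm_ph
  have hadd := itg_add (ν := ν) hbm (bm_sx m) ((m : ℝ) - 1) (m + 1)
  rw [hadd] at hw
  have hsplit := itg_split (ν := ν) (bm_sx m) (show (m : ℝ) - 1 ≤ m by linarith)
    (show (m : ℝ) ≤ (m : ℝ) + 1 by linarith)
  have hleft : itg ν (Sx m) ((m : ℝ) - 1) m = (Wr m + ((if m - 1 < 32 then Wr (m - 1) else Wr (m - 1) / 2)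
      + (if m + 1 < 32 then 0 else Wr (m + 1) / 2))) * mu ν ((m : ℝ) - 1) m := by
    rw [← itg_const]
    refine setIntegral_congr_fun measurableSet_Ioo ?_
    intro x hx
    show Sx m x = _
    unfold Sx
    rw [if_pos hx.2]
  have hright : itg ν (Sx m) (m : ℝ) (m + 1) = (Wr m + ((if m - 1 < 32 then 0 else Wr (m - 1) / 2)
      + (if m + 1 < 32 then Wr (m + 1) else Wr (m + 1) / 2))) * mu ν (m : ℝ) (m + 1) := by
    rw [← itg_const]
    refine setIntegral_congr_fun measurableSet_Ioo ?_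
    intro x hx
    show Sx m x = _
    unfold Sx
    rw [if_neg (not_lt.mpr hx.1.le)]
  have hmu := mu_add (ν := ν) (show (m : ℝ) - 1 ≤ m by linarith) (show (m : ℝ) ≤ (m : ℝ) + 1 by linarith)
  have c1 : ((m - 1 : ℕ) : ℝ) = (m : ℝ) - 1 := by
    rw [Nat.cast_sub (by omega)]
    norm_num
  have c2 : ((m + 1 : ℕ) : ℝ) = (m : ℝ) + 1 := by push_cast; ring
  have hSR : SR ν (m - 1) = if m - 1 < 32 then Wr (m - 1) * mu ν ((m : ℝ) - 1) m
      else Wr (m - 1) / 2 * mu ν ((m : ℝ) - 1) (m + 1) := by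
    unfold SR
    rw [c1, show (m : ℝ) - 1 + 1 = m by ring, show (m : ℝ) - 1 + 2 = m + 1 by ring]
  have hSL : SL ν (m + 1) = if m + 1 < 32 then Wr (m + 1) * mu ν (m : ℝ) (m + 1)
      else Wr (m + 1) / 2 * mu ν ((m : ℝ) - 1) (m + 1) := by
    unfold SL
    rw [c2, show (m : ℝ) + 1 - 1 = m by ring, show (m : ℝ) + 1 - 2 = m - 1 by ring]
  rw [hsplit, hleft, hright] at hw
  rw [hSR, hSL]
  rw [hmu] at hR ⊢
  split_ifs at hw ⊢ <;> nlinarith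

end Pool.Agent.Lib.MP_a247fa_nt.X
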