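import Pool.Agent.Lib.MP_a247fa_nt.X.CelV
import Pool.Agent.Lib.MP_a247fa_nt.X.CellM
import Pool.Agent.Lib.MP_a247fa_nt.X.WrGe
import Pool.Agent.Lib.MP_a247fa_nt.X.WK1
import Pool.Agent.Lib.MP_a247fa_nt.X.WK2
import Pool.Agent.Lib.MP_a247fa_nt.X.WK3
import Pool.Agent.Lib.MP_a247fa_nt.X.WK4
import Pool.Agent.Lib.MP_a247fa_nt.X.WK5
import Pool.Agent.Lib.MP_a247fa_nt.X.WK6
import Pool.Agent.Lib.MP_a247fa_nt.X.WK7
import Pool.Agent.Lib.MP_a247fa_nt.X.WK8

/-! WINS (45 min, old scale).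
The window inequality for odd `3 ≤ m < 2048`.

`chws_spec`: `chws f m = true` implies `chw (m + 2 i) = true` for `i < f` (induction). `chw_all`: the ranges of `wk1, .., wk8` (`3 + 2i, i < 31`; `65 + 2i, i < 48`; `161 + 2i, i < 48`; `257, 449, 641, 833` with `96`; `1025` with `512`) cover all odd `m`.
`win_small`: `x0 = m - 1`, cell length `s = sp m / 512`, `N = 1024 / sp m = nc m + 1` cells, `q k = (ca .. - cb ..) / 2^33` at `X = 512 (m-1) + sp m * k` (`cell_val`, `F = qf - ph + Sm m`). `cells_le`: the conditions `ht`, `hf` are `fwd_sound` with `f = nc m = N - 1`;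
`hbk`: `bwd_sound` (start `X = 512 (m-1) + sp m * nc m`, the last cell), substitute `k = N - 1 - k'`, `j = N - j'` (`Finset.sum_bij` or `Finset.sum_range_reflect`). `x0 + s N = m + 1`.
`sx_le_sm`: `Sx m x ≤ Sm m x`: `Wr ≤ Wn/2^32` (`wr_le_wn`); the tests `< 32` are the same. So `win_small` also holds for `Sx m`. -/

set_option autoImplicit false

namespace Pool.Agent.Lib.MP_a247fa_nt.X

open Set MeasureTheory
open Pool.Agent.Lib.MP_a247fa_nt.W Pool.Agent.Lib.MP_a247fa_nt.V

private theorem chws_succ (f m : ℕ) : chws (f + 1) m = cond (chw m) (chws f (m + 2)) false := rfl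

private theorem chws_spec : ∀ f m : ℕ, chws f m = true → ∀ i < f, chw (m + 2 * i) = true := by
  intro f
  induction f with
  | zero => intro m _ i hi; omega
  | succ f ih =>
    intro m h i hi
    rw [chws_succ] at h
    have h1 : chw m = true := by
      cases h2 : chw m
      · rw [h2] at h
        simp at h
      · rfl
    rw [h1] at h
    rcases Nat.eq_zero_or_pos i with h0 | h0
    · subst h0
      exact h1
    · have h3 := ih (m + 2) h (i - 1) (by omega)
      have e : m + 2 + 2 * (i - 1) = m + 2 * i := by omega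
      rw [e] at h3
      exact h3

theorem chw_all {m : ℕ} (ho : m % 2 = 1) (h3 : 3 ≤ m) (hm : m < 2048) : chw m = true := by
  have key : ∀ f a : ℕ, chws f a = true → a % 2 = 1 → a ≤ m → m < a + 2 * f → chw m = true := by
    intro f a h h1 h2 h4
    have h5 := chws_spec f a h ((m - a) / 2) (by omega)
    have e : a + 2 * ((m - a) / 2) = m := by omega
    rw [e] at h5
    exact h5
  by_cases c1 : m < 65
  · exact key 31 3 wk1 rfl (by omega) (by omega)
  by_cases c2 : m < 161
  · exact key 48 65 wk2 rfl (by omega) (by omega)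
  by_cases c3 : m < 257
  · exact key 48 161 wk3 rfl (by omega) (by omega)
  by_cases c4 : m < 449
  · exact key 96 257 wk4 rfl (by omega) (by omega)
  by_cases c5 : m < 641
  · exact key 96 449 wk5 rfl (by omega) (by omega)
  by_cases c6 : m < 833
  · exact key 96 641 wk6 rfl (by omega) (by omega)
  by_cases c7 : m < 1025
  · exact key 96 833 wk7 rfl (by omega) (by omega)
  · exact key 512 1025 wk8 rfl (by omega) (by omega)

private theorem cond_blt (a b p q : ℕ) : cond (Nat.blt a b) p q = if a < b then p else q := by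
  by_cases h : a < b
  · rw [if_pos h, (Nat.blt_eq.mpr h : Nat.blt a b = true)]
    rfl
  · rw [if_neg h]
    cases h2 : Nat.blt a b
    · rfl
    · exact absurd (Nat.blt_eq.mp h2) h

private theorem S2l_eq (m : ℕ) : (S2l m : ℝ) = 2 * (Wn m : ℝ) +
    ((if m - 1 < 32 then 2 * (Wn (m - 1) : ℝ) else (Wn (m - 1) : ℝ)) +
      (if m + 1 < 32 then 0 else (Wn (m + 1) : ℝ))) := by
  have e : S2l m = 2 * Wn m + (cond (Nat.blt (m - 1) 32) (2 * Wn (m - 1)) (Wn (m - 1)) +
    cond (Nat.blt (m + 1) 32) 0 (Wn (m + 1))) := rfl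
  rw [e, cond_blt, cond_blt]
  push_cast
  rfl

private theorem S2r_eq (m : ℕ) : (S2r m : ℝ) = 2 * (Wn m : ℝ) +
    ((if m - 1 < 32 then 0 else (Wn (m - 1) : ℝ)) +
      (if m + 1 < 32 then 2 * (Wn (m + 1) : ℝ) else (Wn (m + 1) : ℝ))) := by
  have e : S2r m = 2 * Wn m + (cond (Nat.blt (m - 1) 32) 0 (Wn (m - 1)) +
    cond (Nat.blt (m + 1) 32) (2 * Wn (m + 1)) (Wn (m + 1))) := rfl
  rw [e, cond_blt, cond_blt]
  push_cast
  rfl

theorem sx_le_sm {m : ℕ} (h3 : 3 ≤ m) (x : ℝ) : Sx m x ≤ Sm m x := by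
  have w0 := wr_le_wn m
  have w1 := wr_le_wn (m - 1)
  have w2 := wr_le_wn (m + 1)
  unfold Sx Sm
  rw [S2l_eq, S2r_eq]
  by_cases hx : x < m
  · rw [if_pos hx, if_pos hx]
    split_ifs <;> linarith
  · rw [if_neg hx, if_neg hx]
    split_ifs <;> linarith

private theorem bm_two (a b c : ℝ) : BM (fun x => if x < c then a else b) := by
  refine ⟨Measurable.ite measurableSet_Iio measurable_const measurable_const, |a| + |b|, fun x => ?_⟩
  show |if x < c then a else b| ≤ |a| + |b|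
  split_ifs
  · linarith [abs_nonneg b]
  · linarith [abs_nonneg a]

theorem bm_sx (m : ℕ) : BM (Sx m) := bm_add (bm_const (Wr m)) (bm_two _ _ _)

theorem win_small {ν : Measure ℝ} {a b : ℝ} {m : ℕ} (hν : CR ν a b) (ho : m % 2 = 1) (h3 : 3 ≤ m) (hm : m < 2048)
    (ha : a ≤ (m : ℝ) - 1) (hb : (m : ℝ) + 1 ≤ b) :
    itg ν (fun x => qf x - ph x + Sx m x) ((m : ℝ) - 1) (m + 1) ≤ 0 := by
  haveI := hν.fin
  haveI := hν.noat
  have hF : BM (fun x => qf x - ph x + Sm m x) := bm_add (bm_sub bm_qf bm_ph) (bm_sm m)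
  refine le_trans (itg_mono (bm_add (bm_sub bm_qf bm_ph) (bm_sx m)) hF fun t _ => by
    have := sx_le_sm h3 t
    linarith) ?_
  obtain ⟨hd, hp⟩ := sp_dvd m
  have hd2 : sp m ∣ 1024 := hd.trans (by norm_num)
  have hN : sp m * (nc m + 1) = 1024 := by
    have e : nc m + 1 = 1024 / sp m := by
      have e1 : nc m = 1024 / sp m - 1 := rfl
      have e2 : 1 ≤ 1024 / sp m := (Nat.one_le_div_iff hp).2 (Nat.le_of_dvd (by norm_num) hd2)
      omega
    rw [e]
    exact Nat.mul_div_cancel' hd2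
  have hNr : (sp m : ℝ) * ((nc m : ℝ) + 1) = 1024 := by exact_mod_cast hN
  have hpr : (0 : ℝ) < sp m := by exact_mod_cast hp
  have hc := chw_all ho h3 hm
  have hc' : cond (fwd m (sp m) (S2l m) (S2r m) (nc m) (512 * (m - 1)) 0 0 0 0)
    (bwd m (sp m) (S2l m) (S2r m) (nc m) (512 * (m - 1) + sp m * nc m) 0 0 0 0) false = true := hc
  have hfw : fwd m (sp m) (S2l m) (S2r m) (nc m) (512 * (m - 1)) 0 0 0 0 = true := by
    cases h2 : fwd m (sp m) (S2l m) (S2r m) (nc m) (512 * (m - 1)) 0 0 0 0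
    · rw [h2] at hc'
      simp at hc'
    · rfl
  rw [hfw] at hc'
  have hbw : bwd m (sp m) (S2l m) (S2r m) (nc m) (512 * (m - 1) + sp m * nc m) 0 0 0 0 = true := hc'
  obtain ⟨s1, s2⟩ := fwd_sound hfw
  have s3 := bwd_sound hbw
  clear hc hc' hfw hbw
  have hm1 : ((m - 1 : ℕ) : ℝ) = (m : ℝ) - 1 := by
    rw [Nat.cast_sub (by omega)]
    simp
  set Q : ℕ → ℝ := fun k => (ca m (sp m) (S2l m) (S2r m) (512 * (m - 1) + sp m * k) : ℝ) -
    cb (512 * (m - 1) + sp m * k) with hQ
  have e0 : (m : ℝ) + 1 = (m : ℝ) - 1 + (sp m : ℝ) / 512 * ((nc m + 1 : ℕ) : ℝ) := by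
    push_cast
    linarith
  rw [e0]
  refine cells_le (a := a) (b := b) hν ha (by positivity) (by rw [← e0]; exact hb) hF
    (q := fun k => Q k / 8589934592) ?_ ?_ ?_ ?_
  · intro k hk t ht
    have h4 : sp m * (k + 1) ≤ 1024 := by
      rw [← hN]
      exact Nat.mul_le_mul_left _ (by omega)
    have h5 : ((512 * (m - 1) + sp m * k : ℕ) : ℝ) = 512 * ((m : ℝ) - 1) + sp m * k := by
      push_cast
      rw [hm1]
    have h6 := cell_val ho h3 hm h4 rfl (x := t) (by rw [h5]; linarith [ht.1]) (by rw [h5]; linarith [ht.2])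
    show qf t - ph t + Sm m t ≤ Q k / 8589934592
    rw [le_div_iff₀ (by norm_num)]
    rw [hQ]
    linarith
  · rw [← Finset.sum_div]
    exact div_nonpos_of_nonpos_of_nonneg s1 (by norm_num)
  · intro j h1 h2
    have h4 := s2 j h1 (by omega)
    have e : ∑ k ∈ Finset.range j, ((j : ℝ) - k) * (Q k / 8589934592) =
        (∑ k ∈ Finset.range j, ((j : ℝ) - k) * Q k) / 8589934592 := by
      rw [Finset.sum_div]
      exact Finset.sum_congr rfl fun k _ => by ring
    rw [e]
    exact div_nonpos_of_nonpos_of_nonneg h4 (by norm_num)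
  · intro j h1 h2
    have h4 := s3 (nc m + 1 - j) (by omega) (by omega)
    have e : ∑ k ∈ Finset.Ico j (nc m + 1), ((k : ℝ) - j + 1) * (Q k / 8589934592) =
        (∑ k ∈ Finset.range (nc m + 1 - j), (((nc m + 1 - j : ℕ) : ℝ) - k) *
          ((ca m (sp m) (S2l m) (S2r m) (512 * (m - 1) + sp m * nc m - sp m * k) : ℝ) -
            cb (512 * (m - 1) + sp m * nc m - sp m * k))) / 8589934592 := by
      rw [Finset.sum_div, Finset.sum_Ico_eq_sum_range, ← Finset.sum_range_reflect]
      refine Finset.sum_congr rfl fun k hk => ?_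
      rw [Finset.mem_range] at hk
      have e1 : 512 * (m - 1) + sp m * nc m - sp m * k =
          512 * (m - 1) + sp m * (j + (nc m + 1 - j - 1 - k)) := by
        have e2 : nc m = k + (j + (nc m + 1 - j - 1 - k)) := by omega
        generalize j + (nc m + 1 - j - 1 - k) = z at e2 ⊢
        rw [e2, mul_add]
        omega
      have e3 : ((j + (nc m + 1 - j - 1 - k) : ℕ) : ℝ) - j + 1 = ((nc m + 1 - j : ℕ) : ℝ) - k := by
        have e4 : j + (nc m + 1 - j - 1 - k) + 1 + k = (nc m + 1 - j) + j := by omega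
        have e5 : ((j + (nc m + 1 - j - 1 - k) : ℕ) : ℝ) + 1 + k = ((nc m + 1 - j : ℕ) : ℝ) + j := by
          exact_mod_cast e4
        linarith
      rw [e3, e1, hQ]
      ring
    rw [e]
    exact div_nonpos_of_nonpos_of_nonneg h4 (by norm_num)

end Pool.Agent.Lib.MP_a247fa_nt.X
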